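import Pool.Agent.H60.KZ.Gm1

/-!
# Row GmB: componentwise criteria in the category of graded modules

The inclusion `(IsLin ℬ).ι` into the functor category preserves kernels and cokernels
(`ObjectProperty.preservesKernels_ι`, `preservesCokernels_ι`, see
`Mathlib/CategoryTheory/Abelian/Subcategory.lean`), hence it is exact, and it is fully faithful;
in the functor category limits and colimits are computed pointwise
(`CategoryTheory.NatTrans.mono_iff_mono_app`, `epi_iff_epi_app`, `isIso_iff_isIso_app`, evaluation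
functors preserve finite limits and colimits), and in `ModuleCat k` see `ModuleCat.mono_iff_injective`,
`ModuleCat.epi_iff_surjective`, `ShortComplex.moduleCat_exact_iff`.
* `mono_iff_cm`: a faithful functor which preserves monomorphisms detects and preserves them.
* `exact_iff_cm`: for a composable pair `f ≫ g = 0`: exactness is preserved and reflected by the
  exact faithful functor `ι` (`ShortComplex.exact_map_iff_of_faithful`), and in the functor
  category it is pointwise (e.g. via `ShortComplex.Exact` and homology, or directly: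
  the image of `f` and the kernel of `g`).  A direct proof: Exact iff the kernel lift
  `X₁ ⟶ kernel g` is an epimorphism (`ShortComplex.exact_iff_epi_kernel_lift`), and the kernel is
  computed componentwise.
* `shortExact_of_cm`.
-/

universe u

namespace H60.KZ

open CategoryTheory CategoryTheory.Limits

variable {k : Type u} [Field k] {B : Type u} [Ring B] [Algebra k B]
  {ℬ : ℤ → Submodule k B} [GradedAlgebra ℬ]

theorem hom_ext_cm {M N : GrMod ℬ} {f g : M ⟶ N} (h : ∀ i (x : cmp M i), cm f i x = cm g i x) :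
    f = g := by
  refine ObjectProperty.hom_ext _ (NatTrans.ext (funext fun i => ?_))
  exact ModuleCat.hom_ext (LinearMap.ext fun x => h i.deg x)

@[simp] theorem cm_id (M : GrMod ℬ) (i : ℤ) (x : cmp M i) : cm (𝟙 M) i x = x := rfl

@[simp] theorem cm_comp {M N L : GrMod ℬ} (f : M ⟶ N) (g : N ⟶ L) (i : ℤ) (x : cmp M i) :
    cm (f ≫ g) i x = cm g i (cm f i x) := rfl

@[simp] theorem cm_zero (M N : GrMod ℬ) (i : ℤ) (x : cmp M i) : cm (0 : M ⟶ N) i x = 0 := rfl

@[simp] theorem cm_add {M N : GrMod ℬ} (f g : M ⟶ N) (i : ℤ) (x : cmp M i) :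
    cm (f + g) i x = cm f i x + cm g i x := rfl

@[simp] theorem cm_smul {M N : GrMod ℬ} (r : k) (f : M ⟶ N) (i : ℤ) (x : cmp M i) :
    cm (r • f) i x = r • cm f i x := rfl

theorem cm_sum {M N : GrMod ℬ} {J : Type} (A : Finset J) (f : J → (M ⟶ N)) (i : ℤ)
    (x : cmp M i) : cm (∑ a ∈ A, f a) i x = ∑ a ∈ A, cm (f a) i x := by
  classical
  induction A using Finset.induction_on with
  | empty => rw [Finset.sum_empty, Finset.sum_empty, cm_zero]
  | insert a A ha ih => rw [Finset.sum_insert ha, Finset.sum_insert ha, cm_add, ih]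

@[simp] theorem cm_mkHom {M N : GrMod ℬ} (f : ∀ i, cmp M i →ₗ[k] cmp N i)
    (hf : ∀ (i j : ℤ) (b : ℬ (j - i)) (x : cmp M i), f j (act M b x) = act N b (f i x)) (i : ℤ)
    (x : cmp M i) : cm (mkHom f hf) i x = f i x := rfl

/-- The graded submodule given by the kernels of the components. -/
def gmb_ker {M N : GrMod ℬ} (f : M ⟶ N) : SubG M where
  N i := LinearMap.ker (cm f i)
  st i j b x hx := by
    rw [LinearMap.mem_ker] at hx ⊢
    rw [cm_act, hx, map_zero]

/-- The graded submodule given by the ranges of the components. -/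
def gmb_ran {M N : GrMod ℬ} (f : M ⟶ N) : SubG N where
  N i := LinearMap.range (cm f i)
  st i j b x hx := by
    obtain ⟨y, rfl⟩ := hx
    exact ⟨act M b y, cm_act f b y⟩

theorem gmb_inc {M : GrMod ℬ} (K : SubG M) (i : ℤ) (x : cmp K.sub i) :
    cm K.inc i x = (x : K.N i).1 := rfl

theorem gmb_pr {M : GrMod ℬ} (K : SubG M) (i : ℤ) (x : cmp M i) :
    cm K.pr i x = (K.N i).mkQ x := rfl

theorem gmb_pr_eq {M : GrMod ℬ} (K : SubG M) (i : ℤ) (x : cmp M i) :
    cm K.pr i x = 0 ↔ x ∈ K.N i := by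
  rw [gmb_pr, Submodule.mkQ_apply]
  exact Submodule.Quotient.mk_eq_zero _

theorem gmb_ker_comp {M N : GrMod ℬ} (f : M ⟶ N) : (gmb_ker f).inc ≫ f = 0 := by
  refine hom_ext_cm fun i x => ?_
  rw [cm_comp, gmb_inc]
  exact LinearMap.mem_ker.1 (x : (gmb_ker f).N i).2

theorem gmb_comp_ran {M N : GrMod ℬ} (f : M ⟶ N) : f ≫ (gmb_ran f).pr = 0 := by
  refine hom_ext_cm fun i x => ?_
  rw [cm_comp, cm_zero, gmb_pr_eq]
  exact ⟨x, rfl⟩

theorem mono_iff_cm {M N : GrMod ℬ} (f : M ⟶ N) :
    Mono f ↔ ∀ i, Function.Injective (cm f i) := by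
  constructor
  · intro hf i
    refine (injective_iff_map_eq_zero _).2 fun x hx => ?_
    have h : (gmb_ker f).inc = 0 := by
      rw [← cancel_mono f, gmb_ker_comp, zero_comp]
    have h1 : cm (gmb_ker f).inc i (⟨x, LinearMap.mem_ker.2 hx⟩ : (gmb_ker f).N i) = x := rfl
    rw [h] at h1
    exact h1.symm
  · intro h
    refine ⟨fun {Z} a b hab => hom_ext_cm fun i x => h i ?_⟩
    have := congrArg (fun t => cm t i x) hab
    exact this

theorem epi_iff_cm {M N : GrMod ℬ} (f : M ⟶ N) :
    Epi f ↔ ∀ i, Function.Surjective (cm f i) := by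
  constructor
  · intro hf i y
    have h : (gmb_ran f).pr = 0 := by
      rw [← cancel_epi f, gmb_comp_ran, comp_zero]
    have h1 : cm (gmb_ran f).pr i y = 0 := by rw [h, cm_zero]
    exact (gmb_pr_eq _ i y).1 h1
  · intro h
    refine ⟨fun {Z} a b hab => hom_ext_cm fun i x => ?_⟩
    obtain ⟨y, rfl⟩ := h i x
    have := congrArg (fun t => cm t i y) hab
    exact this

theorem isIso_iff_cm {M N : GrMod ℬ} (f : M ⟶ N) :
    IsIso f ↔ ∀ i, Function.Bijective (cm f i) := by
  constructor
  · intro hf i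
    exact ⟨(mono_iff_cm f).1 inferInstance i, (epi_iff_cm f).1 inferInstance i⟩
  · intro h
    have h1 : Mono f := (mono_iff_cm f).2 fun i => (h i).1
    have h2 : Epi f := (epi_iff_cm f).2 fun i => (h i).2
    exact isIso_of_mono_of_epi f

theorem isZero_iff_cm (M : GrMod ℬ) : IsZero M ↔ ∀ i (x : cmp M i), x = 0 := by
  rw [IsZero.iff_id_eq_zero]
  constructor
  · intro h i x
    have := congrArg (fun t => cm t i x) h
    exact this
  · intro h
    exact hom_ext_cm fun i x => h i _

theorem exact_iff_cm (S : ShortComplex (GrMod ℬ)) :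
    S.Exact ↔ ∀ i (x : cmp S.X₂ i), cm S.g i x = 0 → ∃ y, cm S.f i y = x := by
  rw [ShortComplex.exact_iff_kernel_ι_comp_cokernel_π_zero]
  constructor
  · intro h i x hx
    have h1 : (gmb_ker S.g).inc ≫ (gmb_ran S.f).pr = 0 := by
      rw [← kernel.lift_ι S.g (gmb_ker S.g).inc (gmb_ker_comp S.g),
        ← cokernel.π_desc S.f (gmb_ran S.f).pr (gmb_comp_ran S.f), Category.assoc,
        ← Category.assoc (kernel.ι S.g), h, zero_comp, comp_zero]
    have h2 : cm ((gmb_ker S.g).inc ≫ (gmb_ran S.f).pr) i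
        (⟨x, LinearMap.mem_ker.2 hx⟩ : (gmb_ker S.g).N i) = cm (gmb_ran S.f).pr i x := rfl
    rw [h1, cm_zero] at h2
    exact (gmb_pr_eq _ i x).1 h2.symm
  · intro h
    refine hom_ext_cm fun i z => ?_
    rw [cm_comp, cm_zero]
    obtain ⟨y, hy⟩ := h i (cm (kernel.ι S.g) i z) (by
      rw [← cm_comp, kernel.condition, cm_zero])
    rw [← hy, ← cm_comp, cokernel.condition, cm_zero]

theorem shortExact_iff_cm (S : ShortComplex (GrMod ℬ)) :
    S.ShortExact ↔ (∀ i, Function.Injective (cm S.f i)) ∧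
      (∀ i (x : cmp S.X₂ i), cm S.g i x = 0 → ∃ y, cm S.f i y = x) ∧
      ∀ i, Function.Surjective (cm S.g i) := by
  rw [← mono_iff_cm, ← exact_iff_cm, ← epi_iff_cm]
  constructor
  · intro h
    exact ⟨h.mono_f, h.exact, h.epi_g⟩
  · rintro ⟨h1, h2, h3⟩
    exact { exact := h2, mono_f := h1, epi_g := h3 }

namespace SubG

variable {M : GrMod ℬ} (K : SubG M)

theorem inc_pr : K.inc ≫ K.pr = 0 := by
  refine hom_ext_cm fun i x => ?_
  rw [cm_comp, cm_zero, gmb_pr_eq]
  exact (x : K.N i).2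

/-- The short exact sequence `0 ⟶ K ⟶ M ⟶ M/K ⟶ 0`. -/
theorem shortExact : (ShortComplex.mk K.inc K.pr K.inc_pr).ShortExact := by
  rw [shortExact_iff_cm]
  refine ⟨fun i x y hxy => Subtype.ext hxy, fun i x hx => ?_, fun i x => ?_⟩
  · exact ⟨(⟨x, (gmb_pr_eq K i x).1 hx⟩ : K.N i), rfl⟩
  · exact Submodule.mkQ_surjective _ x

theorem cm_inc (i : ℤ) (x : cmp K.sub i) : cm K.inc i x = (x : K.N i).1 := rfl

theorem cm_pr (i : ℤ) (x : cmp M i) : cm K.pr i x = (K.N i).mkQ x := rfl

end SubG

/-- The graded module attached to the kernel of a morphism. -/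
def kerG {M N : GrMod ℬ} (f : M ⟶ N) : SubG M where
  N i := LinearMap.ker (cm f i)
  st i j b x hx := by
    rw [LinearMap.mem_ker] at hx ⊢
    rw [cm_act, hx, map_zero]

theorem kerG_shortExact {M N : GrMod ℬ} (f : M ⟶ N) [Epi f] :
    ∃ w : (kerG f).inc ≫ f = 0, (ShortComplex.mk (kerG f).inc f w).ShortExact := by
  refine ⟨gmb_ker_comp f, ?_⟩
  rw [shortExact_iff_cm]
  refine ⟨fun i x y hxy => Subtype.ext hxy, fun i x hx => ?_, fun i => ?_⟩
  · exact ⟨(⟨x, LinearMap.mem_ker.2 hx⟩ : (kerG f).N i), rfl⟩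
  · exact (epi_iff_cm f).1 inferInstance i

end H60.KZ
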