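import Pool.Agent.H60.KZ.GmD

/-!
# Row GmF: the modules `Sj ℬ j` and filtration by degrees

* `Sj_supp`: in degree `i > j` the submodule `geG (Pj ℬ j) (j+1)` is everything, in degree `i < j`
  `ℬ (i-j) = ⊥`.
* `Sj_sem`: `act b x` with `b` of degree `≠ 0` lands in a zero component or starts in one.
* `topJ`: `J_j = (geG (Pj ℬ j) (j+1)).sub` lives in degrees `j+1, ..., j+s` if `ℬ i = 0` for
  `i > s`.
* `sem_of_supp`: trivial (source or target component is zero).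
* `supp_ge`, `supp_quo`: components of `(geG M q).sub`, `.quo`.
* `yonS`: if `M` is `Sem`, an element `x ∈ M j` gives a morphism `Sj ℬ j ⟶ M` with `1 ↦ x`
  (the morphism `yon x` kills `geG (Pj ℬ j) (j+1)`; define it by `Submodule.liftQ` in each degree,
  or as the cokernel map of the short exact sequence `SubG.shortExact`).
* `hom_Sj_zero`: a morphism `M ⟶ Sj ℬ j` with `M` zero in degree `j` is zero.
-/

universe u

namespace H60.KZ

open CategoryTheory CategoryTheory.Limits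

variable {k : Type u} [Field k] {B : Type u} [Ring B] [Algebra k B]
  {ℬ : ℤ → Submodule k B} [GradedAlgebra ℬ] [PosGr ℬ]

omit [GradedAlgebra ℬ] [PosGr ℬ] in
theorem GmF_bot {V : Type u} [AddCommGroup V] [Module k V] (N : Submodule k V) (h : N = ⊥)
    (x : N) : x = 0 := by
  subst h
  exact Subtype.ext ((Submodule.mem_bot k).1 x.2)

theorem GmF_quo_low {M : GrMod ℬ} {a : ℤ} (h : ∀ i, i < a → ∀ x : cmp M i, x = 0) (q : ℤ) :
    Supp (geG M (q + 1)).quo a q := by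
  intro i hi x
  obtain ⟨y, hy⟩ := Submodule.mkQ_surjective ((geG M (q + 1)).N i) x
  have hm : y ∈ (geG M (q + 1)).N i := by
    rcases hi with hi | hi
    · rw [h i hi y]
      exact zero_mem _
    · have h3 : (geG M (q + 1)).N i = ⊤ := if_pos (by lia)
      rw [h3]
      exact Submodule.mem_top
  rw [← hy]
  exact (Submodule.Quotient.mk_eq_zero _).2 hm

theorem GmF_Pj_low (j i : ℤ) (hi : i < j) (x : cmp (Pj ℬ j) i) : x = 0 := by
  have h0 : ℬ (i - j) = ⊥ := PosGr.neg _ (by lia)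
  exact GmF_bot (ℬ (i - j)) h0 x

theorem supp_ge {M : GrMod ℬ} {a b : ℤ} (h : Supp M a b) (q : ℤ) : Supp (geG M q).sub q b := by
  intro i hi x
  have hx : (x : (geG M q).N i).1 = 0 := by
    by_cases hq : q ≤ i
    · exact h i (Or.inr (by rcases hi with hi | hi; · lia
                            · exact hi)) _
    · have h3 : (geG M q).N i = ⊥ := if_neg hq
      exact congrArg Subtype.val (GmF_bot ((geG M q).N i) h3 x)
  exact Subtype.ext hx

theorem supp_quo {M : GrMod ℬ} {a b : ℤ} (h : Supp M a b) (q : ℤ) :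
    Supp (geG M (q + 1)).quo a q := by
  exact GmF_quo_low (fun i hi x => h i (Or.inl hi) x) q

theorem sem_of_supp {M : GrMod ℬ} {q : ℤ} (h : Supp M q q) : Sem M := by
  intro i j b x hij
  by_cases hi : i = q
  · have hj : j ≠ q := fun h2 => hij (hi.trans h2.symm)
    rcases lt_or_gt_of_ne hj with h2 | h2
    · exact h j (Or.inl h2) _
    · exact h j (Or.inr h2) _
  · have hx : x = 0 := by
      rcases lt_or_gt_of_ne hi with h2 | h2
      · exact h i (Or.inl h2) _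
      · exact h i (Or.inr h2) _
    rw [hx, map_zero]

theorem Sj_supp (j : ℤ) : Supp (Sj ℬ j) j j := by
  exact GmF_quo_low (fun i hi x => GmF_Pj_low j i hi x) j

theorem Sj_sem (j : ℤ) : Sem (Sj ℬ j) := by
  exact sem_of_supp (Sj_supp j)

theorem Fd_Sj [Module.Finite k B] (j : ℤ) : Fd (Sj ℬ j) := by
  exact ((Fd_ses _ (geG (Pj ℬ j) (j + 1)).shortExact).1 (Fd_Pj j)).2

/-- The image of the generator in `Sj ℬ j`. -/
def onesS (ℬ : ℤ → Submodule k B) [GradedAlgebra ℬ] [PosGr ℬ] (j : ℤ) : cmp (Sj ℬ j) j :=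
  cm (geG (Pj ℬ j) (j + 1)).pr j (onep ℬ j)

theorem exists_yonS {M : GrMod ℬ} (hM : Sem M) {j : ℤ} (x : cmp M j) :
    ∃ f : Sj ℬ j ⟶ M, cm f j (onesS ℬ j) = x := by
  have h0 : (geG (Pj ℬ j) (j + 1)).inc ≫ yon x = 0 := by
    apply hom_ext_cm
    intro i y
    rw [cm_comp, cm_zero, SubG.cm_inc]
    have h1 := cm_yon x i ((y : (geG (Pj ℬ j) (j + 1)).N i).1 : ℬ (i - j))
    refine h1.trans ?_
    by_cases hi : j + 1 ≤ i
    · exact hM j i _ x (by lia)
    · have h3 : (geG (Pj ℬ j) (j + 1)).N i = ⊥ := if_neg hi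
      have h4 : (y : (geG (Pj ℬ j) (j + 1)).N i).1 = 0 :=
        congrArg Subtype.val (GmF_bot ((geG (Pj ℬ j) (j + 1)).N i) h3 y)
      rw [h4]
      have h5 : actL M j i 0 x = 0 := by simp
      exact h5
  have hex := (geG (Pj ℬ j) (j + 1)).shortExact
  have hepi : Epi (geG (Pj ℬ j) (j + 1)).pr := hex.epi_g
  obtain ⟨f, hf⟩ : ∃ f : Sj ℬ j ⟶ M, (geG (Pj ℬ j) (j + 1)).pr ≫ f = yon x :=
    ⟨hex.exact.desc (yon x) h0, hex.exact.g_desc (yon x) h0⟩
  refine ⟨f, ?_⟩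
  have h6 := cm_comp (geG (Pj ℬ j) (j + 1)).pr f j (onep ℬ j)
  rw [hf, yon_one] at h6
  exact h6.symm

theorem hom_Sj_zero {M : GrMod ℬ} {j : ℤ} (h : ∀ x : cmp M j, x = 0) (f : M ⟶ Sj ℬ j) :
    f = 0 := by
  apply hom_ext_cm
  intro i x
  by_cases hi : i = j
  · subst hi
    rw [h x, map_zero, map_zero]
  · rcases lt_or_gt_of_ne hi with h2 | h2
    · rw [Sj_supp j i (Or.inl h2) (cm f i x), Sj_supp j i (Or.inl h2) (cm 0 i x)]
    · rw [Sj_supp j i (Or.inr h2) (cm f i x), Sj_supp j i (Or.inr h2) (cm 0 i x)]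

/-- The radical of `Pj ℬ j`. -/
def Jj (ℬ : ℤ → Submodule k B) [GradedAlgebra ℬ] [PosGr ℬ] (j : ℤ) : GrMod ℬ :=
  (geG (Pj ℬ j) (j + 1)).sub

theorem Jj_supp {s : ℕ} (hs : ∀ i : ℤ, s < i → ℬ i = ⊥) (j : ℤ) :
    Supp (Jj ℬ j) (j + 1) (j + s) := by
  have h1 : Supp (Pj ℬ j) j (j + s) := by
    intro i hi x
    rcases hi with hi | hi
    · exact GmF_Pj_low j i hi x
    · have h0 : ℬ (i - j) = ⊥ := hs _ (by lia)
      exact GmF_bot (ℬ (i - j)) h0 x
  exact supp_ge h1 (j + 1)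

theorem Jj_ses (j : ℤ) : ∃ (i : Jj ℬ j ⟶ Pj ℬ j) (p : Pj ℬ j ⟶ Sj ℬ j) (w : i ≫ p = 0),
    (ShortComplex.mk i p w).ShortExact ∧ cm p j (onep ℬ j) = onesS ℬ j := by
  exact ⟨(geG (Pj ℬ j) (j + 1)).inc, (geG (Pj ℬ j) (j + 1)).pr, (geG (Pj ℬ j) (j + 1)).inc_pr,
    (geG (Pj ℬ j) (j + 1)).shortExact, rfl⟩

theorem Fd_Jj [Module.Finite k B] (j : ℤ) : Fd (Jj ℬ j) := by
  exact ((Fd_ses _ (geG (Pj ℬ j) (j + 1)).shortExact).1 (Fd_Pj j)).1

end H60.KZ
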