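import Pool.Agent.H60.KZ.GmB

/-!
# Row GmD: the free modules `Pj ℬ j`, finite dimensional modules, covers

* `yon x`: the morphism `b ↦ b x`, for `x ∈ M j`; `yon_ext`: a morphism from `Pj ℬ j` is
  determined by the image of `1` (every `b` is `b • 1`: `act (Pj ℬ j) b one = b`).
* `Pj_proj`: given an epi `e : N ⟶ L` and `f : Pj ℬ j ⟶ L`, choose `y ∈ N j` with
  `e y = f 1` (`epi_iff_cm`) and take `yon y`.
* `inAdd_proj`: a retract of a finite sum of projectives: if `𝟙 = Σ α a ≫ β a` and `e : N ⟶ L` is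
  epi, `f : M ⟶ L`, lift `β a ≫ f : F (j a) ⟶ L` to `g a`, and take `Σ α a ≫ g a`.
* `inAdd_inj`: dual.
* `Fd_Pj`: `ℬ (i-j)` is finite dimensional, and zero for `i < j` and for `i` large (only finitely
  many `ℬ i` are nonzero since `B` is finite dimensional: the decomposition is a direct sum;
  e.g. `DirectSum.Decomposition` and `iSupIndep` of the submodules, `WellFoundedGT`/finite length,
  or: finitely many components of the elements of a finite basis).
* `Fd_sub`, `Fd_quo`, `Fd_ses` (from `shortExact_iff_cm`), `Fd_inAdd` (the components of `M` embed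
  into those of `Π F (j a)` by `x ↦ (α a x)_a`).
* `exists_cover`: choose a basis of each `M i`, `a ≤ i ≤ b` (finite in total): elements
  `x_1, ..., x_n` with degrees `j_1, ..., j_n` spanning all `M i`.  Let `Q = ⨁ Pj ℬ (j a)`
  (biproduct `⨁ fun a => Pj ℬ (j a)`, the category is abelian) and `p = biproduct.desc (yon x_a)`,
  an epi as `x_a = p (ι_a 1)`.  `InAdd`: `𝟙 = Σ π_a ≫ ι_a` (`biproduct.total`).
-/

universe u

namespace H60.KZ

open CategoryTheory CategoryTheory.Limits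

section

variable {C : Type*} [Category* C] [Preadditive C] {J : Type} {F : J → C} {M : C}

theorem inAdd_proj (hF : ∀ j, Projective (F j)) (h : InAdd F M) : Projective M := by
  obtain ⟨n, j, α, β, h1⟩ := h
  refine ⟨fun {E X} f e he => ?_⟩
  have _ := fun a => hF (j a)
  refine ⟨∑ a, α a ≫ Projective.factorThru (β a ≫ f) e, ?_⟩
  rw [Preadditive.sum_comp]
  simp only [Category.assoc, Projective.factorThru_comp]
  have h2 : (∑ a, α a ≫ β a) ≫ f = f := by rw [← h1, Category.id_comp]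
  rw [Preadditive.sum_comp] at h2
  simpa only [Category.assoc] using h2

theorem inAdd_inj (hF : ∀ j, Injective (F j)) (h : InAdd F M) : Injective M := by
  obtain ⟨n, j, α, β, h1⟩ := h
  refine ⟨fun {X Y} g f hf => ?_⟩
  have _ := fun a => hF (j a)
  refine ⟨∑ a, Injective.factorThru (g ≫ α a) f ≫ β a, ?_⟩
  rw [Preadditive.comp_sum]
  simp only [Injective.comp_factorThru_assoc, Category.assoc]
  have h2 : g ≫ (∑ a, α a ≫ β a) = g := by rw [← h1, Category.comp_id]
  rw [Preadditive.comp_sum] at h2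
  simpa only [Category.assoc] using h2

end

variable {k : Type u} [Field k] {B : Type u} [Ring B] [Algebra k B]
  {ℬ : ℤ → Submodule k B} [GradedAlgebra ℬ]

variable (ℬ) in
/-- The generator of `Pj ℬ j`. -/
def onep (j : ℤ) : cmp (Pj ℬ j) j :=
  (⟨1, by rw [sub_self]; exact SetLike.GradedOne.one_mem⟩ : ℬ (j - j))

/-- The morphism given by an element of degree `j`. -/
def yon {M : GrMod ℬ} {j : ℤ} (x : cmp M j) : Pj ℬ j ⟶ M :=
  mkHom (fun i => (actL M j i).flip x)
    (fun i l b b' => act_mul M j i l b' b (by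
      have := SetLike.GradedMul.mul_mem b.2 b'.2
      rwa [show l - i + (i - j) = l - j by ring] at this) x)

theorem cm_yon {M : GrMod ℬ} {j : ℤ} (x : cmp M j) (i : ℤ) (b : ℬ (i - j)) :
    cm (yon x) i (b : cmp (Pj ℬ j) i) = act M b x := by
  rw [yon, cm_mkHom]
  rfl

theorem yon_one {M : GrMod ℬ} {j : ℤ} (x : cmp M j) : cm (yon x) j (onep ℬ j) = x := by
  rw [onep, cm_yon]
  exact act_one M j x _

theorem GmD_act_one (i j : ℤ) (b : ℬ (i - j)) :
    act (Pj ℬ j) b (onep ℬ j) = (b : cmp (Pj ℬ j) i) :=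
  Subtype.ext (mul_one _)

theorem yon_ext {M : GrMod ℬ} {j : ℤ} {f g : Pj ℬ j ⟶ M}
    (h : cm f j (onep ℬ j) = cm g j (onep ℬ j)) : f = g := by
  refine hom_ext_cm fun i x => ?_
  have h1 : act (Pj ℬ j) (i := j) (j := i) x (onep ℬ j) = x := GmD_act_one i j x
  rw [← h1, cm_act, cm_act, h]

instance Pj_proj (j : ℤ) : Projective (Pj ℬ j) := by
  refine ⟨fun {E X} f e he => ?_⟩
  obtain ⟨y, hy⟩ := (epi_iff_cm e).1 he j (cm f j (onep ℬ j))
  refine ⟨yon y, yon_ext ?_⟩
  rw [cm_comp, yon_one, hy]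

theorem GmD_bdd (ℬ : ℤ → Submodule k B) [GradedAlgebra ℬ] [Module.Finite k B] :
    ∃ a b : ℤ, ∀ i, (i < a ∨ b < i) → ℬ i = ⊥ := by
  have hi : iSupIndep ℬ := (DirectSum.Decomposition.isInternal ℬ).submodule_iSupIndep
  have hf : {i | ℬ i ≠ ⊥}.Finite := WellFoundedGT.finite_ne_bot_of_iSupIndep hi
  obtain ⟨a, ha⟩ := hf.bddBelow
  obtain ⟨b, hb⟩ := hf.bddAbove
  refine ⟨a, b, fun i h => ?_⟩
  by_contra hne
  rcases h with h | h
  · exact absurd (ha hne) (not_le.2 h)
  · exact absurd (hb hne) (not_le.2 h)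

theorem Fd_Pj [Module.Finite k B] (j : ℤ) : Fd (Pj ℬ j) := by
  constructor
  · intro i
    have h : Module.Finite k (ℬ (i - j)) := inferInstance
    exact h
  · obtain ⟨a, b, hab⟩ := GmD_bdd ℬ
    refine ⟨a + j, b + j, fun i hi x => ?_⟩
    have h0 : ℬ (i - j) = ⊥ := hab _ (by omega)
    have hx : ∀ y : ℬ (i - j), y = 0 := by
      intro y
      apply Subtype.ext
      have hy : y.1 ∈ (⊥ : Submodule k B) := by rw [← h0]; exact y.2
      simpa using hy
    exact hx x

theorem Supp_mono {M : GrMod ℬ} {a b a' b' : ℤ} (h : Supp M a b) (ha : a' ≤ a) (hb : b ≤ b') :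
    Supp M a' b' :=
  fun i hi x => h i (by omega) x

theorem Fd_exact (S : ShortComplex (GrMod ℬ)) (hS : S.Exact) (h1 : Fd S.X₁) (h3 : Fd S.X₃) :
    Fd S.X₂ := by
  have h := (exact_iff_cm S).1 hS
  have hz : ∀ i (y : cmp S.X₁ i), cm S.g i (cm S.f i y) = 0 := by
    intro i y
    rw [← cm_comp, S.zero, cm_zero]
  obtain ⟨hf1, a1, b1, hs1⟩ := h1
  obtain ⟨hf3, a3, b3, hs3⟩ := h3
  refine ⟨fun i => ?_, min a1 a3, max b1 b3, fun i hi x => ?_⟩
  · have := hf1 i
    have := hf3 i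
    have := isNoetherian_of_range_eq_ker (cm S.f i) (cm S.g i) (by
      ext x
      rw [LinearMap.mem_range, LinearMap.mem_ker]
      constructor
      · rintro ⟨y, rfl⟩
        exact hz i y
      · exact h i x)
    infer_instance
  · obtain ⟨y, rfl⟩ := h i x (hs3 i (by omega) _)
    rw [hs1 i (by omega) y, map_zero]

theorem Fd_ses (S : ShortComplex (GrMod ℬ)) (hS : S.ShortExact) :
    Fd S.X₂ ↔ Fd S.X₁ ∧ Fd S.X₃ := by
  obtain ⟨h1, h2, h3⟩ := (shortExact_iff_cm S).1 hS
  constructor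
  · rintro ⟨hf, a, b, hs⟩
    refine ⟨⟨fun i => ?_, a, b, fun i hi x => ?_⟩, ⟨fun i => ?_, a, b, fun i hi x => ?_⟩⟩
    · have := hf i
      exact Module.Finite.of_injective (cm S.f i) (h1 i)
    · apply h1 i
      rw [map_zero]
      exact hs i hi _
    · have := hf i
      exact Module.Finite.of_surjective (cm S.g i) (h3 i)
    · obtain ⟨y, rfl⟩ := h3 i x
      rw [hs i hi y, map_zero]
  · rintro ⟨h4, h5⟩
    exact Fd_exact S hS.exact h4 h5

theorem Fd_iso {M N : GrMod ℬ} (e : M ≅ N) (h : Fd M) : Fd N := by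
  obtain ⟨hf, a, b, hs⟩ := h
  have he : ∀ i (x : cmp N i), cm e.hom i (cm e.inv i x) = x := by
    intro i x
    rw [← cm_comp, e.inv_hom_id, cm_id]
  refine ⟨fun i => ?_, a, b, fun i hi x => ?_⟩
  · have := hf i
    exact Module.Finite.of_surjective (cm e.hom i) (fun x => ⟨_, he i x⟩)
  · rw [← he i x, hs i hi (cm e.inv i x), map_zero]

theorem Fd_inAdd {J : Type} {F : J → GrMod ℬ} (hF : ∀ j, Fd (F j)) {M : GrMod ℬ}
    (h : InAdd F M) : Fd M := by
  obtain ⟨n, j, α, β, h1⟩ := h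
  have hx : ∀ i (x : cmp M i), (∀ a, cm (α a) i x = 0) → x = 0 := by
    intro i x h2
    have h3 : cm (𝟙 M) i x = x := cm_id M i x
    rw [← h3, h1, cm_sum]
    refine Finset.sum_eq_zero fun a _ => ?_
    rw [cm_comp, h2 a, map_zero]
  choose A hA using fun a => (hF (j a)).2
  choose A' hA' using hA
  refine ⟨fun i => ?_, ?_⟩
  · have := fun a => (hF (j a)).1 i
    refine Module.Finite.of_injective (LinearMap.pi fun a => cm (α a) i) ?_
    rw [← LinearMap.ker_eq_bot, LinearMap.ker_eq_bot']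
    intro x h2
    exact hx i x fun a => congrFun h2 a
  · obtain ⟨a0, h0⟩ := (Set.finite_range A).bddBelow
    obtain ⟨b0, h0'⟩ := (Set.finite_range A').bddAbove
    refine ⟨a0, b0, fun i hi x => hx i x fun a => hA' a i ?_ _⟩
    have e1 : a0 ≤ A a := h0 ⟨a, rfl⟩
    have e2 : A' a ≤ b0 := h0' ⟨a, rfl⟩
    omega

theorem exists_cover [Module.Finite k B] (M : GrMod ℬ) (hM : Fd M) :
    ∃ (Q : GrMod ℬ) (p : Q ⟶ M), InAdd (Pj ℬ) Q ∧ Epi p ∧ Fd Q := by
  obtain ⟨hf, a, b, hs⟩ := hM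
  choose n s hsp using fun i => Submodule.fg_iff_exists_fin_generating_family.1
    (Module.finite_def.1 (hf i))
  have _ : HasFiniteBiproducts (GrMod ℬ) := HasFiniteBiproducts.of_hasFiniteProducts
  let J : Type := Σ i : Finset.Icc a b, Fin (n i.1)
  have hIn : InAdd (Pj ℬ) (⨁ fun t : J => Pj ℬ t.1.1) := by
    refine ⟨Fintype.card J, fun c => ((Fintype.equivFin J).symm c).1.1,
      fun c => biproduct.π _ ((Fintype.equivFin J).symm c),
      fun c => biproduct.ι (fun t : J => Pj ℬ t.1.1) ((Fintype.equivFin J).symm c), ?_⟩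
    rw [← biproduct.total (f := fun t : J => Pj ℬ t.1.1)]
    exact (Equiv.sum_comp (Fintype.equivFin J).symm (fun t : J =>
      biproduct.π (fun t : J => Pj ℬ t.1.1) t ≫ biproduct.ι (fun t : J => Pj ℬ t.1.1) t)).symm
  refine ⟨⨁ fun t : J => Pj ℬ t.1.1, biproduct.desc (fun t => yon (s t.1.1 t.2)), hIn, ?_,
    Fd_inAdd (fun j => Fd_Pj j) hIn⟩
  refine (epi_iff_cm _).2 fun i => ?_
  by_cases hi : a ≤ i ∧ i ≤ b
  · rw [← LinearMap.range_eq_top, eq_top_iff, ← hsp i, Submodule.span_le]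
    rintro _ ⟨u, rfl⟩
    let t : J := ⟨⟨i, Finset.mem_Icc.2 hi⟩, u⟩
    refine ⟨cm (biproduct.ι (fun t : J => Pj ℬ t.1.1) t) i (onep ℬ i), ?_⟩
    rw [← cm_comp, biproduct.ι_desc]
    exact yon_one (s i u)
  · intro x
    refine ⟨0, ?_⟩
    rw [map_zero]
    exact (hs i (by omega) x).symm

end H60.KZ
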