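import Pool.Agent.H60.KZ.GmF

/-!
# Row GmG: semisimple graded modules

Let `M` be a graded module.  Each component `cmp M i` is a module over the ring `ℬ 0` by
`b • x = act M ⟨b.1, _⟩ x` (`b.1 ∈ ℬ (i - i)`); the ring structure of `ℬ 0` is the one of
`SetLike.GradeZero`, with underlying multiplication that of `B` (use `act_one`, `act_mul`, `act_add`,
`actL`).  Since `ℬ 0` is semisimple, every module over it is projective
(`IsSemisimpleRing`, every submodule has a complement).

* `sem_split`: let `f : N ⟶ L` be epi, `N`, `L` `Sem`.  Each `cm f i : N i ⟶ L i` is surjective and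
  `ℬ 0`-linear (`cm_act`), so it has a `ℬ 0`-linear section `g i` (`Module.projective_lifting_property`
  or `LinearMap.exists_rightInverse`-like for semisimple modules).  `g i` is `k`-linear because
  `r • x = act (algebraMap r) x` (`act_smul`, `act_one`).  `mkHom g`: for `b` of degree `0` it is
  linearity over `ℬ 0`; for `b` of nonzero degree both sides are zero (`Sem`).
* `sem_inAdd`: let `x_1, ..., x_n` with degrees `j_1, ..., j_n` span all components of `M` (finite
  dimensional).  The morphisms `Sj ℬ j_a ⟶ M` of `exists_yonS` give `p : ⨁ Sj ℬ (j a) ⟶ M`, epi.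
  The source is `Sem` (`sem_biproduct`: an element `x` of a finite biproduct is determined by its
  projections, `cm (biproduct.π) i`), so `p` has a section `g` by `sem_split`, and
  `𝟙 M = g ≫ p = Σ (g ≫ π_a) ≫ (ι_a ≫ p)` (`biproduct.total`).
* `sem_inAdd_supp`: same proof with all `j_a = q` (the components in degrees `≠ q` are zero, so
  elements of degree `q` suffice).
-/

universe u

namespace H60.KZ

open CategoryTheory CategoryTheory.Limits

variable {k : Type u} [Field k] {B : Type u} [Ring B] [Algebra k B]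
  {ℬ : ℤ → Submodule k B} [GradedAlgebra ℬ] [PosGr ℬ]

namespace GmG

omit [PosGr ℬ] [GradedAlgebra ℬ] in
theorem zmem (i : ℤ) (b : ℬ 0) : b.1 ∈ ℬ (i - i) := by
  rw [sub_self]
  exact b.2

/-- The element of degree `i - i` attached to an element of degree `0`. -/
def zel (i : ℤ) (b : ℬ 0) : ℬ (i - i) := ⟨b.1, zmem i b⟩

omit [PosGr ℬ] in
theorem act_zmul (M : GrMod ℬ) (i : ℤ) (b b' : ℬ 0) (x : cmp M i) :
    act M (zel i (b * b')) x = act M (zel i b) (act M (zel i b') x) :=
  act_mul M i i i (zel i b') (zel i b) (zmem i (b * b')) x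

/-- The components are modules over `ℬ 0`. -/
@[reducible] def modZ (M : GrMod ℬ) (i : ℤ) : Module (ℬ 0) (cmp M i) where
  smul b x := act M (zel i b) x
  one_smul x := act_one M i x _
  mul_smul b b' x := act_zmul M i b b' x
  smul_zero b := map_zero _
  smul_add b x y := map_add _ _ _
  add_smul b b' x := act_add M (zel i b) (zel i b') x
  zero_smul x := by
    change actL M i i (zel i 0) x = 0
    have : (zel i (0 : ℬ 0)) = 0 := rfl
    rw [this]
    simp

end GmG

open GmG

attribute [local instance] Abelian.hasFiniteBiproducts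

set_option linter.unusedSectionVars false in
theorem sem_split [IsSemisimpleRing (ℬ 0)] {N L : GrMod ℬ} (hN : Sem N) (hL : Sem L)
    (f : N ⟶ L) [Epi f] : ∃ g : L ⟶ N, g ≫ f = 𝟙 L := by
  have hs := (epi_iff_cm f).1 inferInstance
  have key : ∀ i : ℤ, ∃ g : cmp L i →ₗ[k] cmp N i,
      (∀ x, cm f i (g x) = x) ∧ ∀ (b : ℬ 0) (x : cmp L i),
        g (act L (zel i b) x) = act N (zel i b) (g x) := by
    intro i
    let _ := modZ N i
    let _ := modZ L i
    let F : cmp N i →ₗ[ℬ 0] cmp L i :=
      { toFun := cm f i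
        map_add' := map_add _
        map_smul' := fun b x => cm_act f (zel i b) x }
    have hpr : Module.Projective (ℬ 0) (cmp L i) := Module.projective_of_isSemisimpleRing _ _
    obtain ⟨G, hG⟩ := Module.projective_lifting_property F (LinearMap.id : cmp L i →ₗ[ℬ 0] cmp L i)
      (hs i)
    refine ⟨{ toFun := G, map_add' := map_add G, map_smul' := ?_ }, ?_, ?_⟩
    · intro r x
      have h1 : ∀ (M : GrMod ℬ) (y : cmp M i), r • y = act M (zel i (r • (1 : ℬ 0))) y := by
        intro M y
        have h2 := act_smul M r (zel i (1 : ℬ 0)) y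
        have h3 : act M (zel i (1 : ℬ 0)) y = y := act_one M i y _
        rw [h3] at h2
        exact h2.symm
      rw [h1 L x]
      have h4 := G.map_smul (r • (1 : ℬ 0)) x
      refine h4.trans ?_
      exact (h1 N (G x)).symm
    · intro x
      exact congrArg (fun t => t x) hG
    · intro b x
      exact G.map_smul b x
  choose g hg1 hg2 using key
  refine ⟨mkHom g ?_, ?_⟩
  · intro i j b x
    by_cases hij : i = j
    · subst hij
      have hb : b.1 ∈ ℬ 0 := (congrArg (fun t => b.1 ∈ ℬ t) (sub_self i)).mp b.2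
      exact hg2 i ⟨b.1, hb⟩ x
    · rw [hL i j b x hij, map_zero, hN i j b (g i x) hij]
  · apply hom_ext_cm
    intro i x
    rw [cm_comp, cm_mkHom, cm_id]
    exact hg1 i x

omit [PosGr ℬ] in
theorem sem_biproduct {n : ℕ} (F : Fin n → GrMod ℬ) (h : ∀ a, Sem (F a)) : Sem (⨁ F) := by
  intro i j b x hij
  have h1 : act (⨁ F) b x = cm (𝟙 (⨁ F)) j (act (⨁ F) b x) := (cm_id _ _ _).symm
  rw [h1]
  refine (congrArg (fun t => cm t j (act (⨁ F) b x)) (biproduct.total (f := F)).symm).trans ?_
  change cm (∑ a, biproduct.π F a ≫ biproduct.ι F a) j _ = 0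
  rw [cm_sum]
  refine Finset.sum_eq_zero fun a _ => ?_
  rw [cm_comp, cm_act, h a i j b _ hij, map_zero]

/-- The common part of `sem_inAdd` and `sem_inAdd_supp`. -/
theorem sem_inAdd_aux [IsSemisimpleRing (ℬ 0)] {J : Type} (jd : J → ℤ) {M : GrMod ℬ} (hM : Sem M)
    {n : ℕ} (j : Fin n → J) (x : ∀ a, cmp M (jd (j a)))
    (hx : ∀ i : ℤ, ⊤ ≤ Submodule.span k {z : cmp M i | ∃ a, ∃ h : jd (j a) = i, h ▸ x a = z}) :
    InAdd (fun t : J => Sj ℬ (jd t)) M := by
  choose f hf using fun a => exists_yonS hM (x a)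
  let F : Fin n → GrMod ℬ := fun a => Sj ℬ (jd (j a))
  let p : ⨁ F ⟶ M := biproduct.desc f
  have hp : Epi p := by
    rw [epi_iff_cm]
    intro i
    rw [← LinearMap.range_eq_top, ← top_le_iff]
    refine (hx i).trans (Submodule.span_le.2 ?_)
    rintro z ⟨a, h, rfl⟩
    subst h
    refine ⟨cm (biproduct.ι F a) _ (onesS ℬ (jd (j a))), ?_⟩
    rw [← cm_comp, biproduct.ι_desc, hf a]
  obtain ⟨g, hg⟩ := sem_split (sem_biproduct F fun a => Sj_sem _) hM p
  refine ⟨n, j, fun a => g ≫ biproduct.π F a, fun a => f a, ?_⟩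
  have h2 : 𝟙 M = g ≫ 𝟙 (⨁ F) ≫ p := by rw [Category.id_comp, hg]
  rw [h2, ← biproduct.total, Preadditive.sum_comp, Preadditive.comp_sum]
  refine Finset.sum_congr rfl fun a _ => ?_
  rw [Category.assoc, Category.assoc]
  congr 2
  exact biproduct.ι_desc f a

theorem sem_inAdd [IsSemisimpleRing (ℬ 0)] {M : GrMod ℬ} (hM : Sem M) (hF : Fd M) :
    InAdd (Sj ℬ) M := by
  obtain ⟨hfin, a, b, hs⟩ := hF
  let I : Type u := Σ i : Finset.Icc a b, Module.Basis.ofVectorSpaceIndex k (cmp M i.1)
  have hfi : ∀ i : ℤ, Finite (Module.Basis.ofVectorSpaceIndex k (cmp M i)) := fun i =>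
    Module.Finite.finite_basis (Module.Basis.ofVectorSpace k (cmp M i))
  have : Finite I := inferInstance
  obtain ⟨n, ⟨e⟩⟩ := Finite.exists_equiv_fin I
  refine sem_inAdd_aux (fun t : ℤ => t) hM (n := n) (fun a => (e.symm a).1.1)
    (fun a => Module.Basis.ofVectorSpace k _ (e.symm a).2) ?_
  intro i
  by_cases hi : i ∈ Finset.Icc a b
  · rw [← (Module.Basis.ofVectorSpace k (cmp M i)).span_eq]
    refine Submodule.span_mono ?_
    rintro _ ⟨t, rfl⟩
    refine ⟨e ⟨⟨i, hi⟩, t⟩, ?_, ?_⟩
    · rw [e.symm_apply_apply]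
    · generalize_proofs h1
      revert h1
      rw [e.symm_apply_apply]
      intro h1
      rfl
  · intro y _
    have : y = 0 := by
      apply hs i
      rw [Finset.mem_Icc] at hi
      omega
    rw [this]
    exact zero_mem _

theorem sem_inAdd_supp [IsSemisimpleRing (ℬ 0)] {M : GrMod ℬ} {q : ℤ} (hM : Supp M q q)
    (hF : Fd M) : InAdd (fun _ : Unit => Sj ℬ q) M := by
  have := hF.1
  let I : Type u := Module.Basis.ofVectorSpaceIndex k (cmp M q)
  have : Finite I := Module.Finite.finite_basis (Module.Basis.ofVectorSpace k (cmp M q))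
  obtain ⟨n, ⟨e⟩⟩ := Finite.exists_equiv_fin I
  refine sem_inAdd_aux (fun _ : Unit => q) (sem_of_supp hM) (n := n) (fun _ => ())
    (fun a => Module.Basis.ofVectorSpace k _ (e.symm a)) ?_
  intro i
  by_cases hi : q = i
  · subst hi
    rw [← (Module.Basis.ofVectorSpace k (cmp M q)).span_eq]
    refine Submodule.span_mono ?_
    rintro _ ⟨t, rfl⟩
    refine ⟨e t, rfl, ?_⟩
    change (Module.Basis.ofVectorSpace k _ (e.symm (e t))) = _
    rw [e.symm_apply_apply]
  · intro y _
    have : y = 0 := by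
      apply hM i
      omega
    rw [this]
    exact zero_mem _

end H60.KZ
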