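import Pool.Agent.H60.KZ.GmI

/-!
# Row GmJ: graded Frobenius algebras

`GrFrob ℬ s lam`: `lam` vanishes on `ℬ i`, `i ≠ s`, and `lam (y x) = 0` for all `y` implies
`x = 0`.

* `frob_top`: let `x ∈ ℬ i`, `i > s`; for `y` in `ℬ p`: `y x ∈ ℬ (p+i)`; `lam (y x) = 0` because
  `p + i = s` forces `p < 0`, so `y = 0`.  By linearity (`DirectSum.Decomposition`, every `y` is a
  sum of homogeneous elements) `lam (y x) = 0` for all `y`, so `x = 0`.
* `frob_nd'`: the bilinear form `(y,x) ↦ lam (y x)` on the finite dimensional space `B` is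
  nondegenerate on one side, hence the map `B → Dual B`, `x ↦ (y ↦ lam (y x))` is bijective, and so
  is its transpose; so `lam (y x) = 0` for all `x` implies `y = 0`.
* `frob_hom`: the map `Φ_M : Hom(M, Pj ℬ j) → Dual (M (j+s))`, `f ↦ lam ∘ cm f (j+s)` (components
  in `ℬ (j+s-j) ⊂ B`).
  Injective: suppose `lam (f x) = 0` for all `x ∈ M (j+s)`.  Let `y ∈ M i`; for `b ∈ ℬ (j+s-i)`:
  `lam (b f(y)) = lam (f (b y)) = 0`; for homogeneous `b` of another degree, `lam (b f(y)) = 0` by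
  degree; so `f y = 0`.
  Surjective: let `φ : M (j+s) → k`.  For `y ∈ M i` there is a unique `g(y) ∈ ℬ (i-j)` with
  `lam (b g(y)) = φ (b y)` for all `b ∈ ℬ (j+s-i)`: the map `B → Dual B`, `x ↦ (b ↦ lam (b x))` is
  bijective; take `x` for the functional `b ↦ φ ((b component of degree j+s-i) y)`; then the
  component of `x` in degree `i-j` does it (the other components `x_p` satisfy `lam (b x_p) = 0` for
  all homogeneous `b`: for `b` of degree `s-p ≠ j+s-i` the functional vanishes).  Uniqueness gives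
  linearity and `g (b y) = b g(y)`.
* `Pj_inj`: `Injective (Pj ℬ j)`: for a mono `m : X ⟶ Y` and `f : X ⟶ Pj ℬ j`; extend the functional
  `Φ_X f` on `X (j+s)` along the injection `cm m (j+s)` to `Y (j+s)` (`LinearMap.exists_extend` /
  `exists_leftInverse_of_injective`), take the corresponding `g : Y ⟶ Pj ℬ j`, then `m ≫ g = f` by
  injectivity of `Φ_X`.
* `hom_Pj_zero`: if `M (j+s) = 0` then every `M ⟶ Pj ℬ j` is zero.
-/

universe u

namespace H60.KZ

open CategoryTheory CategoryTheory.Limits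

variable {k : Type u} [Field k] {B : Type u} [Ring B] [Algebra k B]

/-- `lam` is a homogeneous Frobenius form of degree `s` on `B`. -/
structure GrFrob (ℬ : ℤ → Submodule k B) (s : ℕ) (lam : B →ₗ[k] k) : Prop where
  supp : ∀ i : ℤ, i ≠ s → ∀ x ∈ ℬ i, lam x = 0
  nd : ∀ x : B, (∀ y : B, lam (y * x) = 0) → x = 0

variable {ℬ : ℤ → Submodule k B} [GradedAlgebra ℬ] [PosGr ℬ]

/-! auxiliary lemmas -/

theorem GmJ_homog {s : ℕ} {lam : B →ₗ[k] k} (h : GrFrob ℬ s lam) {q : ℤ} {x : B} (hx : x ∈ ℬ q)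
    (H : ∀ y ∈ ℬ (s - q), lam (y * x) = 0) : x = 0 := by
  apply h.nd
  intro y
  induction y using DirectSum.Decomposition.inductionOn ℬ with
  | zero => rw [zero_mul, map_zero]
  | @homogeneous p m =>
    by_cases hp : p = s - q
    · subst hp
      exact H m m.2
    · exact h.supp (p + q) (by lia) _ (SetLike.GradedMul.mul_mem m.2 hx)
  | add a b ha hb => rw [add_mul, map_add, ha, hb, add_zero]

variable (ℬ) in
/-- the projection onto a homogeneous component -/
noncomputable def pjc (q : ℤ) : B →ₗ[k] ℬ q :=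
  (DirectSum.component k ℤ (fun i => ℬ i) q) ∘ₗ (DirectSum.decomposeLinearEquiv ℬ).toLinearMap

theorem pjc_same {q : ℤ} {x : B} (hx : x ∈ ℬ q) : (pjc ℬ q x : B) = x :=
  DirectSum.decompose_of_mem_same ℬ hx

theorem pjc_ne {p q : ℤ} {x : B} (hx : x ∈ ℬ p) (hpq : p ≠ q) : (pjc ℬ q x : B) = 0 :=
  DirectSum.decompose_of_mem_ne ℬ hx hpq

theorem lam_comp {s : ℕ} {lam : B →ₗ[k] k} (h : GrFrob ℬ s lam) {q : ℤ} {b : B}
    (hb : b ∈ ℬ (s - q)) (x : B) : lam (b * (pjc ℬ q x : B)) = lam (b * x) := by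
  induction x using DirectSum.Decomposition.inductionOn ℬ with
  | zero => simp
  | @homogeneous p m =>
    by_cases hp : p = q
    · subst hp
      rw [pjc_same m.2]
    · rw [pjc_ne m.2 hp, mul_zero, map_zero]
      exact (h.supp _ (by lia) _ (SetLike.GradedMul.mul_mem hb m.2)).symm
  | add a c ha hc =>
    rw [map_add, Submodule.coe_add, mul_add, mul_add, map_add, map_add, ha, hc]

theorem frob_top {s : ℕ} {lam : B →ₗ[k] k} (h : GrFrob ℬ s lam) (i : ℤ) (hi : s < i) :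
    ℬ i = ⊥ := by
  rw [eq_bot_iff]
  intro x hx
  rw [Submodule.mem_bot]
  refine GmJ_homog h hx fun y hy => ?_
  rw [PosGr.neg (ℬ := ℬ) (s - i) (by lia), Submodule.mem_bot] at hy
  rw [hy, zero_mul, map_zero]

/-- the map `x ↦ (y ↦ lam (y x))` -/
noncomputable def frobMap (lam : B →ₗ[k] k) : B →ₗ[k] (B →ₗ[k] k) :=
  (LinearMap.mul k B).flip.compr₂ lam

theorem frobMap_apply (lam : B →ₗ[k] k) (x y : B) : frobMap lam x y = lam (y * x) := rfl

omit [GradedAlgebra ℬ] [PosGr ℬ] in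
theorem frobMap_bij [Module.Finite k B] {s : ℕ} {lam : B →ₗ[k] k} (h : GrFrob ℬ s lam) :
    Function.Bijective (frobMap lam) := by
  have hinj : Function.Injective (frobMap lam) := by
    rw [injective_iff_map_eq_zero]
    intro x hx
    apply h.nd
    intro y
    rw [← frobMap_apply, hx]
    rfl
  refine ⟨hinj, ?_⟩
  exact (LinearMap.injective_iff_surjective_of_finrank_eq_finrank
    (Subspace.dual_finrank_eq (K := k) (V := B)).symm).1 hinj

theorem frob_nd' [Module.Finite k B] {s : ℕ} {lam : B →ₗ[k] k} (h : GrFrob ℬ s lam) (y : B)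
    (hy : ∀ x : B, lam (y * x) = 0) : y = 0 := by
  rw [← Module.forall_dual_apply_eq_zero_iff k y]
  intro φ
  obtain ⟨x, rfl⟩ := (frobMap_bij h).2 φ
  exact hy x

/-- The functional on the component of degree `j + s`. -/
def frobF (lam : B →ₗ[k] k) (s : ℕ) {M : GrMod ℬ} {j : ℤ} (f : M ⟶ Pj ℬ j) :
    cmp M (j + s) →ₗ[k] k :=
  (lam ∘ₗ (ℬ (j + s - j)).subtype) ∘ₗ (cm f (j + s))

/-- the underlying element of the algebra -/
def pv (j i : ℤ) : cmp (Pj ℬ j) i →ₗ[k] B := (ℬ (i - j)).subtype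

omit [PosGr ℬ] in
theorem pv_mem {j i : ℤ} (x : cmp (Pj ℬ j) i) : pv j i x ∈ ℬ (i - j) :=
  Subtype.prop (p := fun y => y ∈ ℬ (i - j)) x

omit [PosGr ℬ] in
theorem pv_inj {j i : ℤ} : Function.Injective (pv (ℬ := ℬ) j i) := fun _ _ h => Subtype.ext h

omit [PosGr ℬ] in
theorem frobF_apply (lam : B →ₗ[k] k) (s : ℕ) {M : GrMod ℬ} {j : ℤ} (f : M ⟶ Pj ℬ j)
    (x : cmp M (j + s)) : frobF lam s f x = lam (pv j (j + s) (cm f (j + s) x)) := rfl

omit [PosGr ℬ] in
theorem Pj_act {j i l : ℤ} (b : ℬ (l - i)) (x : cmp (Pj ℬ j) i) :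
    pv j l (act (Pj ℬ j) b x) = b.1 * pv j i x := rfl

theorem frob_inj {s : ℕ} {lam : B →ₗ[k] k} (h : GrFrob ℬ s lam)
    (M : GrMod ℬ) (j : ℤ) :
    Function.Injective (fun f : M ⟶ Pj ℬ j => frobF lam s f) := by
  intro f g hfg
  apply hom_ext_cm
  intro i x
  have key : pv j i (cm f i x) - pv j i (cm g i x) = 0 := by
    refine GmJ_homog h (q := i - j) (sub_mem (pv_mem _) (pv_mem _)) fun y hy => ?_
    rw [show (s : ℤ) - (i - j) = j + s - i by ring] at hy
    have h1 := congrArg (fun t : cmp M (j + s) →ₗ[k] k => t (act M ⟨y, hy⟩ x)) hfg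
    simp only [frobF_apply] at h1
    rw [cm_act, cm_act, Pj_act, Pj_act] at h1
    rw [mul_sub, map_sub, sub_eq_zero]
    exact h1
  exact pv_inj (sub_eq_zero.1 key)

theorem frob_hom [Module.Finite k B] {s : ℕ} {lam : B →ₗ[k] k} (h : GrFrob ℬ s lam)
    (M : GrMod ℬ) (j : ℤ) :
    Function.Bijective (fun f : M ⟶ Pj ℬ j => frobF lam s f) := by
  refine ⟨frob_inj h M j, ?_⟩
  intro φ
  let E : B ≃ₗ[k] (B →ₗ[k] k) := LinearEquiv.ofBijective (frobMap lam) (frobMap_bij h)
  let T : ∀ i, cmp M i →ₗ[k] (B →ₗ[k] k) := fun i =>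
    ((actL M i (j + s)).flip.compr₂ φ).compl₂ (pjc ℬ (j + s - i))
  let G : ∀ i, cmp M i →ₗ[k] B := fun i => E.symm.toLinearMap ∘ₗ T i
  have hG : ∀ i (y : cmp M i) (b : B), lam (b * G i y) = φ (act M (pjc ℬ (j + s - i) b) y) := by
    intro i y b
    have h1 : frobMap lam (G i y) = T i y := E.apply_symm_apply (T i y)
    have h2 := congrArg (fun t : B →ₗ[k] k => t b) h1
    exact h2
  let g : ∀ i, cmp M i →ₗ[k] ℬ (i - j) := fun i => pjc ℬ (i - j) ∘ₗ G i
  have hg : ∀ i (y : cmp M i) (b : ℬ (j + s - i)), lam (b.1 * (g i y : B)) = φ (act M b y) := by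
    intro i y b
    have hb : b.1 ∈ ℬ (s - (i - j)) := by
      rw [show (s : ℤ) - (i - j) = j + s - i by ring]
      exact b.2
    have h1 : lam (b.1 * (g i y : B)) = lam (b.1 * G i y) := lam_comp h hb _
    have h2 : pjc ℬ (j + s - i) b.1 = b := Subtype.ext (pjc_same b.2)
    rw [h1, hG, h2]
  have hnat : ∀ (i l : ℤ) (b : ℬ (l - i)) (x : cmp M i),
      (g l (act M b x) : B) = b.1 * (g i x : B) := by
    intro i l b x
    rw [← sub_eq_zero]
    have hm : b.1 * (g i x : B) ∈ ℬ (l - j) := by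
      have := SetLike.GradedMul.mul_mem b.2 (g i x).2
      rwa [show l - i + (i - j) = l - j by ring] at this
    refine GmJ_homog h (q := l - j) (sub_mem (g l (act M b x)).2 hm) fun c hc => ?_
    rw [show (s : ℤ) - (l - j) = j + s - l by ring] at hc
    have hcb : c * b.1 ∈ ℬ (j + s - i) := by
      have := SetLike.GradedMul.mul_mem hc b.2
      rwa [show j + s - l + (l - i) = j + s - i by ring] at this
    have h1 := hg l (act M b x) ⟨c, hc⟩
    have h2 := hg i x ⟨c * b.1, hcb⟩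
    rw [mul_sub, map_sub, sub_eq_zero, ← mul_assoc]
    rw [act_mul M i l (j + s) b ⟨c, hc⟩ hcb x] at h2
    exact h1.trans h2.symm
  refine ⟨mkHom (M := M) (N := Pj ℬ j) g (fun i l b x => Subtype.ext (hnat i l b x)), ?_⟩
  apply LinearMap.ext
  intro x
  have h1 : (1 : B) ∈ ℬ (j + s - (j + s)) := by
    rw [sub_self]; exact SetLike.GradedOne.one_mem
  have h2 := hg (j + s) x ⟨1, h1⟩
  rw [act_one] at h2
  rw [← h2, one_mul]
  exact congrArg (fun t : cmp (Pj ℬ j) (j + s) => lam (pv j (j + s) t))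
    (cm_mkHom (M := M) (N := Pj ℬ j) g _ (j + s) x)

theorem Pj_inj [Module.Finite k B] {s : ℕ} {lam : B →ₗ[k] k} (h : GrFrob ℬ s lam) (j : ℤ) :
    Injective (Pj ℬ j) := by
  refine ⟨fun {X Y} g m hm => ?_⟩
  have hinj : Function.Injective (cm m (j + s)) := (mono_iff_cm m).1 hm (j + s)
  obtain ⟨r, hr⟩ := LinearMap.exists_leftInverse_of_injective (cm m (j + s))
    (LinearMap.ker_eq_bot.2 hinj)
  obtain ⟨f, hf⟩ := (frob_hom h Y j).2 (frobF lam s g ∘ₗ r)
  refine ⟨f, (frob_hom h X j).1 ?_⟩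
  apply LinearMap.ext
  intro x
  have h1 : frobF lam s (m ≫ f) x = frobF lam s f (cm m (j + s) x) := by
    rw [frobF_apply, frobF_apply, cm_comp]
  have h2 : frobF lam s f (cm m (j + s) x) = frobF lam s g (r (cm m (j + s) x)) :=
    congrArg (fun t : cmp Y (j + s) →ₗ[k] k => t (cm m (j + s) x)) hf
  have h3 : r (cm m (j + s) x) = x := congrArg (fun t : cmp X (j + s) →ₗ[k] cmp X (j + s) => t x) hr
  show frobF lam s (m ≫ f) x = frobF lam s g x
  rw [h1, h2, h3]

theorem hom_Pj_zero [Module.Finite k B] {s : ℕ} {lam : B →ₗ[k] k} (h : GrFrob ℬ s lam)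
    {M : GrMod ℬ} (j : ℤ) (hM : ∀ x : cmp M (j + s), x = 0) (f : M ⟶ Pj ℬ j) : f = 0 := by
  apply (frob_hom h M j).1
  apply LinearMap.ext
  intro x
  show frobF lam s f x = frobF lam s 0 x
  rw [hM x, map_zero, map_zero]

end H60.KZ
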