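import Pool.Agent.H60.KZ.St2

/-!
# Final forms of the theorems
-/

universe w u

namespace H60.KZ

open CategoryTheory CategoryTheory.Limits

variable {k : Type u} [Field k] {B : Type u} [Ring B] [Algebra k B] [Module.Finite k B]
  {ℬ : ℤ → Submodule k B} [GradedAlgebra ℬ] [PosGr ℬ] [IsSemisimpleRing (ℬ 0)]

theorem st3_iff [Infinite k] {s : ℕ} {lam : B →ₗ[k] k} (h : GrFrob ℬ s lam)
    (d : ℕ) (hd : 1 ≤ d) {c : ℕ} (e : Fin c → ℤ) (ζ : ∀ a, 𝟭 (DG ℬ) ⟶ Phi ℬ (e a) d)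
    (hz : ∀ a, e a = d → IsCent (kap ℬ (e a) d) (ζ a)) (hc : ∀ a b, Comm (ζ a) (ζ b))
    (hfg : FgOver ζ) : Koszul ℬ ↔ Reg ℬ := by
  let _ : HasDerivedCategory.{u + 1} (GrMod ℬ) := instDerGrM ℬ
  constructor
  · intro hK
    exact reg_iff.2 (finReg_of_koszul (koszul_iff.1 hK))
  · intro hR
    exact koszul_iff.2 (st2_main h d hd e ζ hz hc hfg (reg_iff.1 hR))

variable {A : Type u} [Ring A] [Algebra k A] [Module.Finite k A]
  {𝒜 : ℤ → Submodule k A} [GradedAlgebra 𝒜] [PosGr 𝒜] [IsSemisimpleRing (𝒜 0)]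

theorem st3_reg (hA : Koszul 𝒜) (F : GrM ℬ ⥤ GrM 𝒜) [PreservesFiniteLimits F]
    [PreservesFiniteColimits F]
    (hproj : ∀ P j, Fd P → Projective P → GenIn P j → Projective (F.obj P) ∧ GenIn (F.obj P) j)
    (hfaith : ∀ M, IsZero (F.obj M) → IsZero M) (hfd : ∀ M, Fd M → Fd (F.obj M)) : Reg ℬ := by
  have : F.Additive := F.additive_of_preserves_binary_products
  let _ : HasDerivedCategory.{u + 1} (GrMod ℬ) := instDerGrM ℬ
  have hP : ∀ j, Projective (Pj ℬ j) := fun j => inferInstance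
  have h0 : ∀ j, Projective (C := GrMod 𝒜) (F.obj (Pj ℬ j)) ∧ GenIn (F.obj (Pj ℬ j)) j := fun j =>
    hproj (Pj ℬ j) j (Fd_Pj j) (hP j) (GmL_genIn_Pj j)
  let G : GrMod ℬ ⥤ GrMod 𝒜 := F
  have h1 : G.Additive := this
  have h2 : PreservesFiniteLimits G := inferInstanceAs (PreservesFiniteLimits F)
  have h3 : PreservesFiniteColimits G := inferInstanceAs (PreservesFiniteColimits F)
  exact reg_iff.2 (finReg_of_functor (koszul_iff.1 hA) G
    ⟨fun j => (h0 j).1, fun j => (h0 j).2, hfaith, hfd⟩)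

end H60.KZ
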