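import Pool.Agent.H60.KZ.Dr0

/-!
# Row Dr1: vanishing of morphisms in the derived category of an abelian category

`VX X Y n` : all `X ⟶ (sg Y)⟦n⟧` are zero; `VV X Y n = VX (sg X) Y n`.
Tools: `ShortComplex.ShortExact.singleTriangle` (distinguished triangle
`sg X₁ ⟶ sg X₂ ⟶ sg X₃ ⟶ (sg X₁)⟦1⟧`, `Mathlib/Algebra/Homology/DerivedCategory/SingleTriangle.lean`),
`Triangle.shift_distinguished` (shift by `n`, morphisms with signs),
`Triangle.coyoneda_exact₂/₃`, `yoneda_exact₂/₃`, `rot_of_distTriang`,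
`DerivedCategory.from_singleFunctor_obj_eq_zero_of_projective`,
`to_singleFunctor_obj_eq_zero_of_injective`, the t-structure, full faithfulness of `sg`.

* `vx_exact2`: the shifted triangle is distinguished, so `coyoneda_exact₂` (sign is harmless:
  the first two morphisms of the shifted triangle are `± (sg.map S.f)⟦n⟧'`, `± (sg.map S.g)⟦n⟧'`).
* `vx_lift`: `x ≫ mor₃` is a morphism to `((sg X₁)⟦1⟧)⟦n⟧`-like object isomorphic to
  `(sg X₁)⟦n+1⟧`, hence zero by hypothesis; `coyoneda_exact₃`.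
* `vx_ses`: by `vx_exact2`.
* `vv_neg`: `sg X` is `≤ 0`, `(sg Y)⟦n⟧` is `≥ -n ≥ 1` (`TStructure.t.zero'` or
  `zero_of_isLE_of_isGE`).
* `vv_proj`, `vv_inj`: the quoted lemmas (use `(singleFunctor C 0).obj Y ⟦n⟧ ≅ (singleFunctor C (-n)).obj Y`).
  Or via `Abelian.Ext`: `Ext.eq_zero_of_projective` and `Ext.homEquiv`.
* `vv_zero`: `(sg Y)⟦0⟧ ≅ sg Y` and `sg` is full.
* `vv_ses_left`: contravariant: `f : sg X₂ ⟶ Z`; `sg.map S.f ≫ f = 0` so `f = sg.map S.g ≫ g`, `g = 0`.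
* `vv_dim`: `f : sg X₃ ⟶ (sg Y)⟦n⟧`; `sg.map S.g ≫ f = 0` (`vv_proj`), so `f = δ ≫ g`,
  `g : (sg X₁)⟦1⟧ ⟶ (sg Y)⟦n⟧ ≅ ((sg Y)⟦n-1⟧)⟦1⟧`, `g = g'⟦1⟧'` up to the isomorphism, `g' = 0`.
* `vv_dim_lin`: the same argument gives a `k`-linear surjection.
* `vv_syz`: `f : sg X₁ ⟶ (sg Y)⟦n⟧`; `(δ ≫ f⟦1⟧' ≫ iso) : sg X₃ ⟶ (sg Y)⟦n+1⟧` is zero, so
  `f⟦1⟧'` factors through `(sg.map S.f)⟦1⟧'` and `f = sg.map S.f ≫ g`, `g : sg X₂ ⟶ (sg Y)⟦n⟧`, `g = 0`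
  by `hQ`.
* `hom_syz`: the case `n = 0` of the same argument (with `vv_zero`), `sg` is faithful.
* `vx_inAdd`, `vv_inAdd_left`: `f = f ≫ (sg.map (𝟙 M))⟦n⟧' = Σ (f ≫ (sg.map α)⟦n⟧') ≫ (sg.map β)⟦n⟧'`.
-/

universe w v u

namespace H60.KZ

open CategoryTheory CategoryTheory.Limits CategoryTheory.Pretriangulated

variable {C : Type u} [Category.{v} C] [Abelian C] [HasDerivedCategory.{w} C]

/-- The shifted triangle, second exactness (helper form). -/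
theorem vx_exact2 (X : DerivedCategory C) (S : ShortComplex C) (hS : S.ShortExact) (n : ℤ)
    (x : X ⟶ (sg.obj S.X₂)⟦n⟧) (hx : x ≫ (sg.map S.g)⟦n⟧' = 0) :
    ∃ y : X ⟶ (sg.obj S.X₁)⟦n⟧, x = y ≫ (sg.map S.f)⟦n⟧' := by
  have hT := Triangle.shift_distinguished _ hS.singleTriangle_distinguished n
  obtain ⟨g, hg⟩ : ∃ g : X ⟶ (sg.obj S.X₁)⟦n⟧, x = g ≫ (n.negOnePow • (sg.map S.f)⟦n⟧') :=
    Triangle.coyoneda_exact₂ _ hT (X := X) x (by
      change x ≫ (n.negOnePow • (sg.map S.g)⟦n⟧') = 0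
      rw [Linear.comp_units_smul, hx, smul_zero])
  refine ⟨n.negOnePow • g, ?_⟩
  rw [hg, Linear.comp_units_smul, Linear.units_smul_comp]

theorem vx_lift (X : DerivedCategory C) (S : ShortComplex C) (hS : S.ShortExact) (n : ℤ)
    (x : X ⟶ (sg.obj S.X₃)⟦n⟧) (h : VX X S.X₁ (n + 1)) :
    ∃ y : X ⟶ (sg.obj S.X₂)⟦n⟧, y ≫ (sg.map S.g)⟦n⟧' = x := by
  have hT := Triangle.shift_distinguished _ hS.singleTriangle_distinguished n
  have hz : ∀ u : X ⟶ ((sg.obj S.X₁)⟦n⟧)⟦(1 : ℤ)⟧, u = 0 := by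
    intro u
    have h1 := h (u ≫ (shiftFunctorAdd' (DerivedCategory C) n 1 (n + 1) rfl).inv.app _)
    rw [← cancel_mono ((shiftFunctorAdd' (DerivedCategory C) n 1 (n + 1) rfl).inv.app
      (sg.obj S.X₁)), h1, zero_comp]
  obtain ⟨g, hg⟩ : ∃ g : X ⟶ (sg.obj S.X₂)⟦n⟧, x = g ≫ (n.negOnePow • (sg.map S.g)⟦n⟧') :=
    Triangle.coyoneda_exact₃ _ hT (X := X) x (hz _)
  refine ⟨n.negOnePow • g, ?_⟩
  rw [hg, Linear.comp_units_smul, Linear.units_smul_comp]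

theorem vx_ses (X : DerivedCategory C) (S : ShortComplex C) (hS : S.ShortExact) (n : ℤ)
    (h1 : VX X S.X₁ n) (h3 : VX X S.X₃ n) : VX X S.X₂ n := by
  intro f
  obtain ⟨y, hy⟩ := vx_exact2 X S hS n f (h3 _)
  rw [hy, h1 y, zero_comp]

theorem vv_neg (X Y : C) (n : ℤ) (hn : n < 0) : VV X Y n := by
  intro f
  have : DerivedCategory.IsLE (sg.obj X) 0 := inferInstance
  have h2 : DerivedCategory.IsGE ((sg.obj Y)⟦n⟧) (-n) :=
    DerivedCategory.TStructure.t.isGE_shift _ 0 n (-n) (by lia)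
  exact DerivedCategory.TStructure.t.zero_of_isLE_of_isGE f 0 (-n) (by lia) this h2

theorem vv_proj (X Y : C) [Projective X] (n : ℤ) (hn : 0 < n) : VV X Y n := by
  intro f
  rw [← cancel_mono (((DerivedCategory.singleFunctors C).shiftIso n (-n) 0
    (by lia)).hom.app _), zero_comp]
  exact DerivedCategory.from_singleFunctor_obj_eq_zero_of_projective
    (L := (CochainComplex.singleFunctor C (-n)).obj Y) (n := -n) _ (by lia)

theorem vv_inj (X Y : C) [Injective Y] (n : ℤ) (hn : 0 < n) : VV X Y n := by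
  intro f
  let K := (CochainComplex.singleFunctor C 0).obj X
  have := K.isStrictlyGE_of_ge 0 0 (by lia)
  rw [← cancel_mono (((DerivedCategory.singleFunctors C).shiftIso n (-n) 0
    (by lia)).hom.app _), zero_comp]
  exact DerivedCategory.to_singleFunctor_obj_eq_zero_of_injective (K := K) (n := 0) _ (by lia)

theorem vv_zero (X Y : C) (h : ∀ f : X ⟶ Y, f = 0) : VV X Y 0 := by
  intro f
  obtain ⟨g, hg⟩ := (sg (C := C)).map_surjective
    (f ≫ (shiftFunctorZero (DerivedCategory C) ℤ).hom.app (sg.obj Y))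
  rw [h g, Functor.map_zero] at hg
  rw [← cancel_mono ((shiftFunctorZero (DerivedCategory C) ℤ).hom.app (sg.obj Y)), ← hg,
    zero_comp]

theorem vv_ses_left (S : ShortComplex C) (hS : S.ShortExact) (Y : C) (n : ℤ)
    (h1 : VV S.X₁ Y n) (h3 : VV S.X₃ Y n) : VV S.X₂ Y n := by
  intro f
  have hT := hS.singleTriangle_distinguished
  obtain ⟨g, hg⟩ : ∃ g : sg.obj S.X₃ ⟶ (sg.obj Y)⟦n⟧, f = sg.map S.g ≫ g :=
    Triangle.yoneda_exact₂ _ hT (X := (sg.obj Y)⟦n⟧) f (h1 _)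
  rw [hg, h3 g, comp_zero]

/-- The connecting map, composed with a shifted morphism. -/
noncomputable def vvBd (S : ShortComplex C) (hS : S.ShortExact) (Y : C) (m n : ℤ)
    (h : m + 1 = n) (g : sg.obj S.X₁ ⟶ (sg.obj Y)⟦m⟧) : sg.obj S.X₃ ⟶ (sg.obj Y)⟦n⟧ :=
  hS.singleδ ≫ g⟦(1 : ℤ)⟧' ≫ (shiftFunctorAdd' (DerivedCategory C) m 1 n h).inv.app _

theorem vvBd_surj (S : ShortComplex C) (hS : S.ShortExact) [Projective S.X₂] (Y : C) (m n : ℤ)
    (h : m + 1 = n) (hn : 0 < n) (f : sg.obj S.X₃ ⟶ (sg.obj Y)⟦n⟧) :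
    ∃ g, vvBd S hS Y m n h g = f := by
  have hT := hS.singleTriangle_distinguished
  obtain ⟨g, hg⟩ : ∃ g : (sg.obj S.X₁)⟦(1 : ℤ)⟧ ⟶ (sg.obj Y)⟦n⟧, f = hS.singleδ ≫ g :=
    Triangle.yoneda_exact₃ _ hT (X := (sg.obj Y)⟦n⟧) f (vv_proj S.X₂ Y n hn _)
  obtain ⟨g', hg'⟩ := (shiftFunctor (DerivedCategory C) (1 : ℤ)).map_surjective
    (g ≫ (shiftFunctorAdd' (DerivedCategory C) m 1 n h).hom.app (sg.obj Y))
  refine ⟨g', ?_⟩
  unfold vvBd
  rw [hg', hg]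
  simp

theorem vv_dim (S : ShortComplex C) (hS : S.ShortExact) [Projective S.X₂] (Y : C) (n : ℤ)
    (hn : 0 < n) (h : VV S.X₁ Y (n - 1)) : VV S.X₃ Y n := by
  intro f
  obtain ⟨g, hg⟩ := vvBd_surj S hS Y (n - 1) n (by lia) hn f
  rw [← hg, h g]
  simp [vvBd]

theorem vv_dim_lin (k : Type*) [Field k] [Linear k C] (S : ShortComplex C) (hS : S.ShortExact)
    [Projective S.X₂] (Y : C) (n : ℤ) (hn : 0 < n) :
    ∃ φ : (sg.obj S.X₁ ⟶ (sg.obj Y)⟦n - 1⟧) →ₗ[k] (sg.obj S.X₃ ⟶ (sg.obj Y)⟦n⟧),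
      Function.Surjective φ := by
  refine ⟨{ toFun := vvBd S hS Y (n - 1) n (by lia), map_add' := ?_, map_smul' := ?_ }, ?_⟩
  · intro a b
    simp [vvBd]
  · intro r a
    simp [vvBd, Functor.map_smul]
  · intro f
    exact vvBd_surj S hS Y (n - 1) n (by lia) hn f

theorem vv_syz (S : ShortComplex C) (hS : S.ShortExact) (Y : C) (n : ℤ)
    (hQ : VV S.X₂ Y n) (h : VV S.X₃ Y (n + 1)) : VV S.X₁ Y n := by
  intro f
  have h0 := h (vvBd S hS Y n (n + 1) rfl f)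
  unfold vvBd at h0
  rw [← Category.assoc, ← cancel_mono ((shiftFunctorAdd' (DerivedCategory C) n 1 (n + 1)
    rfl).hom.app (sg.obj Y)), Category.assoc, Iso.inv_hom_id_app, zero_comp] at h0
  have hT := rot_of_distTriang _ (rot_of_distTriang _ hS.singleTriangle_distinguished)
  obtain ⟨g, hg⟩ : ∃ g : (sg.obj S.X₂)⟦(1 : ℤ)⟧ ⟶ ((sg.obj Y)⟦n⟧)⟦(1 : ℤ)⟧,
      f⟦(1 : ℤ)⟧' = (-(sg.map S.f)⟦(1 : ℤ)⟧') ≫ g :=
    Triangle.yoneda_exact₂ _ hT (X := ((sg.obj Y)⟦n⟧)⟦(1 : ℤ)⟧)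
      (f⟦(1 : ℤ)⟧') (by
        change hS.singleδ ≫ f⟦(1 : ℤ)⟧' = 0
        simpa using h0)
  obtain ⟨g', hg'⟩ := (shiftFunctor (DerivedCategory C) (1 : ℤ)).map_surjective
    (X := sg.obj S.X₂) (Y := (sg.obj Y)⟦n⟧) g
  have h2 : g' = 0 := hQ g'
  apply (shiftFunctor (DerivedCategory C) (1 : ℤ)).map_injective
  rw [hg, ← hg', h2]
  simp

/-- `Hom(X, Y)` is the space of morphisms of degree `0`. -/
theorem vv_hom_zero {X Y : C} (h : VV X Y 0) (f : X ⟶ Y) : f = 0 := by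
  have h1 := h (sg.map f ≫ (shiftFunctorZero (DerivedCategory C) ℤ).inv.app (sg.obj Y))
  apply (sg (C := C)).map_injective
  rw [← cancel_mono ((shiftFunctorZero (DerivedCategory C) ℤ).inv.app (sg.obj Y)), h1]
  simp

theorem hom_syz (S : ShortComplex C) (hS : S.ShortExact) (Y : C)
    (hQ : ∀ f : S.X₂ ⟶ Y, f = 0) (h : VV S.X₃ Y 1) (f : S.X₁ ⟶ Y) : f = 0 := by
  exact vv_hom_zero (vv_syz S hS Y 0 (vv_zero _ _ hQ) h) f

theorem vx_inAdd {J : Type} {F : J → C} {M : C} (h : InAdd F M) (X : DerivedCategory C) (n : ℤ)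
    (hF : ∀ j, VX X (F j) n) : VX X M n := by
  obtain ⟨m, j, α, β, hid⟩ := h
  intro f
  have h1 : f = f ≫ (sg.map (𝟙 M))⟦n⟧' := by simp
  rw [h1, hid, Functor.map_sum, Functor.map_sum, Preadditive.comp_sum]
  apply Finset.sum_eq_zero
  intro a _
  rw [Functor.map_comp, Functor.map_comp, ← Category.assoc, hF (j a) (f ≫ _), zero_comp]

theorem vv_inAdd_left {J : Type} {F : J → C} {M : C} (h : InAdd F M) (Y : C) (n : ℤ)
    (hF : ∀ j, VV (F j) Y n) : VV M Y n := by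
  obtain ⟨m, j, α, β, hid⟩ := h
  intro f
  have h1 : f = sg.map (𝟙 M) ≫ f := by simp
  rw [h1, hid, Functor.map_sum, Preadditive.sum_comp]
  apply Finset.sum_eq_zero
  intro a _
  rw [Functor.map_comp, Category.assoc, hF (j a) (_ ≫ f), comp_zero]

end H60.KZ
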