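import Pool.Agent.H60.KZ.Sy0

/-!
# Systems of morphisms attached to natural transformations `𝟭 ⟶ Φ`

`Φ` is a `k`-linear self-equivalence of a triangulated category, `z a : 𝟭 ⟶ Φ` are natural
transformations with `Φ (z X) = z (Φ X)`.  For objects `X`, `Y` the spaces `Hom(X, Φ^n Y)` form a
system `VS X Y`.
-/

universe u v w

namespace H60.KZ

open CategoryTheory CategoryTheory.Limits CategoryTheory.Pretriangulated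

section

variable {𝒟 : Type w} [Category.{v} 𝒟] (Φ : 𝒟 ⥤ 𝒟)

/-- The iterates `Φ^n Y`. -/
def pw : ℕ → 𝒟 → 𝒟
  | 0, Y => Y
  | n + 1, Y => Φ.obj (pw n Y)

/-- The iterates `Φ^n f`. -/
def pwMap : (n : ℕ) → {Y Y' : 𝒟} → (Y ⟶ Y') → (pw Φ n Y ⟶ pw Φ n Y')
  | 0, _, _, f => f
  | n + 1, _, _, f => Φ.map (pwMap n f)

variable {Φ}

/-- The component of `ℓ : 𝟭 ⟶ Φ` at `Z`. -/
def tr (ℓ : 𝟭 𝒟 ⟶ Φ) (Z : 𝒟) : Z ⟶ Φ.obj Z := ℓ.app Z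

theorem tr_nat (ℓ : 𝟭 𝒟 ⟶ Φ) {Y Z : 𝒟} (f : Y ⟶ Z) : f ≫ tr ℓ Z = tr ℓ Y ≫ Φ.map f :=
  ℓ.naturality f

end

section

variable (k : Type u) [Field k] {𝒟 : Type w} [Category.{v} 𝒟] [Preadditive 𝒟] [Linear k 𝒟]
  (Φ : 𝒟 ⥤ 𝒟) {ι : Type} (z : ι → (𝟭 𝒟 ⟶ Φ))

variable {Φ} in
/-- The operator `f ↦ f ≫ ℓ_Z` on `Hom(X, Z)`. -/
def opL (ℓ : 𝟭 𝒟 ⟶ Φ) (X Z : 𝒟) : (X ⟶ Z) →ₗ[k] (X ⟶ Φ.obj Z) where
  toFun f := f ≫ tr ℓ Z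
  map_add' f g := by rw [Preadditive.add_comp]
  map_smul' r f := by rw [Linear.smul_comp]; rfl

/-- The compatibility of the natural transformations with `Φ`. -/
def ZPhi : Prop := ∀ a X, Φ.map (tr (z a) X) = tr (z a) (Φ.obj X)

variable {Φ z} in
theorem tr_comm (hz : ZPhi Φ z) (a b : ι) {X Z : 𝒟} (f : X ⟶ Z) :
    (f ≫ tr (z b) Z) ≫ tr (z a) (Φ.obj Z) = (f ≫ tr (z a) Z) ≫ tr (z b) (Φ.obj Z) := by
  rw [Category.assoc, Category.assoc, tr_nat (z a) (tr (z b) Z), hz b Z]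

/-- The system `Hom(X, Φ^n Y)`. -/
def VS (hz : ZPhi Φ z) (X Y : 𝒟) : Sys.{u, v, 0} k ι where
  V n := X ⟶ pw Φ n Y
  op a n := opL k (z a) X (pw Φ n Y)
  comm a b _ f := tr_comm hz a b f

end

section

variable {𝒟 : Type w} [Category.{v} 𝒟]

/-- `f` is zero on all morphisms to objects of the class `G m i`, `i ≥ I`. -/
def CoGh [HasZeroMorphisms 𝒟] (G : ℤ → ℤ → 𝒟) (I : ℤ) {X Y : 𝒟} (f : X ⟶ Y) : Prop :=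
  ∀ m i, I ≤ i → ∀ g : Y ⟶ G m i, f ≫ g = 0

/-- `f` is a composite of `n` morphisms with the property `CoGh G I` (up to precomposition). -/
def CoGhN [HasZeroMorphisms 𝒟] (G : ℤ → ℤ → 𝒟) (I : ℤ) : (n : ℕ) → {X Y : 𝒟} → (X ⟶ Y) → Prop
  | 0, _, _, _ => True
  | n + 1, X, Y, f => ∃ (Z : 𝒟) (f₁ : X ⟶ Z) (f₂ : Z ⟶ Y), CoGhN G I n f₁ ∧ CoGh G I f₂ ∧
      f = f₁ ≫ f₂

end

/-- The data and hypotheses of the abstract theorem: see the fields. -/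
structure ATHyp (k : Type u) [Field k] (𝒟 : Type w) [Category.{v} 𝒟] [Preadditive 𝒟]
    [Linear k 𝒟] [HasZeroObject 𝒟] [HasShift 𝒟 ℤ] [∀ n : ℤ, (shiftFunctor 𝒟 n).Additive]
    [∀ n : ℤ, (shiftFunctor 𝒟 n).Linear k] [Pretriangulated 𝒟]
    (Φ : 𝒟 ⥤ 𝒟) [Φ.IsEquivalence] [Φ.Additive] [Φ.Linear k]
    (c : ℕ) (z : Fin c → (𝟭 𝒟 ⟶ Φ)) (s : ℕ) (d : ℤ) where
  /-- `Φ z = z Φ` -/
  hz : ZPhi Φ z
  /-- comparison of `Φ` with the shift -/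
  κ : ∀ X : 𝒟, (Φ.obj X)⟦(1 : ℤ)⟧ ≅ Φ.obj (X⟦(1 : ℤ)⟧)
  /-- the `z a` commute with the shift -/
  hκ : ∀ a X, (tr (z a) X)⟦(1 : ℤ)⟧' ≫ (κ X).hom = tr (z a) (X⟦(1 : ℤ)⟧)
  /-- the test objects `G m i = S⟨-(m+i)⟩[i]` -/
  G : ℤ → ℤ → 𝒟
  /-- the projective-injective objects `P m i = B⟨-(m+i)⟩[i]` -/
  P : ℤ → ℤ → 𝒟
  hd : 1 ≤ d
  φG : ∀ m i, Nonempty (Φ.obj (G m i) ≅ G m (i + d))
  φP : ∀ m i, Nonempty (Φ.obj (P m i) ≅ P m (i + d))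
  γG : ∀ m i, Nonempty ((G (m + 1) (i - 1))⟦(1 : ℤ)⟧ ≅ G m i)
  γP : ∀ m i, Nonempty ((P (m + 1) (i - 1))⟦(1 : ℤ)⟧ ≅ P m i)
  /-- bound for the strands -/
  r : ℤ
  hr : ∀ m i, (m < - r ∨ r < m ∨ i < - r) → ∀ f : G 0 0 ⟶ G m i, f = 0
  /-- finite generation -/
  fg : ∀ m i, (VS k Φ z hz (G 0 0) (G m i)).FG Finset.univ
  /-- morphisms to the projective-injective objects -/
  hP : ∀ m i, - (s : ℤ) < m → ∀ f : G 0 0 ⟶ P m i, f = 0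
  /-- lifting property -/
  hlift : ∀ m i (X : 𝒟) (x : X ⟶ G m i),
    (∀ t : ℕ, t < s → ∀ y : X ⟶ G (m + t) (i + 1), y = 0) → x ≠ 0 → ∃ y : X ⟶ P m i, y ≠ 0
  /-- the class of bounded objects of finite length -/
  Bd : 𝒟 → Prop
  bdS : Bd (G 0 0)
  bdIso : ∀ X Y, Nonempty (X ≅ Y) → Bd X → Bd Y
  bdΦ : ∀ X, Bd (Φ.obj X) → Bd X
  bdTri : ∀ T ∈ distTriang 𝒟, Bd T.obj₁ → Bd T.obj₂ → Bd T.obj₃
  /-- composites of `s` coghosts starting at `S` vanish after a morphism which is injective on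
  morphisms from `S` in high degrees -/
  hcomp : ∀ X, Bd X → ∀ I : ℤ, ∃ (M : 𝒟) (g : X ⟶ M),
    (∀ h : G 0 0 ⟶ X, CoGhN G I s h → h ≫ g = 0) ∧
    ∃ n1, ∀ n, n1 ≤ n → ∀ f : G 0 0 ⟶ pw Φ n X, f ≫ pwMap Φ n g = 0 → f = 0

end H60.KZ
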