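import Pool.Agent.H60.KZ.SyA

/-!
# Row SyB: finite generation in exact sequences of systems

All proofs are short.

* `fg_of_equiv`, `fg_of_equiv_succ`, `fg_of_equiv_pred`: transport of the definition (finite
  dimension by `Module.Finite.equiv`, the operators are compatible with the equivalences; take the
  maximum of the indices, resp. shift the index by one).
* `fg_of_exact`: let `v : M₂.V (n+1)`, `n` large.  `N n = range (ψ n)` is a stable family in `M₃`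
  (`IsHom`), so `gen_of_stab` gives `ψ v = Σ op a (ψ (f a))` for some `f a : M₂.V n`.  Then
  `v - Σ op a (f a)` is in the kernel of `ψ (n+1)`, so it is `φ u`, and `u = Σ op a (g a)`, hence
  `v = Σ op a (f a + φ (g a))`.  Finite dimension: `ker ψ = range φ`-part is finite dimensional
  (quotient of `M₁.V n`) and `range ψ ≤ M₃.V n`; `Module.Finite` of an extension.
* `fg_erase`: same proof with `N n = range (ψ n)`, using `h3` to drop the term `a = t` in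
  `Σ op a (ψ (f a))` and `h1` to drop the term `a = t` in `φ (Σ op a (g a))`.
  (`Finset.sum_erase`.)
* `zero_of_fg_empty`: the sum over the empty set.
-/

universe u v w

namespace H60.KZ.Sys

variable {k : Type u} [Field k] {ι : Type w}

theorem fg_of_equiv {M N : Sys.{u, v, w} k ι} {A : Finset ι} (e : ∀ n, M.V n ≃ₗ[k] N.V n)
    (he : ∀ a n v, e (n + 1) (M.op a n v) = N.op a n (e n v)) (hM : M.FG A) : N.FG A := by
  obtain ⟨n0, h⟩ := hM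
  refine ⟨n0, fun n hn => ?_⟩
  obtain ⟨h1, h2⟩ := h n hn
  refine ⟨Module.Finite.equiv (e n), fun v => ?_⟩
  obtain ⟨f, hf⟩ := h2 ((e (n + 1)).symm v)
  refine ⟨fun a => e n (f a), ?_⟩
  have h3 := congrArg (e (n + 1)) hf
  rw [LinearEquiv.apply_symm_apply, map_sum] at h3
  rw [h3]
  exact Finset.sum_congr rfl fun a _ => he a n (f a)

theorem fg_of_equiv_succ {M N : Sys.{u, v, w} k ι} {A : Finset ι}
    (e : ∀ n, M.V (n + 1) ≃ₗ[k] N.V n)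
    (he : ∀ a n v, e (n + 1) (M.op a (n + 1) v) = N.op a n (e n v)) (hM : M.FG A) : N.FG A := by
  obtain ⟨n0, h⟩ := hM
  refine ⟨n0, fun n hn => ?_⟩
  obtain ⟨h1, h2⟩ := h (n + 1) (by omega)
  refine ⟨Module.Finite.equiv (e n), fun v => ?_⟩
  obtain ⟨f, hf⟩ := h2 ((e (n + 1)).symm v)
  refine ⟨fun a => e n (f a), ?_⟩
  have h3 := congrArg (e (n + 1)) hf
  rw [LinearEquiv.apply_symm_apply, map_sum] at h3
  rw [h3]
  exact Finset.sum_congr rfl fun a _ => he a n (f a)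

theorem fg_of_equiv_pred {M N : Sys.{u, v, w} k ι} {A : Finset ι}
    (e : ∀ n, M.V n ≃ₗ[k] N.V (n + 1))
    (he : ∀ a n v, e (n + 1) (M.op a n v) = N.op a (n + 1) (e n v)) (hM : M.FG A) : N.FG A := by
  obtain ⟨n0, h⟩ := hM
  refine ⟨n0 + 1, fun n hn => ?_⟩
  obtain ⟨m, rfl⟩ : ∃ m, n = m + 1 := ⟨n - 1, by omega⟩
  obtain ⟨h1, h2⟩ := h m (by omega)
  refine ⟨Module.Finite.equiv (e m), fun v => ?_⟩
  obtain ⟨f, hf⟩ := h2 ((e (m + 1)).symm v)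
  refine ⟨fun a => e m (f a), ?_⟩
  have h3 := congrArg (e (m + 1)) hf
  rw [LinearEquiv.apply_symm_apply, map_sum] at h3
  rw [h3]
  exact Finset.sum_congr rfl fun a _ => he a m (f a)

theorem syb_core {M₁ M₂ M₃ : Sys.{u, v, w} k ι} {A B : Finset ι}
    (φ : ∀ n, M₁.V n →ₗ[k] M₂.V n) (ψ : ∀ n, M₂.V n →ₗ[k] M₃.V n)
    (hφ : M₁.IsHom M₂ φ) (hψ : M₂.IsHom M₃ ψ)
    (hex : ∀ n v, ψ n v = 0 → ∃ u, φ n u = v) (h1 : M₁.FG A) (h3 : M₃.FG A)
    (hB3 : ∀ n (f : ι → M₂.V n), ∑ a ∈ A, M₃.op a n (ψ n (f a)) =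
      ∑ a ∈ B, M₃.op a n (ψ n (f a)))
    (hB1 : ∀ n (g : ι → M₁.V n), ∑ a ∈ A, φ (n + 1) (M₁.op a n (g a)) =
      ∑ a ∈ B, φ (n + 1) (M₁.op a n (g a))) : M₂.FG B := by
  obtain ⟨n4, h4⟩ := gen_of_stab M₃ A h3 (fun n => LinearMap.range (ψ n)) (by
    rintro a _ n _ ⟨v, rfl⟩
    exact ⟨M₂.op a n v, hψ a n v⟩)
  obtain ⟨n1, h1⟩ := h1
  obtain ⟨n3, h3⟩ := h3
  refine ⟨max n1 (max n3 n4), fun n hn => ?_⟩
  obtain ⟨f1, g1⟩ := h1 n (by omega)
  obtain ⟨f3, g3⟩ := h3 n (by omega)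
  have h4' := h4 n (by omega)
  refine ⟨?_, ?_⟩
  · have hle : LinearMap.ker (ψ n) ≤ LinearMap.range (φ n) := by
      intro v hv
      exact hex n v hv
    haveI : FiniteDimensional k (LinearMap.ker (ψ n)) := Submodule.finiteDimensional_of_le hle
    haveI : Module.Finite k (M₂.V n ⧸ LinearMap.ker (ψ n)) :=
      Module.Finite.equiv (ψ n).quotKerEquivRange.symm
    exact Module.Finite.of_submodule_quotient (LinearMap.ker (ψ n))
  · intro v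
    obtain ⟨f', hf', hv⟩ := h4' (ψ (n + 1) v) ⟨v, rfl⟩
    choose f hf using hf'
    have hv2 : ψ (n + 1) (v - ∑ a ∈ B, M₂.op a n (f a)) = 0 := by
      rw [map_sub, hv, map_sum, sub_eq_zero]
      have h5 : ∑ a ∈ A, M₃.op a n (f' a) = ∑ a ∈ A, M₃.op a n (ψ n (f a)) :=
        Finset.sum_congr rfl fun a _ => by rw [hf a]
      rw [h5, hB3]
      exact Finset.sum_congr rfl fun a _ => (hψ a n (f a)).symm
    obtain ⟨u, hu⟩ := hex _ _ hv2
    obtain ⟨g, hg⟩ := g1 u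
    refine ⟨fun a => f a + φ n (g a), ?_⟩
    have h6 : φ (n + 1) u = ∑ a ∈ B, M₂.op a n (φ n (g a)) := by
      rw [hg, map_sum, hB1]
      exact Finset.sum_congr rfl fun a _ => hφ a n (g a)
    simp only [map_add]
    rw [Finset.sum_add_distrib, ← h6, hu]
    abel

theorem fg_of_exact {M₁ M₂ M₃ : Sys.{u, v, w} k ι} {A : Finset ι}
    (φ : ∀ n, M₁.V n →ₗ[k] M₂.V n) (ψ : ∀ n, M₂.V n →ₗ[k] M₃.V n)
    (hφ : M₁.IsHom M₂ φ) (hψ : M₂.IsHom M₃ ψ)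
    (hex : ∀ n v, ψ n v = 0 → ∃ u, φ n u = v) (h1 : M₁.FG A) (h3 : M₃.FG A) : M₂.FG A :=
  syb_core φ ψ hφ hψ hex h1 h3 (fun _ _ => rfl) (fun _ _ => rfl)

theorem fg_erase [DecidableEq ι] {M₁ M₂ M₃ : Sys.{u, v, w} k ι} {A : Finset ι} (t : ι)
    (φ : ∀ n, M₁.V n →ₗ[k] M₂.V n) (ψ : ∀ n, M₂.V n →ₗ[k] M₃.V n)
    (hφ : M₁.IsHom M₂ φ) (hψ : M₂.IsHom M₃ ψ)
    (hex : ∀ n v, ψ n v = 0 → ∃ u, φ n u = v) (h1 : M₁.FG A) (h3 : M₃.FG A)
    (ht1 : ∀ n v, φ (n + 1) (M₁.op t n v) = 0) (ht3 : ∀ n v, M₃.op t n (ψ n v) = 0) :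
    M₂.FG (A.erase t) :=
  syb_core φ ψ hφ hψ hex h1 h3
    (fun n f => (Finset.sum_erase A (f := fun a => M₃.op a n (ψ n (f a))) (ht3 n (f t))).symm)
    (fun n g => (Finset.sum_erase A (f := fun a => φ (n + 1) (M₁.op a n (g a)))
      (ht1 n (g t))).symm)

theorem zero_of_fg_empty {M : Sys.{u, v, w} k ι} (hM : M.FG ∅) :
    ∃ n0, ∀ n, n0 ≤ n → ∀ v : M.V n, v = 0 := by
  obtain ⟨n0, h⟩ := hM
  refine ⟨n0 + 1, fun n hn => ?_⟩
  obtain ⟨m, rfl⟩ : ∃ m, n = m + 1 := ⟨n - 1, by omega⟩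
  intro v
  obtain ⟨f, hf⟩ := (h m (by omega)).2 v
  rw [hf, Finset.sum_empty]

end H60.KZ.Sys
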