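import Pool.Agent.H60.KZ.At0
import Pool.Agent.H60.KZ.SyB

/-!
# Row At1: transport of finite generation between the systems `VS X Y`

`Φ.inv` is the inverse equivalence, `Φ.asEquivalence : 𝒟 ≌ 𝒟` has functor `Φ` and inverse
`Φ.inv`, with unit `X ≅ Φ.inv (Φ X)` and counit `Φ (Φ.inv X) ≅ X`.

* `fg_iso_left`: `f ↦ e.inv ≫ f` is an isomorphism of systems (`fg_of_equiv`).
* `fg_iso_right`: `f ↦ f ≫ pwMap Φ n e.hom`; it commutes with the operators by `tr_nat`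
  (`pwMap Φ (n+1) f = Φ.map (pwMap Φ n f)` by `rfl`); the inverse is given by `e.inv`.
* `fg_psi_left`: `Hom(X, Φ^(n+1) Y) ≃ Hom(Φ.inv X, Φ^n Y)`: the inverse map sends
  `g : Φ.inv X ⟶ Φ^n Y` to `(counit_X)⁻¹ ≫ Φ.map g`, bijective since `Φ` is full and faithful.
  Compatible with the operators: `Φ.map (g ≫ tr (z a) Z) = Φ.map g ≫ tr (z a) (Φ.obj Z)`
  by `ZPhi`.  Use `fg_of_equiv_succ`.
* `fg_psi_right`: let `e 0 : Φ (Φ.inv Y) ≅ Y` be the counit and `e (n+1) = Φ.mapIso (e n)`, an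
  isomorphism `Φ^(n+1) (Φ.inv Y) ≅ Φ^n Y` (define it by recursion on `n`); then
  `f ↦ f ≫ (e n).hom` identifies `(VS X (Φ.inv Y)).V (n+1)` with `(VS X Y).V n`, compatible with
  the operators by `tr_nat`. Use `fg_of_equiv_pred` (applied to the inverse maps).
* `fg_shift`: define `κn n : (Φ^n Y)⟦1⟧ ≅ Φ^n (Y⟦1⟧)` by recursion: `κn 0 = Iso.refl`,
  `κn (n+1) = κ (Φ^n Y) ≪≫ Φ.mapIso (κn n)`.  The map `f ↦ f⟦1⟧' ≫ (κn n).hom` from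
  `Hom(X, Φ^n Y)` to `Hom(X⟦1⟧, Φ^n (Y⟦1⟧))` is a `k`-linear bijection (the shift functor is
  linear, full and faithful).  Operators: `(f ≫ tr (z a) Z)⟦1⟧' ≫ (κ Z).hom ≫ Φ.map (κn n).hom
  = f⟦1⟧' ≫ tr (z a) (Z⟦1⟧) ≫ Φ.map (κn n).hom = (f⟦1⟧' ≫ (κn n).hom) ≫ tr (z a) (Φ^n (Y⟦1⟧))`
  with `Z = Φ^n Y`, by `hκ` and `tr_nat`.  `fg_unshift`: the inverse isomorphism of systems.
-/

universe u v w

namespace H60.KZ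

open CategoryTheory CategoryTheory.Limits CategoryTheory.Pretriangulated

variable {k : Type u} [Field k] {𝒟 : Type w} [Category.{v} 𝒟] [Preadditive 𝒟] [Linear k 𝒟]
  {Φ : 𝒟 ⥤ 𝒟} {ι : Type} {z : ι → (𝟭 𝒟 ⟶ Φ)}

section At1aux

variable (k)

/-- precomposition with an isomorphism -/
def At1_left {X X' : 𝒟} (e : X ≅ X') (Z : 𝒟) : (X ⟶ Z) ≃ₗ[k] (X' ⟶ Z) where
  toFun f := e.inv ≫ f
  map_add' f g := by rw [Preadditive.comp_add]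
  map_smul' r f := by rw [Linear.comp_smul]; rfl
  invFun g := e.hom ≫ g
  left_inv f := by simp
  right_inv g := by simp

/-- postcomposition with an isomorphism -/
def At1_right (X : 𝒟) {Z Z' : 𝒟} (e : Z ≅ Z') : (X ⟶ Z) ≃ₗ[k] (X ⟶ Z') where
  toFun f := f ≫ e.hom
  map_add' f g := by rw [Preadditive.add_comp]
  map_smul' r f := by rw [Linear.smul_comp]; rfl
  invFun g := g ≫ e.inv
  left_inv f := by simp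
  right_inv g := by simp

/-- a full and faithful linear functor on morphisms -/
noncomputable def At1_map (F : 𝒟 ⥤ 𝒟) [F.Additive] [F.Linear k] [F.Full] [F.Faithful] (X Z : 𝒟) :
    (X ⟶ Z) ≃ₗ[k] (F.obj X ⟶ F.obj Z) where
  toFun f := F.map f
  map_add' f g := by rw [F.map_add]
  map_smul' r f := by rw [F.map_smul]; rfl
  invFun g := F.preimage g
  left_inv f := by simp
  right_inv g := by simp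

end At1aux

omit [Preadditive 𝒟] in
theorem At1_pwMap_comp (Φ : 𝒟 ⥤ 𝒟) (n : ℕ) : ∀ {Y Y' Y'' : 𝒟} (f : Y ⟶ Y') (g : Y' ⟶ Y''),
    pwMap Φ n (f ≫ g) = pwMap Φ n f ≫ pwMap Φ n g := by
  induction n with
  | zero => intro Y Y' Y'' f g; rfl
  | succ n ih =>
    intro Y Y' Y'' f g
    change Φ.map (pwMap Φ n (f ≫ g)) = Φ.map (pwMap Φ n f) ≫ Φ.map (pwMap Φ n g)
    rw [ih, Φ.map_comp]

omit [Preadditive 𝒟] in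
theorem At1_pwMap_id (Φ : 𝒟 ⥤ 𝒟) (n : ℕ) (Y : 𝒟) : pwMap Φ n (𝟙 Y) = 𝟙 (pw Φ n Y) := by
  induction n with
  | zero => rfl
  | succ n ih =>
    change Φ.map (pwMap Φ n (𝟙 Y)) = 𝟙 (Φ.obj (pw Φ n Y))
    rw [ih, Φ.map_id]

/-- iterates of an isomorphism -/
def At1_pwIso (Φ : 𝒟 ⥤ 𝒟) (n : ℕ) {Y Y' : 𝒟} (e : Y ≅ Y') : pw Φ n Y ≅ pw Φ n Y' where
  hom := pwMap Φ n e.hom
  inv := pwMap Φ n e.inv
  hom_inv_id := by rw [← At1_pwMap_comp, e.hom_inv_id, At1_pwMap_id]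
  inv_hom_id := by rw [← At1_pwMap_comp, e.inv_hom_id, At1_pwMap_id]

/-- the counit isomorphism -/
noncomputable def At1_ci (Φ : 𝒟 ⥤ 𝒟) [Φ.IsEquivalence] (X : 𝒟) : Φ.obj (Φ.inv.obj X) ≅ X :=
  Φ.asEquivalence.counitIso.app X

/-- `Φ^(n+1) (Φ.inv Y) ≅ Φ^n Y` -/
noncomputable def At1_cu (Φ : 𝒟 ⥤ 𝒟) [Φ.IsEquivalence] (Y : 𝒟) :
    (n : ℕ) → (pw Φ (n + 1) (Φ.inv.obj Y) ≅ pw Φ n Y)
  | 0 => At1_ci Φ Y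
  | n + 1 => Φ.mapIso (At1_cu Φ Y n)

/-- `(Φ^n Y)⟦1⟧ ≅ Φ^n (Y⟦1⟧)` -/
noncomputable def At1_kn [HasShift 𝒟 ℤ] (κ : ∀ X : 𝒟, (Φ.obj X)⟦(1 : ℤ)⟧ ≅ Φ.obj (X⟦(1 : ℤ)⟧))
    (Y : 𝒟) : (n : ℕ) → ((pw Φ n Y)⟦(1 : ℤ)⟧ ≅ pw Φ n (Y⟦(1 : ℤ)⟧))
  | 0 => Iso.refl _
  | n + 1 => κ (pw Φ n Y) ≪≫ Φ.mapIso (At1_kn κ Y n)

omit [Preadditive 𝒟] in
theorem At1_shift_he [HasShift 𝒟 ℤ] (κ : ∀ X : 𝒟, (Φ.obj X)⟦(1 : ℤ)⟧ ≅ Φ.obj (X⟦(1 : ℤ)⟧))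
    (hκ : ∀ a X, (tr (z a) X)⟦(1 : ℤ)⟧' ≫ (κ X).hom = tr (z a) (X⟦(1 : ℤ)⟧))
    {X Y : 𝒟} (a : ι) (n : ℕ) (v : X ⟶ pw Φ n Y) :
    (v ≫ tr (z a) (pw Φ n Y))⟦(1 : ℤ)⟧' ≫ (At1_kn κ Y (n + 1)).hom
      = (v⟦(1 : ℤ)⟧' ≫ (At1_kn κ Y n).hom) ≫ tr (z a) (pw Φ n (Y⟦(1 : ℤ)⟧)) := by
  change (v ≫ tr (z a) (pw Φ n Y))⟦(1 : ℤ)⟧' ≫ ((κ (pw Φ n Y)).hom ≫ Φ.map (At1_kn κ Y n).hom)
      = (v⟦(1 : ℤ)⟧' ≫ (At1_kn κ Y n).hom) ≫ tr (z a) (pw Φ n (Y⟦(1 : ℤ)⟧))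
  rw [Functor.map_comp, Category.assoc, ← Category.assoc _ (κ (pw Φ n Y)).hom, hκ a (pw Φ n Y),
    Category.assoc, tr_nat]

/-- the equivalence of systems given by the shift -/
noncomputable def At1_shE [HasShift 𝒟 ℤ] [∀ n : ℤ, (shiftFunctor 𝒟 n).Additive]
    [∀ n : ℤ, (shiftFunctor 𝒟 n).Linear k]
    (κ : ∀ X : 𝒟, (Φ.obj X)⟦(1 : ℤ)⟧ ≅ Φ.obj (X⟦(1 : ℤ)⟧)) (X Y : 𝒟) (n : ℕ) :
    (X ⟶ pw Φ n Y) ≃ₗ[k] (X⟦(1 : ℤ)⟧ ⟶ pw Φ n (Y⟦(1 : ℤ)⟧)) :=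
  (At1_map k (shiftFunctor 𝒟 (1 : ℤ)) X (pw Φ n Y)).trans
    (At1_right k (X⟦(1 : ℤ)⟧) (At1_kn κ Y n))

/-- `Hom(Φ⁻¹ X, Z) ≃ Hom(X, Φ Z)` -/
noncomputable def At1_psE [Φ.IsEquivalence] [Φ.Additive] [Φ.Linear k] (X Z : 𝒟) :
    (Φ.inv.obj X ⟶ Z) ≃ₗ[k] (X ⟶ Φ.obj Z) :=
  (At1_map k Φ (Φ.inv.obj X) Z).trans (At1_left k (At1_ci Φ X) (Φ.obj Z))

theorem At1_psi_he [Φ.IsEquivalence] [Φ.Additive] [Φ.Linear k] (hz : ZPhi Φ z) {X Y : 𝒟} (a : ι)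
    (n : ℕ) (v : X ⟶ Φ.obj (pw Φ n Y)) :
    (At1_psE (k := k) (Φ := Φ) X (Φ.obj (pw Φ n Y))).symm (v ≫ tr (z a) (Φ.obj (pw Φ n Y)))
      = (At1_psE (k := k) (Φ := Φ) X (pw Φ n Y)).symm v ≫ tr (z a) (pw Φ n Y) := by
  obtain ⟨w, rfl⟩ := (At1_psE (k := k) (Φ := Φ) X (pw Φ n Y)).surjective v
  rw [LinearEquiv.symm_apply_apply]
  apply (LinearEquiv.symm_apply_eq _).mpr
  change ((At1_ci Φ X).inv ≫ Φ.map w) ≫ tr (z a) (Φ.obj (pw Φ n Y))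
    = (At1_ci Φ X).inv ≫ Φ.map (w ≫ tr (z a) (pw Φ n Y))
  rw [Φ.map_comp, hz a (pw Φ n Y), Category.assoc]

theorem At1_symm_he {M N : Sys.{u, v, 0} k ι} (e : ∀ n, M.V n ≃ₗ[k] N.V n)
    (he : ∀ a n v, e (n + 1) (M.op a n v) = N.op a n (e n v)) (a : ι) (n : ℕ) (v : N.V n) :
    (e (n + 1)).symm (N.op a n v) = M.op a n ((e n).symm v) := by
  rw [LinearEquiv.symm_apply_eq, he, LinearEquiv.apply_symm_apply]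

theorem fg_iso_left (hz : ZPhi Φ z) {A : Finset ι} {X X' Y : 𝒟} (e : X ≅ X')
    (h : (VS k Φ z hz X Y).FG A) : (VS k Φ z hz X' Y).FG A := by
  refine Sys.fg_of_equiv (M := VS k Φ z hz X Y) (N := VS k Φ z hz X' Y)
    (fun n => At1_left k e (pw Φ n Y)) ?_ h
  intro a n v
  exact (Category.assoc e.inv v (tr (z a) (pw Φ n Y))).symm

theorem fg_iso_right [Φ.Additive] [Φ.Linear k] (hz : ZPhi Φ z) {A : Finset ι} {X Y Y' : 𝒟}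
    (e : Y ≅ Y') (h : (VS k Φ z hz X Y).FG A) : (VS k Φ z hz X Y').FG A := by
  refine Sys.fg_of_equiv (M := VS k Φ z hz X Y) (N := VS k Φ z hz X Y')
    (fun n => At1_right k X (At1_pwIso Φ n e)) ?_ h
  intro a n v
  change (v ≫ tr (z a) (pw Φ n Y)) ≫ Φ.map (pwMap Φ n e.hom)
    = (v ≫ pwMap Φ n e.hom) ≫ tr (z a) (pw Φ n Y')
  rw [Category.assoc, Category.assoc, tr_nat]

theorem fg_psi_left [Φ.IsEquivalence] [Φ.Additive] [Φ.Linear k] (hz : ZPhi Φ z) {A : Finset ι}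
    {X Y : 𝒟} (h : (VS k Φ z hz X Y).FG A) : (VS k Φ z hz (Φ.inv.obj X) Y).FG A := by
  exact Sys.fg_of_equiv_succ (M := VS k Φ z hz X Y) (N := VS k Φ z hz (Φ.inv.obj X) Y)
    (fun n => (At1_psE (k := k) (Φ := Φ) X (pw Φ n Y)).symm)
    (fun a n v => At1_psi_he hz a n v) h

theorem fg_psi_right [Φ.IsEquivalence] [Φ.Additive] [Φ.Linear k] (hz : ZPhi Φ z) {A : Finset ι}
    {X Y : 𝒟} (h : (VS k Φ z hz X Y).FG A) : (VS k Φ z hz X (Φ.inv.obj Y)).FG A := by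
  refine Sys.fg_of_equiv_pred (M := VS k Φ z hz X Y) (N := VS k Φ z hz X (Φ.inv.obj Y))
    (fun n => (At1_right k X (At1_cu Φ Y n)).symm) ?_ h
  intro a n v
  change (v ≫ tr (z a) (pw Φ n Y)) ≫ Φ.map (At1_cu Φ Y n).inv
    = (v ≫ (At1_cu Φ Y n).inv) ≫ tr (z a) (pw Φ (n + 1) (Φ.inv.obj Y))
  rw [Category.assoc, Category.assoc, tr_nat]

/-- Converse of `fg_shift`. -/
theorem fg_unshift [HasShift 𝒟 ℤ] [∀ n : ℤ, (shiftFunctor 𝒟 n).Additive]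
    [∀ n : ℤ, (shiftFunctor 𝒟 n).Linear k] [Φ.Additive] [Φ.Linear k] (hz : ZPhi Φ z)
    (κ : ∀ X : 𝒟, (Φ.obj X)⟦(1 : ℤ)⟧ ≅ Φ.obj (X⟦(1 : ℤ)⟧))
    (hκ : ∀ a X, (tr (z a) X)⟦(1 : ℤ)⟧' ≫ (κ X).hom = tr (z a) (X⟦(1 : ℤ)⟧))
    {A : Finset ι} {X Y : 𝒟} (h : (VS k Φ z hz (X⟦(1 : ℤ)⟧) (Y⟦(1 : ℤ)⟧)).FG A) :
    (VS k Φ z hz X Y).FG A := by
  refine Sys.fg_of_equiv (M := VS k Φ z hz (X⟦(1 : ℤ)⟧) (Y⟦(1 : ℤ)⟧)) (N := VS k Φ z hz X Y)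
    (fun n => (At1_shE (k := k) κ X Y n).symm) ?_ h
  intro a n v
  exact At1_symm_he (M := VS k Φ z hz X Y) (N := VS k Φ z hz (X⟦(1 : ℤ)⟧) (Y⟦(1 : ℤ)⟧))
    (fun n => At1_shE (k := k) κ X Y n) (fun a n v => At1_shift_he κ hκ a n v) a n v

theorem fg_shift [HasShift 𝒟 ℤ] [∀ n : ℤ, (shiftFunctor 𝒟 n).Additive]
    [∀ n : ℤ, (shiftFunctor 𝒟 n).Linear k] [Φ.Additive] [Φ.Linear k] (hz : ZPhi Φ z)
    (κ : ∀ X : 𝒟, (Φ.obj X)⟦(1 : ℤ)⟧ ≅ Φ.obj (X⟦(1 : ℤ)⟧))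
    (hκ : ∀ a X, (tr (z a) X)⟦(1 : ℤ)⟧' ≫ (κ X).hom = tr (z a) (X⟦(1 : ℤ)⟧))
    {A : Finset ι} {X Y : 𝒟} (h : (VS k Φ z hz X Y).FG A) :
    (VS k Φ z hz (X⟦(1 : ℤ)⟧) (Y⟦(1 : ℤ)⟧)).FG A := by
  exact Sys.fg_of_equiv (M := VS k Φ z hz X Y) (N := VS k Φ z hz (X⟦(1 : ℤ)⟧) (Y⟦(1 : ℤ)⟧))
    (fun n => At1_shE (k := k) κ X Y n) (fun a n v => At1_shift_he κ hκ a n v) h

end H60.KZ
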