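import Pool.Agent.H60.KZ.At0
import Pool.Agent.H60.KZ.SyB

/-!
# Row At2: exactness, and the cone of `ℓ : Φ.inv D ⟶ D`

Let `ε : Φ (Φ.inv D) ≅ D` be the counit of `Φ.asEquivalence`.

* `exact_right`: `Φ` is an equivalence, hence so is `Φ^n`: there are an object `X'` and an
  isomorphism `e : X ≅ pw Φ n X'`, and `pwMap Φ n` is bijective on morphisms (induction on `n`,
  `Φ` is full, faithful and essentially surjective; prove these two facts first).  Write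
  `e.inv ≫ f = pwMap Φ n f'` with `f' : X' ⟶ T.obj₂`.  Then `pwMap Φ n (f' ≫ T.mor₂) = 0`, so
  `f' ≫ T.mor₂ = 0` and `f' = f'' ≫ T.mor₁` (`Triangle.coyoneda_exact₂`), hence
  `f = (e.hom ≫ pwMap Φ n f'') ≫ pwMap Φ n T.mor₁`.
* `fg_tri_right`: `f ↦ f ≫ pwMap Φ n T.mor₁`, `f ↦ f ≫ pwMap Φ n T.mor₂` are morphisms of
  systems (`tr_nat`), linear, and exact in the middle by `exact_right`; use `Sys.fg_of_exact`.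
* `uu ℓ D = tr ℓ (Φ.inv D) ≫ ε_D`.
* `map_uu`: `Φ.map (uu ℓ D) = Φ.map (tr ℓ (Φ.inv D)) ≫ Φ.map ε = tr ℓ (Φ (Φ.inv D)) ≫ Φ.map ε
  = ε ≫ tr ℓ D` by `hℓ` and `tr_nat`.
* `uu_comp_eq_zero_iff`: `Φ.map (uu ℓ D ≫ g) = ε ≫ tr ℓ D ≫ Φ.map g = ε ≫ g ≫ tr ℓ Z`
  (`map_uu`, `tr_nat`); `Φ` is faithful and additive, `ε` is an isomorphism.
* `ker_cone`: by `exact_right` (with `n+1`) `f = f' ≫ pwMap Φ (n+1) (uu ℓ D)`, where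
  `f' : X ⟶ pw Φ (n+1) (Φ.inv D)`.  With the isomorphisms `e 0 = ε`, `e (n+1) = Φ.mapIso (e n)`
  from `pw Φ (n+1) (Φ.inv D)` to `pw Φ n D` one has
  `pwMap Φ (n+1) (uu ℓ D) = (e n).hom ≫ tr ℓ (pw Φ n D)` (induction: `n = 0` is `map_uu`, and
  `Φ.map ((e n).hom ≫ tr ℓ Z) = Φ.map (e n).hom ≫ tr ℓ (Φ Z)` by `hℓ`).
  So `f = (f' ≫ (e n).hom) ≫ tr ℓ (pw Φ n D)`.
-/

universe u v w

namespace H60.KZ

open CategoryTheory CategoryTheory.Limits CategoryTheory.Pretriangulated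

variable {k : Type u} [Field k] {𝒟 : Type w} [Category.{v} 𝒟] [Preadditive 𝒟] [Linear k 𝒟]
  [HasZeroObject 𝒟] [HasShift 𝒟 ℤ] [∀ n : ℤ, (shiftFunctor 𝒟 n).Additive] [Pretriangulated 𝒟]
  {Φ : 𝒟 ⥤ 𝒟} [Φ.IsEquivalence] [Φ.Additive]

theorem At2_pwMap_comp {𝒞 : Type w} [Category.{v} 𝒞] (Ψ : 𝒞 ⥤ 𝒞) (n : ℕ) {X Y Z : 𝒞}
    (f : X ⟶ Y) (g : Y ⟶ Z) : pwMap Ψ n (f ≫ g) = pwMap Ψ n f ≫ pwMap Ψ n g := by
  induction n with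
  | zero => rfl
  | succ n ih =>
    show Ψ.map (pwMap Ψ n (f ≫ g)) = Ψ.map (pwMap Ψ n f) ≫ Ψ.map (pwMap Ψ n g)
    rw [ih, Ψ.map_comp]

theorem At2_pwMap_surj {𝒞 : Type w} [Category.{v} 𝒞] (Ψ : 𝒞 ⥤ 𝒞) [Ψ.Full] (n : ℕ) {X Y : 𝒞}
    (g : pw Ψ n X ⟶ pw Ψ n Y) : ∃ f : X ⟶ Y, pwMap Ψ n f = g := by
  induction n with
  | zero => exact ⟨g, rfl⟩
  | succ n ih =>
    obtain ⟨g', hg'⟩ := Ψ.map_surjective (X := pw Ψ n X) (Y := pw Ψ n Y) g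
    obtain ⟨f, hf⟩ := ih g'
    refine ⟨f, ?_⟩
    show Ψ.map (pwMap Ψ n f) = g
    rw [hf, hg']

theorem At2_pwMap_inj {𝒞 : Type w} [Category.{v} 𝒞] [Preadditive 𝒞] (Ψ : 𝒞 ⥤ 𝒞) [Ψ.Faithful]
    [Ψ.Additive] (n : ℕ) {X Y : 𝒞} (f : X ⟶ Y) (h : pwMap Ψ n f = 0) : f = 0 := by
  induction n with
  | zero => exact h
  | succ n ih =>
    apply ih
    apply Ψ.map_injective
    rw [Ψ.map_zero]
    exact h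

theorem At2_pw_surj {𝒞 : Type w} [Category.{v} 𝒞] (Ψ : 𝒞 ⥤ 𝒞) [Ψ.IsEquivalence] (n : ℕ)
    (X : 𝒞) : ∃ X', Nonempty (X ≅ pw Ψ n X') := by
  induction n generalizing X with
  | zero => exact ⟨X, ⟨Iso.refl _⟩⟩
  | succ n ih =>
    obtain ⟨X', ⟨e⟩⟩ := ih (Ψ.inv.obj X)
    exact ⟨X', ⟨(Ψ.asEquivalence.counitIso.app X).symm ≪≫ Ψ.mapIso e⟩⟩

omit [Linear k 𝒟] [Field k] in
theorem exact_right (T : Triangle 𝒟) (hT : T ∈ distTriang 𝒟) {X : 𝒟} (n : ℕ)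
    (f : X ⟶ pw Φ n T.obj₂) (hf : f ≫ pwMap Φ n T.mor₂ = 0) :
    ∃ f' : X ⟶ pw Φ n T.obj₁, f = f' ≫ pwMap Φ n T.mor₁ := by
  obtain ⟨X', ⟨e⟩⟩ := At2_pw_surj Φ n X
  obtain ⟨f', hf'⟩ := At2_pwMap_surj Φ n (e.inv ≫ f)
  have h1 : f' ≫ T.mor₂ = 0 := by
    apply At2_pwMap_inj Φ n
    rw [At2_pwMap_comp, hf', Category.assoc, hf, comp_zero]
  obtain ⟨f'', hf''⟩ := Triangle.coyoneda_exact₂ T hT f' h1
  refine ⟨e.hom ≫ pwMap Φ n f'', ?_⟩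
  rw [Category.assoc, ← At2_pwMap_comp, ← hf'', hf', Iso.hom_inv_id_assoc]

theorem fg_tri_right [Φ.Linear k] {ι : Type} {z : ι → (𝟭 𝒟 ⟶ Φ)} (hz : ZPhi Φ z)
    {A : Finset ι} (T : Triangle 𝒟) (hT : T ∈ distTriang 𝒟) {X : 𝒟}
    (h1 : (VS k Φ z hz X T.obj₁).FG A) (h3 : (VS k Φ z hz X T.obj₃).FG A) :
    (VS k Φ z hz X T.obj₂).FG A := by
  refine Sys.fg_of_exact (M₁ := VS k Φ z hz X T.obj₁) (M₃ := VS k Φ z hz X T.obj₃)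
    (fun n => Linear.rightComp k X (pwMap Φ n T.mor₁))
    (fun n => Linear.rightComp k X (pwMap Φ n T.mor₂)) ?_ ?_ ?_ h1 h3
  · intro a n v
    show (v ≫ tr (z a) (pw Φ n T.obj₁)) ≫ Φ.map (pwMap Φ n T.mor₁)
      = (v ≫ pwMap Φ n T.mor₁) ≫ tr (z a) (pw Φ n T.obj₂)
    rw [Category.assoc, Category.assoc, tr_nat]
  · intro a n v
    show (v ≫ tr (z a) (pw Φ n T.obj₂)) ≫ Φ.map (pwMap Φ n T.mor₂)
      = (v ≫ pwMap Φ n T.mor₂) ≫ tr (z a) (pw Φ n T.obj₃)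
    rw [Category.assoc, Category.assoc, tr_nat]
  · intro n v hv
    obtain ⟨u, hu⟩ := exact_right T hT n v hv
    exact ⟨u, hu.symm⟩

/-- The morphism `Φ.inv D ⟶ D` given by a natural transformation `ℓ : 𝟭 ⟶ Φ`. -/
noncomputable def uu (ℓ : 𝟭 𝒟 ⟶ Φ) (D : 𝒟) : Φ.inv.obj D ⟶ D :=
  tr ℓ (Φ.inv.obj D) ≫ Φ.asEquivalence.counit.app D

theorem map_uu (ℓ : 𝟭 𝒟 ⟶ Φ) (hℓ : ∀ X, Φ.map (tr ℓ X) = tr ℓ (Φ.obj X)) (D : 𝒟) :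
    Φ.map (uu ℓ D) = Φ.asEquivalence.counit.app D ≫ tr ℓ D := by
  have h1 : Φ.map (uu ℓ D) = Φ.map (tr ℓ (Φ.inv.obj D)) ≫
      Φ.map (Φ.asEquivalence.counit.app D) := Φ.map_comp _ _
  rw [h1, hℓ]
  exact (tr_nat ℓ (Φ.asEquivalence.counit.app D)).symm

theorem uu_comp_eq_zero_iff (ℓ : 𝟭 𝒟 ⟶ Φ) (hℓ : ∀ X, Φ.map (tr ℓ X) = tr ℓ (Φ.obj X))
    {D Z : 𝒟} (g : D ⟶ Z) : uu ℓ D ≫ g = 0 ↔ g ≫ tr ℓ Z = 0 := by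
  obtain ⟨ε, hε⟩ : ∃ ε : Φ.obj (Φ.inv.obj D) ⟶ D, ε = Φ.asEquivalence.counit.app D := ⟨_, rfl⟩
  have hi : IsIso ε := by
    rw [hε]
    exact (Φ.asEquivalence.counitIso.app D).isIso_hom
  have hm : Φ.map (uu ℓ D) = ε ≫ tr ℓ D := by
    rw [hε]
    exact map_uu ℓ hℓ D
  have h1 : Φ.map (uu ℓ D ≫ g) = ε ≫ (g ≫ tr ℓ Z) := by
    rw [Φ.map_comp, hm, Category.assoc, ← tr_nat ℓ g]
  constructor
  · intro h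
    rw [h, Φ.map_zero] at h1
    rw [← cancel_epi ε, comp_zero]
    exact h1.symm
  · intro h
    apply Φ.map_injective
    rw [h1, h, Φ.map_zero, comp_zero]

theorem ker_cone (ℓ : 𝟭 𝒟 ⟶ Φ) (hℓ : ∀ X, Φ.map (tr ℓ X) = tr ℓ (Φ.obj X)) {D D' : 𝒟}
    (v : D ⟶ D') (w : D' ⟶ (Φ.inv.obj D)⟦(1 : ℤ)⟧) (hT : Triangle.mk (uu ℓ D) v w ∈ distTriang 𝒟)
    {X : 𝒟} (n : ℕ) (f : X ⟶ pw Φ (n + 1) D) (hf : f ≫ pwMap Φ (n + 1) v = 0) :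
    ∃ f' : X ⟶ pw Φ n D, f = f' ≫ tr ℓ (pw Φ n D) := by
  have key : ∀ n : ℕ, ∃ e : pw Φ (n + 1) (Φ.inv.obj D) ⟶ pw Φ n D,
      pwMap Φ (n + 1) (uu ℓ D) = e ≫ tr ℓ (pw Φ n D) := by
    intro n
    induction n with
    | zero => exact ⟨Φ.asEquivalence.counit.app D, map_uu ℓ hℓ D⟩
    | succ n ih =>
      obtain ⟨e, he⟩ := ih
      refine ⟨Φ.map e, ?_⟩
      show Φ.map (pwMap Φ (n + 1) (uu ℓ D)) = Φ.map e ≫ tr ℓ (Φ.obj (pw Φ n D))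
      rw [he]
      exact (Φ.map_comp e (tr ℓ (pw Φ n D))).trans (congrArg (Φ.map e ≫ ·) (hℓ (pw Φ n D)))
  obtain ⟨f', hf'⟩ : ∃ f' : X ⟶ pw Φ (n + 1) (Φ.inv.obj D),
      f = f' ≫ pwMap Φ (n + 1) (uu ℓ D) :=
    exact_right (Φ := Φ) (Triangle.mk (uu ℓ D) v w) hT (n + 1) f hf
  obtain ⟨e, he⟩ := key n
  exact ⟨f' ≫ e, hf'.trans ((congrArg (fun q => f' ≫ q) he).trans
    (Category.assoc _ _ _).symm)⟩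

end H60.KZ
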