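import Pool.Agent.H60.KZ.At1
import Pool.Agent.H60.KZ.At2

/-!
# Row At3: one step of the first half of the abstract theorem

`D'` is a cone of `uu ℓ D : Φ.inv D ⟶ D`, i.e. `Triangle.mk (uu ℓ D) v w` is distinguished.
Let `ε : Φ (Φ.inv D) ≅ D` be the counit.

* `uu_shift`: `w ≫ tr ℓ ((Φ.inv D)⟦1⟧) = w ≫ (tr ℓ (Φ.inv D))⟦1⟧' ≫ κ.hom
  = w ≫ (uu ℓ D)⟦1⟧' ≫ (ε⁻¹)⟦1⟧' ≫ κ.hom = 0` (`comp_distTriang_mor_zero₃₁`).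
* `step_erase`: Let `Y = G m i`, `Y' = G (m+1) (i-1)`, so `Y'⟦1⟧ ≅ Y` (`γG`).  From `hD`:
  `FG(D, Y')`, so `FG(Φ.inv D, Y')` (`fg_psi_left`), `FG((Φ.inv D)⟦1⟧, Y'⟦1⟧)` (`fg_shift`),
  `FG((Φ.inv D)⟦1⟧, Y)` (`fg_iso_right`).  Apply `Sys.fg_erase` to
  `M₁ = VS ((Φ.inv D)⟦1⟧) Y`, `M₂ = VS D' Y`, `M₃ = VS D Y`, `φ = (w ≫ ·)`, `ψ = (v ≫ ·)`.
  Exactness: `Triangle.yoneda_exact₃`.  `ht1`: `w ≫ g ≫ tr (z t) Z = w ≫ tr (z t) _ ≫ Φ.map g = 0`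
  by `tr_nat` and `uu_shift`.  `ht3`: `(v ≫ g) ≫ tr (z t) Z = 0` by `uu_comp_eq_zero_iff`
  since `uu ≫ v ≫ g = 0`.
* `fam_step`: `F` is a family of objects with `Φ (F m i) ≅ F m (i+d)` and
  `(F (m+1) (i-1))⟦1⟧ ≅ F m i`.  Let `f : D' ⟶ F m i`.  By `h1`, `v ≫ f = 0`, so `f = w ≫ g`
  with `g : (Φ.inv D)⟦1⟧ ⟶ F m i`.  Then `g ≫ (γ)⁻¹ = g'⟦1⟧'` with
  `g' : Φ.inv D ⟶ F (m+1) (i-1)` (the shift functor is full), and `ε⁻¹ ≫ Φ.map g' ≫ φ.hom :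
  D ⟶ F (m+1) (i-1+d)` vanishes by `h2`; `Φ` is faithful, so `g' = 0`, `g = 0`, `f = 0`.
* `nonzero_step`: let `f : D ⟶ F m i` be nonzero.  As `Φ (F m (i-d)) ≅ F m (i-d+d)`, there is
  `g' : Φ.inv D ⟶ F m (i-d)` with `Φ.map g' = ε ≫ f ≫ iso`, nonzero.  Let
  `g = g'⟦1⟧' ≫ γ : (Φ.inv D)⟦1⟧ ⟶ F (m-1) (i-d+1)`, nonzero (`γ` for `(m-1, i-d+1)`; use
  `eqToIso`-free rewriting: `m - 1 + 1 = m`, `i - d + 1 - 1 = i - d`).  If `w ≫ g = 0` then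
  `g = (uu)⟦1⟧' ≫ h` up to sign for some `h : D⟦1⟧ ⟶ F (m-1) (i-d+1)` (exactness at the rotated
  triangle), and `h ≫ γ⁻¹ = h'⟦1⟧'` with `h' : D ⟶ F m (i-d)`, which is `0` by `hlow`; so `g = 0`,
  contradiction.  Hence `w ≫ g ≠ 0`.
-/

universe u v w

namespace H60.KZ

open CategoryTheory CategoryTheory.Limits CategoryTheory.Pretriangulated

variable {k : Type u} [Field k] {𝒟 : Type w} [Category.{v} 𝒟] [Preadditive 𝒟] [Linear k 𝒟]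
  [HasZeroObject 𝒟] [HasShift 𝒟 ℤ] [∀ n : ℤ, (shiftFunctor 𝒟 n).Additive]
  [∀ n : ℤ, (shiftFunctor 𝒟 n).Linear k] [Pretriangulated 𝒟]
  {Φ : 𝒟 ⥤ 𝒟} [Φ.IsEquivalence] [Φ.Additive] [Φ.Linear k]

omit [Φ.Additive] [∀ n : ℤ, (shiftFunctor 𝒟 n).Additive] [HasZeroObject 𝒟] [Pretriangulated 𝒟] [Preadditive 𝒟] [HasShift 𝒟 ℤ] in
private theorem At3_exists (ℓ : 𝟭 𝒟 ⟶ Φ) (D : 𝒟) :
    ∃ e : Φ.obj (Φ.inv.obj D) ≅ D, uu ℓ D = tr ℓ (Φ.inv.obj D) ≫ e.hom :=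
  ⟨Φ.asEquivalence.counitIso.app D, rfl⟩

theorem uu_shift (ℓ : 𝟭 𝒟 ⟶ Φ) (κ : ∀ X : 𝒟, (Φ.obj X)⟦(1 : ℤ)⟧ ≅ Φ.obj (X⟦(1 : ℤ)⟧))
    (hκ : ∀ X, (tr ℓ X)⟦(1 : ℤ)⟧' ≫ (κ X).hom = tr ℓ (X⟦(1 : ℤ)⟧)) {D D' : 𝒟}
    (v : D ⟶ D') (w : D' ⟶ (Φ.inv.obj D)⟦(1 : ℤ)⟧)
    (hT : Triangle.mk (uu ℓ D) v w ∈ distTriang 𝒟) : w ≫ tr ℓ ((Φ.inv.obj D)⟦(1 : ℤ)⟧) = 0 := by
  have h0 : w ≫ (uu ℓ D)⟦(1 : ℤ)⟧' = 0 := comp_distTriang_mor_zero₃₁ _ hT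
  obtain ⟨e, he⟩ := At3_exists ℓ D
  have h1 : tr ℓ (Φ.inv.obj D) = uu ℓ D ≫ e.inv := by
    rw [he, Category.assoc, Iso.hom_inv_id, Category.comp_id]
  rw [← hκ, h1, Functor.map_comp, Category.assoc, ← Category.assoc w, h0, zero_comp]

theorem step_erase {c : ℕ} {z : Fin c → (𝟭 𝒟 ⟶ Φ)} {s : ℕ} {d : ℤ}
    (H : ATHyp k 𝒟 Φ c z s d) {A : Finset (Fin c)} (t : Fin c) {D D' : 𝒟}
    (v : D ⟶ D') (w : D' ⟶ (Φ.inv.obj D)⟦(1 : ℤ)⟧)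
    (hT : Triangle.mk (uu (z t) D) v w ∈ distTriang 𝒟)
    (hD : ∀ m i, (VS k Φ z H.hz D (H.G m i)).FG A) (m i : ℤ) :
    (VS k Φ z H.hz D' (H.G m i)).FG (A.erase t) := by
  obtain ⟨γ⟩ := H.γG m i
  have h1 : (VS k Φ z H.hz ((Φ.inv.obj D)⟦(1 : ℤ)⟧) (H.G m i)).FG A :=
    fg_iso_right H.hz γ (fg_shift H.hz H.κ H.hκ (fg_psi_left H.hz (hD (m + 1) (i - 1))))
  have h3 := hD m i
  refine Sys.fg_erase (M₁ := VS k Φ z H.hz ((Φ.inv.obj D)⟦(1 : ℤ)⟧) (H.G m i))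
    (M₂ := VS k Φ z H.hz D' (H.G m i)) (M₃ := VS k Φ z H.hz D (H.G m i)) t
    (fun n => Linear.leftComp k (pw Φ n (H.G m i)) w)
    (fun n => Linear.leftComp k (pw Φ n (H.G m i)) v) ?_ ?_ ?_ h1 h3 ?_ ?_
  · intro a n f
    exact (Category.assoc _ _ _).symm
  · intro a n f
    exact (Category.assoc _ _ _).symm
  · intro n f hf
    obtain ⟨g, hg⟩ := Triangle.yoneda_exact₃ _ hT f hf
    exact ⟨g, hg.symm⟩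
  · intro n g
    change w ≫ (g ≫ tr (z t) (pw Φ n (H.G m i))) = 0
    rw [tr_nat, ← Category.assoc, uu_shift (z t) H.κ (H.hκ t) v w hT, zero_comp]
  · intro n g
    change (v ≫ g) ≫ tr (z t) (pw Φ n (H.G m i)) = 0
    have h12 : uu (z t) D ≫ v = 0 := comp_distTriang_mor_zero₁₂ _ hT
    rw [← uu_comp_eq_zero_iff (z t) (fun X => H.hz t X), ← Category.assoc, h12, zero_comp]

theorem fam_step (ℓ : 𝟭 𝒟 ⟶ Φ) (F : ℤ → ℤ → 𝒟) (d : ℤ)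
    (φF : ∀ m i, Nonempty (Φ.obj (F m i) ≅ F m (i + d)))
    (γF : ∀ m i, Nonempty ((F (m + 1) (i - 1))⟦(1 : ℤ)⟧ ≅ F m i)) {D D' : 𝒟}
    (v : D ⟶ D') (w : D' ⟶ (Φ.inv.obj D)⟦(1 : ℤ)⟧)
    (hT : Triangle.mk (uu ℓ D) v w ∈ distTriang 𝒟) (m i : ℤ)
    (h1 : ∀ f : D ⟶ F m i, f = 0) (h2 : ∀ f : D ⟶ F (m + 1) (i - 1 + d), f = 0)
    (f : D' ⟶ F m i) : f = 0 := by
  obtain ⟨g, hg⟩ : ∃ g : (Φ.inv.obj D)⟦(1 : ℤ)⟧ ⟶ F m i, f = w ≫ g :=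
    Triangle.yoneda_exact₃ _ hT f (h1 _)
  obtain ⟨e, he⟩ := At3_exists ℓ D
  obtain ⟨γ⟩ := γF m i
  obtain ⟨φ⟩ := φF (m + 1) (i - 1)
  obtain ⟨g', hg'⟩ := (shiftFunctor 𝒟 (1 : ℤ)).map_surjective
    (X := Φ.inv.obj D) (Y := F (m + 1) (i - 1)) (g ≫ γ.inv)
  have h3 : e.inv ≫ Φ.map g' ≫ φ.hom = 0 := h2 _
  have h4 : Φ.map g' = 0 := by
    have h5 : Φ.map g' ≫ φ.hom = 0 := by
      have := congrArg (fun q => e.hom ≫ q) h3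
      simp only [comp_zero, Iso.hom_inv_id_assoc] at this
      exact this
    have := congrArg (fun q => q ≫ φ.inv) h5
    simpa only [Category.assoc, Iso.hom_inv_id, Category.comp_id, zero_comp] using this
  have h5 : g' = 0 := Φ.map_injective (by rw [h4, Functor.map_zero])
  have h6 : g = 0 := by
    rw [h5, Functor.map_zero] at hg'
    have := congrArg (fun q => q ≫ γ.hom) hg'
    simpa only [Category.assoc, Iso.inv_hom_id, Category.comp_id, zero_comp] using this.symm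
  rw [hg, h6, comp_zero]

theorem nonzero_step (ℓ : 𝟭 𝒟 ⟶ Φ) (F : ℤ → ℤ → 𝒟) (d : ℤ)
    (φF : ∀ m i, Nonempty (Φ.obj (F m i) ≅ F m (i + d)))
    (γF : ∀ m i, Nonempty ((F (m + 1) (i - 1))⟦(1 : ℤ)⟧ ≅ F m i)) {D D' : 𝒟}
    (v : D ⟶ D') (w : D' ⟶ (Φ.inv.obj D)⟦(1 : ℤ)⟧)
    (hT : Triangle.mk (uu ℓ D) v w ∈ distTriang 𝒟) (m i : ℤ)
    (hne : ∃ f : D ⟶ F m i, f ≠ 0) (hlow : ∀ f : D ⟶ F m (i - d), f = 0) :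
    ∃ f : D' ⟶ F (m - 1) (i - d + 1), f ≠ 0 := by
  obtain ⟨f, hf⟩ := hne
  have hφ : Nonempty (Φ.obj (F m (i - d)) ≅ F m i) := by
    have := φF m (i - d)
    rwa [sub_add_cancel] at this
  have hγ : Nonempty ((F m (i - d))⟦(1 : ℤ)⟧ ≅ F (m - 1) (i - d + 1)) := by
    have := γF (m - 1) (i - d + 1)
    rwa [sub_add_cancel, add_sub_cancel_right] at this
  obtain ⟨e, he⟩ := At3_exists ℓ D
  obtain ⟨φ⟩ := hφ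
  obtain ⟨γ⟩ := hγ
  obtain ⟨g', hg'⟩ := Φ.map_surjective (X := Φ.inv.obj D) (Y := F m (i - d))
    (e.hom ≫ f ≫ φ.inv)
  refine ⟨w ≫ (g'⟦(1 : ℤ)⟧' ≫ γ.hom), fun h0 => hf ?_⟩
  obtain ⟨h, hh⟩ : ∃ h : D⟦(1 : ℤ)⟧ ⟶ F (m - 1) (i - d + 1),
      g'⟦(1 : ℤ)⟧' ≫ γ.hom = (-(uu ℓ D)⟦(1 : ℤ)⟧') ≫ h :=
    Triangle.yoneda_exact₂ _ (rot_of_distTriang _ (rot_of_distTriang _ hT))
      (g'⟦(1 : ℤ)⟧' ≫ γ.hom) h0
  obtain ⟨h', hh'⟩ := (shiftFunctor 𝒟 (1 : ℤ)).map_surjective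
    (X := D) (Y := F m (i - d)) (h ≫ γ.inv)
  have e1 : h = 0 := by
    rw [hlow h', Functor.map_zero] at hh'
    have := congrArg (fun q => q ≫ γ.hom) hh'
    simpa only [Category.assoc, Iso.inv_hom_id, Category.comp_id, zero_comp] using this.symm
  rw [e1, comp_zero] at hh
  have e2 : g'⟦(1 : ℤ)⟧' = 0 := by
    have := congrArg (fun q => q ≫ γ.inv) hh
    simpa only [Category.assoc, Iso.hom_inv_id, Category.comp_id, zero_comp] using this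
  have e3 : g' = 0 := (shiftFunctor 𝒟 (1 : ℤ)).map_injective (by rw [e2, Functor.map_zero])
  rw [e3, Functor.map_zero] at hg'
  have e4 : f ≫ φ.inv = 0 := by
    have := congrArg (fun q => e.inv ≫ q) hg'
    simp only [comp_zero, Iso.inv_hom_id_assoc] at this
    exact this.symm
  have := congrArg (fun q => q ≫ φ.hom) e4
  simpa only [Category.assoc, Iso.inv_hom_id, Category.comp_id, zero_comp] using this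

end H60.KZ
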