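import Pool.Agent.H60.KZ.At3

/-!
# Row At4: the first half of the abstract theorem: strands are at most `c - s`

PROOF. Claim(q), by induction on `q`: let `A` be a set of `q` indices and `D` an object with
(1) `FG(D, G m i; A)` for all `m i`;
(2) there is `r'` with `Hom(D, G m i) = 0` if `m < -r'` or `r' < m` or `i < -r'`;
(3) `Hom(D, P m i) = 0` for all `m > -s`;
then `Hom(D, G m i) = 0` for all `m > q - s`.

`q = 0`: `A = ∅`.  Suppose `Hom(D, G m1 i1) ≠ 0` with `m1 > -s`.  By (2) there is a largest `m*`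
with `Hom(D, G m* i) ≠ 0` for some `i`, and `m* ≥ m1 > -s`.  For every `ρ` with `0 ≤ ρ < d`, by
`Sys.zero_of_fg_empty` and `Φ^n (G m* ρ) ≅ G m* (ρ + n d)` (iterate `φG`) we have
`Hom(D, G m* (ρ + n d)) = 0` for `n` large; every large `i` is `ρ + n d` with `n` large
(`ρ = i % d`, `n = i / d`), so `Hom(D, G m* i) = 0` for `i` large and there is a largest `i*`
with `Hom(D, G m* i*) ≠ 0`.  By the choices `Hom(D, G (m*+t) (i*+1)) = 0` for all `t : ℕ`.
By `hlift` there is a nonzero `D ⟶ P m* i*`, contradicting (3).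

`q + 1`: choose `t ∈ A` and a distinguished triangle on `uu (z t) D` with cone `D'`
(`distinguished_cocone_triangle`).  (1) holds for `D'`, `A.erase t` by `step_erase`; (2) and (3)
hold by `fam_step` for `F = G` and `F = P` (with a larger `r'`, e.g. `r' + d + 1`).
So `Hom(D', G m i) = 0` for `m > q - s`.  Suppose `Hom(D, G m i) ≠ 0` with `m > q + 1 - s`;
choose the smallest such `i` for this `m` ((2)); then `Hom(D, G m (i-d)) = 0` (`1 ≤ d`), so
`Hom(D', G (m-1) (i-d+1)) ≠ 0` by `nonzero_step`, a contradiction as `m - 1 > q - s`.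

Apply Claim(c) with `A = Finset.univ` and `D = G 0 0` (`H.fg`, `H.hr`, `H.hP`).
-/

universe u v w

namespace H60.KZ

open CategoryTheory CategoryTheory.Limits CategoryTheory.Pretriangulated

variable {k : Type u} [Field k] {𝒟 : Type w} [Category.{v} 𝒟] [Preadditive 𝒟] [Linear k 𝒟]
  [HasZeroObject 𝒟] [HasShift 𝒟 ℤ] [∀ n : ℤ, (shiftFunctor 𝒟 n).Additive]
  [∀ n : ℤ, (shiftFunctor 𝒟 n).Linear k] [Pretriangulated 𝒟]
  {Φ : 𝒟 ⥤ 𝒟} [Φ.IsEquivalence] [Φ.Additive] [Φ.Linear k]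

/-- Isomorphisms `Φ^n (F m i) ≅ F m (i + n d)`. -/
theorem pw_fam (F : ℤ → ℤ → 𝒟) (d : ℤ) (φF : ∀ m i, Nonempty (Φ.obj (F m i) ≅ F m (i + d)))
    (n : ℕ) (m i : ℤ) : Nonempty (pw Φ n (F m i) ≅ F m (i + n * d)) := by
  induction n with
  | zero =>
    have h : i + ((0 : ℕ) : ℤ) * d = i := by simp
    rw [h]
    exact ⟨Iso.refl _⟩
  | succ n ih =>
    obtain ⟨e⟩ := ih
    obtain ⟨e'⟩ := φF m (i + n * d)
    have h : i + ((n + 1 : ℕ) : ℤ) * d = i + n * d + d := by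
      push_cast
      ring
    rw [h]
    exact ⟨Φ.mapIso e ≪≫ e'⟩

theorem At4_bdd {c : ℕ} {z : Fin c → (𝟭 𝒟 ⟶ Φ)} {s : ℕ} {d : ℤ} (H : ATHyp k 𝒟 Φ c z s d)
    (D : 𝒟) (m : ℤ) (h1 : ∀ i, (VS k Φ z H.hz D (H.G m i)).FG ∅) :
    ∃ b : ℤ, ∀ i, (∃ g : D ⟶ H.G m i, g ≠ 0) → i ≤ b := by
  have hd := H.hd
  have key : ∀ ρ : ℤ, ∃ n0 : ℕ, ∀ n : ℕ, n0 ≤ n → ∀ g : D ⟶ H.G m (ρ + n * d), g = 0 := by
    intro ρ
    obtain ⟨n0, hn0⟩ := Sys.zero_of_fg_empty (h1 ρ)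
    refine ⟨n0, fun n hn g => ?_⟩
    obtain ⟨e⟩ := pw_fam (Φ := Φ) H.G d H.φG n m ρ
    have h2 : g ≫ e.inv = 0 := hn0 n hn (g ≫ e.inv)
    calc g = (g ≫ e.inv) ≫ e.hom := by rw [Category.assoc, e.inv_hom_id, Category.comp_id]
      _ = 0 := by rw [h2, zero_comp]
  choose K hK using key
  refine ⟨((Finset.Ico (0 : ℤ) d).sup K : ℕ) * d, ?_⟩
  rintro i ⟨g, hg⟩
  by_contra hlt
  push Not at hlt
  apply hg
  have hρ0 : 0 ≤ i % d := Int.emod_nonneg _ (by omega)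
  have hρ1 : i % d < d := Int.emod_lt_of_pos _ (by omega)
  have hB : (((Finset.Ico (0 : ℤ) d).sup K : ℕ) : ℤ) ≤ i / d := by
    rw [Int.le_ediv_iff_mul_le (by omega)]
    exact hlt.le
  have hB0 : (0 : ℤ) ≤ (((Finset.Ico (0 : ℤ) d).sup K : ℕ) : ℤ) := Int.natCast_nonneg _
  have hn : ((i / d).toNat : ℤ) = i / d := Int.toNat_of_nonneg (hB0.trans hB)
  have hKle : K (i % d) ≤ (i / d).toNat := by
    have h3 : K (i % d) ≤ (Finset.Ico (0 : ℤ) d).sup K :=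
      Finset.le_sup (f := K) (Finset.mem_Ico.2 ⟨hρ0, hρ1⟩)
    have h4 : (((Finset.Ico (0 : ℤ) d).sup K : ℕ) : ℤ) ≤ ((i / d).toNat : ℤ) := by
      rw [hn]
      exact hB
    exact h3.trans (by exact_mod_cast h4)
  have hi : i % d + ((i / d).toNat : ℤ) * d = i := by
    rw [hn, mul_comm]
    exact Int.emod_add_mul_ediv i d
  have h5 := hK (i % d) (i / d).toNat hKle
  rw [hi] at h5
  exact h5 g

theorem At4_claim {c : ℕ} {z : Fin c → (𝟭 𝒟 ⟶ Φ)} {s : ℕ} {d : ℤ} (H : ATHyp k 𝒟 Φ c z s d)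
    (q : ℕ) : ∀ (A : Finset (Fin c)), A.card = q → ∀ D : 𝒟,
      (∀ m i, (VS k Φ z H.hz D (H.G m i)).FG A) →
      (∃ r' : ℤ, ∀ m i, (m < - r' ∨ r' < m ∨ i < - r') → ∀ f : D ⟶ H.G m i, f = 0) →
      (∀ m i, - (s : ℤ) < m → ∀ f : D ⟶ H.P m i, f = 0) →
      ∀ m i, (q : ℤ) - s < m → ∀ f : D ⟶ H.G m i, f = 0 := by
  have hd := H.hd
  induction q with
  | zero =>
    intro A hA D h1 h2 h3 m1 i1 hm1 f
    rw [Finset.card_eq_zero] at hA
    subst hA
    by_contra hf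
    obtain ⟨r', hr'⟩ := h2
    obtain ⟨m, ⟨i2, g2, hg2⟩, hmax⟩ := Int.exists_greatest_of_bdd
      (P := fun m => ∃ i, ∃ g : D ⟶ H.G m i, g ≠ 0)
      ⟨r', fun m => by
        rintro ⟨i, g, hg⟩
        by_contra hlt
        push Not at hlt
        exact hg (hr' m i (Or.inr (Or.inl hlt)) g)⟩ ⟨m1, i1, f, hf⟩
    have hm : m1 ≤ m := hmax m1 ⟨i1, f, hf⟩
    obtain ⟨i, ⟨g, hg⟩, himax⟩ := Int.exists_greatest_of_bdd
      (P := fun i => ∃ g : D ⟶ H.G m i, g ≠ 0)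
      (At4_bdd H D m (h1 m)) ⟨i2, g2, hg2⟩
    obtain ⟨y, hy⟩ := H.hlift m i D g (by
      intro t _ y
      by_contra hy
      rcases Nat.eq_zero_or_pos t with rfl | ht
      · have h4 : m + ((0 : ℕ) : ℤ) = m := by simp
        revert y
        rw [h4]
        intro y hy
        have := himax (i + 1) ⟨y, hy⟩
        omega
      · have := hmax (m + t) ⟨i + 1, y, hy⟩
        omega) hg
    refine hy (h3 m i ?_ y)
    push_cast at hm1
    omega
  | succ q ih =>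
    intro A hA D h1 h2 h3 m i hm f
    obtain ⟨t, ht⟩ : A.Nonempty := by
      rw [← Finset.card_pos]
      omega
    obtain ⟨r', hr'⟩ := h2
    obtain ⟨D', v, w, hT⟩ := distinguished_cocone_triangle (uu (z t) D)
    have hD1 : ∀ m i, (VS k Φ z H.hz D' (H.G m i)).FG (A.erase t) :=
      fun m i => step_erase H t v w hT h1 m i
    have hD2 : ∃ r' : ℤ, ∀ m i, (m < - r' ∨ r' < m ∨ i < - r') → ∀ f : D' ⟶ H.G m i, f = 0 := by
      refine ⟨r' + d + 1, fun m i hmi f => ?_⟩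
      refine fam_step (z t) H.G d H.φG H.γG v w hT m i (hr' m i ?_)
        (hr' (m + 1) (i - 1 + d) ?_) f
      · omega
      · omega
    have hD3 : ∀ m i, - (s : ℤ) < m → ∀ f : D' ⟶ H.P m i, f = 0 := by
      intro m i hms f
      exact fam_step (z t) H.P d H.φP H.γP v w hT m i (h3 m i hms)
        (h3 (m + 1) (i - 1 + d) (by omega)) f
    have hcard : (A.erase t).card = q := by
      rw [Finset.card_erase_of_mem ht, hA]
      rfl
    have hIH := ih (A.erase t) hcard D' hD1 hD2 hD3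
    by_contra hf
    obtain ⟨i0, hi0, hmin⟩ := Int.exists_least_of_bdd
      (P := fun i => ∃ g : D ⟶ H.G m i, g ≠ 0)
      ⟨- r', fun i => by
        rintro ⟨g, hg⟩
        by_contra hlt
        push Not at hlt
        exact hg (hr' m i (Or.inr (Or.inr hlt)) g)⟩ ⟨i, f, hf⟩
    obtain ⟨g, hg⟩ := nonzero_step (z t) H.G d H.φG H.γG v w hT m i0 hi0 (by
      intro g
      by_contra hg
      have := hmin (i0 - d) ⟨g, hg⟩
      omega)
    refine hg (hIH (m - 1) (i0 - d + 1) ?_ g)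
    push_cast at hm
    omega

theorem halfA {c : ℕ} {z : Fin c → (𝟭 𝒟 ⟶ Φ)} {s : ℕ} {d : ℤ} (H : ATHyp k 𝒟 Φ c z s d)
    (m i : ℤ) (hm : (c : ℤ) - s < m) (f : H.G 0 0 ⟶ H.G m i) : f = 0 := by
  refine At4_claim H c Finset.univ (by simp) (H.G 0 0) H.fg ⟨H.r, H.hr⟩ H.hP m i hm f

end H60.KZ
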