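import Pool.Agent.H60.KZ.SyA

/-!
# Row SyC: filter-regular linear forms

PROOF. `k` is infinite: let `t : ℕ → k` be injective (`Infinite.natEmbedding`) and let
`lam i a = (t i)^a` for `i : ℕ`, `a : Fin c`; write `ℓ i v = Σ_a lam i a • op a v`.
(V) If `i_1, ..., i_c` are distinct, the vectors `lam i_q` form a basis of `k^c` (Vandermonde,
`Matrix.det_vandermonde_ne_zero_iff`), so if `N` is a subspace and `ℓ i_q v ∈ N` for all `q`, then
`op a v ∈ N` for all `a`.

Let `M` be finitely generated and `N` stable.  Call `i : ℕ` bad for `N` if for all `n0` there are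
`n ≥ n0` and `v ∈ V n`, `v ∉ N n` with `ℓ i v ∈ N (n+1)`.

CLAIM: for every stable `N` the set of bad `i` is finite.  Suppose not.  By `noeth_max` (with
`Pr N := the set of bad i is infinite`) there is a stable `N` with infinitely many bad `i` such
that every stable `N' ≥ N` with infinitely many bad `i` agrees with `N` in large degrees.
For `i : ℕ` let `K i n = {v ∈ V n | ℓ i v ∈ N (n+1)}`; it is stable (`comm` and stability of
`N`) and `N ≤ K i`.  If `i` is bad for `N`, then `K i` differs from `N` in arbitrarily large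
degrees, so the set of bad indices of `K i` is finite.
Choose distinct bad indices `i_1, ..., i_c` of `N`, and then a bad index `i` of `N` which is
bad for none of `K i_1, ..., K i_c` (possible: infinitely many minus finitely many).  For `n`
large and `v ∈ K i n` we have `ℓ i v ∈ N (n+1) ≤ K i_q (n+1)`, hence `v ∈ K i_q n` as `i` is not
bad for `K i_q`; this is for all `q`, so `ℓ i_q v ∈ N (n+1)` for all `q` and by (V)
`op a v ∈ N (n+1)` for all `a`.  But `K i` is eventually generated (`gen_of_stab`), so for `n`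
large `K i (n+1) = Σ op a (K i n) ≤ N (n+1)`, i.e. `K i = N` in large degrees.  This contradicts
that `i` is bad for `N`.

THEOREM: `J` is finite, so there is an `i` which is not bad for any `N j` (in `M j`); take
`lam = lam i` and for `n0` the maximum of the bounds.
-/

universe u v w

namespace H60.KZ.Sys

variable {k : Type u} [Field k]

/-- the linear form number `i` -/
def SyC_ell {c : ℕ} (M : Sys.{u, v, 0} k (Fin c)) (t : ℕ → k) (i : ℕ) (n : ℕ) :
    M.V n →ₗ[k] M.V (n + 1) := ∑ a : Fin c, (t i ^ (a : ℕ)) • M.op a n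

theorem SyC_ell_apply {c : ℕ} (M : Sys.{u, v, 0} k (Fin c)) (t : ℕ → k) (i : ℕ) (n : ℕ)
    (x : M.V n) : SyC_ell M t i n x = ∑ a : Fin c, (t i ^ (a : ℕ)) • M.op a n x := by
  simp [SyC_ell, LinearMap.sum_apply]

/-- Vandermonde -/
theorem SyC_vand {c : ℕ} {V : Type v} [AddCommGroup V] [Module k V] (N : Submodule k V)
    (s : Fin c → k) (hs : Function.Injective s) (x : Fin c → V)
    (h : ∀ j, ∑ a : Fin c, (s j ^ (a : ℕ)) • x a ∈ N) (a : Fin c) : x a ∈ N := by
  have hdet : (Matrix.vandermonde s).det ≠ 0 := Matrix.det_vandermonde_ne_zero_iff.2 hs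
  have hinv : (Matrix.vandermonde s)⁻¹ * Matrix.vandermonde s = 1 :=
    Matrix.nonsing_inv_mul _ (isUnit_iff_ne_zero.2 hdet)
  have key : x a = ∑ j : Fin c, ((Matrix.vandermonde s)⁻¹ a j) •
      ∑ b : Fin c, (s j ^ (b : ℕ)) • x b := by
    simp only [Finset.smul_sum, smul_smul]
    rw [Finset.sum_comm]
    have e : ∀ b : Fin c, ∑ j : Fin c, ((Matrix.vandermonde s)⁻¹ a j * s j ^ (b : ℕ)) • x b =
        ((1 : Matrix (Fin c) (Fin c) k) a b) • x b := by
      intro b
      rw [← Finset.sum_smul, ← hinv, Matrix.mul_apply]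
      rfl
    rw [Finset.sum_congr rfl fun b _ => e b]
    simp [Matrix.one_apply, ite_smul]
  rw [key]
  exact N.sum_mem fun j _ => N.smul_mem _ (h j)

/-- bad indices -/
def SyC_Bad {c : ℕ} (M : Sys.{u, v, 0} k (Fin c)) (t : ℕ → k) (N : ∀ n, Submodule k (M.V n))
    (i : ℕ) : Prop :=
  ∀ n0, ∃ n, n0 ≤ n ∧ ∃ x : M.V n, x ∉ N n ∧ SyC_ell M t i n x ∈ N (n + 1)

/-- the family `K i` -/
def SyC_K {c : ℕ} (M : Sys.{u, v, 0} k (Fin c)) (t : ℕ → k) (N : ∀ n, Submodule k (M.V n))
    (i : ℕ) (n : ℕ) : Submodule k (M.V n) := (N (n + 1)).comap (SyC_ell M t i n)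

theorem SyC_ell_comm {c : ℕ} (M : Sys.{u, v, 0} k (Fin c)) (t : ℕ → k) (i : ℕ) (n : ℕ)
    (a : Fin c) (x : M.V n) :
    SyC_ell M t i (n + 1) (M.op a n x) = M.op a (n + 1) (SyC_ell M t i n x) := by
  rw [SyC_ell_apply, SyC_ell_apply, map_sum]
  refine Finset.sum_congr rfl fun b _ => ?_
  rw [map_smul, M.comm]

theorem SyC_le {c : ℕ} (M : Sys.{u, v, 0} k (Fin c)) (t : ℕ → k) (N : ∀ n, Submodule k (M.V n))
    (hN : M.Stab Finset.univ N) (i n : ℕ) : N n ≤ SyC_K M t N i n := by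
  intro x hx
  change SyC_ell M t i n x ∈ N (n + 1)
  rw [SyC_ell_apply]
  exact (N (n + 1)).sum_mem fun a _ => (N (n + 1)).smul_mem _ (hN a (Finset.mem_univ a) n x hx)

theorem SyC_stab {c : ℕ} (M : Sys.{u, v, 0} k (Fin c)) (t : ℕ → k)
    (N : ∀ n, Submodule k (M.V n)) (hN : M.Stab Finset.univ N) (i : ℕ) :
    M.Stab Finset.univ (SyC_K M t N i) := by
  intro a _ n x hx
  change SyC_ell M t i (n + 1) (M.op a n x) ∈ N (n + 2)
  rw [SyC_ell_comm]
  exact hN a (Finset.mem_univ a) (n + 1) _ hx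

theorem SyC_claim {c : ℕ} (M : Sys.{u, v, 0} k (Fin c)) (hM : M.FG Finset.univ) (t : ℕ → k)
    (ht : Function.Injective t) (N0 : ∀ n, Submodule k (M.V n)) (hN0 : M.Stab Finset.univ N0) :
    {i | SyC_Bad M t N0 i}.Finite := by
  by_contra hinf
  obtain ⟨N, hN, hP, hmax⟩ := noeth_max M Finset.univ hM
    (fun N => {i | SyC_Bad M t N i}.Infinite) N0 hN0 hinf
  -- bad indices of `K i` are finite
  have hK : ∀ i, SyC_Bad M t N i → {j | SyC_Bad M t (SyC_K M t N i) j}.Finite := by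
    intro i hi
    by_contra hcon
    obtain ⟨n1, hn1⟩ := hmax (SyC_K M t N i) (SyC_stab M t N hN i) hcon
      (SyC_le M t N hN i)
    obtain ⟨n, hn, x, hx, hx'⟩ := hi n1
    have : x ∈ SyC_K M t N i n := hx'
    rw [hn1 n hn] at this
    exact hx this
  -- `c` distinct bad indices
  let e := hP.natEmbedding
  let q : Fin c → ℕ := fun j => (e (j : ℕ) : {i | SyC_Bad M t N i})
  have hq : ∀ j, SyC_Bad M t N (q j) := fun j => (e (j : ℕ)).2
  have hqi : Function.Injective q := by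
    intro j j' h
    exact Fin.val_injective (e.injective (Subtype.ext h))
  -- a further bad index
  have hfin : (⋃ j : Fin c, {i | SyC_Bad M t (SyC_K M t N (q j)) i}).Finite :=
    Set.finite_iUnion fun j => hK (q j) (hq j)
  obtain ⟨i, hi, hi'⟩ := (hP.sdiff hfin).nonempty
  have hi1 : ∀ j : Fin c, ∃ n0, ∀ n, n0 ≤ n → ∀ x : M.V n,
      SyC_ell M t i n x ∈ SyC_K M t N (q j) (n + 1) → x ∈ SyC_K M t N (q j) n := by
    intro j
    have h1 : ¬ SyC_Bad M t (SyC_K M t N (q j)) i := fun h =>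
      hi' (Set.mem_iUnion.2 ⟨j, h⟩)
    unfold SyC_Bad at h1
    push Not at h1
    obtain ⟨n0, h⟩ := h1
    refine ⟨n0, fun n hn x hx => ?_⟩
    by_contra hx'
    exact h n hn x hx' hx
  choose m0 hm0 using hi1
  obtain ⟨n0, hn0⟩ : ∃ n0, ∀ j, m0 j ≤ n0 :=
    ⟨Finset.univ.sup m0, fun j => Finset.le_sup (Finset.mem_univ j)⟩
  have hop : ∀ n, n0 ≤ n → ∀ x ∈ SyC_K M t N i n, ∀ a, M.op a n x ∈ N (n + 1) := by
    intro n hn x hx
    refine SyC_vand (N (n + 1)) (fun j => t (q j)) (ht.comp hqi) (fun a => M.op a n x) ?_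
    intro j
    have h1 : x ∈ SyC_K M t N (q j) n :=
      hm0 j n ((hn0 j).trans hn) x (SyC_le M t N hN (q j) (n + 1) hx)
    have h2 : SyC_ell M t (q j) n x ∈ N (n + 1) := h1
    rwa [SyC_ell_apply] at h2
  obtain ⟨n1, hn1⟩ := gen_of_stab M Finset.univ hM _ (SyC_stab M t N hN i)
  have hle : ∀ n, max n0 n1 ≤ n → ∀ x ∈ SyC_K M t N i (n + 1), x ∈ N (n + 1) := by
    intro n hn x hx
    obtain ⟨f, hf, rfl⟩ := hn1 n ((le_max_right _ _).trans hn) x hx
    exact (N (n + 1)).sum_mem fun a _ => hop n ((le_max_left _ _).trans hn) (f a) (hf a) a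
  obtain ⟨n, hn, x, hx, hx'⟩ := hi (max n0 n1 + 1)
  obtain ⟨m, rfl⟩ : ∃ m, n = m + 1 := ⟨n - 1, by omega⟩
  exact hx (hle m (by omega) x hx')

/-- Existence of a linear form which is regular in high degrees on finitely many quotients of
finitely generated systems. -/
theorem filter_regular [Infinite k] {c : ℕ} {J : Type} [Finite J]
    (M : J → Sys.{u, v, 0} k (Fin c)) (hM : ∀ j, (M j).FG Finset.univ)
    (N : ∀ j n, Submodule k ((M j).V n)) (hN : ∀ j, (M j).Stab Finset.univ (N j)) :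
    ∃ (lam : Fin c → k) (n0 : ℕ), ∀ j n, n0 ≤ n → ∀ v : (M j).V n,
      (∑ a, lam a • (M j).op a n v) ∈ N j (n + 1) → v ∈ N j n := by
  let t : ℕ → k := Infinite.natEmbedding k
  have ht : Function.Injective t := (Infinite.natEmbedding k).injective
  have hfin : (⋃ j : J, {i | SyC_Bad (M j) t (N j) i}).Finite :=
    Set.finite_iUnion fun j => SyC_claim (M j) (hM j) t ht (N j) (hN j)
  obtain ⟨i, hi⟩ := hfin.infinite_compl.nonempty
  have hi1 : ∀ j : J, ∃ n0, ∀ n, n0 ≤ n → ∀ x : (M j).V n,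
      SyC_ell (M j) t i n x ∈ N j (n + 1) → x ∈ N j n := by
    intro j
    have h1 : ¬ SyC_Bad (M j) t (N j) i := fun h => hi (Set.mem_iUnion.2 ⟨j, h⟩)
    unfold SyC_Bad at h1
    push Not at h1
    obtain ⟨n0, h⟩ := h1
    refine ⟨n0, fun n hn x hx => ?_⟩
    by_contra hx'
    exact h n hn x hx' hx
  choose m0 hm0 using hi1
  obtain ⟨n0, hn0⟩ := (Set.finite_range m0).bddAbove
  refine ⟨fun a => t i ^ (a : ℕ), n0, fun j n hn x hx => ?_⟩
  refine hm0 j n ((hn0 ⟨j, rfl⟩).trans hn) x ?_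
  rw [SyC_ell_apply]
  exact hx

end H60.KZ.Sys
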