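import Pool.Agent.H60.KZ.At3
import Pool.Agent.H60.KZ.SyC

/-!
# Row At5: linear combinations of natural transformations, cyclic subsystems, left systems

* `lc z lam = Σ lam a • z a` in the functor category; `tr_lc` by `NatTrans.app_sum`,
  `NatTrans.app_smul` (induction over the finset; unfold `tr`).
* `lc_phi`, `lc_kappa`: linearity of `Φ` and of the shift functor.
* `opL_lc`: `opL (lc z lam) f = Σ lam a • opL (z a) f`.
* `Cyc` lemmas: induction on `n` (`Submodule.map_iSup`, `Submodule.map_span`,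
  `Submodule.mem_iSup`...).
* `fg_left_step`: as in `step_erase`: `Y = G m i`, `FG((Φ.inv D)⟦1⟧, Y)`, and `Sys.fg_of_exact`
  for `φ = (w ≫ ·)`, `ψ = (v ≫ ·)`.
* `fg_G_left`: `FG(G j (-j), G m i)` for all `j : ℕ`, induction on `j`: `j = 0` is `H.fg`; for
  `j + 1` use `fg_unshift` with `X = G (j+1) (-(j+1))`, `Y = G m i`:
  `X⟦1⟧ ≅ G j (-j)` and `Y⟦1⟧ ≅ G (m-1) (i+1)` by `γG`.
* `fg_right_step`: `FG(G j (-j), (Φ.inv D)⟦1⟧)` for all `j` follows from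
  `FG(G (j+1) (-(j+1)), Φ.inv D)` (`fg_psi_right`) by `fg_shift` and `γG`; then `fg_tri_right`
  applied to the rotated triangle `D ⟶ D' ⟶ (Φ.inv D)⟦1⟧ ⟶ D⟦1⟧` (`rot_of_distTriang`).
-/

universe u v w

namespace H60.KZ

open CategoryTheory CategoryTheory.Limits CategoryTheory.Pretriangulated

namespace Sys

variable {k : Type u} [Field k] {ι : Type w}

theorem cyc_stab (M : Sys.{u, v, w} k ι) (A : Finset ι) (h : M.V 0) : M.Stab A (M.Cyc h) := by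
  intro a _ n v hv
  exact Submodule.mem_iSup_of_mem (p := fun a => (Cyc M h n).map (M.op a n)) a
    (Submodule.mem_map_of_mem hv)

theorem cyc_map (M N : Sys.{u, v, w} k ι) (φ : ∀ n, M.V n →ₗ[k] N.V n) (hφ : M.IsHom N φ)
    (h : M.V 0) (n : ℕ) : (M.Cyc h n).map (φ n) = N.Cyc (φ 0 h) n := by
  induction n with
  | zero =>
    simp only [Cyc]
    rw [Submodule.map_span, Set.image_singleton]
  | succ n ih =>
    simp only [Cyc]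
    rw [Submodule.map_iSup]
    congr 1
    funext a
    rw [← ih, ← Submodule.map_comp, ← Submodule.map_comp]
    congr 1
    apply LinearMap.ext
    intro v
    exact hφ a n v

end Sys

variable {k : Type u} [Field k] {𝒟 : Type w} [Category.{v} 𝒟] [Preadditive 𝒟] [Linear k 𝒟]
  [HasZeroObject 𝒟] [HasShift 𝒟 ℤ] [∀ n : ℤ, (shiftFunctor 𝒟 n).Additive]
  [∀ n : ℤ, (shiftFunctor 𝒟 n).Linear k] [Pretriangulated 𝒟]
  {Φ : 𝒟 ⥤ 𝒟} [Φ.IsEquivalence] [Φ.Additive] [Φ.Linear k]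

/-- Linear combinations of the natural transformations. -/
noncomputable def lc {c : ℕ} (z : Fin c → (𝟭 𝒟 ⟶ Φ)) (lam : Fin c → k) : 𝟭 𝒟 ⟶ Φ :=
  ∑ a, lam a • z a

theorem tr_lc {c : ℕ} (z : Fin c → (𝟭 𝒟 ⟶ Φ)) (lam : Fin c → k) (X : 𝒟) :
    tr (lc z lam) X = ∑ a, lam a • tr (z a) X := by
  unfold lc tr
  rw [NatTrans.app_sum]
  rfl

theorem lc_phi {c : ℕ} {z : Fin c → (𝟭 𝒟 ⟶ Φ)} (hz : ZPhi Φ z) (lam : Fin c → k) (X : 𝒟) :
    Φ.map (tr (lc z lam) X) = tr (lc z lam) (Φ.obj X) := by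
  rw [tr_lc, tr_lc, Functor.map_sum]
  refine Finset.sum_congr rfl fun a _ => ?_
  rw [Functor.map_smul, hz a X]

theorem lc_kappa {c : ℕ} {z : Fin c → (𝟭 𝒟 ⟶ Φ)}
    (κ : ∀ X : 𝒟, (Φ.obj X)⟦(1 : ℤ)⟧ ≅ Φ.obj (X⟦(1 : ℤ)⟧))
    (hκ : ∀ a X, (tr (z a) X)⟦(1 : ℤ)⟧' ≫ (κ X).hom = tr (z a) (X⟦(1 : ℤ)⟧))
    (lam : Fin c → k) (X : 𝒟) :
    (tr (lc z lam) X)⟦(1 : ℤ)⟧' ≫ (κ X).hom = tr (lc z lam) (X⟦(1 : ℤ)⟧) := by
  rw [tr_lc, tr_lc, Functor.map_sum, Preadditive.sum_comp]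
  refine Finset.sum_congr rfl fun a _ => ?_
  rw [Functor.map_smul, Linear.smul_comp, hκ a X]

theorem opL_lc {c : ℕ} (z : Fin c → (𝟭 𝒟 ⟶ Φ)) (lam : Fin c → k) {X Z : 𝒟} (f : X ⟶ Z) :
    f ≫ tr (lc z lam) Z = ∑ a, lam a • opL k (z a) X Z f := by
  rw [tr_lc, Preadditive.comp_sum]
  refine Finset.sum_congr rfl fun a _ => ?_
  rw [Linear.comp_smul]
  rfl

variable {c : ℕ} {z : Fin c → (𝟭 𝒟 ⟶ Φ)} {s : ℕ} {d : ℤ} (H : ATHyp k 𝒟 Φ c z s d)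

include H in
theorem fg_left_step {A : Finset (Fin c)} (ℓ : 𝟭 𝒟 ⟶ Φ) {D D' : 𝒟}
    (v : D ⟶ D') (w : D' ⟶ (Φ.inv.obj D)⟦(1 : ℤ)⟧)
    (hT : Triangle.mk (uu ℓ D) v w ∈ distTriang 𝒟)
    (hD : ∀ m i, (VS k Φ z H.hz D (H.G m i)).FG A) (m i : ℤ) :
    (VS k Φ z H.hz D' (H.G m i)).FG A := by
  obtain ⟨γ⟩ := H.γG m i
  have h1 : (VS k Φ z H.hz ((Φ.inv.obj D)⟦(1 : ℤ)⟧) (H.G m i)).FG A :=
    fg_iso_right H.hz γ (fg_shift H.hz H.κ H.hκ (fg_psi_left H.hz (hD (m + 1) (i - 1))))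
  refine Sys.fg_of_exact (M₁ := VS k Φ z H.hz ((Φ.inv.obj D)⟦(1 : ℤ)⟧) (H.G m i))
    (M₂ := VS k Φ z H.hz D' (H.G m i)) (M₃ := VS k Φ z H.hz D (H.G m i))
    (fun n => Linear.leftComp k (pw Φ n (H.G m i)) w)
    (fun n => Linear.leftComp k (pw Φ n (H.G m i)) v) ?_ ?_ ?_ h1 (hD m i)
  · intro a n g
    exact (Category.assoc w g _).symm
  · intro a n g
    exact (Category.assoc v g _).symm
  · intro n g hg
    obtain ⟨g', hg'⟩ := Triangle.yoneda_exact₃ (Triangle.mk (uu ℓ D) v w) hT g hg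
    exact ⟨g', hg'.symm⟩

theorem At5_gamma (j : ℕ) :
    Nonempty ((H.G ((j + 1 : ℕ) : ℤ) (-((j + 1 : ℕ) : ℤ)))⟦(1 : ℤ)⟧ ≅ H.G j (-j)) := by
  have h := H.γG j (-j)
  have e1 : ((j + 1 : ℕ) : ℤ) = (j : ℤ) + 1 := by push_cast; ring
  have e2 : -((j : ℤ) + 1) = -(j : ℤ) - 1 := by ring
  rw [e1, e2]
  exact h

theorem fg_G_left (j : ℕ) (m i : ℤ) :
    (VS k Φ z H.hz (H.G j (-j)) (H.G m i)).FG Finset.univ := by
  induction j generalizing m i with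
  | zero =>
    have h := H.fg m i
    simpa using h
  | succ j ih =>
    obtain ⟨γ⟩ := At5_gamma H j
    obtain ⟨δ⟩ := H.γG (m - 1) (i + 1)
    have e1 : m - 1 + 1 = m := by ring
    have e2 : i + 1 - 1 = i := by ring
    rw [e1, e2] at δ
    refine fg_unshift H.hz H.κ H.hκ ?_
    exact fg_iso_left H.hz γ.symm (fg_iso_right H.hz δ.symm (ih (m - 1) (i + 1)))

theorem fg_right_step (ℓ : 𝟭 𝒟 ⟶ Φ) {D D' : 𝒟}
    (v : D ⟶ D') (w : D' ⟶ (Φ.inv.obj D)⟦(1 : ℤ)⟧)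
    (hT : Triangle.mk (uu ℓ D) v w ∈ distTriang 𝒟)
    (hD : ∀ j : ℕ, (VS k Φ z H.hz (H.G j (-j)) D).FG Finset.univ) (j : ℕ) :
    (VS k Φ z H.hz (H.G j (-j)) D').FG Finset.univ := by
  obtain ⟨γ⟩ := At5_gamma H j
  have h3 : (VS k Φ z H.hz (H.G j (-j)) ((Φ.inv.obj D)⟦(1 : ℤ)⟧)).FG Finset.univ :=
    fg_iso_left H.hz γ (fg_shift H.hz H.κ H.hκ (fg_psi_right H.hz (hD (j + 1))))
  exact fg_tri_right H.hz (Triangle.mk (uu ℓ D) v w).rotate (rot_of_distTriang _ hT) (hD j) h3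

end H60.KZ
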