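import Pool.Agent.H60.KZ.At4
import Pool.Agent.H60.KZ.At5

/-!
# Row At6: the stages of the second half of the abstract theorem

Write `S = G 0 0`, `Cyc = (VS S S).Cyc (𝟙 S)`, `h_* x = x ≫ pwMap Φ n h` (a morphism of systems
`VS S S ⟶ VS S D` by `tr_nat`; it maps `Cyc` onto the cyclic system of `h`, `Sys.cyc_map`).

`stage_zero`: `D = S`, `h = 𝟙`: `bdS`, `H.fg`, `fg_G_left`, `H.hr`, `CoGhN _ _ 0 _ = True`, and
`x ≫ pwMap Φ (n+1) (𝟙 S) = x` (the sum over `Fin 0` is zero).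

`stage_succ`: from a stage `t` with `D`, `h`, `r'` (bound), `I` (cogh), `N` (desc).
Apply `Sys.filter_regular` to the finite family consisting of the systems `VS D (G m ρ)` with
`N = ⊥`, for `-r' ≤ m ≤ r'`, `0 ≤ ρ < d` (finitely many), and the system `VS S D` (`fgr 0`, as
`G 0 (-0) = S`; use `by simpa using`), with `N = Cyc h` (`Sys.cyc_stab`).  It gives `lam0 : Fin c → k` and `n0`.
Let `ℓ = lc z lam0`, choose a distinguished triangle on `uu ℓ D` (`distinguished_cocone_triangle`):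
`D'`, `v : D ⟶ D'`, `w`.  Take `h' = h ≫ v`, and the family `Fin.snoc lam lam0`.

* `bd`: `Φ (Φ.inv D) ≅ D` is `Bd` (`bdIso`), so `Φ.inv D` is (`bdΦ`), so `D'` is (`bdTri`).
* `fgl`: `fg_left_step`;  `fgr`: `fg_right_step`.
* `bound`: `fam_step` (for `F = G`): bound `r' + 1`.
* `cogh`: for `I' ≥ I`, `CoGhN G I' t h` (monotone in `I`: prove it by induction).  Need
  `CoGh G I' v` for `I'` large: let `g : D' ⟶ G m i`, `i ≥ I'`, `g0 = v ≫ g`.  Then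
  `uu ℓ D ≫ g0 = 0`, so `g0 ≫ tr ℓ _ = 0` (`uu_comp_eq_zero_iff`).  If `m < -r'` or `m > r'`,
  `g0 = 0` by `bound`.  Otherwise `i = ρ + n d` with `0 ≤ ρ < d`, `n ≥ n0` (`I' = max I (d (n0+1))`,
  `ρ = i % d`, `n = (i / d).toNat`); with `e : pw Φ n (G m ρ) ≅ G m i` (`pw_fam`) the element
  `g0 ≫ e.inv` of `(VS D (G m ρ)).V n` satisfies `Σ lam0 a • op a (g0 ≫ e.inv)
  = (g0 ≫ e.inv) ≫ tr ℓ _ = g0 ≫ tr ℓ _ ≫ Φ.map e.inv = 0` (`opL_lc`, `tr_nat`), so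
  `g0 ≫ e.inv ∈ ⊥`, `g0 = 0`.
* `desc`: `N' = max N n0`.  Let `n ≥ N'`, `x ∈ Cyc (n+1)`, `x ≫ pwMap Φ (n+1) (h ≫ v) = 0`.
  By `ker_cone`, `h_* x = w' ≫ tr ℓ (pw Φ n D)` for some `w' : S ⟶ pw Φ n D`.
  As `h_* x ∈ Cyc h (n+1)` and `w' ≫ tr ℓ _ = Σ lam0 a • op a w'`, regularity gives
  `w' ∈ Cyc h n`, so `w' = h_* y` with `y ∈ Cyc n`.  Then `x' = x - y ≫ tr ℓ (pw Φ n S)` is in
  `Cyc (n+1)` (stability) and `h_* x' = 0` (`tr_nat`), so `desc` for `t` applies to `x'`.  Take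
  `Fin.snoc y' y` (`Fin.sum_univ_castSucc`).
-/

universe u v w

namespace H60.KZ

open CategoryTheory CategoryTheory.Limits CategoryTheory.Pretriangulated

variable {k : Type u} [Field k] {𝒟 : Type w} [Category.{v} 𝒟] [Preadditive 𝒟] [Linear k 𝒟]
  [HasZeroObject 𝒟] [HasShift 𝒟 ℤ] [∀ n : ℤ, (shiftFunctor 𝒟 n).Additive]
  [∀ n : ℤ, (shiftFunctor 𝒟 n).Linear k] [Pretriangulated 𝒟]
  {Φ : 𝒟 ⥤ 𝒟} [Φ.IsEquivalence] [Φ.Additive] [Φ.Linear k]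
  {c : ℕ} {z : Fin c → (𝟭 𝒟 ⟶ Φ)} {s : ℕ} {d : ℤ}

/-- The cyclic subsystem generated by the identity of `S = G 0 0`. -/
def cy (H : ATHyp k 𝒟 Φ c z s d) (n : ℕ) : Submodule k (H.G 0 0 ⟶ pw Φ n (H.G 0 0)) :=
  (VS k Φ z H.hz (H.G 0 0) (H.G 0 0)).Cyc (𝟙 (H.G 0 0)) n

/-- A stage of the construction. -/
structure Stage (H : ATHyp k 𝒟 Φ c z s d) (t : ℕ) (lam : Fin t → Fin c → k) (D : 𝒟)
    (h : H.G 0 0 ⟶ D) : Prop where
  bd : H.Bd D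
  fgl : ∀ m i, (VS k Φ z H.hz D (H.G m i)).FG Finset.univ
  fgr : ∀ j : ℕ, (VS k Φ z H.hz (H.G j (-j)) D).FG Finset.univ
  bound : ∃ r' : ℤ, ∀ m i, (m < - r' ∨ r' < m) → ∀ f : D ⟶ H.G m i, f = 0
  cogh : ∃ I : ℤ, CoGhN H.G I t h
  desc : ∃ N : ℕ, ∀ n, N ≤ n → ∀ x ∈ cy H (n + 1), x ≫ pwMap Φ (n + 1) h = 0 →
    ∃ y : Fin t → (H.G 0 0 ⟶ pw Φ n (H.G 0 0)), (∀ l, y l ∈ cy H n) ∧
      x = ∑ l, opL k (lc z (lam l)) (H.G 0 0) (pw Φ n (H.G 0 0)) (y l)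

section aux

omit [HasZeroObject 𝒟] [HasShift 𝒟 ℤ] [∀ n : ℤ, (shiftFunctor 𝒟 n).Additive]
  [∀ n : ℤ, (shiftFunctor 𝒟 n).Linear k] [Pretriangulated 𝒟] [Preadditive 𝒟] [Linear k 𝒟]
  [Field k] [Φ.IsEquivalence] [Φ.Additive] [Φ.Linear k]

theorem At6_pwMap_id (n : ℕ) (Y : 𝒟) : pwMap Φ n (𝟙 Y) = 𝟙 (pw Φ n Y) := by
  induction n with
  | zero => rfl
  | succ n ih =>
    change Φ.map (pwMap Φ n (𝟙 Y)) = 𝟙 (Φ.obj (pw Φ n Y))
    rw [ih]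
    exact Φ.map_id _

theorem At6_pwMap_comp (n : ℕ) {X Y Z : 𝒟} (f : X ⟶ Y) (g : Y ⟶ Z) :
    pwMap Φ n (f ≫ g) = pwMap Φ n f ≫ pwMap Φ n g := by
  induction n with
  | zero => rfl
  | succ n ih =>
    change Φ.map (pwMap Φ n (f ≫ g)) = _
    rw [ih, Functor.map_comp]
    rfl

theorem At6_mono [HasZeroMorphisms 𝒟] (G : ℤ → ℤ → 𝒟) {I I' : ℤ} (hI : I ≤ I') :
    ∀ (t : ℕ) {X Y : 𝒟} (f : X ⟶ Y), CoGhN G I t f → CoGhN G I' t f
  | 0, _, _, _, _ => trivial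
  | t + 1, _, _, _, hf => by
    obtain ⟨Z, f₁, f₂, h1, h2, h3⟩ := hf
    exact ⟨Z, f₁, f₂, At6_mono G hI t f₁ h1, fun m i hi g => h2 m i (hI.trans hi) g, h3⟩

end aux

theorem stage_zero (H : ATHyp k 𝒟 Φ c z s d) :
    Stage H 0 (fun l => l.elim0) (H.G 0 0) (𝟙 (H.G 0 0)) where
  bd := H.bdS
  fgl := H.fg
  fgr := fun j => fg_G_left H j 0 0
  bound := ⟨H.r, fun m i hm f => H.hr m i (by
    rcases hm with h | h
    · exact Or.inl h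
    · exact Or.inr (Or.inl h)) f⟩
  cogh := ⟨0, trivial⟩
  desc := ⟨0, fun n _ x _ h0 => ⟨fun l => l.elim0, fun l => l.elim0, by
    rw [At6_pwMap_id, Category.comp_id] at h0
    exact h0.trans (Finset.sum_of_isEmpty _).symm⟩⟩

/-- The cyclic subsystem of a morphism. -/
def At6_cyD (H : ATHyp k 𝒟 Φ c z s d) {D : 𝒟} (h : H.G 0 0 ⟶ D) (n : ℕ) :
    Submodule k (H.G 0 0 ⟶ pw Φ n D) :=
  (VS k Φ z H.hz (H.G 0 0) D).Cyc h n

/-- postcomposition as a morphism of systems -/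
def At6_phi (H : ATHyp k 𝒟 Φ c z s d) {D : 𝒟} (h : H.G 0 0 ⟶ D) (n : ℕ) :
    (VS k Φ z H.hz (H.G 0 0) (H.G 0 0)).V n →ₗ[k] (VS k Φ z H.hz (H.G 0 0) D).V n :=
  Linear.rightComp k (H.G 0 0) (pwMap Φ n h)

theorem At6_phi_hom (H : ATHyp k 𝒟 Φ c z s d) {D : 𝒟} (h : H.G 0 0 ⟶ D) :
    (VS k Φ z H.hz (H.G 0 0) (H.G 0 0)).IsHom (VS k Φ z H.hz (H.G 0 0) D) (At6_phi H h) := by
  intro a n f
  change (f ≫ tr (z a) (pw Φ n (H.G 0 0))) ≫ Φ.map (pwMap Φ n h)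
    = (f ≫ pwMap Φ n h) ≫ tr (z a) (pw Φ n D)
  rw [Category.assoc, Category.assoc, tr_nat]

theorem At6_cyc (H : ATHyp k 𝒟 Φ c z s d) {D : 𝒟} (h : H.G 0 0 ⟶ D) (n : ℕ)
    (w' : H.G 0 0 ⟶ pw Φ n D) :
    w' ∈ At6_cyD H h n ↔ ∃ y ∈ cy H n, y ≫ pwMap Φ n h = w' := by
  have h1 := Sys.cyc_map (VS k Φ z H.hz (H.G 0 0) (H.G 0 0)) (VS k Φ z H.hz (H.G 0 0) D)
    (At6_phi H h) (At6_phi_hom H h) (𝟙 (H.G 0 0)) n
  have h2 : (At6_phi H h 0) (𝟙 (H.G 0 0)) = h := Category.id_comp h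
  rw [h2] at h1
  constructor
  · intro hw
    have hw2 : (show (VS k Φ z H.hz (H.G 0 0) D).V n from w') ∈ Submodule.map (At6_phi H h n)
        ((VS k Φ z H.hz (H.G 0 0) (H.G 0 0)).Cyc (𝟙 (H.G 0 0)) n) := by
      rw [h1]
      exact hw
    obtain ⟨y, hy, hyw⟩ := hw2
    exact ⟨y, hy, hyw⟩
  · rintro ⟨y, hy, rfl⟩
    have h3 : At6_phi H h n y ∈ Submodule.map (At6_phi H h n)
        ((VS k Φ z H.hz (H.G 0 0) (H.G 0 0)).Cyc (𝟙 (H.G 0 0)) n) := Submodule.mem_map_of_mem hy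
    rw [h1] at h3
    exact h3

theorem At6_range (i d : ℤ) (hd : 1 ≤ d) (n0 : ℕ) (hi : d * (n0 + 1) ≤ i) :
    ∃ (n : ℕ) (ρ : ℤ), n0 ≤ n ∧ 0 ≤ ρ ∧ ρ < d ∧ i = ρ + n * d := by
  have hd0 : 0 < d := by omega
  have h1 : (n0 : ℤ) + 1 ≤ i / d := by
    rw [Int.le_ediv_iff_mul_le hd0]
    linarith [mul_comm d ((n0 : ℤ) + 1)]
  refine ⟨(i / d).toNat, i % d, by omega, Int.emod_nonneg i (by omega),
    Int.emod_lt_of_pos i hd0, ?_⟩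
  have h2 : ((i / d).toNat : ℤ) = i / d := Int.toNat_of_nonneg (by omega)
  rw [h2]
  have h3 := Int.emod_add_mul_ediv i d
  linarith [mul_comm d (i / d)]

theorem stage_succ [Infinite k] (H : ATHyp k 𝒟 Φ c z s d) (t : ℕ) (lam : Fin t → Fin c → k)
    (D : 𝒟) (h : H.G 0 0 ⟶ D) (hS : Stage H t lam D h) :
    ∃ (lam' : Fin (t + 1) → Fin c → k) (D' : 𝒟) (h' : H.G 0 0 ⟶ D'), Stage H (t + 1) lam' D' h' := by
  obtain ⟨r', hr'⟩ := hS.bound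
  obtain ⟨I, hI⟩ := hS.cogh
  obtain ⟨N, hN⟩ := hS.desc
  -- the finite family
  let J : Type := Option (Set.Icc (-r') r' × Set.Ico (0 : ℤ) d)
  let M : J → Sys.{u, v, 0} k (Fin c) := fun j => match j with
    | none => VS k Φ z H.hz (H.G 0 0) D
    | some p => VS k Φ z H.hz D (H.G p.1 p.2)
  let NN : ∀ (j : J) (n : ℕ), Submodule k ((M j).V n) := fun j => match j with
    | none => fun n => (VS k Φ z H.hz (H.G 0 0) D).Cyc h n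
    | some _ => fun _ => ⊥
  have hfg0 : (VS k Φ z H.hz (H.G 0 0) D).FG Finset.univ := by
    have := hS.fgr 0
    simpa using this
  have hM : ∀ j : J, (M j).FG Finset.univ := by
    rintro (_ | p)
    · exact hfg0
    · exact hS.fgl p.1 p.2
  have hNN : ∀ j : J, (M j).Stab Finset.univ (NN j) := by
    rintro (_ | p)
    · exact Sys.cyc_stab (VS k Φ z H.hz (H.G 0 0) D) Finset.univ h
    · intro a _ n x hx
      have hx0 : x = 0 := (Submodule.mem_bot k).1 hx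
      rw [hx0, map_zero]
      exact Submodule.zero_mem _
  obtain ⟨lam0, n0, hreg⟩ := Sys.filter_regular M hM NN hNN
  have hreg0 : ∀ n, n0 ≤ n → ∀ (w' : H.G 0 0 ⟶ pw Φ n D) (x1 : H.G 0 0 ⟶ pw Φ (n + 1) D),
      x1 = w' ≫ tr (lc z lam0) (pw Φ n D) → x1 ∈ At6_cyD H h (n + 1) →
      w' ∈ At6_cyD H h n := by
    intro n hn w' x1 hx1 hw'
    refine hreg none n hn w' ?_
    rw [opL_lc] at hx1
    rw [hx1] at hw'
    exact hw'
  have hreg1 : ∀ m, -r' ≤ m → m ≤ r' → ∀ ρ, 0 ≤ ρ → ρ < d → ∀ n, n0 ≤ n →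
      ∀ g : D ⟶ pw Φ n (H.G m ρ), g ≫ tr (lc z lam0) (pw Φ n (H.G m ρ)) = 0 → g = 0 := by
    intro m hm1 hm2 ρ hρ1 hρ2 n hn g hg
    have h1 := hreg (some (⟨m, hm1, hm2⟩, ⟨ρ, hρ1, hρ2⟩)) n hn g ?_
    · exact (Submodule.mem_bot k).1 h1
    · rw [opL_lc] at hg
      exact (Submodule.mem_bot k).2 hg
  set ℓ := lc z lam0 with hℓdef
  have hℓ : ∀ X, Φ.map (tr ℓ X) = tr ℓ (Φ.obj X) := fun X => lc_phi H.hz lam0 X
  obtain ⟨D', v, w, hT⟩ := Pretriangulated.distinguished_cocone_triangle (uu ℓ D)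
  refine ⟨Fin.snoc (α := fun _ => Fin c → k) lam lam0, D', h ≫ v, ?_⟩
  refine
    { bd := ?_
      fgl := fun m i => fg_left_step H ℓ v w hT hS.fgl m i
      fgr := fun j => fg_right_step H ℓ v w hT hS.fgr j
      bound := ⟨r' + 1, fun m i hm f => ?_⟩
      cogh := ⟨max I (d * (n0 + 1)), D, h, v, ?_, ?_, rfl⟩
      desc := ⟨max N n0, fun n hn x hx hx0 => ?_⟩ }
  · refine H.bdTri _ hT (H.bdΦ _ (H.bdIso D _ ⟨?_⟩ hS.bd)) hS.bd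
    exact (Φ.asEquivalence.counitIso.app D).symm
  · refine fam_step ℓ H.G d H.φG H.γG v w hT m i (hr' m i ?_) (hr' (m + 1) (i - 1 + d) ?_) f
    · omega
    · omega
  · exact At6_mono H.G (le_max_left _ _) t h hI
  · intro m i hi g
    have huv : uu ℓ D ≫ v = 0 := comp_distTriang_mor_zero₁₂ _ hT
    have h1 : uu ℓ D ≫ (v ≫ g) = 0 := by
      rw [← Category.assoc, huv, zero_comp]
    have h2 : (v ≫ g) ≫ tr ℓ (H.G m i) = 0 := (uu_comp_eq_zero_iff ℓ hℓ (v ≫ g)).1 h1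
    by_cases hm : m < -r' ∨ r' < m
    · exact hr' m i hm _
    · push Not at hm
      obtain ⟨n, ρ, hn, hρ1, hρ2, rfl⟩ := At6_range i d H.hd n0 ((le_max_right _ _).trans hi)
      obtain ⟨e⟩ := pw_fam H.G d H.φG n m ρ
      have h3 : ((v ≫ g) ≫ e.inv) ≫ tr ℓ (pw Φ n (H.G m ρ)) = 0 := by
        rw [Category.assoc, tr_nat, ← Category.assoc, h2, zero_comp]
      have h4 := hreg1 m hm.1 hm.2 ρ hρ1 hρ2 n hn _ h3
      have h5 : v ≫ g = ((v ≫ g) ≫ e.inv) ≫ e.hom := by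
        rw [Category.assoc, Iso.inv_hom_id, Category.comp_id]
      rw [h5, h4, zero_comp]
  · have hnN : N ≤ n := (le_max_left _ _).trans hn
    have hn0 : n0 ≤ n := (le_max_right _ _).trans hn
    have h1 : (x ≫ pwMap Φ (n + 1) h) ≫ pwMap Φ (n + 1) v = 0 := by
      rw [Category.assoc, ← At6_pwMap_comp]
      exact hx0
    obtain ⟨w', hw'⟩ := ker_cone ℓ hℓ v w hT n (x ≫ pwMap Φ (n + 1) h) h1
    obtain ⟨y, hy, hyw⟩ := (At6_cyc H h n w').1 (hreg0 n hn0 w' _ hw'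
      ((At6_cyc H h (n + 1) (x ≫ pwMap Φ (n + 1) h)).2 ⟨x, hx, rfl⟩))
    obtain ⟨y1, hy1⟩ : ∃ y1 : H.G 0 0 ⟶ pw Φ (n + 1) (H.G 0 0),
      y1 = y ≫ tr ℓ (pw Φ n (H.G 0 0)) := ⟨_, rfl⟩
    have h3 : y1 ∈ cy H (n + 1) := by
      rw [hy1, hℓdef, opL_lc]
      refine Submodule.sum_mem _ fun a _ => Submodule.smul_mem _ _ ?_
      exact Sys.cyc_stab (VS k Φ z H.hz (H.G 0 0) (H.G 0 0)) Finset.univ (𝟙 (H.G 0 0)) a
        (Finset.mem_univ a) n y hy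
    have h4 : (x - y1) ≫ pwMap Φ (n + 1) h = 0 := by
      rw [Preadditive.sub_comp, hw', ← hyw]
      have h5 : y1 ≫ pwMap Φ (n + 1) h
          = (y ≫ pwMap Φ n h) ≫ tr ℓ (pw Φ n D) := by
        rw [hy1]
        have e1 : (y ≫ pwMap Φ n h) ≫ tr ℓ (pw Φ n D)
            = (y ≫ tr ℓ (pw Φ n (H.G 0 0))) ≫ Φ.map (pwMap Φ n h) := by
          rw [Category.assoc, Category.assoc, tr_nat ℓ (pwMap Φ n h)]
        exact e1.symm
      rw [h5]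
      exact sub_self _
    obtain ⟨y', hy', hxy'⟩ := hN n hnN (x - y1) (Submodule.sub_mem _ hx h3) h4
    refine ⟨Fin.snoc (α := fun _ => (H.G 0 0 ⟶ pw Φ n (H.G 0 0))) y' y, ?_, ?_⟩
    · intro l
      refine Fin.lastCases ?_ (fun l => ?_) l
      · rw [Fin.snoc_last]
        exact hy
      · rw [Fin.snoc_castSucc]
        exact hy' l
    · rw [Fin.sum_univ_castSucc]
      simp only [Fin.snoc_last, Fin.snoc_castSucc]
      rw [← hxy']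
      have h6 : opL k (lc z lam0) (H.G 0 0) (pw Φ n (H.G 0 0)) y = y1 := hy1.symm
      rw [h6]
      exact (sub_add_cancel x y1).symm

end H60.KZ
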