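import Pool.Agent.H60.KZ.At6

/-!
# Row At7: reduction to `s` natural transformations

`exists_cyc`: by `stage_zero` and `stage_succ` (induction) there is a stage `s`, with `lam`, `D`,
`h`.  `hcomp` for `D` and the `I` of `cogh` gives `g : D ⟶ M` and `n1` with `h ≫ g = 0`.  Let `N` be
the bound of `desc` and `n = max N n1`.  For `x ∈ cy H (n+1)`:
`(x ≫ pwMap h) ≫ pwMap g = x ≫ pwMap (h ≫ g) = x ≫ pwMap 0 = 0`, so `x ≫ pwMap h = 0` and `desc`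
applies.

`fg_of_cyc`: let `S = G 0 0`, `Y = G m i`, and `n0` the index of `FG(S, Y)` for `z` (`H.fg`).
Let `j p : pw Φ p (pw Φ q Y) = pw Φ (q+p) Y` (or the isomorphism defined by `j 0 = Iso.refl`,
`j (p+1) = Φ.mapIso (j p)`).
Claim: for `q ≥ n0` and all `p`, every `f : S ⟶ pw Φ (q+p) Y` is a finite sum of terms
`x ≫ pwMap Φ p g ≫ (j p).hom` with `x ∈ cy H p` and `g : S ⟶ pw Φ q Y` (use `Submodule.span` of
this set of morphisms; it is the whole space).  Induction on `p`: `p = 0`: `x = 𝟙`.  `p + 1`: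
`f = Σ_a f_a ≫ tr (z a) _` with `f_a : S ⟶ pw Φ (q+p) Y`, and
`(x ≫ pwMap Φ p g ≫ (j p).hom) ≫ tr (z a) _ = (x ≫ tr (z a) _) ≫ pwMap Φ (p+1) g ≫ (j (p+1)).hom`
(`tr_nat`), where `x ≫ tr (z a) _ ∈ cy H (p+1)`.
Now let `n ≥ n0 + N`, `f : S ⟶ pw Φ (n+1) Y`; with `q = n - N` and `p = N + 1`, `f` is a sum of
terms `x ≫ pwMap Φ (N+1) g ≫ (j (N+1)).hom`, `x ∈ cy H (N+1)`.  By `hcyc`,
`x = Σ_l (y l) ≫ tr (lc z (lam l)) _` with `y l : S ⟶ pw Φ N S`, so the term is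
`Σ_l (y l ≫ pwMap Φ N g ≫ (j N).hom) ≫ tr (lc z (lam l)) _`.  This is generation by
the operators of `z' l = lc z (lam l)`.  The finite dimensionality is that of `H.fg`.

`halfB`: `z' l = lc z (lam l)`; `lc_phi`, `lc_kappa`; all other fields are those of `H`
(`VS` for `z'` has the same spaces).

`abstract_theorem`: apply `halfA` to the `H'` of `halfB` with `c = s` (rewrite with `H'.G = H.G`).
-/

universe u v w

namespace H60.KZ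

open CategoryTheory CategoryTheory.Limits CategoryTheory.Pretriangulated

variable {k : Type u} [Field k] {𝒟 : Type w} [Category.{v} 𝒟] [Preadditive 𝒟] [Linear k 𝒟]
  [HasZeroObject 𝒟] [HasShift 𝒟 ℤ] [∀ n : ℤ, (shiftFunctor 𝒟 n).Additive]
  [∀ n : ℤ, (shiftFunctor 𝒟 n).Linear k] [Pretriangulated 𝒟]
  {Φ : 𝒟 ⥤ 𝒟} [Φ.IsEquivalence] [Φ.Additive] [Φ.Linear k]
  {c : ℕ} {z : Fin c → (𝟭 𝒟 ⟶ Φ)} {s : ℕ} {d : ℤ}

omit [HasZeroObject 𝒟] [HasShift 𝒟 ℤ] [∀ n : ℤ, (shiftFunctor 𝒟 n).Additive] [Pretriangulated 𝒟]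
  [Φ.IsEquivalence] [Φ.Additive] [Preadditive 𝒟] in
theorem At7_pwMap_comp (n : ℕ) {X Y Z : 𝒟} (f : X ⟶ Y) (g : Y ⟶ Z) :
    pwMap Φ n (f ≫ g) = pwMap Φ n f ≫ pwMap Φ n g := by
  induction n with
  | zero => rfl
  | succ n ih =>
    change Φ.map (pwMap Φ n (f ≫ g)) = Φ.map (pwMap Φ n f) ≫ Φ.map (pwMap Φ n g)
    rw [ih, Φ.map_comp]

omit [HasZeroObject 𝒟] [HasShift 𝒟 ℤ] [∀ n : ℤ, (shiftFunctor 𝒟 n).Additive] [Pretriangulated 𝒟]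
  [Φ.IsEquivalence] in
theorem At7_pwMap_zero (n : ℕ) {X Y : 𝒟} : pwMap Φ n (0 : X ⟶ Y) = 0 := by
  induction n with
  | zero => rfl
  | succ n ih =>
    change Φ.map (pwMap Φ n (0 : X ⟶ Y)) = 0
    rw [ih, Φ.map_zero]

theorem At7_stage [Infinite k] (H : ATHyp k 𝒟 Φ c z s d) (t : ℕ) :
    ∃ (lam : Fin t → Fin c → k) (D : 𝒟) (h : H.G 0 0 ⟶ D), Stage H t lam D h := by
  induction t with
  | zero => exact ⟨_, _, _, stage_zero H⟩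
  | succ t ih =>
    obtain ⟨lam, D, h, hS⟩ := ih
    exact stage_succ H t lam D h hS

theorem exists_cyc [Infinite k] (H : ATHyp k 𝒟 Φ c z s d) :
    ∃ (lam : Fin s → Fin c → k) (N : ℕ), ∀ x ∈ cy H (N + 1),
      ∃ y : Fin s → (H.G 0 0 ⟶ pw Φ N (H.G 0 0)),
        x = ∑ l, opL k (lc z (lam l)) (H.G 0 0) (pw Φ N (H.G 0 0)) (y l) := by
  obtain ⟨lam, D, h, hS⟩ := At7_stage H s
  obtain ⟨I, hI⟩ := hS.cogh
  obtain ⟨M, g, hg, n1, hn1⟩ := H.hcomp D hS.bd I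
  obtain ⟨N, hN⟩ := hS.desc
  refine ⟨lam, max N n1, fun x hx => ?_⟩
  have h1 : (x ≫ pwMap Φ (max N n1 + 1) h) ≫ pwMap Φ (max N n1 + 1) g = 0 := by
    rw [Category.assoc, ← At7_pwMap_comp, hg h hI, At7_pwMap_zero, comp_zero]
  have h2 := hn1 (max N n1 + 1) (by have := le_max_right N n1; omega) _ h1
  obtain ⟨y, _, hy⟩ := hN (max N n1) (le_max_left _ _) x hx h2
  exact ⟨y, hy⟩

/-- the comparison `Φ^p Φ^q Y ≅ Φ^(q+p) Y` -/
noncomputable def At7_j (Φ : 𝒟 ⥤ 𝒟) (q : ℕ) (Y : 𝒟) :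
    (p : ℕ) → (pw Φ p (pw Φ q Y) ≅ pw Φ (q + p) Y)
  | 0 => Iso.refl _
  | p + 1 => Φ.mapIso (At7_j Φ q Y p)

omit [HasZeroObject 𝒟] [HasShift 𝒟 ℤ] [∀ n : ℤ, (shiftFunctor 𝒟 n).Additive] [Pretriangulated 𝒟]
  [Φ.IsEquivalence] [Φ.Additive] [Preadditive 𝒟] in
theorem At7_nat (ℓ : 𝟭 𝒟 ⟶ Φ) {S X Y Z : 𝒟} (x : S ⟶ X) (a : X ⟶ Y) (b : Y ⟶ Z) :
    (x ≫ a ≫ b) ≫ tr ℓ Z = (x ≫ tr ℓ X) ≫ Φ.map a ≫ Φ.map b := by
  have e1 : (a ≫ b) ≫ tr ℓ Z = tr ℓ X ≫ Φ.map a ≫ Φ.map b := by rw [tr_nat, Φ.map_comp]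
  rw [Category.assoc, e1, Category.assoc]

/-- products of a cyclic element and a morphism of degree `q` -/
def At7_T (H : ATHyp k 𝒟 Φ c z s d) (Y : 𝒟) (q p : ℕ) : Set (H.G 0 0 ⟶ pw Φ (q + p) Y) :=
  {f | ∃ x ∈ cy H p, ∃ g : H.G 0 0 ⟶ pw Φ q Y, f = x ≫ pwMap Φ p g ≫ (At7_j Φ q Y p).hom}

theorem At7_span (H : ATHyp k 𝒟 Φ c z s d) (Y : 𝒟) (n0 q : ℕ) (hq : n0 ≤ q)
    (h : ∀ n, n0 ≤ n → ∀ v : H.G 0 0 ⟶ pw Φ (n + 1) Y, ∃ f : Fin c → (H.G 0 0 ⟶ pw Φ n Y),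
      v = ∑ a, opL k (z a) (H.G 0 0) (pw Φ n Y) (f a)) (p : ℕ) :
    ∀ f : H.G 0 0 ⟶ pw Φ (q + p) Y, f ∈ Submodule.span k (At7_T H Y q p) := by
  induction p with
  | zero =>
    intro f
    refine Submodule.subset_span ⟨𝟙 _, ?_, f, ?_⟩
    · exact Submodule.mem_span_singleton_self (R := k)
        (M := (VS k Φ z H.hz (H.G 0 0) (H.G 0 0)).V 0) _
    · change f = 𝟙 _ ≫ f ≫ 𝟙 _
      rw [Category.comp_id, Category.id_comp]
  | succ p ih =>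
    intro f
    obtain ⟨fa, hfa⟩ := h (q + p) (by omega) f
    rw [hfa]
    refine Submodule.sum_mem _ fun a _ => ?_
    have h1 : Submodule.map (opL k (z a) (H.G 0 0) (pw Φ (q + p) Y))
        (Submodule.span k (At7_T H Y q p)) ≤ Submodule.span k (At7_T H Y q (p + 1)) := by
      rw [Submodule.map_span_le]
      rintro _ ⟨x, hx, g, rfl⟩
      have h2 : (VS k Φ z H.hz (H.G 0 0) (H.G 0 0)).op a p x ∈
          (VS k Φ z H.hz (H.G 0 0) (H.G 0 0)).Cyc (𝟙 (H.G 0 0)) (p + 1) :=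
        Submodule.mem_iSup_of_mem a (Submodule.mem_map_of_mem hx)
      have h3 : opL k (z a) (H.G 0 0) (pw Φ (q + p) Y)
          (x ≫ pwMap Φ p g ≫ (At7_j Φ q Y p).hom) ∈ At7_T H Y q (p + 1) := by
        refine ⟨x ≫ tr (z a) (pw Φ p (H.G 0 0)), h2, g, ?_⟩
        change (x ≫ pwMap Φ p g ≫ (At7_j Φ q Y p).hom) ≫ tr (z a) (pw Φ (q + p) Y) =
          (x ≫ tr (z a) (pw Φ p (H.G 0 0))) ≫ Φ.map (pwMap Φ p g) ≫ Φ.map (At7_j Φ q Y p).hom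
        exact At7_nat _ _ _ _
      have h4 : At7_T H Y q (p + 1) ⊆ Submodule.span k (At7_T H Y q (p + 1)) :=
        Submodule.subset_span
      exact h4 h3
    exact h1 (Submodule.mem_map_of_mem (ih (fa a)))

theorem fg_of_cyc (H : ATHyp k 𝒟 Φ c z s d) (lam : Fin s → Fin c → k) (N : ℕ)
    (hcyc : ∀ x ∈ cy H (N + 1), ∃ y : Fin s → (H.G 0 0 ⟶ pw Φ N (H.G 0 0)),
        x = ∑ l, opL k (lc z (lam l)) (H.G 0 0) (pw Φ N (H.G 0 0)) (y l))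
    (hz' : ZPhi Φ (fun l => lc z (lam l))) (m i : ℤ) :
    (VS k Φ (fun l => lc z (lam l)) hz' (H.G 0 0) (H.G m i)).FG Finset.univ := by
  obtain ⟨n0, hn0⟩ := H.fg m i
  refine ⟨n0 + N, fun n hn => ⟨(hn0 n (by omega)).1, fun v => ?_⟩⟩
  obtain ⟨q, rfl⟩ : ∃ q, n = q + N := ⟨n - N, by omega⟩
  have h := At7_span H (H.G m i) n0 q (by omega) (fun n hn v => (hn0 n hn).2 v) (N + 1) v
  let R : (Fin s → (H.G 0 0 ⟶ pw Φ (q + N) (H.G m i))) →ₗ[k]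
      (H.G 0 0 ⟶ Φ.obj (pw Φ (q + N) (H.G m i))) :=
    ∑ l, (opL k (lc z (lam l)) (H.G 0 0) (pw Φ (q + N) (H.G m i))).comp (LinearMap.proj l)
  have hR : ∀ y, R y = ∑ l, (y l) ≫ tr (lc z (lam l)) (pw Φ (q + N) (H.G m i)) := by
    intro y
    rw [LinearMap.sum_apply]
    rfl
  have hle : Submodule.span k (At7_T H (H.G m i) q (N + 1)) ≤ LinearMap.range R := by
    refine Submodule.span_le.2 ?_
    rintro _ ⟨x, hx, g, rfl⟩
    obtain ⟨y, hy⟩ := hcyc x hx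
    refine ⟨fun l => y l ≫ pwMap Φ N g ≫ (At7_j Φ q (H.G m i) N).hom, ?_⟩
    rw [hR, hy]
    change _ = (∑ l, y l ≫ tr (lc z (lam l)) (pw Φ N (H.G 0 0))) ≫
      Φ.map (pwMap Φ N g) ≫ Φ.map (At7_j Φ q (H.G m i) N).hom
    rw [Preadditive.sum_comp]
    refine Finset.sum_congr rfl fun l _ => ?_
    exact At7_nat _ _ _ _
  obtain ⟨f, hf⟩ := hle h
  exact ⟨f, by rw [← hf, hR]; rfl⟩

theorem halfB [Infinite k] (H : ATHyp k 𝒟 Φ c z s d) :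
    ∃ (z' : Fin s → (𝟭 𝒟 ⟶ Φ)) (H' : ATHyp k 𝒟 Φ s z' s d), H'.G = H.G := by
  obtain ⟨lam, N, hcyc⟩ := exists_cyc H
  have hz' : ZPhi Φ (fun l => lc z (lam l)) := fun l X => lc_phi H.hz (lam l) X
  exact ⟨fun l => lc z (lam l),
    { hz := hz'
      κ := H.κ
      hκ := fun l X => lc_kappa H.κ H.hκ (lam l) X
      G := H.G
      P := H.P
      hd := H.hd
      φG := H.φG
      φP := H.φP
      γG := H.γG
      γP := H.γP
      r := H.r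
      hr := H.hr
      fg := fun m i => fg_of_cyc H lam N hcyc hz' m i
      hP := H.hP
      hlift := H.hlift
      Bd := H.Bd
      bdS := H.bdS
      bdIso := H.bdIso
      bdΦ := H.bdΦ
      bdTri := H.bdTri
      hcomp := H.hcomp }, rfl⟩

/-- The abstract theorem: only the strand `m = 0` is nonzero. -/
theorem abstract_theorem [Infinite k] (H : ATHyp k 𝒟 Φ c z s d) (m i : ℤ) (hm : 0 < m)
    (f : H.G 0 0 ⟶ H.G m i) : f = 0 := by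
  obtain ⟨z', H', hG⟩ := halfB H
  have key : ∀ (G : ℤ → ℤ → 𝒟), H'.G = G → ∀ f : G 0 0 ⟶ G m i, f = 0 := by
    rintro _ rfl f
    exact halfA H' m i (by rw [sub_self]; exact hm) f
  exact key H.G hG f

end H60.KZ
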