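import Pool.Agent.H60.KZ.GmS
import Pool.Agent.H60.KZ.At0

/-!
# The derived category of graded modules: definitions
-/

universe w u

namespace H60.KZ

open CategoryTheory CategoryTheory.Limits CategoryTheory.Pretriangulated

section

variable {C : Type*} [Category* C] [Abelian C] [HasDerivedCategory.{w} C]

/-- The object of the derived category attached to an object, in degree `0`. -/
noncomputable abbrev sg : C ⥤ DerivedCategory C := DerivedCategory.singleFunctor C 0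

/-- All morphisms `X ⟶ Y[n]` in the derived category are zero. -/
def VX (X : DerivedCategory C) (Y : C) (n : ℤ) : Prop := ∀ f : X ⟶ (sg.obj Y)⟦n⟧, f = 0

/-- `Ext^n(X, Y) = 0`. -/
def VV (X Y : C) (n : ℤ) : Prop := VX (sg.obj X) Y n

end

variable {k : Type u} [Field k] {B : Type u} [Ring B] [Algebra k B]
  {ℬ : ℤ → Submodule k B} [GradedAlgebra ℬ] [HasDerivedCategory.{w} (GrMod ℬ)]

/-- The functor `X ↦ X⟨-d⟩[d]` on the derived category of graded modules. -/
noncomputable def PhiF (d : ℤ) : DerivedCategory (GrMod ℬ) ⥤ DerivedCategory (GrMod ℬ) :=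
  (shf d).mapDerivedCategory ⋙ shiftFunctor (DerivedCategory (GrMod ℬ)) d

/-- The canonical isomorphism `(X⟨-d⟩[d])[1] ≅ (X[1])⟨-d⟩[d]`. -/
noncomputable def kapF (d : ℤ) (X : DerivedCategory (GrMod ℬ)) :
    ((PhiF d).obj X)⟦(1 : ℤ)⟧ ≅ (PhiF d).obj (X⟦(1 : ℤ)⟧) :=
  (shiftFunctorComm (DerivedCategory (GrMod ℬ)) d 1).app _ ≪≫
    (shiftFunctor (DerivedCategory (GrMod ℬ)) d).mapIso
      (((shf d).mapDerivedCategory.commShiftIso (1 : ℤ)).app X).symm

variable (ℬ) in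
/-- `G m i = S⟨-(m+i)⟩[i]`. -/
noncomputable def GG [PosGr ℬ] (m i : ℤ) : DerivedCategory (GrMod ℬ) :=
  (sg.obj (Sj ℬ (m + i)))⟦i⟧

variable (ℬ) in
/-- `P m i = B⟨-(m+i)⟩[i]`. -/
noncomputable def PP (m i : ℤ) : DerivedCategory (GrMod ℬ) :=
  (sg.obj (Pj ℬ (m + i)))⟦i⟧

/-- Bounded complexes with finite dimensional cohomology. -/
def BdX (X : DerivedCategory (GrMod ℬ)) : Prop :=
  (∃ a : ℤ, X.IsGE a) ∧ (∃ b : ℤ, X.IsLE b) ∧
    ∀ i : ℤ, Fd ((DerivedCategory.homologyFunctor (GrMod ℬ) i).obj X)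

end H60.KZ
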