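import Pool.Agent.H60.KZ.Dr1
import Pool.Agent.H60.KZ.GmJ

/-!
# Row Dr2: bounds for `Ext^n(M, Sj ℬ j)`

* `vv_low`: for `n < 0` it is `vv_neg`.  For `n : ℕ`, induction: claim(n): for all `a b M j` with
  `Supp M a b`, `Fd M`, `j < a + n`: `VV M (Sj ℬ j) n`.  `n = 0`: `M` is zero in degree `j < a`, so
  `hom_Sj_zero` and `vv_zero`.  `n + 1`: first `M = Sj ℬ a`: `Jj_ses a`, `Pj` projective, `vv_dim`, and
  claim(n) for `Jj ℬ a`, which is supported in `[a+1, ..]` (`Jj_supp`; `Fd_Jj`):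
  `j < (a+1) + n`.  General `M`: induction on `(b - a + 1).toNat`: if `b < a`, `M` is zero.
  Otherwise the short exact sequence of `geG M (a+1)`: the sub is supported in `[a+1, b]`
  (`supp_ge`), `j < a + (n+1) < (a+1) + (n+1)`, by induction; the quotient is supported in `[a, a]`
  (`supp_quo`), in `InAdd (fun _ : Unit => Sj ℬ a)` (`sem_inAdd_supp`): `vv_inAdd_left` and the
  first case.  `vv_ses_left`.
* `vv_high`: induction on `n : ℕ` for all `M` (`n < 0`: `vv_neg`).  `n = 0`: `Supp M a b`, take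
  `J = b`.  `n + 1`: cover `p : Q ⟶ M` (`exists_cover`, `Q` projective by `inAdd_proj`), kernel
  `kerG p` finite dimensional (`Fd_ses`), `vv_dim`.
* `fdh`: induction on `n : ℕ` for all `M`; `n < 0`: the space is zero.  `n = 0`:
  `(sg M ⟶ (sg N)⟦0⟧) ≃ₗ (M ⟶ N)`, and `(M ⟶ Sj ℬ j) ↪ Hom_k(M j, (Sj ℬ j) j)` by `cm _ j`
  (a morphism to `Sj ℬ j` is determined by its component in degree `j`, the other components of
  the target being zero).  `n + 1`: `vv_dim_lin` for a cover.
-/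

universe w u

namespace H60.KZ

open CategoryTheory CategoryTheory.Limits CategoryTheory.Pretriangulated

section

variable {C : Type*} [Category* C] [Abelian C] [HasDerivedCategory.{w} C]

omit [HasDerivedCategory.{w} C] in
theorem dr2_inAdd_zero {M : C} (h : 𝟙 M = 0) : InAdd (fun x : Empty => (x.elim : C)) M := by
  refine ⟨0, Fin.elim0, fun a => a.elim0, fun a => a.elim0, ?_⟩
  simpa using h

end

variable {k : Type u} [Field k] {B : Type u} [Ring B] [Algebra k B]
  {ℬ : ℤ → Submodule k B} [GradedAlgebra ℬ] [PosGr ℬ] [HasDerivedCategory.{w} (GrMod ℬ)]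
  [Module.Finite k B] [IsSemisimpleRing (ℬ 0)]

omit [PosGr ℬ] [Module.Finite k B] [IsSemisimpleRing (ℬ 0)] in
theorem dr2_zero (M : GrMod ℬ) (h : ∀ i (x : cmp M i), x = 0) (Y : GrMod ℬ) (n : ℤ) :
    VV M Y n := by
  have h1 : 𝟙 M = 0 := by
    refine hom_ext_cm fun i x => ?_
    rw [h i (cm (𝟙 M) i x), h i (cm 0 i x)]
  exact vv_inAdd_left (dr2_inAdd_zero h1) Y n (fun j => j.elim)

theorem dr2_low {s : ℕ} (hs : ∀ i : ℤ, s < i → ℬ i = ⊥) (n : ℕ) :
    ∀ (m : ℤ), m = n → ∀ (M : GrMod ℬ) (_ : Fd M) (a b : ℤ) (_ : Supp M a b) (j : ℤ)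
    (_ : j < a + m), VV M (Sj ℬ j) m := by
  induction n with
  | zero =>
    intro m hm M hF a b hM j hj
    obtain rfl : m = 0 := by simpa using hm
    exact vv_zero _ _ (fun f => hom_Sj_zero (hM j (Or.inl (by linarith))) f)
  | succ n ih =>
    intro m hm
    have hm' : m - 1 = n := by push_cast at hm; linarith
    have hm0 : 0 < m := by push_cast at hm; linarith [Int.natCast_nonneg n]
    have hS : ∀ a j : ℤ, j < a + m → VV (Sj ℬ a) (Sj ℬ j) m := by
      intro a j hj
      obtain ⟨i, p, w, hses, -⟩ := Jj_ses (ℬ := ℬ) a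
      have : Projective (ShortComplex.mk i p w).X₂ := Pj_proj a
      exact vv_dim (ShortComplex.mk i p w) hses (Sj ℬ j) m hm0
        (ih (m - 1) hm' (Jj ℬ a) (Fd_Jj a) (a + 1) (a + s) (Jj_supp hs a) j (by linarith))
    have hgen : ∀ (c : ℕ) (M : GrMod ℬ) (_ : Fd M) (a b : ℤ) (_ : Supp M a b)
        (_ : b - a + 1 ≤ c) (j : ℤ) (_ : j < a + m), VV M (Sj ℬ j) m := by
      intro c
      induction c with
      | zero =>
        intro M hF a b hM hc j hj
        refine dr2_zero M (fun i x => hM i ?_ x) _ _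
        push_cast at hc
        by_cases hi : i < a
        · exact Or.inl hi
        · exact Or.inr (by linarith)
      | succ c ihc =>
        intro M hF a b hM hc j hj
        have hses := (geG M (a + 1)).shortExact
        have hFd := (Fd_ses _ hses).1 hF
        refine vv_ses_left _ hses (Sj ℬ j) m ?_ ?_
        · exact ihc _ hFd.1 (a + 1) b (supp_ge hM (a + 1)) (by push_cast at hc; linarith) j
            (by linarith)
        · have hin := sem_inAdd_supp (M := (geG M (a + 1)).quo) (supp_quo hM a) hFd.2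
          exact vv_inAdd_left hin _ _ (fun _ => hS a j hj)
    intro M hF a b hM j hj
    exact hgen (b - a + 1).toNat M hF a b hM (Int.self_le_toNat _) j hj

theorem vv_low {s : ℕ} (hs : ∀ i : ℤ, s < i → ℬ i = ⊥) (M : GrMod ℬ) (hF : Fd M) (a b : ℤ)
    (hM : Supp M a b) (j n : ℤ) (h : j < a + n) : VV M (Sj ℬ j) n := by
  rcases lt_or_ge n 0 with hn | hn
  · exact vv_neg _ _ _ hn
  · exact dr2_low hs n.toNat n (Int.toNat_of_nonneg hn).symm M hF a b hM j h

omit [IsSemisimpleRing (ℬ 0)] in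
theorem dr2_high (n : ℕ) : ∀ (m : ℤ), m = n → ∀ (M : GrMod ℬ) (_ : Fd M),
    ∃ J, ∀ j, J < j → VV M (Sj ℬ j) m := by
  induction n with
  | zero =>
    intro m hm M hF
    obtain rfl : m = 0 := by simpa using hm
    obtain ⟨-, a, b, hM⟩ := hF
    exact ⟨b, fun j hj => vv_zero _ _ (fun f => hom_Sj_zero (hM j (Or.inr hj)) f)⟩
  | succ n ih =>
    intro m hm M hF
    have hm' : m - 1 = n := by push_cast at hm; linarith
    have hm0 : 0 < m := by push_cast at hm; linarith [Int.natCast_nonneg n]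
    obtain ⟨Q, p, hQ, hp, hFQ⟩ := exists_cover M hF
    have := hp
    obtain ⟨w, hses⟩ := kerG_shortExact p
    have : Projective (ShortComplex.mk (kerG p).inc p w).X₂ := inAdd_proj (fun j => Pj_proj j) hQ
    obtain ⟨J, hJ⟩ := ih (m - 1) hm' (kerG p).sub ((Fd_ses _ hses).1 hFQ).1
    exact ⟨J, fun j hj => vv_dim _ hses (Sj ℬ j) m hm0 (hJ j hj)⟩

omit [IsSemisimpleRing (ℬ 0)] in
theorem vv_high (M : GrMod ℬ) (hF : Fd M) (n : ℤ) : ∃ J, ∀ j, J < j → VV M (Sj ℬ j) n := by
  rcases lt_or_ge n 0 with hn | hn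
  · exact ⟨0, fun j _ => vv_neg _ _ _ hn⟩
  · exact dr2_high n.toNat n (Int.toNat_of_nonneg hn).symm M hF

omit [IsSemisimpleRing (ℬ 0)] [HasDerivedCategory.{w} (GrMod ℬ)] in
theorem dr2_hom (M : GrMod ℬ) (hF : Fd M) (j : ℤ) : Module.Finite k (M ⟶ Sj ℬ j) := by
  have := hF.1 j
  have := (Fd_Sj (ℬ := ℬ) j).1 j
  let φ : (M ⟶ Sj ℬ j) →ₗ[k] (cmp M j →ₗ[k] cmp (Sj ℬ j) j) :=
    { toFun := fun f => cm f j
      map_add' := fun f g => rfl
      map_smul' := fun r f => rfl }
  refine Module.Finite.of_injective φ ?_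
  intro f g hfg
  refine hom_ext_cm fun i x => ?_
  by_cases hi : i = j
  · subst hi
    exact congrArg (fun t => t x) hfg
  · have h0 := fun y => Sj_supp (ℬ := ℬ) j i (by
      rcases lt_or_gt_of_ne hi with h | h
      · exact Or.inl h
      · exact Or.inr h) y
    rw [h0 (cm f i x), h0 (cm g i x)]

omit [IsSemisimpleRing (ℬ 0)] in
theorem dr2_fdh (n : ℕ) : ∀ (m : ℤ), m = n → ∀ (M : GrMod ℬ) (_ : Fd M) (j : ℤ),
    Module.Finite k (sg.obj M ⟶ (sg.obj (Sj ℬ j))⟦m⟧) := by
  induction n with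
  | zero =>
    intro m hm M hF j
    obtain rfl : m = 0 := by simpa using hm
    have := dr2_hom M hF j
    let φ : (M ⟶ Sj ℬ j) →ₗ[k] (sg.obj M ⟶ (sg.obj (Sj ℬ j))⟦(0 : ℤ)⟧) :=
      { toFun := fun f => sg.map f ≫
          (shiftFunctorZero (DerivedCategory (GrMod ℬ)) ℤ).inv.app (sg.obj (Sj ℬ j))
        map_add' := fun f g => by rw [Functor.map_add, Preadditive.add_comp]
        map_smul' := fun r f => by
          rw [Functor.map_smul, Linear.smul_comp]
          rfl }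
    refine Module.Finite.of_surjective φ ?_
    intro g
    obtain ⟨f, hf⟩ := (sg (C := GrMod ℬ)).map_surjective
      (g ≫ (shiftFunctorZero (DerivedCategory (GrMod ℬ)) ℤ).hom.app (sg.obj (Sj ℬ j)))
    refine ⟨f, ?_⟩
    change sg.map f ≫ _ = g
    rw [hf, Category.assoc, Iso.hom_inv_id_app, Category.comp_id]
  | succ n ih =>
    intro m hm M hF j
    have hm' : m - 1 = n := by push_cast at hm; linarith
    have hm0 : 0 < m := by push_cast at hm; linarith [Int.natCast_nonneg n]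
    obtain ⟨Q, p, hQ, hp, hFQ⟩ := exists_cover M hF
    have := hp
    obtain ⟨w, hses⟩ := kerG_shortExact p
    have : Projective (ShortComplex.mk (kerG p).inc p w).X₂ := inAdd_proj (fun j => Pj_proj j) hQ
    have := ih (m - 1) hm' (kerG p).sub ((Fd_ses _ hses).1 hFQ).1 j
    obtain ⟨φ, hφ⟩ := vv_dim_lin k _ hses (Sj ℬ j) m hm0
    exact Module.Finite.of_surjective φ hφ

omit [IsSemisimpleRing (ℬ 0)] in
theorem fdh (M : GrMod ℬ) (hF : Fd M) (j n : ℤ) :
    Module.Finite k (sg.obj M ⟶ (sg.obj (Sj ℬ j))⟦n⟧) := by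
  rcases lt_or_ge n 0 with hn | hn
  · have h := vv_neg M (Sj ℬ j) n hn
    refine Module.Finite.of_surjective (0 : k →ₗ[k] _) (fun f => ⟨0, ?_⟩)
    rw [h f]
    rfl
  · exact dr2_fdh n.toNat n (Int.toNat_of_nonneg hn).symm M hF j

end H60.KZ
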