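import Pool.Agent.H60.KZ.Dr1
import Pool.Agent.H60.KZ.GmJ

/-!
# Row Dr3: filtrations and the lifting property

* `vx_filt`: induction on `(b - a + 1).toNat`.  If `b < a`, `M` is zero (`isZero_iff_cm`), `sg` and
  shifts preserve zero objects.  Otherwise use the short exact sequence of `geG M (a+1)`
  (`SubG.shortExact`, `supp_ge`, `supp_quo`, `Fd_ses`): the quotient is supported in `[a, a]`, hence
  in `InAdd (fun _ : Unit => Sj ℬ a)` (`sem_inAdd_supp`, `vx_inAdd`); the sub by induction; `vx_ses`.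
* `lift_GG`: `q = m + i`.  By `Jj_ses q` and `vx_lift` (with `n = i`) it suffices that
  `VX X (Jj ℬ q) (i+1)`; then `x = y ≫ (sg.map p)⟦i⟧'` with `y : X ⟶ PP ℬ m i`, and `y ≠ 0` as
  `x ≠ 0`.  `Jj ℬ q` is finite dimensional, supported in `[q+1, q+s]` (`Jj_supp`), so by `vx_filt` it
  suffices that `VX X (Sj ℬ j) (i+1)` for `q+1 ≤ j ≤ q+s`; write `j = m + t + (i+1)` with
  `0 ≤ t < s`: this is the hypothesis for `GG ℬ (m+t) (i+1)` (equality of integers
  `m + t + (i+1) = j`: `subst`/`rw`).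
-/

universe w u

namespace H60.KZ

open CategoryTheory CategoryTheory.Limits CategoryTheory.Pretriangulated

variable {k : Type u} [Field k] {B : Type u} [Ring B] [Algebra k B]
  {ℬ : ℤ → Submodule k B} [GradedAlgebra ℬ] [PosGr ℬ] [HasDerivedCategory.{w} (GrMod ℬ)]
  [Module.Finite k B] [IsSemisimpleRing (ℬ 0)]

omit [Module.Finite k B] in
theorem vx_filt (X : DerivedCategory (GrMod ℬ)) (M : GrMod ℬ) (hF : Fd M) (a b : ℤ)
    (hM : Supp M a b) (n : ℤ) (h : ∀ j, a ≤ j → j ≤ b → VX X (Sj ℬ j) n) : VX X M n := by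
  obtain ⟨N, hN⟩ : ∃ N : ℕ, (b - a + 1).toNat = N := ⟨_, rfl⟩
  induction N generalizing M a with
  | zero =>
    have hab : b < a := by lia
    have hz : IsZero M := (isZero_iff_cm M).2 fun i x => hM i (by lia) x
    have hz2 : IsZero ((sg.obj M)⟦n⟧) :=
      Functor.map_isZero (shiftFunctor (DerivedCategory (GrMod ℬ)) n)
        (Functor.map_isZero sg hz)
    intro f
    exact hz2.eq_of_tgt f 0
  | succ N ih =>
    have hab : a ≤ b := by lia
    have hS := (geG M (a + 1)).shortExact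
    have hF2 := (Fd_ses _ hS).1 hF
    refine vx_ses X _ hS n ?_ ?_
    · exact ih (geG M (a + 1)).sub hF2.1 (a + 1) (supp_ge hM (a + 1))
        (fun j h1 h2 => h j (by lia) h2) (by lia)
    · exact vx_inAdd (sem_inAdd_supp (supp_quo hM a) hF2.2) X n (fun _ => h a le_rfl hab)

theorem lift_GG {s : ℕ} (hs : ∀ i : ℤ, s < i → ℬ i = ⊥) (m i : ℤ)
    (X : DerivedCategory (GrMod ℬ)) (x : X ⟶ GG ℬ m i)
    (h : ∀ t : ℕ, t < s → ∀ y : X ⟶ GG ℬ (m + t) (i + 1), y = 0) (hx : x ≠ 0) :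
    ∃ y : X ⟶ PP ℬ m i, y ≠ 0 := by
  obtain ⟨ι, p, w, hS, -⟩ := Jj_ses (ℬ := ℬ) (m + i)
  have hV : VX X (Jj ℬ (m + i)) (i + 1) := by
    refine vx_filt X (Jj ℬ (m + i)) (Fd_Jj _) (m + i + 1) (m + i + s) (Jj_supp hs _) (i + 1) ?_
    intro j h1 h2
    obtain ⟨t, ht⟩ : ∃ t : ℕ, (t : ℤ) = j - m - i - 1 := ⟨(j - m - i - 1).toNat, by lia⟩
    obtain rfl : j = m + t + (i + 1) := by lia
    exact h t (by lia)
  obtain ⟨y, hy⟩ := vx_lift X (ShortComplex.mk ι p w) hS i x hV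
  refine ⟨y, fun hy0 => hx ?_⟩
  rw [← hy]
  have h3 : y = 0 := hy0
  rw [h3]
  exact zero_comp

end H60.KZ
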