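import Pool.Agent.H60.KZ.Dr0

/-!
# Row Dr4: the functor `PhiF d`

* `mapDer_equiv`: an exact equivalence `F` of abelian categories induces an equivalence of derived
  categories.  `F.mapDerivedCategory` is the functor induced on localizations by
  `F.mapHomologicalComplex (ComplexShape.up ℤ)`, an equivalence which preserves and reflects
  quasi-isomorphisms; e.g. `LocalizerMorphism.IsLocalizedEquivalence.of_equivalence` or construct
  isomorphisms `F.mapDerivedCategory ⋙ F.inv.mapDerivedCategory ≅ 𝟭` with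
  `Localization.liftNatIso` and `mapDerivedCategoryFactors`.
* `PhiF_equiv`, `PhiF_additive`, `PhiF_linear`: compositions (`mapDerivedCategory` is additive and
  linear, see the end of `Mathlib/Algebra/Homology/DerivedCategory/ExactFunctor.lean`).
* `PhiF_sg`: `PhiF d ((sg M)⟦i⟧) ≅ (sg ((shf d) M))⟦i + d⟧`: `commShiftIso`,
  `mapDerivedCategorySingleFunctor`, `shiftFunctorAdd'`.
* `phi_GG`, `phi_PP`: from `PhiF_sg`, `shf_Sj`, `shf_Pj` and `m + i + d = m + (i + d)`.
* `gam_GG`, `gam_PP`: `((sg M)⟦i-1⟧)⟦1⟧ ≅ (sg M)⟦i⟧` and `m + 1 + (i - 1) = m + i`.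
-/

universe w w' v u v' u'

namespace H60.KZ

open CategoryTheory CategoryTheory.Limits CategoryTheory.Pretriangulated

theorem mapDer_equiv {C : Type u} [Category.{v} C] [Abelian C] [HasDerivedCategory.{w} C]
    {D : Type u'} [Category.{v'} D] [Abelian D] [HasDerivedCategory.{w'} D]
    (F : C ⥤ D) [F.Additive] [PreservesFiniteLimits F] [PreservesFiniteColimits F]
    [F.IsEquivalence] : F.mapDerivedCategory.IsEquivalence := by
  have hz : F.asEquivalence.functor.PreservesZeroMorphisms :=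
    inferInstanceAs F.PreservesZeroMorphisms
  have hE : (F.mapHomologicalComplex (ComplexShape.up ℤ)).IsEquivalence :=
    (Equivalence.mapHomologicalComplex F.asEquivalence (ComplexShape.up ℤ)).isEquivalence_functor
  let Φ := F.mapHomologicalComplexUpToQuasiIsoLocalizerMorphism (ComplexShape.up ℤ)
  have hΦ : Φ.functor.IsEquivalence := hE
  have h : HomologicalComplex.quasiIso D (ComplexShape.up ℤ)
      ≤ (HomologicalComplex.quasiIso C (ComplexShape.up ℤ)).map Φ.functor := by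
    intro X Y f hf
    let G := F.mapHomologicalComplex (ComplexShape.up ℤ)
    let eX := G.objObjPreimageIso X
    let eY := G.objObjPreimageIso Y
    let f' : G.objPreimage X ⟶ G.objPreimage Y := G.preimage (eX.hom ≫ f ≫ eY.inv)
    have hf' : G.map f' = eX.hom ≫ f ≫ eY.inv := G.map_preimage _
    let a : Arrow.mk (G.map f') ≅ Arrow.mk f := Arrow.isoMk eX eY (by simp [hf'])
    refine ⟨G.objPreimage X, G.objPreimage Y, f', ?_, ⟨a⟩⟩
    rw [HomologicalComplex.mem_quasiIso_iff,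
      ← HomologicalComplex.quasiIso_map_iff_of_preservesHomology f' F]
    exact ((HomologicalComplex.quasiIso D (ComplexShape.up ℤ)).arrow_mk_iso_iff a).2 hf
  have hL : Φ.IsLocalizedEquivalence :=
    LocalizerMorphism.IsLocalizedEquivalence.of_equivalence Φ h
  exact inferInstanceAs ((Φ.localizedFunctor HomologicalComplexUpToQuasiIso.Q
    HomologicalComplexUpToQuasiIso.Q).IsEquivalence)

variable {k : Type u} [Field k] {B : Type u} [Ring B] [Algebra k B]
  {ℬ : ℤ → Submodule k B} [GradedAlgebra ℬ] [HasDerivedCategory.{w} (GrMod ℬ)]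

instance PhiF_equiv (d : ℤ) : (PhiF (ℬ := ℬ) d).IsEquivalence := by
  have h : ((shf (ℬ := ℬ) d).mapDerivedCategory).IsEquivalence := mapDer_equiv _
  unfold PhiF
  infer_instance

instance PhiF_additive (d : ℤ) : (PhiF (ℬ := ℬ) d).Additive := by
  unfold PhiF
  infer_instance

instance PhiF_linear (d : ℤ) : (PhiF (ℬ := ℬ) d).Linear k := by
  unfold PhiF
  infer_instance

/-- the double shift -/
noncomputable def Dr4_sh {X : DerivedCategory (GrMod ℬ)} (i j n : ℤ) (h : i + j = n) :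
    (X⟦i⟧)⟦j⟧ ≅ X⟦n⟧ :=
  ((shiftFunctorAdd' (DerivedCategory (GrMod ℬ)) i j n h).app X).symm

theorem PhiF_sg (d : ℤ) (M : GrMod ℬ) (i : ℤ) :
    Nonempty ((PhiF d).obj ((sg.obj M)⟦i⟧) ≅ (sg.obj ((shf d).obj M))⟦i + d⟧) := by
  have e1 : (shf d).mapDerivedCategory.obj ((sg.obj M)⟦i⟧)
      ≅ ((shf d).mapDerivedCategory.obj (sg.obj M))⟦i⟧ :=
    ((shf d).mapDerivedCategory.commShiftIso i).app (sg.obj M)
  have e2 : (shf d).mapDerivedCategory.obj (sg.obj M) ≅ sg.obj ((shf d).obj M) :=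
    ((shf d).mapDerivedCategorySingleFunctor 0).app M
  exact ⟨(shiftFunctor (DerivedCategory (GrMod ℬ)) d).mapIso
    (e1 ≪≫ (shiftFunctor (DerivedCategory (GrMod ℬ)) i).mapIso e2) ≪≫ Dr4_sh i d (i + d) rfl⟩

theorem phi_GG [PosGr ℬ] (d m i : ℤ) :
    Nonempty ((PhiF d).obj (GG ℬ m i) ≅ GG ℬ m (i + d)) := by
  obtain ⟨e⟩ := PhiF_sg (ℬ := ℬ) d (Sj ℬ (m + i)) i
  obtain ⟨e'⟩ := shf_Sj (ℬ := ℬ) d (m + i)
  have h : m + (i + d) = m + i + d := by ring
  unfold GG
  rw [h]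
  exact ⟨e ≪≫ (shiftFunctor (DerivedCategory (GrMod ℬ)) (i + d)).mapIso (sg.mapIso e')⟩

theorem phi_PP (d m i : ℤ) : Nonempty ((PhiF d).obj (PP ℬ m i) ≅ PP ℬ m (i + d)) := by
  obtain ⟨e⟩ := PhiF_sg (ℬ := ℬ) d (Pj ℬ (m + i)) i
  obtain ⟨e'⟩ := shf_Pj (ℬ := ℬ) d (m + i)
  have h : m + (i + d) = m + i + d := by ring
  unfold PP
  rw [h]
  exact ⟨e ≪≫ (shiftFunctor (DerivedCategory (GrMod ℬ)) (i + d)).mapIso (sg.mapIso e')⟩

theorem gam_GG [PosGr ℬ] (m i : ℤ) :
    Nonempty ((GG ℬ (m + 1) (i - 1))⟦(1 : ℤ)⟧ ≅ GG ℬ m i) := by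
  have h : m + 1 + (i - 1) = m + i := by ring
  unfold GG
  rw [h]
  exact ⟨Dr4_sh (i - 1) 1 i (by ring)⟩

theorem gam_PP (m i : ℤ) : Nonempty ((PP ℬ (m + 1) (i - 1))⟦(1 : ℤ)⟧ ≅ PP ℬ m i) := by
  have h : m + 1 + (i - 1) = m + i := by ring
  unfold PP
  rw [h]
  exact ⟨Dr4_sh (i - 1) 1 i (by ring)⟩

end H60.KZ
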