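import Pool.Agent.H60.KZ.Dr4
import Pool.Agent.H60.KZ.GmD

/-!
# Row Dr5: the class `BdX` (bounded complexes with finite dimensional cohomology)

* `bd_iso`: `IsGE`, `IsLE` and homology are invariant under isomorphisms.
* `bd_sg`: `(sg M)⟦n⟧` for `M` finite dimensional: its homology is `M` in degree `-n` and zero
  otherwise (`isGE_iff`, `isLE_iff`; homology of `singleFunctor`; zero modules are `Fd`).
* `bd_tri`: long exact homology sequence of a distinguished triangle
  (`Mathlib/Algebra/Homology/DerivedCategory/HomologySequence.lean`: `HomologySequence.exact₃`):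
  `H^i(X₂) ⟶ H^i(X₃) ⟶ H^(i+1)(X₁)` is exact, so `H^i(X₃)` is `Fd` (`Fd_exact`) and vanishes
  for `i` small and `i` large (`isGE_iff`, `isLE_iff`).
* `hom_phi`: `H^i(PhiF d X) ≅ shf d (H^(i+d) X)`.  `H^i(Y⟦d⟧) ≅ H^(i+d)(Y)`
  (`(homologyFunctor C 0).ShiftSequence`, `shift_homologyFunctor`,
  `Functor.shiftIso`).  For an exact functor `F`, `H^i (F.mapDerivedCategory X) ≅ F (H^i X)`:
  write `X ≅ Q.obj K`; `F.mapDerivedCategory (Q.obj K) ≅ Q.obj (F.mapHomologicalComplex K)`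
  (`mapDerivedCategoryFactors`), `homologyFunctorFactors`, and exact functors commute with homology
  (`ShortComplex.mapHomologyIso`, `(F.mapHomologicalComplex _).obj K` in degree `i`).
* `bd_phi`: from `hom_phi` and `shf_Fd`; vanishing: `shf d` reflects zero objects.
-/

universe w u

namespace H60.KZ

open CategoryTheory CategoryTheory.Limits CategoryTheory.Pretriangulated

variable {k : Type u} [Field k] {B : Type u} [Ring B] [Algebra k B]
  {ℬ : ℤ → Submodule k B} [GradedAlgebra ℬ] [HasDerivedCategory.{w} (GrMod ℬ)]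

omit [HasDerivedCategory.{w} (GrMod ℬ)] in
theorem dr5_fd_zero (M : GrMod ℬ) (h : IsZero M) : Fd M := by
  have h1 := (isZero_iff_cm M).1 h
  refine ⟨fun i => ?_, 0, 0, fun i _ x => h1 i x⟩
  have : Subsingleton (cmp M i) := ⟨fun x y => by rw [h1 i x, h1 i y]⟩
  infer_instance

theorem bd_iso (X Y : DerivedCategory (GrMod ℬ)) (e : Nonempty (X ≅ Y)) (h : BdX X) : BdX Y := by
  obtain ⟨e⟩ := e
  obtain ⟨⟨a, ha⟩, ⟨b, hb⟩, hF⟩ := h
  exact ⟨⟨a, DerivedCategory.TStructure.t.isGE_of_iso e a⟩,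
    ⟨b, DerivedCategory.TStructure.t.isLE_of_iso e b⟩,
    fun i => Fd_iso ((DerivedCategory.homologyFunctor _ i).mapIso e) (hF i)⟩

theorem dr5_single (M : GrMod ℬ) (hM : Fd M) (m : ℤ) :
    BdX ((DerivedCategory.singleFunctor (GrMod ℬ) m).obj M) := by
  refine ⟨⟨m, inferInstance⟩, ⟨m, inferInstance⟩, fun i => ?_⟩
  rcases lt_trichotomy i m with h | h | h
  · exact dr5_fd_zero _ (DerivedCategory.isZero_of_isGE _ m i h)
  · subst h
    have e1 : (DerivedCategory.homologyFunctor (GrMod ℬ) i).obj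
        ((DerivedCategory.singleFunctor (GrMod ℬ) i).obj M) ≅
        (DerivedCategory.homologyFunctor (GrMod ℬ) i).obj
          (DerivedCategory.Q.obj ((CochainComplex.singleFunctor (GrMod ℬ) i).obj M)) :=
      (DerivedCategory.homologyFunctor (GrMod ℬ) i).mapIso
        ((DerivedCategory.singleFunctorIsoCompQ (GrMod ℬ) i).app M)
    have e2 := (DerivedCategory.homologyFunctorFactors (GrMod ℬ) i).app
      ((CochainComplex.singleFunctor (GrMod ℬ) i).obj M)
    have e3 := (HomologicalComplex.homologyFunctorSingleIso (GrMod ℬ) (ComplexShape.up ℤ) i).app M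
    exact Fd_iso (e1 ≪≫ e2 ≪≫ e3).symm hM
  · exact dr5_fd_zero _ (DerivedCategory.isZero_of_isLE _ m i h)

theorem bd_sg (M : GrMod ℬ) (hM : Fd M) (n : ℤ) : BdX ((sg.obj M)⟦n⟧) := by
  refine bd_iso _ _ ⟨?_⟩ (dr5_single M hM (-n))
  exact (((DerivedCategory.singleFunctors (GrMod ℬ)).shiftIso n (-n) 0 (by ring)).app M).symm

theorem bd_tri (T : Triangle (DerivedCategory (GrMod ℬ)))
    (hT : T ∈ distTriang (DerivedCategory (GrMod ℬ))) (h1 : BdX T.obj₁) (h2 : BdX T.obj₂) :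
    BdX T.obj₃ := by
  obtain ⟨⟨a1, ha1⟩, ⟨b1, hb1⟩, hF1⟩ := h1
  obtain ⟨⟨a2, ha2⟩, ⟨b2, hb2⟩, hF2⟩ := h2
  have hex := fun i : ℤ => DerivedCategory.HomologySequence.exact₃ T hT i (i + 1) rfl
  refine ⟨⟨min a2 (a1 - 1), ?_⟩, ⟨max b2 b1, ?_⟩, fun i => Fd_exact _ (hex i) (hF2 i) (hF1 _)⟩
  · rw [DerivedCategory.isGE_iff]
    intro i hi
    refine (hex i).isZero_X₂ ?_ ?_
    · exact (DerivedCategory.isZero_of_isGE T.obj₂ a2 i (by omega)).eq_of_src _ _
    · exact (DerivedCategory.isZero_of_isGE T.obj₁ a1 (i + 1) (by omega)).eq_of_tgt _ _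
  · rw [DerivedCategory.isLE_iff]
    intro i hi
    refine (hex i).isZero_X₂ ?_ ?_
    · exact (DerivedCategory.isZero_of_isLE T.obj₂ b2 i (by omega)).eq_of_src _ _
    · exact (DerivedCategory.isZero_of_isLE T.obj₁ b1 (i + 1) (by omega)).eq_of_tgt _ _

/-- Exact functors commute with the homology of objects of the derived category. -/
theorem dr5_hom_map (F : GrMod ℬ ⥤ GrMod ℬ) [F.Additive] [PreservesFiniteLimits F]
    [PreservesFiniteColimits F] (X : DerivedCategory (GrMod ℬ)) (j : ℤ) :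
    Nonempty ((DerivedCategory.homologyFunctor (GrMod ℬ) j).obj (F.mapDerivedCategory.obj X) ≅
      F.obj ((DerivedCategory.homologyFunctor (GrMod ℬ) j).obj X)) := by
  obtain ⟨K, ⟨e⟩⟩ : ∃ K, Nonempty (DerivedCategory.Q.obj K ≅ X) :=
    ⟨_, ⟨DerivedCategory.Q.objObjPreimageIso X⟩⟩
  have e1 := (DerivedCategory.homologyFunctor (GrMod ℬ) j).mapIso (F.mapDerivedCategory.mapIso e)
  have e2 := (DerivedCategory.homologyFunctor (GrMod ℬ) j).mapIso
    (F.mapDerivedCategoryFactors.app K)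
  have e3 := (DerivedCategory.homologyFunctorFactors (GrMod ℬ) j).app
    ((F.mapHomologicalComplex (ComplexShape.up ℤ)).obj K)
  have e4 : ((F.mapHomologicalComplex (ComplexShape.up ℤ)).obj K).homology j ≅
      F.obj (K.homology j) := (K.sc j).mapHomologyIso F
  have e5 := F.mapIso ((DerivedCategory.homologyFunctorFactors (GrMod ℬ) j).app K)
  have e6 := F.mapIso ((DerivedCategory.homologyFunctor (GrMod ℬ) j).mapIso e)
  exact ⟨e1.symm ≪≫ e2 ≪≫ e3 ≪≫ e4 ≪≫ e5.symm ≪≫ e6⟩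

theorem hom_phi (d : ℤ) (X : DerivedCategory (GrMod ℬ)) (i : ℤ) :
    Nonempty ((DerivedCategory.homologyFunctor (GrMod ℬ) i).obj ((PhiF d).obj X) ≅
      (shf d).obj ((DerivedCategory.homologyFunctor (GrMod ℬ) (i + d)).obj X)) := by
  have e1 : (DerivedCategory.homologyFunctor (GrMod ℬ) i).obj
      ((shiftFunctor (DerivedCategory (GrMod ℬ)) d).obj ((shf d).mapDerivedCategory.obj X)) ≅
      (DerivedCategory.homologyFunctor (GrMod ℬ) (i + d)).obj
        ((shf d).mapDerivedCategory.obj X) :=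
    ((DerivedCategory.homologyFunctor (GrMod ℬ) 0).shiftIso d i (i + d) (add_comm _ _)).app _
  obtain ⟨e2⟩ := dr5_hom_map (shf d) X (i + d)
  exact ⟨e1 ≪≫ e2⟩

omit [HasDerivedCategory.{w} (GrMod ℬ)] in
theorem dr5_shf_zero (d : ℤ) (M : GrMod ℬ) (h : IsZero ((shf d).obj M)) : IsZero M := by
  rw [IsZero.iff_id_eq_zero] at h ⊢
  apply (shf d).map_injective
  rw [(shf d).map_id, (shf d).map_zero]
  exact h

theorem bd_phi (d : ℤ) (X : DerivedCategory (GrMod ℬ)) (h : BdX ((PhiF d).obj X)) : BdX X := by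
  obtain ⟨⟨a, ha⟩, ⟨b, hb⟩, hF⟩ := h
  have key : ∀ j : ℤ, Nonempty
      ((DerivedCategory.homologyFunctor (GrMod ℬ) (j - d)).obj ((PhiF d).obj X) ≅
      (shf d).obj ((DerivedCategory.homologyFunctor (GrMod ℬ) j).obj X)) := by
    intro j
    have h1 := hom_phi d X (j - d)
    rw [sub_add_cancel] at h1
    exact h1
  refine ⟨⟨a + d, ?_⟩, ⟨b + d, ?_⟩, fun i => ?_⟩
  · rw [DerivedCategory.isGE_iff]
    intro i hi
    obtain ⟨e⟩ := key i
    exact dr5_shf_zero d _
      ((DerivedCategory.isZero_of_isGE ((PhiF d).obj X) a (i - d) (by omega)).of_iso e.symm)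
  · rw [DerivedCategory.isLE_iff]
    intro i hi
    obtain ⟨e⟩ := key i
    exact dr5_shf_zero d _
      ((DerivedCategory.isZero_of_isLE ((PhiF d).obj X) b (i - d) (by omega)).of_iso e.symm)
  · obtain ⟨e⟩ := key i
    exact (shf_Fd d _).1 (Fd_iso e (hF _))

end H60.KZ
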