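import Pool.Agent.H60.KZ.Dr5
import Pool.Agent.H60.KZ.Dr2
import Pool.Agent.H60.KZ.At2

/-!
# Row Dr6: compression of a bounded complex to a module in a very negative degree

`EvInj g`: `g : X ⟶ Y` is injective on `Hom(S, Φ^n -)` for `n` large, `S = GG ℬ 0 0`, `Φ = PhiF d`.

* `pw_sg`: `Φ^n ((sg M)⟦m⟧) ≅ (sg M')⟦m + n d⟧`, `M' = (shf d)^n M`, which is injective if `M` is
  (an equivalence preserves injective objects).  Induction on `n` with `PhiF_sg`.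
* `hom_pw_zero`: by `pw_sg`, `GG ℬ 0 0 ≅ sg (Sj ℬ 0)` (`0 + 0 = 0`, `⟦0⟧`), and `vv_inj` for `n` with
  `m + n d > 0`.
* `evInj_comp`: composition (`pwMap Φ n (f ≫ g) = pwMap Φ n f ≫ pwMap Φ n g`).
* `evInj_cone`: `T` distinguished, `T.obj₁ = (sg Q)⟦m⟧` with `Q` injective: `EvInj T.mor₂`, by
  `exact_right` and `hom_pw_zero`.
* `top_cover`: let `X` be `≤ b` with finite dimensional `H^b`.  There are a truncation triangle
  `A ⟶ X ⟶ B ⟶`, `A ≤ b-1`, `B ≥ b` (`TStructure.exists_triangle`), `B` is also `≤ b` (long exact sequence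
  or `isLE` of the third vertex), so `B ≅ (singleFunctor C b).obj Y` with `Y ≅ H^b(X)` `Fd`.
  Choose a cover `p : Q ⟶ Y` (`exists_cover`); `Q` is projective, so
  `(singleFunctor C b).map p` lifts to `u : (singleFunctor C b).obj Q ⟶ X`, since
  `Hom((singleFunctor C b).obj Q, A⟦1⟧) = 0` (`A⟦1⟧` is `≤ b-2`, and
  `from_singleFunctor_obj_eq_zero_of_projective`).  `H^b(X) ⟶ H^b(B)` is a monomorphism
  (`H^b(A) = 0`) and `H^b(u)` followed by it is epi, hence `H^b(u)` is epi.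
  Finally `(singleFunctor C b).obj Q ≅ (sg Q)⟦-b⟧`.
* `step`: `X` is `≤ b`, `≥ b₀`, `b₀ < b`, `BdX X`.  Take `u` from `top_cover` and its cone
  `g : X ⟶ X₁` (`distinguished_cocone_triangle`).  `BdX X₁` by `bd_tri` (`bd_sg`).  Homology:
  `H^i(X) ⟶ H^i(X₁) ⟶ H^(i+1)((sg Q)⟦-b⟧)`, the last term is zero unless `i + 1 = b`.  For
  `i ≥ b + 1`: zero.  For `i = b`: `H^b(X) ⟶ H^b(X₁)` is epi (as `H^(b+1)((sg Q)⟦-b⟧) = 0`) and zero
  (as `H^b(u)` is epi), so `H^b(X₁) = 0`; hence `X₁ ≤ b - 1`.  For `i < b₀`: `H^i(X) = 0` and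
  `i + 1 ≤ b₀ < b`, so `H^i(X₁) = 0`; hence `X₁ ≥ b₀`.  `EvInj g` by `evInj_cone` (`Pj_inj`,
  `inAdd_inj`).
* `compress`: choose `b₀ ≤ -N` with `X ≥ b₀` and `b ≥ b₀` with `X ≤ b`.  Induction on `(b - b₀).toNat`
  with `step`; for `b = b₀`, `X ≅ (singleFunctor C b₀).obj M ≅ (sg M)⟦-b₀⟧`
  (`exists_iso_singleFunctor_obj_of_isGE_of_isLE`), `M ≅ H^b₀(X)` is `Fd`, and an isomorphism is
  `EvInj`.
-/

universe w u

namespace H60.KZ

open CategoryTheory CategoryTheory.Limits CategoryTheory.Pretriangulated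

variable {k : Type u} [Field k] {B : Type u} [Ring B] [Algebra k B]
  {ℬ : ℤ → Submodule k B} [GradedAlgebra ℬ] [PosGr ℬ] [HasDerivedCategory.{w} (GrMod ℬ)]

/-- `g` is injective on `Hom(S, Φ^n -)` for `n` large. -/
def EvInj (d : ℤ) {X Y : DerivedCategory (GrMod ℬ)} (g : X ⟶ Y) : Prop :=
  ∃ n1, ∀ n, n1 ≤ n → ∀ f : GG ℬ 0 0 ⟶ pw (PhiF d) n X, f ≫ pwMap (PhiF d) n g = 0 → f = 0

theorem dr6_pwMap_id {𝒞 : Type*} [Category* 𝒞] (Ψ : 𝒞 ⥤ 𝒞) (n : ℕ) (X : 𝒞) :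
    pwMap Ψ n (𝟙 X) = 𝟙 (pw Ψ n X) := by
  induction n with
  | zero => rfl
  | succ n ih =>
    show Ψ.map (pwMap Ψ n (𝟙 X)) = 𝟙 _
    rw [ih, Ψ.map_id]

omit [PosGr ℬ] in
theorem pw_sg (d : ℤ) (M : GrMod ℬ) (n : ℕ) : ∃ M' : GrMod ℬ, (Injective M → Injective M') ∧
    ∀ m : ℤ, Nonempty (pw (PhiF d) n ((sg.obj M)⟦m⟧) ≅ (sg.obj M')⟦m + n * d⟧) := by
  induction n with
  | zero =>
    refine ⟨M, id, fun m => ?_⟩
    have h : m + ((0 : ℕ) : ℤ) * d = m := by simp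
    rw [h]
    exact ⟨Iso.refl _⟩
  | succ n ih =>
    obtain ⟨M', hM', hm⟩ := ih
    refine ⟨(shf d).obj M', fun hM => ?_, fun m => ?_⟩
    · have h1 := hM' hM
      exact ((shf (ℬ := ℬ) d).asEquivalence.map_injective_iff M').2 h1
    · obtain ⟨e⟩ := hm m
      obtain ⟨e'⟩ := PhiF_sg d M' (m + n * d)
      have h : m + ((n + 1 : ℕ) : ℤ) * d = m + n * d + d := by push_cast; ring
      rw [h]
      exact ⟨(PhiF d).mapIso e ≪≫ e'⟩

theorem hom_pw_zero (d : ℤ) (hd : 1 ≤ d) (Q : GrMod ℬ) [Injective Q] (m : ℤ) :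
    ∃ n1, ∀ n, n1 ≤ n → ∀ f : GG ℬ 0 0 ⟶ pw (PhiF d) n ((sg.obj Q)⟦m⟧), f = 0 := by
  refine ⟨(1 - m).toNat, fun n hn f => ?_⟩
  obtain ⟨M', hM', hm⟩ := pw_sg d Q n
  obtain ⟨e⟩ := hm m
  have hM : Injective M' := hM' inferInstance
  have hpos : 0 < m + n * d := by
    have h1 : 1 - m ≤ (n : ℤ) := by
      have := Int.self_le_toNat (1 - m)
      have h2 : ((1 - m).toNat : ℤ) ≤ n := by exact_mod_cast hn
      linarith
    nlinarith [Int.natCast_nonneg n]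
  have key : ∀ f : (sg.obj (Sj ℬ (0 + 0)))⟦(0 : ℤ)⟧ ⟶ pw (PhiF d) n ((sg.obj Q)⟦m⟧), f = 0 := by
    intro f
    have h0 := vv_inj (Sj ℬ (0 + 0)) M' (m + n * d) hpos
      ((shiftFunctorZero (DerivedCategory (GrMod ℬ)) ℤ).inv.app (sg.obj (Sj ℬ (0 + 0))) ≫
        f ≫ e.hom)
    rw [← cancel_epi ((shiftFunctorZero (DerivedCategory (GrMod ℬ)) ℤ).inv.app
      (sg.obj (Sj ℬ (0 + 0)))), ← cancel_mono e.hom, Category.assoc]
    refine h0.trans ?_
    simp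
  exact key f

theorem evInj_comp (d : ℤ) {X Y Z : DerivedCategory (GrMod ℬ)} (f : X ⟶ Y) (g : Y ⟶ Z)
    (hf : EvInj d f) (hg : EvInj d g) : EvInj d (f ≫ g) := by
  obtain ⟨n1, h1⟩ := hf
  obtain ⟨n2, h2⟩ := hg
  refine ⟨max n1 n2, fun n hn x hx => ?_⟩
  rw [At2_pwMap_comp, ← Category.assoc] at hx
  exact h1 n (le_trans (le_max_left _ _) hn) x (h2 n (le_trans (le_max_right _ _) hn) _ hx)

theorem evInj_iso (d : ℤ) {X Y : DerivedCategory (GrMod ℬ)} (e : X ≅ Y) : EvInj d e.hom := by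
  refine ⟨0, fun n _ x hx => ?_⟩
  have h1 : x ≫ pwMap (PhiF d) n (e.hom ≫ e.inv) = 0 := by
    rw [At2_pwMap_comp, ← Category.assoc, hx, zero_comp]
  rw [e.hom_inv_id, dr6_pwMap_id, Category.comp_id] at h1
  exact h1

theorem evInj_cone (d : ℤ) (hd : 1 ≤ d) (Q : GrMod ℬ) [Injective Q] (m : ℤ)
    {X X' : DerivedCategory (GrMod ℬ)} (u : (sg.obj Q)⟦m⟧ ⟶ X) (g : X ⟶ X')
    (w : X' ⟶ ((sg.obj Q)⟦m⟧)⟦(1 : ℤ)⟧)
    (hT : Triangle.mk u g w ∈ distTriang (DerivedCategory (GrMod ℬ))) : EvInj d g := by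
  obtain ⟨n1, h1⟩ := hom_pw_zero d hd Q m
  refine ⟨n1, fun n hn x hx => ?_⟩
  obtain ⟨f', hf'⟩ := exact_right (Φ := PhiF (ℬ := ℬ) d) (Triangle.mk u g w) hT n x hx
  rw [hf', h1 n hn f']
  exact zero_comp

/-- The homology of an object placed in one degree. -/
noncomputable def dr6_single (m : ℤ) : DerivedCategory.singleFunctor (GrMod ℬ) m ⋙
    DerivedCategory.homologyFunctor (GrMod ℬ) m ≅ 𝟭 (GrMod ℬ) :=
  Functor.isoWhiskerRight (DerivedCategory.singleFunctorIsoCompQ (GrMod ℬ) m)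
      (DerivedCategory.homologyFunctor (GrMod ℬ) m) ≪≫ Functor.associator _ _ _ ≪≫
    Functor.isoWhiskerLeft _ (DerivedCategory.homologyFunctorFactors (GrMod ℬ) m) ≪≫
    HomologicalComplex.homologyFunctorSingleIso (GrMod ℬ) (ComplexShape.up ℤ) m

omit [PosGr ℬ] in
theorem dr6_epi (m : ℤ) {M N : GrMod ℬ} (p : M ⟶ N) [Epi p] :
    Epi ((DerivedCategory.homologyFunctor (GrMod ℬ) m).map
      ((DerivedCategory.singleFunctor (GrMod ℬ) m).map p)) := by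
  have h := (dr6_single (ℬ := ℬ) m).hom.naturality p
  have h2 : (DerivedCategory.homologyFunctor (GrMod ℬ) m).map
      ((DerivedCategory.singleFunctor (GrMod ℬ) m).map p) =
      (dr6_single (ℬ := ℬ) m).hom.app M ≫ p ≫ (dr6_single (ℬ := ℬ) m).inv.app N := by
    rw [← Category.assoc]
    have h3 : (dr6_single (ℬ := ℬ) m).hom.app M ≫ p = (DerivedCategory.homologyFunctor (GrMod ℬ) m).map
      ((DerivedCategory.singleFunctor (GrMod ℬ) m).map p) ≫ (dr6_single (ℬ := ℬ) m).hom.app N :=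
      h.symm
    rw [h3, Category.assoc, Iso.hom_inv_id_app]
    exact (Category.comp_id _).symm
  rw [h2]
  infer_instance

/-- `(sg M)⟦-b⟧` is `M` in degree `b`. -/
noncomputable def dr6_sg (M : GrMod ℬ) (b : ℤ) :
    (sg.obj M)⟦-b⟧ ≅ (DerivedCategory.singleFunctor (GrMod ℬ) b).obj M :=
  ((DerivedCategory.singleFunctors (GrMod ℬ)).shiftIso (-b) b 0 (by ring)).app M

omit [PosGr ℬ] in
theorem dr6_Fd (X : DerivedCategory (GrMod ℬ)) (b : ℤ) (Y : GrMod ℬ)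
    (e : X ≅ (DerivedCategory.singleFunctor (GrMod ℬ) b).obj Y)
    (h : Fd ((DerivedCategory.homologyFunctor (GrMod ℬ) b).obj X)) : Fd Y :=
  Fd_iso ((DerivedCategory.homologyFunctor (GrMod ℬ) b).mapIso e ≪≫
    (dr6_single (ℬ := ℬ) b).app Y) h

omit [PosGr ℬ] in
theorem dr6_lift (A : DerivedCategory (GrMod ℬ)) (b : ℤ) (hA : A.IsLE (b - 1)) (Q : GrMod ℬ)
    [Projective Q]
    (f : (DerivedCategory.singleFunctor (GrMod ℬ) b).obj Q ⟶ A⟦(1 : ℤ)⟧) : f = 0 := by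
  have h1 : DerivedCategory.IsLE (A⟦(1 : ℤ)⟧) (b - 2) :=
    DerivedCategory.TStructure.t.isLE_shift A (b - 1) 1 (b - 2) (by ring)
  obtain ⟨L, hL, ⟨e⟩⟩ := DerivedCategory.exists_iso_Q_obj_of_isLE (A⟦(1 : ℤ)⟧) (b - 2)
  rw [← cancel_mono e.hom, zero_comp]
  exact DerivedCategory.from_singleFunctor_obj_eq_zero_of_projective
    (L := L) (i := b) _ (b - 2) (by lia)

omit [PosGr ℬ] in
theorem top_cover [Module.Finite k B] (X : DerivedCategory (GrMod ℬ)) (b : ℤ) (hb : X.IsLE b)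
    (hX : BdX X) : ∃ (Q : GrMod ℬ) (u : (sg.obj Q)⟦-b⟧ ⟶ X), InAdd (Pj ℬ) Q ∧ Fd Q ∧
      Epi ((DerivedCategory.homologyFunctor (GrMod ℬ) b).map u) := by
  obtain ⟨A, B', hA, hB, f, g, h, hT⟩ :=
    DerivedCategory.TStructure.t.exists_triangle X (b - 1) b (by ring)
  have hA' : A.IsLE (b - 1) := ⟨hA⟩
  have hB' : B'.IsGE b := ⟨hB⟩
  have hex := fun i : ℤ => DerivedCategory.HomologySequence.exact₃ (Triangle.mk f g h) hT i
    (i + 1) rfl
  have hA0 : ∀ i : ℤ, b ≤ i → IsZero ((DerivedCategory.homologyFunctor (GrMod ℬ) i).obj A) :=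
    fun i hi => DerivedCategory.isZero_of_isLE A (b - 1) i (by lia)
  have hB2 : B'.IsLE b := by
    rw [DerivedCategory.isLE_iff]
    intro i hi
    refine (hex i).isZero_X₂ ?_ ?_
    · exact (DerivedCategory.isZero_of_isLE X b i hi).eq_of_src _ _
    · exact (hA0 (i + 1) (by lia)).eq_of_tgt _ _
  obtain ⟨Y, ⟨e⟩⟩ := DerivedCategory.exists_iso_singleFunctor_obj_of_isGE_of_isLE B' b
  have hY : Fd Y := by
    refine dr6_Fd B' b Y e (Fd_exact _ (hex b) (hX.2.2 b) ?_)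
    exact dr5_fd_zero _ (hA0 (b + 1) (by lia))
  obtain ⟨Q, p, hQ, hp, hFQ⟩ := exists_cover Y hY
  have hp' := hp
  have hQP : Projective Q := inAdd_proj (fun j => Pj_proj j) hQ
  obtain ⟨u', hu'⟩ : ∃ u' : (DerivedCategory.singleFunctor (GrMod ℬ) b).obj Q ⟶ X,
      (DerivedCategory.singleFunctor (GrMod ℬ) b).map p ≫ e.inv = u' ≫ g :=
    Triangle.coyoneda_exact₃ _ hT _ (dr6_lift A b hA' Q _)
  have hmono : Mono ((DerivedCategory.homologyFunctor (GrMod ℬ) b).map g) :=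
    (DerivedCategory.HomologySequence.mono_homologyMap_mor₂_iff (Triangle.mk f g h) hT b).2
      ((hA0 b le_rfl).eq_of_src _ _)
  have hepi : Epi ((DerivedCategory.homologyFunctor (GrMod ℬ) b).map (u' ≫ g)) := by
    rw [← hu', Functor.map_comp]
    have := dr6_epi b p
    infer_instance
  have hepi2 : Epi ((DerivedCategory.homologyFunctor (GrMod ℬ) b).map u') := by
    rw [Functor.map_comp] at hepi
    have hg : Epi ((DerivedCategory.homologyFunctor (GrMod ℬ) b).map g) :=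
      epi_of_epi ((DerivedCategory.homologyFunctor (GrMod ℬ) b).map u') _
    have hi : IsIso ((DerivedCategory.homologyFunctor (GrMod ℬ) b).map g) :=
      isIso_of_mono_of_epi _
    have h3 : (DerivedCategory.homologyFunctor (GrMod ℬ) b).map u' =
        ((DerivedCategory.homologyFunctor (GrMod ℬ) b).map u' ≫
          (DerivedCategory.homologyFunctor (GrMod ℬ) b).map g) ≫
          inv ((DerivedCategory.homologyFunctor (GrMod ℬ) b).map g) := by simp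
    rw [h3]
    exact epi_comp _ _
  refine ⟨Q, (dr6_sg Q b).hom ≫ u', hQ, hFQ, ?_⟩
  rw [Functor.map_comp]
  exact epi_comp _ _

omit [PosGr ℬ] in
theorem dr6_zero (Q : GrMod ℬ) (b i : ℤ) (hi : i ≠ b) :
    IsZero ((DerivedCategory.homologyFunctor (GrMod ℬ) i).obj ((sg.obj Q)⟦-b⟧)) := by
  rcases lt_or_gt_of_ne hi with h | h
  · have : DerivedCategory.IsGE ((sg.obj Q)⟦-b⟧) b :=
      DerivedCategory.TStructure.t.isGE_shift _ 0 (-b) b (by ring)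
    exact DerivedCategory.isZero_of_isGE _ b i h
  · have : DerivedCategory.IsLE ((sg.obj Q)⟦-b⟧) b :=
      DerivedCategory.TStructure.t.isLE_shift _ 0 (-b) b (by ring)
    exact DerivedCategory.isZero_of_isLE _ b i h

theorem step [Module.Finite k B] {s : ℕ} {lam : B →ₗ[k] k} (h : GrFrob ℬ s lam) (d : ℤ)
    (hd : 1 ≤ d) (X : DerivedCategory (GrMod ℬ)) (b b₀ : ℤ) (hb : X.IsLE b) (hb₀ : X.IsGE b₀)
    (hlt : b₀ < b) (hX : BdX X) : ∃ (X₁ : DerivedCategory (GrMod ℬ)) (g : X ⟶ X₁), EvInj d g ∧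
      X₁.IsLE (b - 1) ∧ X₁.IsGE b₀ ∧ BdX X₁ := by
  obtain ⟨Q, u, hQ, hFQ, hu⟩ := top_cover X b hb hX
  obtain ⟨X₁, g, w, hT⟩ := distinguished_cocone_triangle u
  have hex := fun i : ℤ => DerivedCategory.HomologySequence.exact₃ (Triangle.mk u g w) hT i
    (i + 1) rfl
  have hQI : Injective Q := inAdd_inj (fun j => Pj_inj h j) hQ
  refine ⟨X₁, g, evInj_cone d hd Q (-b) u g w hT, ?_, ?_, ?_⟩
  · rw [DerivedCategory.isLE_iff]
    intro i hi
    refine (hex i).isZero_X₂ ?_ ?_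
    · rcases eq_or_lt_of_le (show b ≤ i by lia) with h1 | h1
      · subst h1
        exact (DerivedCategory.HomologySequence.epi_homologyMap_mor₁_iff
          (Triangle.mk u g w) hT b).1 hu
      · exact (DerivedCategory.isZero_of_isLE X b i h1).eq_of_src _ _
    · exact (dr6_zero Q b (i + 1) (by lia)).eq_of_tgt _ _
  · rw [DerivedCategory.isGE_iff]
    intro i hi
    refine (hex i).isZero_X₂ ?_ ?_
    · exact (DerivedCategory.isZero_of_isGE X b₀ i hi).eq_of_src _ _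
    · exact (dr6_zero Q b (i + 1) (by lia)).eq_of_tgt _ _
  · exact bd_tri (Triangle.mk u g w) hT (bd_sg Q hFQ (-b)) hX

theorem dr6_compress [Module.Finite k B] {s : ℕ} {lam : B →ₗ[k] k} (h : GrFrob ℬ s lam) (d : ℤ)
    (hd : 1 ≤ d) (b₀ : ℤ) (c : ℕ) : ∀ (X : DerivedCategory (GrMod ℬ)) (_ : BdX X)
    (_ : X.IsGE b₀) (_ : X.IsLE (b₀ + c)),
    ∃ (M : GrMod ℬ) (g : X ⟶ (sg.obj M)⟦-b₀⟧), Fd M ∧ EvInj d g := by
  induction c with
  | zero =>
    intro X hX hge hle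
    have hle' : X.IsLE b₀ := by simpa using hle
    obtain ⟨M, ⟨e⟩⟩ := DerivedCategory.exists_iso_singleFunctor_obj_of_isGE_of_isLE X b₀
    exact ⟨M, (e ≪≫ (dr6_sg M b₀).symm).hom, dr6_Fd X b₀ M e (hX.2.2 b₀), evInj_iso d _⟩
  | succ c ih =>
    intro X hX hge hle
    obtain ⟨X₁, g, hg, h1, h2, h3⟩ := step h d hd X (b₀ + ((c + 1 : ℕ) : ℤ)) b₀ hle hge
      (by push_cast; lia) hX
    have h4 : X₁.IsLE (b₀ + c) := by
      have h5 : b₀ + ((c + 1 : ℕ) : ℤ) - 1 = b₀ + c := by push_cast; ring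
      rwa [h5] at h1
    obtain ⟨M, g', hM, hg'⟩ := ih X₁ h3 h2 h4
    exact ⟨M, g ≫ g', hM, evInj_comp d g g' hg hg'⟩

theorem compress [Module.Finite k B] {s : ℕ} {lam : B →ₗ[k] k} (h : GrFrob ℬ s lam) (d : ℤ)
    (hd : 1 ≤ d) (X : DerivedCategory (GrMod ℬ)) (hX : BdX X) (N : ℤ) :
    ∃ (M : GrMod ℬ) (N' : ℤ) (g : X ⟶ (sg.obj M)⟦N'⟧), N ≤ N' ∧ Fd M ∧ EvInj d g := by
  obtain ⟨a, ha⟩ := hX.1
  obtain ⟨b, hb⟩ := hX.2.1
  have hge : X.IsGE (min a (-N)) :=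
    DerivedCategory.TStructure.t.isGE_of_ge X (min a (-N)) a (min_le_left _ _)
  have hle : X.IsLE (min a (-N) + ((b - min a (-N)).toNat : ℤ)) :=
    DerivedCategory.TStructure.t.isLE_of_le X b _ (by
      have := Int.self_le_toNat (b - min a (-N))
      lia)
  obtain ⟨M, g, hM, hg⟩ := dr6_compress h d hd (min a (-N)) _ X hX hge hle
  exact ⟨M, -min a (-N), g, by have := min_le_right a (-N); lia, hM, hg⟩

end H60.KZ
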