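import Pool.Agent.H60.KZ.GmJ

/-!
# Row GmK: `B_s M ⟶ M` factors through a free module

Let `hs : ℬ i = ⊥` for `i > s`.  Choose a cover `p : Q ⟶ M` (`exists_cover`), `Q` a retract of a
finite sum of `Pj`.  `p` induces `p' : (radG Q s).sub ⟶ (radG M s).sub` with
`p' ≫ inc = inc ≫ p` (`rad_map`; define by `mkHom`), which is epi by `rad_map_epi`.  Both modules are
`Sem` (`sem_sub_rad`), so `p'` has a section `g` (`sem_split`), and
`(radG M s).inc = g ≫ p' ≫ inc = (g ≫ (radG Q s).inc) ≫ p`.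
-/

universe u

namespace H60.KZ

open CategoryTheory CategoryTheory.Limits

variable {k : Type u} [Field k] {B : Type u} [Ring B] [Algebra k B]
  {ℬ : ℤ → Submodule k B} [GradedAlgebra ℬ] [PosGr ℬ]

theorem rad_factor [Module.Finite k B] [IsSemisimpleRing (ℬ 0)] {s : ℕ}
    (hs : ∀ i : ℤ, s < i → ℬ i = ⊥) (M : GrMod ℬ) (hM : Fd M) :
    ∃ (Q : GrMod ℬ) (a : (radG M s).sub ⟶ Q) (b : Q ⟶ M), InAdd (Pj ℬ) Q ∧
      (radG M s).inc = a ≫ b := by
  obtain ⟨Q, p, hQ, hp, -⟩ := exists_cover M hM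
  have hres : ∀ i : ℤ, ∀ x ∈ radN Q s i, cm p i x ∈ radN M s i := fun i x hx =>
    rad_map p s i ⟨x, hx, rfl⟩
  let p' : (radG Q s).sub ⟶ (radG M s).sub :=
    mkHom (M := (radG Q s).sub) (N := (radG M s).sub)
      (fun i => ((cm p i).restrict (hres i) : radN Q s i →ₗ[k] radN M s i))
      (fun i j b x => Subtype.ext (cm_act p b (Subtype.val (p := fun y => y ∈ radN Q s i) x)))
  have hepi : Epi p' := by
    rw [epi_iff_cm]
    rintro i ⟨y, hy⟩
    obtain ⟨x, hx, hxy⟩ := rad_map_epi p s i hy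
    exact ⟨(⟨x, hx⟩ : radN Q s i), Subtype.ext hxy⟩
  obtain ⟨g, hg⟩ := sem_split (sem_sub_rad hs Q) (sem_sub_rad hs M) p'
  have hcomm : p' ≫ (radG M s).inc = (radG Q s).inc ≫ p := by
    apply hom_ext_cm
    intro i x
    rw [cm_comp, cm_comp, SubG.cm_inc, SubG.cm_inc]
    rfl
  refine ⟨Q, g ≫ (radG Q s).inc, p, hQ, ?_⟩
  rw [Category.assoc, ← hcomm, ← Category.assoc, hg, Category.id_comp]

end H60.KZ
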