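import Pool.Agent.H60.KZ.Dr3
import Pool.Agent.H60.KZ.GmK

/-!
# Row Dr7: composites of `s` coghosts starting at `S` vanish on modules in high degree

* `cogh_inAdd`: `f : X ⟶ Y` with `CoGh (GG ℬ) I f`, `L` in `InAdd (Sj ℬ)`, `g : Y ⟶ (sg L)⟦N⟧`,
  `I ≤ N`.  Then `f ≫ g = 0`: with `𝟙 L = Σ α_a ≫ β_a`,
  `g = Σ (g ≫ (sg.map α_a)⟦N⟧') ≫ (sg.map β_a)⟦N⟧'` and `f ≫ g ≫ (sg.map α_a)⟦N⟧' = 0` because
  `(sg (Sj ℬ j))⟦N⟧ = GG ℬ (j - N) N` (`j - N + N = j`, `eqToIso` or `subst`).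
* `cogh_LL`: induction on `LL n M`, generalizing `X Y f g`.  `zero`: `(sg M)⟦N⟧` is zero.  `step`:
  `f = f₁ ≫ f₂` with `CoGhN n f₁`, `CoGh f₂`; `f₂ ≫ (g ≫ (sg.map S.g)⟦N⟧') = 0` by `cogh_inAdd`, so
  `f₂ ≫ g = g' ≫ (sg.map S.f)⟦N⟧'` (`vx_exact2`), and `f₁ ≫ g' = 0` by induction.
* `cogh_kill`: `h : GG ℬ 0 0 ⟶ X` composite of `s` coghosts, `g : X ⟶ (sg M)⟦N⟧`, `M` finite
  dimensional, `I ≤ N`, `1 ≤ N`.  Let `K = radG M s`.  `LL s K.quo` (`LL_quo`), so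
  `h ≫ g ≫ (sg.map K.pr)⟦N⟧' = 0` by `cogh_LL` (applied to `g ≫ (sg.map K.pr)⟦N⟧'`).  By `vx_exact2`
  for `SubG.shortExact`: `h ≫ g = h' ≫ (sg.map K.inc)⟦N⟧'`, and `K.inc = a ≫ b` through
  `Q` in `InAdd (Pj ℬ)` (`rad_factor`), which is injective (`Pj_inj`, `inAdd_inj`).  So
  `h' ≫ (sg.map a)⟦N⟧' : GG ℬ 0 0 ⟶ (sg Q)⟦N⟧` is zero by `vv_inj` (`GG ℬ 0 0 ≅ sg (Sj ℬ (0+0))`,
  shift by `0`), hence `h ≫ g = 0`.
* `hom_PP_zero`: `GG ℬ 0 0 ≅ sg (Sj ℬ (0+0))`.  If `i < 0`: `vv_neg`; `i > 0`: `vv_inj`; `i = 0`: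
  `m + 0 + s > 0`, so `Sj ℬ (0+0)` is zero in degree `m + 0 + s` and every
  `Sj ℬ (0+0) ⟶ Pj ℬ (m+0)` is zero (`hom_Pj_zero`): `vv_zero`.
-/

universe w u

namespace H60.KZ

open CategoryTheory CategoryTheory.Limits CategoryTheory.Pretriangulated

variable {k : Type u} [Field k] {B : Type u} [Ring B] [Algebra k B]
  {ℬ : ℤ → Submodule k B} [GradedAlgebra ℬ] [PosGr ℬ] [HasDerivedCategory.{w} (GrMod ℬ)]

omit [PosGr ℬ] in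
theorem Dr7_inAdd {J : Type} {F : J → GrMod ℬ} {M : GrMod ℬ} (h : InAdd F M)
    {X : DerivedCategory (GrMod ℬ)} (n : ℤ) (x : X ⟶ (sg.obj M)⟦n⟧)
    (hx : ∀ j (α : M ⟶ F j), x ≫ (sg.map α)⟦n⟧' = 0) : x = 0 := by
  obtain ⟨m, j, α, β, h1⟩ := h
  have h2 : x = x ≫ (sg ⋙ shiftFunctor (DerivedCategory (GrMod ℬ)) n).map (𝟙 M) := by
    rw [CategoryTheory.Functor.map_id]
    exact (Category.comp_id x).symm
  rw [h2, h1, Functor.map_sum, Preadditive.comp_sum]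
  refine Finset.sum_eq_zero fun a _ => ?_
  rw [Functor.map_comp, ← Category.assoc]
  have h3 : x ≫ (sg ⋙ shiftFunctor (DerivedCategory (GrMod ℬ)) n).map (α a) = 0 := hx (j a) (α a)
  rw [h3, zero_comp]

variable (ℬ) in
/-- `GG ℬ 0 0` is the object `Sj ℬ (0 + 0)` in degree `0` -/
noncomputable def Dr7_iso : GG ℬ 0 0 ≅ sg.obj (Sj ℬ (0 + 0)) :=
  (shiftFunctorZero (DerivedCategory (GrMod ℬ)) ℤ).app _

theorem Dr7_zero {Y : GrMod ℬ} {n : ℤ} (h : VV (Sj ℬ (0 + 0)) Y n)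
    (f : GG ℬ 0 0 ⟶ (sg.obj Y)⟦n⟧) : f = 0 := by
  have h1 := h ((Dr7_iso ℬ).inv ≫ f)
  rw [← cancel_epi (Dr7_iso ℬ).inv, h1, comp_zero]

theorem cogh_inAdd {I N : ℤ} (hN : I ≤ N) {X Y : DerivedCategory (GrMod ℬ)} (f : X ⟶ Y)
    (hf : CoGh (GG ℬ) I f) {L : GrMod ℬ} (hL : InAdd (Sj ℬ) L) (g : Y ⟶ (sg.obj L)⟦N⟧) :
    f ≫ g = 0 := by
  have key : ∀ (j : ℤ) (y : Y ⟶ (sg.obj (Sj ℬ j))⟦N⟧), f ≫ y = 0 := by
    intro j y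
    obtain ⟨m, rfl⟩ : ∃ m, j = m + N := ⟨j - N, by ring⟩
    exact hf m N hN y
  refine Dr7_inAdd hL N _ fun j α => ?_
  rw [Category.assoc]
  exact key j _

theorem cogh_LL {I N : ℤ} (hN : I ≤ N) {n : ℕ} {M : GrMod ℬ} (hM : LL n M)
    {X Y : DerivedCategory (GrMod ℬ)} (f : X ⟶ Y) (hf : CoGhN (GG ℬ) I n f)
    (g : Y ⟶ (sg.obj M)⟦N⟧) : f ≫ g = 0 := by
  induction hM generalizing X Y with
  | zero M hM =>
    exact ((shiftFunctor (DerivedCategory (GrMod ℬ)) N).map_isZero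
      ((sg (C := GrMod ℬ)).map_isZero hM)).eq_of_tgt _ _
  | step S hS h1 h3 ih =>
    obtain ⟨Z, f₁, f₂, hf₁, hf₂, rfl⟩ := hf
    have h4 := cogh_inAdd hN f₂ hf₂ h3 (g ≫ (sg.map S.g)⟦N⟧')
    rw [← Category.assoc] at h4
    obtain ⟨y, hy⟩ := vx_exact2 Z S hS N (f₂ ≫ g) h4
    rw [Category.assoc, hy, ← Category.assoc, ih f₁ hf₁ y, zero_comp]

theorem cogh_kill [Module.Finite k B] [IsSemisimpleRing (ℬ 0)] {s : ℕ} {lam : B →ₗ[k] k}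
    (h : GrFrob ℬ s lam) {I N : ℤ} (hN : I ≤ N) (hN1 : 1 ≤ N) {X : DerivedCategory (GrMod ℬ)}
    (f : GG ℬ 0 0 ⟶ X) (hf : CoGhN (GG ℬ) I s f) (M : GrMod ℬ) (hM : Fd M)
    (g : X ⟶ (sg.obj M)⟦N⟧) : f ≫ g = 0 := by
  have hK := LL_quo s M hM
  have h1 := cogh_LL hN hK f hf (g ≫ (sg.map (radG M s).pr)⟦N⟧')
  rw [← Category.assoc] at h1
  obtain ⟨h', hh'⟩ := vx_exact2 _ _ (radG M s).shortExact N (f ≫ g) h1
  obtain ⟨Q, a, b, hQ, hab⟩ := rad_factor (frob_top h) M hM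
  have _ : Injective Q := inAdd_inj (fun j => Pj_inj h j) hQ
  have h2 : h' ≫ (sg.map a)⟦N⟧' = 0 := Dr7_zero (vv_inj (Sj ℬ (0 + 0)) Q N (by omega)) _
  have e : (sg.map (radG M s).inc)⟦N⟧' = (sg.map a)⟦N⟧' ≫ (sg.map b)⟦N⟧' := by
    rw [hab, Functor.map_comp, Functor.map_comp]
  refine hh'.trans ((congrArg (fun t => h' ≫ t) e).trans ?_)
  refine (Category.assoc _ _ _).symm.trans ?_
  exact (congrArg (fun t => t ≫ (sg.map b)⟦N⟧') h2).trans zero_comp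

theorem hom_PP_zero [Module.Finite k B] {s : ℕ} {lam : B →ₗ[k] k} (h : GrFrob ℬ s lam)
    (m i : ℤ) (hm : - (s : ℤ) < m) (f : GG ℬ 0 0 ⟶ PP ℬ m i) : f = 0 := by
  refine Dr7_zero ?_ f
  rcases lt_trichotomy i 0 with hi | hi | hi
  · exact vv_neg _ _ i hi
  · subst hi
    exact vv_zero _ _ fun f => hom_Pj_zero h (m + 0)
      (fun x => Sj_supp (0 + 0) (m + 0 + s) (Or.inr (by omega)) x) f
  · have _ := Pj_inj h (m + i)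
    exact vv_inj _ _ i hi

end H60.KZ
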