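import Pool.Agent.H60.KZ.Dr6
import Pool.Agent.H60.KZ.Dr7
import Pool.Agent.H60.KZ.At7

/-!
# Row Dr8: verification of the hypotheses of the abstract theorem

`HFg d z`: the finiteness hypothesis.

* `strand_bound`: there is `r` with `VV (Sj ℬ 0) (Sj ℬ j) n` for all `n` and all `j > n + r`.
  For each `n` with `0 ≤ n < n0 + d` let `J n` be the bound of `vv_high` for `M = Sj ℬ 0`, and
  `r = max (J n - n)` over these finitely many `n` (and `r ≥ 0`).  Claim for all `n`, by strong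
  induction on `n : ℕ` (`n < 0`: `vv_neg`): for `n ≥ n0 + d`, put `n' = n - d ≥ n0`, `j' = j - d > n' + r`.
  Let `g : sg (Sj ℬ 0) ⟶ (sg (Sj ℬ j))⟦n⟧`; compose with the isomorphism
  `PhiF d ((sg (Sj ℬ j'))⟦n'⟧) ≅ (sg (Sj ℬ j))⟦n⟧` (`PhiF_sg`, `shf_Sj`): by `HFg` it is
  `Σ f_a ≫ z_a` with `f_a : sg (Sj ℬ 0) ⟶ (sg (Sj ℬ j'))⟦n'⟧`, which are zero by induction.
* `vs_fg`: `Y = GG ℬ m i`.  For `n` large, `pw Φ n Y ≅ GG ℬ m (i + n d)` (`pw_fam` from `At4`, with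
  `phi_GG`), `i + n d = n' ≥ n0` a natural number; `Hom(GG ℬ 0 0, pw Φ n Y)` is finite dimensional by
  `fdh` (`GG ℬ 0 0 ≅ sg (Sj ℬ (0+0))`).  Generation: `v : GG ℬ 0 0 ⟶ pw Φ (n+1) Y = Φ (pw Φ n Y)`; with
  `e : pw Φ n Y ≅ (sg (Sj ℬ (m+i+nd)))⟦n'⟧`, `e₀ : GG ℬ 0 0 ≅ sg (Sj ℬ 0)`:
  `e₀.inv ≫ v ≫ Φ.map e.hom = Σ f_a ≫ z_a` by `HFg`, so
  `v = Σ (e₀.hom ≫ f_a ≫ e.inv) ≫ tr (z a) (pw Φ n Y)` (`tr_nat`).
* `atHyp`: `κ = kapF d`, `G = GG ℬ`, `P = PP ℬ`, `r` = max of the bounds: `m < 0`: `vv_low` for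
  `M = Sj ℬ 0`, `a = b = 0`: `m + i < 0 + i`; `i < 0`: `vv_neg`; `m > r`: `strand_bound`.
  `hP`: `hom_PP_zero`; `hlift`: `lift_GG` (`frob_top`); `Bd = BdX` (`bd_sg`, `bd_iso`, `bd_phi`, `bd_tri`);
  `hcomp`: for `X`, `I` take `g` of `compress` for `N = max I 1`, and `cogh_kill`.
* `ext_zero`: `abstract_theorem` for `m = j - n > 0`, `i = n`; for `j < n` use `vv_low`.
-/

universe w u

namespace H60.KZ

open CategoryTheory CategoryTheory.Limits CategoryTheory.Pretriangulated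

variable {k : Type u} [Field k] {B : Type u} [Ring B] [Algebra k B]
  {ℬ : ℤ → Submodule k B} [GradedAlgebra ℬ] [PosGr ℬ] [HasDerivedCategory.{w} (GrMod ℬ)]

/-- `Ext^{n+d}(S, S⟨-(j+d)⟩) = Σ_a Ext^n(S, S⟨-j⟩) z_a` for `n ≥ n0` and all `j`. -/
def HFg (d : ℤ) {c : ℕ} (z : Fin c → (𝟭 (DerivedCategory (GrMod ℬ)) ⟶ PhiF d)) : Prop :=
  ∃ n0 : ℕ, ∀ n : ℕ, n0 ≤ n → ∀ (j : ℤ)
    (g : sg.obj (Sj ℬ 0) ⟶ (PhiF d).obj ((sg.obj (Sj ℬ j))⟦(n : ℤ)⟧)),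
    ∃ f : Fin c → (sg.obj (Sj ℬ 0) ⟶ (sg.obj (Sj ℬ j))⟦(n : ℤ)⟧),
      g = ∑ a, f a ≫ (z a).app ((sg.obj (Sj ℬ j))⟦(n : ℤ)⟧)

theorem Dr8_step {d : ℤ} {c : ℕ}
    {z : Fin c → (𝟭 (DerivedCategory (GrMod ℬ)) ⟶ PhiF d)} {n : ℕ} {j : ℤ}
    (hfg : ∀ (g : sg.obj (Sj ℬ 0) ⟶ (PhiF d).obj ((sg.obj (Sj ℬ j))⟦(n : ℤ)⟧)),
      ∃ f : Fin c → (sg.obj (Sj ℬ 0) ⟶ (sg.obj (Sj ℬ j))⟦(n : ℤ)⟧),
        g = ∑ a, f a ≫ (z a).app ((sg.obj (Sj ℬ j))⟦(n : ℤ)⟧))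
    (h : VV (Sj ℬ 0) (Sj ℬ j) (n : ℤ)) : VV (Sj ℬ 0) (Sj ℬ (j + d)) ((n : ℤ) + d) := by
  intro g
  obtain ⟨e1⟩ := PhiF_sg (ℬ := ℬ) d (Sj ℬ j) (n : ℤ)
  obtain ⟨e2⟩ := shf_Sj (ℬ := ℬ) d j
  let e := e1 ≪≫ (shiftFunctor (DerivedCategory (GrMod ℬ)) ((n : ℤ) + d)).mapIso (sg.mapIso e2)
  obtain ⟨f, hf⟩ := hfg (g ≫ e.inv)
  have h1 : g ≫ e.inv = 0 := by
    rw [hf]
    refine Finset.sum_eq_zero fun a _ => ?_
    rw [h (f a), zero_comp]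
  rw [← cancel_mono e.inv, h1, zero_comp]

theorem strand_bound [Module.Finite k B] {d : ℤ} (hd : 1 ≤ d) {c : ℕ}
    {z : Fin c → (𝟭 (DerivedCategory (GrMod ℬ)) ⟶ PhiF d)} (hfg : HFg d z) :
    ∃ r : ℤ, ∀ n j : ℤ, n + r < j → VV (Sj ℬ 0) (Sj ℬ j) n := by
  obtain ⟨n0, hn0⟩ := hfg
  have hJ : ∀ n : ℕ, ∃ J : ℤ, ∀ j, J < j → VV (Sj ℬ 0) (Sj ℬ j) (n : ℤ) := fun n =>
    vv_high (Sj ℬ 0) (Fd_Sj 0) (n : ℤ)
  choose J hJ using hJ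
  obtain ⟨D, rfl⟩ : ∃ D : ℕ, d = D := ⟨d.toNat, (Int.toNat_of_nonneg (by omega)).symm⟩
  obtain ⟨r, hr⟩ := ((Finset.range (n0 + D)).image (fun n : ℕ => J n - n)).exists_le
  have hr' : ∀ n : ℕ, n < n0 + D → J n - n ≤ r := fun n hn =>
    hr _ (Finset.mem_image_of_mem _ (Finset.mem_range.2 hn))
  refine ⟨r, ?_⟩
  have key : ∀ (n : ℕ) (j : ℤ), (n : ℤ) + r < j → VV (Sj ℬ 0) (Sj ℬ j) (n : ℤ) := by
    intro n
    induction n using Nat.strong_induction_on with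
    | _ n ih =>
      intro j hj
      by_cases hn : n < n0 + D
      · have := hr' n hn
        exact hJ n j (by omega)
      · obtain ⟨n', rfl⟩ : ∃ n', n = n' + D := ⟨n - D, by omega⟩
        have h1 : VV (Sj ℬ 0) (Sj ℬ (j - D)) (n' : ℤ) := ih n' (by omega) (j - D) (by
          push_cast at hj
          linarith)
        have h2 := Dr8_step (hn0 n' (by omega) (j - D)) h1
        rw [sub_add_cancel] at h2
        push_cast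
        exact h2
  intro n j hj
  rcases lt_or_ge n 0 with hn | hn
  · exact vv_neg _ _ _ hn
  · obtain ⟨n', rfl⟩ : ∃ n' : ℕ, n = n' := ⟨n.toNat, (Int.toNat_of_nonneg hn).symm⟩
    exact key n' j hj

variable (ℬ) in
theorem Dr8_iso : Nonempty (GG ℬ 0 0 ≅ sg.obj (Sj ℬ 0)) := by
  have h := Dr7_iso ℬ
  rw [add_zero] at h
  exact ⟨h⟩

theorem Dr8_zero {Y : GrMod ℬ} {n : ℤ} (h : VV (Sj ℬ 0) Y n)
    (f : GG ℬ 0 0 ⟶ (sg.obj Y)⟦n⟧) : f = 0 := by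
  obtain ⟨e⟩ := Dr8_iso ℬ
  have h1 := h (e.inv ≫ f)
  rw [← cancel_epi e.inv, h1, comp_zero]

theorem vs_fg [Module.Finite k B] {d : ℤ} (hd : 1 ≤ d) {c : ℕ}
    {z : Fin c → (𝟭 (DerivedCategory (GrMod ℬ)) ⟶ PhiF d)} (hfg : HFg d z)
    (hz : ZPhi (PhiF d) z) (m i : ℤ) :
    (VS k (PhiF d) z hz (GG ℬ 0 0) (GG ℬ m i)).FG Finset.univ := by
  obtain ⟨n0, hn0⟩ := hfg
  obtain ⟨e₀⟩ := Dr8_iso ℬ
  refine ⟨n0 + (-i).toNat, fun n hn => ?_⟩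
  obtain ⟨n', hn', hn2⟩ : ∃ n' : ℕ, (n' : ℤ) = i + n * d ∧ n0 ≤ n' := by
    have h1 : (n : ℤ) ≤ n * d := by
      have : (n : ℤ) * 1 ≤ n * d := mul_le_mul_of_nonneg_left hd (Int.natCast_nonneg n)
      linarith
    have h2 : -i ≤ (-i).toNat := Int.self_le_toNat _
    have h3 : ((n0 + (-i).toNat : ℕ) : ℤ) ≤ n := by exact_mod_cast hn
    push_cast at h3
    have h4 : (n0 : ℤ) ≤ i + n * d := by linarith
    have h5 : 0 ≤ i + n * d := le_trans (Int.natCast_nonneg n0) h4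
    refine ⟨(i + n * d).toNat, Int.toNat_of_nonneg h5, ?_⟩
    have h6 := Int.toNat_of_nonneg h5
    omega
  obtain ⟨e⟩ : Nonempty (pw (PhiF d) n (GG ℬ m i) ≅ (sg.obj (Sj ℬ (m + n')))⟦(n' : ℤ)⟧) := by
    have h1 := pw_fam (Φ := PhiF (ℬ := ℬ) d) (GG ℬ) d (phi_GG d) n m i
    rw [← hn'] at h1
    exact h1
  constructor
  · have h1 := fdh (Sj ℬ 0) (Fd_Sj 0) (m + n') (n' : ℤ)
    exact Module.Finite.equiv (Linear.homCongr k e₀ e).symm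
  · intro v
    have hv : ∃ f : Fin c → (GG ℬ 0 0 ⟶ pw (PhiF d) n (GG ℬ m i)),
        (show GG ℬ 0 0 ⟶ (PhiF d).obj (pw (PhiF d) n (GG ℬ m i)) from v) =
          ∑ a, f a ≫ tr (z a) (pw (PhiF d) n (GG ℬ m i)) := by
      obtain ⟨f, hf⟩ := hn0 n' hn2 (m + n')
        (e₀.inv ≫ (show GG ℬ 0 0 ⟶ (PhiF d).obj (pw (PhiF d) n (GG ℬ m i)) from v) ≫
          (PhiF d).map e.hom)
      refine ⟨fun a => e₀.hom ≫ f a ≫ e.inv, ?_⟩
      have h1 : (show GG ℬ 0 0 ⟶ (PhiF d).obj (pw (PhiF d) n (GG ℬ m i)) from v) =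
          e₀.hom ≫ (e₀.inv ≫ (show GG ℬ 0 0 ⟶ (PhiF d).obj (pw (PhiF d) n (GG ℬ m i)) from v) ≫
          (PhiF d).map e.hom) ≫ (PhiF d).map e.inv := by
        rw [Category.assoc, Category.assoc, ← Functor.map_comp, Iso.hom_inv_id,
          CategoryTheory.Functor.map_id, Category.comp_id, Iso.hom_inv_id_assoc]
      rw [h1, hf, Preadditive.sum_comp, Preadditive.comp_sum]
      refine Finset.sum_congr rfl fun a _ => ?_
      have h2 : e.inv ≫ tr (z a) (pw (PhiF d) n (GG ℬ m i)) =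
          (z a).app ((sg.obj (Sj ℬ (m + n')))⟦(n' : ℤ)⟧) ≫ (PhiF d).map e.inv := tr_nat _ _
      rw [Category.assoc, Category.assoc, Category.assoc, h2]
    obtain ⟨f, hf⟩ := hv
    exact ⟨f, hf⟩

theorem atHyp [Module.Finite k B] [IsSemisimpleRing (ℬ 0)] {s : ℕ} {lam : B →ₗ[k] k}
    (h : GrFrob ℬ s lam) {d : ℤ} (hd : 1 ≤ d) {c : ℕ}
    {z : Fin c → (𝟭 (DerivedCategory (GrMod ℬ)) ⟶ PhiF d)} (hz : ZPhi (PhiF d) z)
    (hκ : ∀ a X, (tr (z a) X)⟦(1 : ℤ)⟧' ≫ (kapF d X).hom = tr (z a) (X⟦(1 : ℤ)⟧))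
    (hfg : HFg d z) :
    ∃ H : ATHyp k (DerivedCategory (GrMod ℬ)) (PhiF d) c z s d, H.G = GG ℬ := by
  obtain ⟨r, hr⟩ := strand_bound hd hfg
  refine ⟨{ hz := hz
            κ := kapF d
            hκ := hκ
            G := GG ℬ
            P := PP ℬ
            hd := hd
            φG := phi_GG d
            φP := phi_PP d
            γG := gam_GG
            γP := gam_PP
            r := max r 0
            hr := ?_
            fg := vs_fg hd hfg hz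
            hP := hom_PP_zero h
            hlift := lift_GG (frob_top h)
            Bd := BdX
            bdS := bd_sg _ (Fd_Sj _) 0
            bdIso := bd_iso
            bdΦ := bd_phi d
            bdTri := bd_tri
            hcomp := ?_ }, rfl⟩
  · intro m i hmi f
    have h0 : (0 : ℤ) ≤ max r 0 := le_max_right _ _
    have h1 : r ≤ max r 0 := le_max_left _ _
    refine Dr8_zero (Y := Sj ℬ (m + i)) (n := i) ?_ f
    rcases hmi with hm | hm | hm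
    · exact vv_low (frob_top h) (Sj ℬ 0) (Fd_Sj 0) 0 0 (Sj_supp 0) (m + i) i (by linarith)
    · exact hr i (m + i) (by linarith)
    · exact vv_neg _ _ _ (by linarith)
  · intro X hX I
    obtain ⟨M, N', g, hN, hM, hg⟩ := compress h d hd X hX (max I 1)
    refine ⟨(sg.obj M)⟦N'⟧, g, fun f hf => ?_, hg⟩
    exact cogh_kill h ((le_max_left _ _).trans hN) ((le_max_right _ _).trans hN) f hf M hM g

theorem ext_zero [Infinite k] [Module.Finite k B] [IsSemisimpleRing (ℬ 0)] {s : ℕ}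
    {lam : B →ₗ[k] k} (h : GrFrob ℬ s lam) {d : ℤ} (hd : 1 ≤ d) {c : ℕ}
    {z : Fin c → (𝟭 (DerivedCategory (GrMod ℬ)) ⟶ PhiF d)} (hz : ZPhi (PhiF d) z)
    (hκ : ∀ a X, (tr (z a) X)⟦(1 : ℤ)⟧' ≫ (kapF d X).hom = tr (z a) (X⟦(1 : ℤ)⟧))
    (hfg : HFg d z) (n j : ℤ) (hj : j ≠ n) : VV (Sj ℬ 0) (Sj ℬ j) n := by
  rcases lt_or_gt_of_ne hj with hlt | hgt
  · exact vv_low (frob_top h) (Sj ℬ 0) (Fd_Sj 0) 0 0 (Sj_supp 0) j n (by linarith)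
  · obtain ⟨H, hG⟩ := atHyp h hd hz hκ hfg
    have h1 := abstract_theorem H (j - n) n (by linarith)
    rw [hG] at h1
    intro f
    obtain ⟨e⟩ := Dr8_iso ℬ
    obtain ⟨m, rfl⟩ : ∃ m, j = m + n := ⟨j - n, by ring⟩
    rw [add_sub_cancel_right] at h1
    have h2 : e.hom ≫ f = 0 := h1 (e.hom ≫ f)
    rw [← cancel_epi e.hom, h2, comp_zero]

end H60.KZ
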