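import Pool.Agent.H60.KZ.GmG

/-!
# Row GmL: projective covers of modules concentrated in one degree

`exists_pcover_deg`: let `M` be finite dimensional and concentrated in degree `q`.  By
`sem_inAdd_supp` there are `α_a : M ⟶ Sj ℬ q`, `β_a : Sj ℬ q ⟶ M` with `𝟙 M = Σ α_a ≫ β_a`,
`a : Fin n`.  Let `S = ⨁ Sj ℬ q`, `P = ⨁ Pj ℬ q` (`n` copies), `π : P ⟶ S` the sum of the
projections `p` of `Jj_ses`, `α : M ⟶ S`, `β : S ⟶ M`, `α ≫ β = 𝟙`, and `e = β ≫ α : S ⟶ S`,
idempotent.
`P` is projective and `π` epi, so there is `e' : P ⟶ P` with `e' ≫ π = π ≫ e`.  A morphism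
`f : P ⟶ P` with `f ≫ π = 0` is zero: `f` is determined by the images in `P q` of the `n`
generators (`yon_ext`), and `π` is injective in degree `q` (as `(geG (Pj ℬ q) (q+1)).N q = ⊥`).
Hence `e' ≫ e' = e'`, because `(e' ≫ e' - e') ≫ π = π ≫ (e ≫ e - e) = 0`.
Idempotents split in an abelian category: `e' = u ≫ v` with `u : P ⟶ Pc`, `v : Pc ⟶ P`,
`v ≫ u = 𝟙 Pc` (`Pc` = image, or `IsIdempotentComplete`).  `Pc` is a retract of `P`, so it is
projective, finite dimensional, and generated in degree `q` (an epimorphic image of `P`,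
`P` is generated by its component of degree `q`: `act` of `x : ℬ (i-q)` on `onep`).
Let `p = v ≫ π ≫ β : Pc ⟶ M`.  It is epi: `u ≫ p = e' ≫ π ≫ β = π ≫ e ≫ β = π ≫ β`, which is epi.
It is injective in degree `q`: if `x ∈ Pc q` and `p x = 0`, then with `y = v x` (`e' y = y`):
`β (π y) = 0`, so `π y = π (e' y) = e (π y) = α (β (π y)) = 0`, so `y = 0`, `x = u y = 0`.

`genIn_epi`: an epimorphic image of a module generated in degree `q` is generated in degree `q`.

`exists_pcover`: let `K` be finite dimensional, zero in degrees `< q`, and generated in degree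
`q`.  Let `T = (geG K (q+1)).quo`, concentrated in degree `q` (`supp_quo`), `pr : K ⟶ T`, bijective in
degree `q`.  Choose `p : Pc ⟶ T` as above and lift it to `p' : Pc ⟶ K`, `p' ≫ pr = p`
(`Pc` projective).  In degree `q` `p'` is bijective (since `p` and `pr` are: `p` is surjective and
injective there).  `K` is generated in degree `q`, so `p'` is epi (`epi_iff_cm`, `cm_act`).
The kernel (`kerG p'`) is zero in degrees `≤ q`: in degree `q` by injectivity; in degrees `< q`
because `Pc` is zero there (`Pc` is generated in degree `q` and `ℬ (i-q) = ⊥` for `i < q`).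
-/

universe u

namespace H60.KZ

open CategoryTheory CategoryTheory.Limits

variable {k : Type u} [Field k] {B : Type u} [Ring B] [Algebra k B]
  {ℬ : ℤ → Submodule k B} [GradedAlgebra ℬ] [PosGr ℬ]

attribute [local instance] Abelian.hasFiniteBiproducts

/-- the submodule generated by the component of degree `q` -/
def GmL_gen (M : GrMod ℬ) (q i : ℤ) : Submodule k (cmp M i) :=
  Submodule.span k {z | ∃ (b : ℬ (i - q)) (x : cmp M q), act M b x = z}

omit [PosGr ℬ] in
theorem GmL_genIn_iff (M : GrMod ℬ) (q : ℤ) :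
    GenIn M q ↔ ∀ (i : ℤ) (y : cmp M i), y ∈ GmL_gen M q i := by
  constructor
  · intro h i y
    obtain ⟨n, b, x, rfl⟩ := h i y
    exact Submodule.sum_mem _ fun a _ => Submodule.subset_span ⟨b a, x a, rfl⟩
  · intro h i y
    obtain ⟨n, f, g, hg⟩ := (Submodule.mem_span_set' ).1 (h i y)
    choose b x hbx using fun a => (g a).2
    refine ⟨n, b, fun a => f a • x a, ?_⟩
    rw [← hg]
    refine Finset.sum_congr rfl fun a _ => ?_
    rw [map_smul, hbx a]

omit [PosGr ℬ] in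
theorem genIn_epi {M N : GrMod ℬ} {q : ℤ} (f : M ⟶ N) [Epi f] (h : GenIn M q) : GenIn N q := by
  intro i y
  obtain ⟨y', rfl⟩ := (epi_iff_cm f).1 inferInstance i y
  obtain ⟨n, b, x, rfl⟩ := h i y'
  refine ⟨n, b, fun a => cm f q (x a), ?_⟩
  rw [map_sum]
  exact Finset.sum_congr rfl fun a _ => cm_act f (b a) (x a)

theorem genIn_zero {M : GrMod ℬ} {q : ℤ} (h : GenIn M q) {i : ℤ} (hi : i < q) (x : cmp M i) :
    x = 0 := by
  obtain ⟨n, b, y, rfl⟩ := h i x
  exact Finset.sum_eq_zero fun a _ => act_neg_deg M hi (b a) (y a)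

omit [PosGr ℬ] in
theorem GmL_genIn_Pj (q : ℤ) : GenIn (Pj ℬ q) q := by
  intro i y
  refine ⟨1, fun _ => (y : ℬ (i - q)), fun _ => onep ℬ q, ?_⟩
  rw [Fin.sum_univ_one]
  exact (GmD_act_one i q y).symm

omit [PosGr ℬ] in
theorem GmL_genIn_inAdd {J : Type} {F : J → GrMod ℬ} {q : ℤ} (hF : ∀ j, GenIn (F j) q)
    {M : GrMod ℬ} (h : InAdd F M) : GenIn M q := by
  obtain ⟨n, j, α, β, h1⟩ := h
  rw [GmL_genIn_iff]
  intro i y
  have h3 : cm (𝟙 M) i y = y := cm_id M i y
  rw [← h3, h1, cm_sum]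
  refine Submodule.sum_mem _ fun a _ => ?_
  rw [cm_comp]
  obtain ⟨m, b, x, hx⟩ := hF (j a) i (cm (α a) i y)
  rw [hx, map_sum]
  refine Submodule.sum_mem _ fun c _ => ?_
  rw [cm_act]
  exact Submodule.subset_span ⟨b c, _, rfl⟩

theorem GmL_pr_inj (M : GrMod ℬ) (q : ℤ) (x : cmp M q)
    (hx : cm (geG M (q + 1)).pr q x = 0) : x = 0 := by
  have h1 := (gmb_pr_eq (geG M (q + 1)) q x).1 hx
  have h2 : (geG M (q + 1)).N q = ⊥ := if_neg (by lia)
  rw [h2] at h1
  exact (Submodule.mem_bot k).1 h1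

theorem exists_pcover_deg [Module.Finite k B] [IsSemisimpleRing (ℬ 0)] {M : GrMod ℬ} {q : ℤ}
    (hM : Supp M q q) (hF : Fd M) :
    ∃ (Pc : GrMod ℬ) (p : Pc ⟶ M), Projective Pc ∧ Fd Pc ∧ GenIn Pc q ∧ Epi p ∧
      Function.Injective (cm p q) := by
  obtain ⟨n, j, α, β, h1⟩ := sem_inAdd_supp hM hF
  obtain ⟨p, hpe, hpi⟩ : ∃ p : Pj ℬ q ⟶ Sj ℬ q, Epi p ∧ ∀ x : cmp (Pj ℬ q) q, cm p q x = 0 → x = 0 :=
    ⟨(geG (Pj ℬ q) (q + 1)).pr, (geG (Pj ℬ q) (q + 1)).shortExact.epi_g,
      GmL_pr_inj (Pj ℬ q) q⟩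
  have hkey : ∀ g : Pj ℬ q ⟶ Pj ℬ q, g ≫ p = 0 → g = 0 := by
    intro g hg
    refine yon_ext ?_
    rw [cm_zero]
    apply hpi
    rw [← cm_comp, hg, cm_zero]
  let F : Fin n → GrMod ℬ := fun _ => Pj ℬ q
  let ψ : ⨁ F ⟶ M := biproduct.desc (fun a => p ≫ β a)
  have hιψ : ∀ a, biproduct.ι F a ≫ ψ = p ≫ β a := fun a => biproduct.ι_desc _ a
  have hψs : ψ = ∑ b, biproduct.π F b ≫ p ≫ β b := by
    have e1 : ψ = 𝟙 (⨁ F) ≫ ψ := (Category.id_comp ψ).symm
    rw [e1, ← biproduct.total, Preadditive.sum_comp]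
    refine Finset.sum_congr rfl fun b _ => ?_
    rw [Category.assoc, hιψ b]
  have hψe : Epi ψ := by
    refine ⟨fun {Z} g h hgh => ?_⟩
    have e1 : ∀ a, β a ≫ g = β a ≫ h := by
      intro a
      rw [← cancel_epi p, ← Category.assoc, ← Category.assoc, ← hιψ a, Category.assoc,
        Category.assoc, hgh]
    have e2 : ∀ t : M ⟶ Z, t = ∑ a, α a ≫ β a ≫ t := by
      intro t
      have e3 : t = 𝟙 M ≫ t := (Category.id_comp t).symm
      rw [h1, Preadditive.sum_comp] at e3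
      simpa only [Category.assoc] using e3
    rw [e2 g, e2 h]
    exact Finset.sum_congr rfl fun a _ => by rw [e1 a]
  -- the lift of the idempotent
  let ε : Fin n → Fin n → (Pj ℬ q ⟶ Pj ℬ q) := fun a b =>
    Projective.factorThru (p ≫ β a ≫ α b) p
  have hε : ∀ a b, ε a b ≫ p = p ≫ β a ≫ α b := fun a b => Projective.factorThru_comp _ _
  let e' : ⨁ F ⟶ ⨁ F := biproduct.desc (fun a => biproduct.lift (fun b => ε a b))
  have hιe : ∀ a b, biproduct.ι F a ≫ e' ≫ biproduct.π F b = ε a b := by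
    intro a b
    rw [← Category.assoc]
    have e1 : biproduct.ι F a ≫ e' = biproduct.lift (fun b => ε a b) := biproduct.ι_desc _ a
    rw [e1]
    exact biproduct.lift_π _ b
  have he1 : ∀ b, e' ≫ biproduct.π F b ≫ p = ψ ≫ α b := by
    intro b
    refine biproduct.hom_ext' _ _ fun a => ?_
    have e1 : biproduct.ι F a ≫ e' ≫ biproduct.π F b ≫ p
        = (biproduct.ι F a ≫ e' ≫ biproduct.π F b) ≫ p := by
      simp only [Category.assoc]
    rw [e1, hιe a b, hε a b, ← Category.assoc (biproduct.ι F a) ψ, hιψ a, Category.assoc]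
  have he2 : e' ≫ ψ = ψ := by
    have e3 : e' ≫ (∑ b, biproduct.π F b ≫ p ≫ β b) = ∑ b, ψ ≫ α b ≫ β b := by
      rw [Preadditive.comp_sum]
      refine Finset.sum_congr rfl fun b _ => ?_
      have e4 : e' ≫ biproduct.π F b ≫ p ≫ β b = (e' ≫ biproduct.π F b ≫ p) ≫ β b := by
        simp only [Category.assoc]
      rw [e4, he1 b, Category.assoc]
    rw [← hψs, ← Preadditive.comp_sum, ← h1, Category.comp_id] at e3
    exact e3
  have he3 : e' ≫ e' = e' := by
    refine biproduct.hom_ext _ _ fun b => biproduct.hom_ext' _ _ fun a => ?_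
    rw [← sub_eq_zero, ← Preadditive.comp_sub]
    apply hkey
    rw [Category.assoc, Preadditive.sub_comp, Category.assoc, Category.assoc, Category.assoc,
      he1 b, ← Category.assoc e' ψ, he2, sub_self, comp_zero]
  obtain ⟨Pc, v, u, hvu, huv⟩ := IsIdempotentComplete.idempotents_split (⨁ F) e' he3
  have hIn : InAdd (fun _ : Unit => Pj ℬ q) Pc := by
    refine ⟨n, fun _ => (), fun a => v ≫ biproduct.π F a, fun a => biproduct.ι F a ≫ u, ?_⟩
    have e1 : v ≫ 𝟙 (⨁ F) ≫ u = 𝟙 Pc := by rw [Category.id_comp, hvu]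
    rw [← e1, ← biproduct.total, Preadditive.sum_comp, Preadditive.comp_sum]
    refine Finset.sum_congr rfl fun a _ => ?_
    simp only [Category.assoc]
  have huψ : u ≫ v ≫ ψ = ψ := by
    rw [← Category.assoc, huv, he2]
  refine ⟨Pc, v ≫ ψ, inAdd_proj (fun _ => Pj_proj q) hIn, Fd_inAdd (fun _ => Fd_Pj q) hIn,
    GmL_genIn_inAdd (fun _ => GmL_genIn_Pj q) hIn, ?_, ?_⟩
  · have : Epi (u ≫ v ≫ ψ) := by rw [huψ]; exact hψe
    exact epi_of_epi u (v ≫ ψ)
  · refine (injective_iff_map_eq_zero _).2 fun x hx => ?_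
    have hve : v ≫ e' = v := by rw [← huv, ← Category.assoc, hvu, Category.id_comp]
    have hb : ∀ b, cm (biproduct.π F b) q (cm v q x) = 0 := by
      intro b
      apply hpi
      have e1 : v ≫ biproduct.π F b ≫ p = (v ≫ ψ) ≫ α b := by
        calc v ≫ biproduct.π F b ≫ p = (v ≫ e') ≫ biproduct.π F b ≫ p := by rw [hve]
          _ = v ≫ (e' ≫ biproduct.π F b ≫ p) := by rw [Category.assoc]
          _ = (v ≫ ψ) ≫ α b := by rw [he1 b, Category.assoc]
      have e2 : cm p q (cm (biproduct.π F b) q (cm v q x))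
          = cm (v ≫ biproduct.π F b ≫ p) q x := rfl
      rw [e2, e1, cm_comp, hx, map_zero]
    have hv : cm v q x = 0 := by
      have e1 : cm v q x = cm (𝟙 (⨁ F)) q (cm v q x) := (cm_id _ _ _).symm
      rw [e1, ← biproduct.total, cm_sum]
      refine Finset.sum_eq_zero fun b _ => ?_
      rw [cm_comp, hb b, map_zero]
    have e3 : x = cm u q (cm v q x) := by
      rw [← cm_comp, hvu, cm_id]
    rw [e3, hv, map_zero]

theorem exists_pcover [Module.Finite k B] [IsSemisimpleRing (ℬ 0)] {K : GrMod ℬ} {q b : ℤ}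
    (hK : Supp K q b) (hF : Fd K) (hg : GenIn K q) :
    ∃ (Pc : GrMod ℬ) (p : Pc ⟶ K), Projective Pc ∧ Fd Pc ∧ GenIn Pc q ∧ Epi p ∧
      ∃ b', Supp (kerG p).sub (q + 1) b' := by
  have hses := (geG K (q + 1)).shortExact
  have hpr : Epi (geG K (q + 1)).pr := hses.epi_g
  have hT : Supp (geG K (q + 1)).quo q q := supp_quo hK q
  have hTF : Fd (geG K (q + 1)).quo := ((Fd_ses _ hses).1 hF).2
  obtain ⟨Pc, p, h1, h2, h3, h4, h5⟩ := exists_pcover_deg hT hTF
  obtain ⟨p', hp'⟩ : ∃ p' : Pc ⟶ K, p' ≫ (geG K (q + 1)).pr = p :=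
    ⟨Projective.factorThru p (geG K (q + 1)).pr, Projective.factorThru_comp _ _⟩
  have hcm : ∀ x, cm (geG K (q + 1)).pr q (cm p' q x) = cm p q x := by
    intro x
    rw [← cm_comp, hp']
  obtain ⟨a', b', hs⟩ := h2.2
  refine ⟨Pc, p', h1, h2, h3, ?_, b', ?_⟩
  · rw [epi_iff_cm]
    intro i y
    obtain ⟨n, c, x, rfl⟩ := hg i y
    have hx : ∀ a, ∃ z, cm p' q z = x a := by
      intro a
      obtain ⟨z, hz⟩ := (epi_iff_cm p).1 h4 q (cm (geG K (q + 1)).pr q (x a))
      refine ⟨z, ?_⟩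
      rw [← sub_eq_zero]
      apply GmL_pr_inj K q
      rw [map_sub, hcm, hz, sub_self]
    choose z hz using hx
    refine ⟨∑ a, act Pc (c a) (z a), ?_⟩
    rw [map_sum]
    refine Finset.sum_congr rfl fun a _ => ?_
    rw [cm_act, hz a]
  · intro i hi x
    have hx : cm p' i (x : (kerG p').N i).1 = 0 := LinearMap.mem_ker.1 (x : (kerG p').N i).2
    have hx0 : (x : (kerG p').N i).1 = 0 := by
      rcases hi with hi | hi
      · by_cases hq : i = q
        · subst hq
          apply h5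
          rw [← hcm, hx, map_zero, map_zero]
        · exact genIn_zero h3 (by lia) _
      · exact hs i (Or.inr hi) _
    exact Subtype.ext hx0

end H60.KZ
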