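import Pool.Agent.H60.KZ.Dr2
import Pool.Agent.H60.KZ.GmL

/-!
# Row Dr9: linear resolutions from the vanishing of `Ext^n(M, Sj j)`, `j ≠ q + n`

`Lin K q`: `K` is finite dimensional, zero in degrees `< q`, and `VV K (Sj ℬ j) n` for all `n ≥ 0` and
`j ≠ q + n`.

* `lin_gen`: `Lin K q → GenIn K q`.  Let `N` be the graded submodule of `K` generated by `K q`
  (`N i = span {act b x | b ∈ ℬ (i-q), x ∈ K q}`, a `SubG`), `L = N.quo`.  Suppose `L ≠ 0`.
  `L` is finite dimensional, zero in degrees `≤ q`; let `a` be the smallest degree with `L a ≠ 0`,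
  `a > q`.  `T = (geG L (a+1)).quo` is concentrated in degree `a`, nonzero, in
  `InAdd (fun _ : Unit => Sj ℬ a)`, so there is a nonzero morphism `T ⟶ Sj ℬ a`, hence a nonzero
  morphism `K ⟶ L ⟶ T ⟶ Sj ℬ a` (epis).  But `VV K (Sj ℬ a) 0` and `vv_hom_zero`: contradiction.
  So `L = 0`, `N i = ⊤`, and membership in the span gives the finite sum
  (`Submodule.mem_span_set'` or induction; coefficients are absorbed by `act_smul`).
* `lin_step`: `exists_pcover` gives `p : Pc ⟶ K`, `Pc` projective, generated in degree `q`, and the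
  kernel `K' = (kerG p).sub` is supported in `[q+1, b']`, finite dimensional (`Fd_ses`,
  `kerG_shortExact`).  `VV K' (Sj ℬ j) n` for `j ≠ q + 1 + n`: for `n ≥ 1` by `vv_syz`
  (`vv_proj` for `Pc`, and `VV K (Sj ℬ j) (n+1)`).  For `n = 0`: if `j ≠ q`, `hom_syz`: every
  `Pc ⟶ Sj ℬ j` is zero (`Pc` is generated in degree `q`, where `Sj ℬ j` is zero), then `vv_zero`;
  if `j = q`: `K'` is zero in degree `q`: `hom_Sj_zero`.
* `lin_res`: iterate `lin_step` (dependent choice: define by recursion a sequence of pairs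
  `(K n, Lin (K n) (q+n))` with `p n : P n ⟶ K n` epi, `i n : K (n+1) ⟶ P n` the kernel, short exact);
  here `q = 0`.  `dd n = p (n+1) ≫ i n`, `ε = p 0`.  Exactness at `P n`: the kernel of `dd n` is the
  kernel of `p (n+1)` (`i n` is mono), which is the image of `i (n+1)`, hence of
  `dd (n+1) = p (n+2) ≫ i (n+1)` (`p (n+2)` epi); use `exact_iff_cm`, `shortExact_iff_cm`.
* `koszul_of_ext`: `M` simple concentrated in degree `0`: there is `0 ≠ x ∈ M 0`
  (`isZero_iff_cm`; `Simple` objects are nonzero: `id_nonzero`); `yon x : Pj ℬ 0 ⟶ M` is nonzero, so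
  epi (`epi_of_nonzero_to_simple`), so `M` is `Fd` (`Fd_ses`), hence in
  `InAdd (fun _ : Unit => Sj ℬ 0)` (`sem_inAdd_supp`), and
  `VV M (Sj ℬ j) n` for `j ≠ n` by `vv_inAdd_left`; so `Lin M 0`.
-/

universe w u

namespace H60.KZ

open CategoryTheory CategoryTheory.Limits CategoryTheory.Pretriangulated

variable {k : Type u} [Field k] {B : Type u} [Ring B] [Algebra k B]
  {ℬ : ℤ → Submodule k B} [GradedAlgebra ℬ] [PosGr ℬ] [HasDerivedCategory.{w} (GrMod ℬ)]

/-- `K` behaves as a module with a linear resolution starting in degree `q`. -/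
def Lin (K : GrMod ℬ) (q : ℤ) : Prop :=
  Fd K ∧ (∃ b, Supp K q b) ∧ ∀ n : ℤ, 0 ≤ n → ∀ j, j ≠ q + n → VV K (Sj ℬ j) n

section
omit [PosGr ℬ] [HasDerivedCategory.{w} (GrMod ℬ)]

/-- the graded submodule generated by the component of degree `q` -/
def dr9_N (K : GrMod ℬ) (q : ℤ) : SubG K where
  N i := ⨆ b : ℬ (i - q), LinearMap.range (act K b)
  st i j b x hx := by
    have key : (⨆ b : ℬ (i - q), LinearMap.range (act K b)) ≤
        (⨆ b : ℬ (j - q), LinearMap.range (act K b)).comap (act K b) := by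
      refine iSup_le fun b' => ?_
      rintro _ ⟨y, rfl⟩
      rw [Submodule.mem_comap]
      have hmem : b.1 * b'.1 ∈ ℬ (j - q) := by
        have := SetLike.GradedMul.mul_mem b.2 b'.2
        rwa [show j - i + (i - q) = j - q by ring] at this
      rw [← act_mul K q i j b' b hmem y]
      exact Submodule.mem_iSup_of_mem ⟨b.1 * b'.1, hmem⟩ ⟨y, rfl⟩
    exact key hx

theorem dr9_mem (K : GrMod ℬ) (q i : ℤ) (y : cmp K i) (hy : y ∈ (dr9_N K q).N i) :
    ∃ (n : ℕ) (b : Fin n → ℬ (i - q)) (x : Fin n → cmp K q), y = ∑ a, act K (b a) (x a) := by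
  have hy' : y ∈ ⨆ b : ℬ (i - q), LinearMap.range (act K b) := hy
  clear hy
  induction hy' using Submodule.iSup_induction' with
  | mem b y hy =>
    obtain ⟨x, rfl⟩ := hy
    exact ⟨1, fun _ => b, fun _ => x, by simp⟩
  | zero => exact ⟨0, fun a => a.elim0, fun a => a.elim0, by simp⟩
  | add y z hy hz h1 h2 =>
    obtain ⟨n, b, x, h1⟩ := h1
    obtain ⟨m, b', x', h2⟩ := h2
    refine ⟨n + m, Fin.append b b', Fin.append x x', ?_⟩
    rw [Fin.sum_univ_add, h1, h2]
    congr 1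
    · apply Finset.sum_congr rfl
      intro a _
      rw [Fin.append_left, Fin.append_left]
    · apply Finset.sum_congr rfl
      intro a _
      rw [Fin.append_right, Fin.append_right]

theorem dr9_top (K : GrMod ℬ) (q : ℤ) (x : cmp K q) : x ∈ (dr9_N K q).N q := by
  have h : (1 : B) ∈ ℬ (q - q) := by rw [sub_self]; exact SetLike.GradedOne.one_mem
  have h1 : x ∈ ⨆ b : ℬ (q - q), LinearMap.range (act K b) :=
    Submodule.mem_iSup_of_mem ⟨1, h⟩ ⟨x, act_one K q x h⟩
  exact h1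

end

variable [Module.Finite k B] [IsSemisimpleRing (ℬ 0)]

omit [Module.Finite k B] in
theorem lin_gen (K : GrMod ℬ) (q : ℤ) (h : Lin K q) : GenIn K q := by
  obtain ⟨hF, ⟨b, hb⟩, hV⟩ := h
  have hL := (dr9_N K q).shortExact
  have hLe : Epi (dr9_N K q).pr := hL.epi_g
  have hLF : Fd (dr9_N K q).quo := ((Fd_ses _ hL).1 hF).2
  have hsur : ∀ i (y : cmp (dr9_N K q).quo i), ∃ x, cm (dr9_N K q).pr i x = y :=
    (epi_iff_cm _).1 hLe
  -- the quotient is zero
  have hz : ∀ i (y : cmp (dr9_N K q).quo i), y = 0 := by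
    by_contra hcon
    push Not at hcon
    obtain ⟨i0, y0, hy0⟩ := hcon
    have hlow : ∀ i, i ≤ q → ∀ y : cmp (dr9_N K q).quo i, y = 0 := by
      intro i hi y
      obtain ⟨x, rfl⟩ := hsur i y
      rcases hi.lt_or_eq with h1 | h1
      · rw [hb i (Or.inl h1) x, map_zero]
      · subst h1
        exact (gmb_pr_eq _ i x).2 (dr9_top K i x)
    obtain ⟨a, ⟨y, hy⟩, hmin⟩ := Int.exists_least_of_bdd
      (P := fun i => ∃ y : cmp (dr9_N K q).quo i, y ≠ 0)
      ⟨q, fun i hi => by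
        obtain ⟨y, hy⟩ := hi
        by_contra hlt
        exact hy (hlow i (by omega) y)⟩ ⟨i0, y0, hy0⟩
    have haq : q < a := by
      by_contra hlt
      exact hy (hlow a (by omega) y)
    obtain ⟨c1, c2, hc⟩ := hLF.2
    have hs : Supp (dr9_N K q).quo a c2 := by
      intro i hi z
      rcases hi with hi | hi
      · by_contra hne
        have := hmin i ⟨z, hne⟩
        omega
      · exact hc i (Or.inr hi) z
    have hT := (geG (dr9_N K q).quo (a + 1)).shortExact
    have hTe : Epi (geG (dr9_N K q).quo (a + 1)).pr := hT.epi_g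
    have hTF : Fd (geG (dr9_N K q).quo (a + 1)).quo := ((Fd_ses _ hT).1 hLF).2
    have hTs : Supp (geG (dr9_N K q).quo (a + 1)).quo a a := supp_quo hs a
    have hz : ∀ f : (geG (dr9_N K q).quo (a + 1)).quo ⟶ Sj ℬ a, f = 0 := by
      intro f
      have h1 := vv_hom_zero (hV 0 le_rfl a (by omega))
        ((dr9_N K q).pr ≫ (geG (dr9_N K q).quo (a + 1)).pr ≫ f)
      have h2 : (geG (dr9_N K q).quo (a + 1)).pr ≫ f = 0 := by
        rw [← cancel_epi (dr9_N K q).pr, h1, comp_zero]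
      rw [← cancel_epi (geG (dr9_N K q).quo (a + 1)).pr, h2, comp_zero]
    obtain ⟨n, j, α, β, h1⟩ := sem_inAdd_supp hTs hTF
    have h3 : 𝟙 (geG (dr9_N K q).quo (a + 1)).quo = 0 := by
      rw [h1]
      apply Finset.sum_eq_zero
      intro c _
      rw [hz (α c), zero_comp]
    have h4 : cm (geG (dr9_N K q).quo (a + 1)).pr a y = 0 := by
      have h5 := congrArg (fun t => cm t a (cm (geG (dr9_N K q).quo (a + 1)).pr a y)) h3
      exact h5
    have h6 := (gmb_pr_eq _ a y).1 h4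
    have h7 : (geG (dr9_N K q).quo (a + 1)).N a = ⊥ := if_neg (by omega)
    rw [h7, Submodule.mem_bot] at h6
    exact hy h6
  intro i y
  exact dr9_mem K q i y ((gmb_pr_eq _ i y).1 (hz i _))

theorem lin_step (K : GrMod ℬ) (q : ℤ) (h : Lin K q) :
    ∃ (Pc K' : GrMod ℬ) (i : K' ⟶ Pc) (p : Pc ⟶ K) (w : i ≫ p = 0),
      (ShortComplex.mk i p w).ShortExact ∧ Projective Pc ∧ GenIn Pc q ∧ Lin K' (q + 1) := by
  have hgen := lin_gen K q h
  obtain ⟨hF, ⟨b, hb⟩, hV⟩ := h
  obtain ⟨Pc, p, hP, hPF, hPg, hPe, b', hb'⟩ := exists_pcover hb hF hgen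
  obtain ⟨w, hS⟩ := kerG_shortExact p
  refine ⟨Pc, (kerG p).sub, (kerG p).inc, p, w, hS, hP, hPg, ((Fd_ses _ hS).1 hPF).1,
    ⟨b', hb'⟩, ?_⟩
  intro n hn j hj
  rcases hn.lt_or_eq with hn1 | hn1
  · exact vv_syz _ hS (Sj ℬ j) n (vv_proj Pc (Sj ℬ j) n hn1) (hV (n + 1) (by omega) j (by omega))
  · subst hn1
    by_cases hjq : j = q
    · subst hjq
      exact vv_zero _ _ (fun f => hom_Sj_zero (fun x => hb' j (Or.inl (by omega)) x) f)
    · refine vv_zero _ _ (fun f => ?_)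
      refine hom_syz _ hS (Sj ℬ j) ?_ (hV 1 (by omega) j (by omega)) f
      intro g
      refine hom_ext_cm fun i y => ?_
      obtain ⟨m, c, x, rfl⟩ := hPg i y
      rw [map_sum, cm_zero]
      apply Finset.sum_eq_zero
      intro a _
      rw [cm_act]
      have h1 : cm g q (x a) = 0 := by
        rcases lt_or_gt_of_ne (Ne.symm hjq) with h2 | h2
        · exact Sj_supp j q (Or.inl h2) _
        · exact Sj_supp j q (Or.inr h2) _
      rw [h1, map_zero]

theorem lin_res (M : GrMod ℬ) (h : Lin M 0) : HasLinRes M := by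
  have step : ∀ (n : ℕ) (K : {K : GrMod ℬ // Lin K (n : ℤ)}),
      ∃ (Pc K' : GrMod ℬ) (i : K' ⟶ Pc) (p : Pc ⟶ K.1) (w : i ≫ p = 0),
        (ShortComplex.mk i p w).ShortExact ∧ Projective Pc ∧ GenIn Pc (n : ℤ) ∧
          Lin K' ((n + 1 : ℕ) : ℤ) := by
    intro n K
    obtain ⟨Pc, K', i, p, w, h1, h2, h3, h4⟩ := lin_step K.1 n K.2
    refine ⟨Pc, K', i, p, w, h1, h2, h3, ?_⟩
    rw [Nat.cast_succ]
    exact h4
  choose Pc K' i p w hS hP hG hL using step
  let KK : ∀ n : ℕ, {K : GrMod ℬ // Lin K (n : ℤ)} := fun n =>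
    Nat.rec (motive := fun n => {K : GrMod ℬ // Lin K (n : ℤ)}) ⟨M, by simpa using h⟩
      (fun n K => ⟨K' n K, hL n K⟩) n
  have hw0 : ∀ n, (p (n + 1) (KK (n + 1)) ≫ i n (KK n)) ≫ p n (KK n) = 0 := by
    intro n
    rw [Category.assoc, w, comp_zero]
  have hinj : ∀ n j, Function.Injective (cm (i n (KK n)) j) := fun n =>
    ((shortExact_iff_cm _).1 (hS n (KK n))).1
  have hmid : ∀ n j (x : cmp (Pc n (KK n)) j), cm (p n (KK n)) j x = 0 →
      ∃ y, cm (i n (KK n)) j y = x := fun n =>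
    ((shortExact_iff_cm _).1 (hS n (KK n))).2.1
  have hsur : ∀ n j, Function.Surjective (cm (p n (KK n)) j) := fun n =>
    ((shortExact_iff_cm _).1 (hS n (KK n))).2.2
  have hex : ∀ n j (x : cmp (Pc n (KK n)) j), cm (p n (KK n)) j x = 0 →
      ∃ y, cm (p (n + 1) (KK (n + 1)) ≫ i n (KK n)) j y = x := by
    intro n j x hx
    obtain ⟨y, hy⟩ := hmid n j x hx
    obtain ⟨z, hz⟩ := hsur (n + 1) j y
    refine ⟨z, ?_⟩
    rw [cm_comp, hz, hy]
  refine ⟨fun n => Pc n (KK n), fun n => p (n + 1) (KK (n + 1)) ≫ i n (KK n), p 0 (KK 0),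
    fun n => hP n (KK n), fun n => hG n (KK n), (hS 0 (KK 0)).epi_g, ⟨hw0 0, ?_⟩,
    fun n => ⟨?_, ?_⟩⟩
  · rw [exact_iff_cm]
    exact hex 0
  · rw [← Category.assoc, hw0 (n + 1), zero_comp]
  · rw [exact_iff_cm]
    intro j x hx
    have hx' : cm (i n (KK n)) j (cm (p (n + 1) (KK (n + 1))) j x) = 0 := hx
    have h1 : cm (p (n + 1) (KK (n + 1))) j x = 0 := by
      apply hinj n j
      rw [hx', map_zero]
    exact hex (n + 1) j x h1

theorem koszul_of_ext (h : ∀ n j : ℤ, j ≠ n → VV (Sj ℬ 0) (Sj ℬ j) n) : IsKoszul ℬ := by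
  intro M hM hs
  have hne : ∃ x : cmp M 0, x ≠ 0 := by
    by_contra hcon
    push Not at hcon
    have h1 : IsZero M := by
      rw [isZero_iff_cm]
      intro i x
      rcases lt_trichotomy i 0 with hi | hi | hi
      · exact hs i (Or.inl hi) x
      · subst hi
        exact hcon x
      · exact hs i (Or.inr hi) x
    exact id_nonzero M (h1.eq_of_src _ _)
  obtain ⟨x, hx⟩ := hne
  have hy : (yon x : Pj ℬ 0 ⟶ M) ≠ 0 := by
    intro h0
    apply hx
    rw [← yon_one x, h0, cm_zero]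
  have hepi : Epi (yon x : Pj ℬ 0 ⟶ M) := epi_of_nonzero_to_simple hy
  obtain ⟨w, hS⟩ := kerG_shortExact (yon x : Pj ℬ 0 ⟶ M)
  have hF : Fd M := ((Fd_ses _ hS).1 (Fd_Pj 0)).2
  refine lin_res M ⟨hF, ⟨0, hs⟩, ?_⟩
  intro n _ j hj
  exact vv_inAdd_left (sem_inAdd_supp hs hF) (Sj ℬ j) n (fun _ => h n j (by omega))

end H60.KZ
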