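import Pool.Agent.H60.KZ.Dr0

/-!
# Central elements of general internal degree: definitions
-/

universe w u

namespace H60.KZ

open CategoryTheory CategoryTheory.Limits CategoryTheory.Pretriangulated

variable {k : Type u} [Field k] {B : Type u} [Ring B] [Algebra k B]
  {ℬ : ℤ → Submodule k B} [GradedAlgebra ℬ] [HasDerivedCategory.{w} (GrMod ℬ)]

/-- The functor `X ↦ X⟨-e⟩[d]` on the derived category of graded modules. -/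
noncomputable def PhiG (e d : ℤ) : DerivedCategory (GrMod ℬ) ⥤ DerivedCategory (GrMod ℬ) :=
  (shf e).mapDerivedCategory ⋙ shiftFunctor (DerivedCategory (GrMod ℬ)) d

/-- Two natural transformations `a : 𝟭 ⟶ F`, `b : 𝟭 ⟶ G` commute (up to isomorphism): the two
composites `X ⟶ G (F X)` and `X ⟶ F (G X)` agree up to an isomorphism `G (F X) ≅ F (G X)`. -/
def Commute' {𝒟 : Type*} [Category* 𝒟] {F G : 𝒟 ⥤ 𝒟} (a : 𝟭 𝒟 ⟶ F) (b : 𝟭 𝒟 ⟶ G) : Prop :=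
  ∀ X : 𝒟, ∃ e : G.obj (F.obj X) ≅ F.obj (G.obj X),
    a.app X ≫ b.app (F.obj X) ≫ e.hom = b.app X ≫ a.app (G.obj X)

/-- Finite generation (Fg): for `n ≥ n0` and all `j`,
`Ext^{n+d}(S, S⟨-j⟩) = Σ_a z_a Ext^n(S, S⟨-(j-d)⟩) + Σ_b y_b Ext^n(S, S⟨-(j-e_b)⟩)`. -/
def HFgen [PosGr ℬ] (d : ℕ) {c c' : ℕ} (e : Fin c' → ℤ)
    (z : Fin c → (𝟭 (DerivedCategory (GrMod ℬ)) ⟶ PhiF d))
    (y : ∀ b : Fin c', 𝟭 (DerivedCategory (GrMod ℬ)) ⟶ PhiG (e b) d) : Prop :=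
  ∃ n0 : ℕ, ∀ n : ℕ, n0 ≤ n → ∀ (j : ℤ)
    (g : sg.obj (Sj ℬ 0) ⟶ (sg.obj (Sj ℬ j))⟦((n + d : ℕ) : ℤ)⟧),
    ∃ (f₁ : Fin c → (sg.obj (Sj ℬ 0) ⟶ (sg.obj (Sj ℬ (j - d)))⟦(n : ℤ)⟧))
      (θ₁ : Fin c → ((PhiF d).obj ((sg.obj (Sj ℬ (j - d)))⟦(n : ℤ)⟧) ≅
        (sg.obj (Sj ℬ j))⟦((n + d : ℕ) : ℤ)⟧))
      (f₂ : ∀ b : Fin c', sg.obj (Sj ℬ 0) ⟶ (sg.obj (Sj ℬ (j - e b)))⟦(n : ℤ)⟧)
      (θ₂ : ∀ b : Fin c', (PhiG (e b) d).obj ((sg.obj (Sj ℬ (j - e b)))⟦(n : ℤ)⟧) ≅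
        (sg.obj (Sj ℬ j))⟦((n + d : ℕ) : ℤ)⟧),
      g = ∑ a, f₁ a ≫ (z a).app ((sg.obj (Sj ℬ (j - d)))⟦(n : ℤ)⟧) ≫ (θ₁ a).hom +
        ∑ b, f₂ b ≫ (y b).app ((sg.obj (Sj ℬ (j - e b)))⟦(n : ℤ)⟧) ≫ (θ₂ b).hom

/-- Finite regularity: there is `r` with `Ext^n(S, S⟨-j⟩) = 0` for all `n` and all `j > n + r`. -/
def FinReg (ℬ : ℤ → Submodule k B) [GradedAlgebra ℬ] [HasDerivedCategory.{w} (GrMod ℬ)]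
    [PosGr ℬ] : Prop :=
  ∃ r : ℤ, ∀ n j : ℤ, n + r < j → VV (Sj ℬ 0) (Sj ℬ j) n

end H60.KZ
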