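import Pool.Agent.H60.KZ.At0

/-!
# Row Ex1: words in commuting natural transformations

`Ψ a : 𝒟 ⥤ 𝒟` (letters `a : A`), `ν a : 𝟭 ⟶ Ψ a`.  For a list `w` of letters `wob Ψ w X` is the iterated
application (the head of the list is applied last) and `wtr ν w X : X ⟶ wob Ψ w X`.
The hypothesis `hc` says that the letters commute up to isomorphism.

* `wtr_nat`: naturality, by induction on `w` (`Ψ a` is a functor, `ν a` is natural).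
* `wtr_append`: `wob Ψ (w ++ w') X = wob Ψ w (wob Ψ w' X)` and `wtr (w ++ w')` is the composite.
* `wtr_perm`: induction on `List.Perm`.  `cons a`: from `e : wob w X ≅ wob w' X` take
  `(Ψ a).mapIso e` : `wtr (a :: w) ≫ Ψ_a e = wtr w ≫ ν_a ≫ Ψ_a e = wtr w ≫ e ≫ ν_a = wtr (a :: w')`.
  `swap`: `hc` applied to `wob w X`, precomposed with `wtr w X`.  `trans`: composition.
* `wtr_zero`: if `b` occurs at least `r + 1` times in `w`, then `w` is a permutation of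
  `w'' ++ List.replicate (r+1) b` (`List.count`, `List.replicate_sublist_iff`/`List.subperm`), and
  `wtr (w'' ++ replicate) S = wtr (replicate) S ≫ _ = 0` by `h0`; so `wtr w S = 0`.
* `reduce`: Let `N = c' * r + 1`.  Claim(N'): for `n ≥ n0` and `Y` with `Yc (n + N' * d) Y`, every
  `g : S ⟶ Y` is a finite sum of morphisms `f ≫ wtr ν w Y' ≫ θ.hom`, with `w` a list of length `N'`,
  `Yc n Y'`, `f : S ⟶ Y'`, `θ : wob Ψ w Y' ≅ Y` (say: `g` belongs to the additive subgroup generated by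
  these morphisms).  Induction on `N'`: by `hfg` `g = Σ_a f_a ≫ ν_a (Y_a) ≫ θ_a` with `Yc (n + N' d) Y_a`,
  and `f_a` is a sum of `f ≫ wtr w Y' ≫ θ`; then
  `f ≫ wtr w Y' ≫ θ ≫ ν_a (Y_a) ≫ θ_a = f ≫ wtr (a :: w) Y' ≫ (Ψ_a θ ≫ θ_a)` by naturality.
  Now let `g : S ⟶ Φ Z` with `Z` as in the statement, `Y = Φ Z`, `n + N d = n1 + ...` and consider one
  term `f ≫ wtr w Y' ≫ θ`, `w` of length `N`.  If all letters of `w` are of the form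
  `Sum.inr b`, some `b` occurs at least `r + 1` times (pigeonhole, `N > c' r`), and
  `f ≫ wtr w Y' = wtr w S ≫ _ = 0` (`wtr_nat`, `wtr_zero`).  Otherwise `w` is a permutation of
  `Sum.inl a :: w'`; by `wtr_perm` there is an isomorphism `e` with
  `wtr w Y' ≫ e = wtr w' Y' ≫ ν_a (wob w' Y')`, so the term is
  `(f ≫ wtr w' Y') ≫ ν_a (V) ≫ (e⁻¹ ≫ θ)`, `V = wob w' Y'`, where `e⁻¹ ≫ θ : Φ V ≅ Φ Z` is
  `Φ.mapIso u` with `u : V ≅ Z` (`Φ` full and faithful), and the term is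
  `(f ≫ wtr w' Y' ≫ u) ≫ ν_a Z`.  Collect the terms for each `a`.
-/

universe v w

namespace H60.KZ

open CategoryTheory CategoryTheory.Limits

variable {𝒟 : Type w} [Category.{v} 𝒟] [Preadditive 𝒟] {A : Type}

/-- Iterated application of the functors `Ψ a`. -/
def wob (Ψ : A → (𝒟 ⥤ 𝒟)) : List A → 𝒟 → 𝒟
  | [], X => X
  | a :: w, X => (Ψ a).obj (wob Ψ w X)

/-- Iterated application of the functors `Ψ a` to a morphism. -/
def wmap (Ψ : A → (𝒟 ⥤ 𝒟)) : (w : List A) → {X Y : 𝒟} → (X ⟶ Y) → (wob Ψ w X ⟶ wob Ψ w Y)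
  | [], _, _, f => f
  | a :: w, _, _, f => (Ψ a).map (wmap Ψ w f)

/-- Iterated natural transformations. -/
def wtr {Ψ : A → (𝒟 ⥤ 𝒟)} (ν : ∀ a, 𝟭 𝒟 ⟶ Ψ a) : (w : List A) → (X : 𝒟) → (X ⟶ wob Ψ w X)
  | [], X => 𝟙 X
  | a :: w, X => wtr ν w X ≫ tr (ν a) (wob Ψ w X)

omit [Preadditive 𝒟] in
theorem wtr_nat {Ψ : A → (𝒟 ⥤ 𝒟)} (ν : ∀ a, 𝟭 𝒟 ⟶ Ψ a) (w : List A) {X Y : 𝒟} (f : X ⟶ Y) :
    f ≫ wtr ν w Y = wtr ν w X ≫ wmap Ψ w f := by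
  induction w with
  | nil =>
    show f ≫ 𝟙 Y = 𝟙 X ≫ f
    rw [Category.comp_id, Category.id_comp]
  | cons a w ih =>
    show f ≫ wtr ν w Y ≫ tr (ν a) (wob Ψ w Y)
      = (wtr ν w X ≫ tr (ν a) (wob Ψ w X)) ≫ (Ψ a).map (wmap Ψ w f)
    rw [← Category.assoc, ih, Category.assoc, Category.assoc, tr_nat]

omit [Preadditive 𝒟] in
theorem wtr_perm {Ψ : A → (𝒟 ⥤ 𝒟)} (ν : ∀ a, 𝟭 𝒟 ⟶ Ψ a)
    (hc : ∀ a b X, ∃ e : (Ψ b).obj ((Ψ a).obj X) ≅ (Ψ a).obj ((Ψ b).obj X),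
      tr (ν a) X ≫ tr (ν b) ((Ψ a).obj X) ≫ e.hom = tr (ν b) X ≫ tr (ν a) ((Ψ b).obj X))
    {w w' : List A} (h : w.Perm w') (X : 𝒟) :
    ∃ e : wob Ψ w X ≅ wob Ψ w' X, wtr ν w X ≫ e.hom = wtr ν w' X := by
  induction h with
  | nil => exact ⟨Iso.refl _, Category.comp_id _⟩
  | cons a _ ih =>
    rename_i l₁ l₂ _
    obtain ⟨e, he⟩ := ih
    refine ⟨(Ψ a).mapIso e, ?_⟩
    show (wtr ν l₁ X ≫ tr (ν a) (wob Ψ l₁ X)) ≫ (Ψ a).map e.hom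
      = wtr ν l₂ X ≫ tr (ν a) (wob Ψ l₂ X)
    rw [Category.assoc, ← tr_nat, ← Category.assoc, he]
  | swap x y l =>
    obtain ⟨e, he⟩ := hc x y (wob Ψ l X)
    refine ⟨e, ?_⟩
    show ((wtr ν l X ≫ tr (ν x) (wob Ψ l X)) ≫ tr (ν y) ((Ψ x).obj (wob Ψ l X))) ≫ e.hom
      = (wtr ν l X ≫ tr (ν y) (wob Ψ l X)) ≫ tr (ν x) ((Ψ y).obj (wob Ψ l X))
    rw [Category.assoc, Category.assoc, he, Category.assoc]
  | trans _ _ ih1 ih2 =>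
    obtain ⟨e, he⟩ := ih1
    obtain ⟨e', he'⟩ := ih2
    refine ⟨e ≪≫ e', ?_⟩
    rw [Iso.trans_hom, ← Category.assoc, he, he']

theorem Ex1_append_zero {Ψ : A → (𝒟 ⥤ 𝒟)} (ν : ∀ a, 𝟭 𝒟 ⟶ Ψ a) (w w' : List A) (X : 𝒟)
    (h : wtr ν w' X = 0) : wtr ν (w ++ w') X = 0 := by
  induction w with
  | nil => exact h
  | cons a w ih =>
    show wtr ν (w ++ w') X ≫ tr (ν a) (wob Ψ (w ++ w') X) = 0
    rw [ih, zero_comp]

theorem wtr_zero [DecidableEq A] {Ψ : A → (𝒟 ⥤ 𝒟)} (ν : ∀ a, 𝟭 𝒟 ⟶ Ψ a)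
    (hadd : ∀ a, (Ψ a).Additive)
    (hc : ∀ a b X, ∃ e : (Ψ b).obj ((Ψ a).obj X) ≅ (Ψ a).obj ((Ψ b).obj X),
      tr (ν a) X ≫ tr (ν b) ((Ψ a).obj X) ≫ e.hom = tr (ν b) X ≫ tr (ν a) ((Ψ b).obj X))
    (S : 𝒟) (b : A) (r : ℕ) (h0 : ∀ f : S ⟶ wob Ψ (List.replicate (r + 1) b) S, f = 0)
    (w : List A) (hw : r + 1 ≤ w.count b) : wtr ν w S = 0 := by
  have h1 : List.Sublist (List.replicate (r + 1) b) w := List.replicate_sublist_iff.2 hw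
  obtain ⟨w'', hw''⟩ := h1.exists_perm_append
  have h2 : w.Perm (w'' ++ List.replicate (r + 1) b) := hw''.trans List.perm_append_comm
  obtain ⟨e, he⟩ := wtr_perm ν hc h2 S
  rw [Ex1_append_zero ν w'' _ S (h0 _)] at he
  rw [← cancel_mono e.hom, he, zero_comp]

/-- the generators of the additive subgroup of the claim -/
def Ex1_gens {Ψ : A → (𝒟 ⥤ 𝒟)} (ν : ∀ a, 𝟭 𝒟 ⟶ Ψ a) (S : 𝒟) (Yc : ℕ → 𝒟 → Prop) (N n : ℕ)
    (Y : 𝒟) : Set (S ⟶ Y) :=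
  {h | ∃ w : List A, w.length = N ∧ ∃ Y', Yc n Y' ∧ ∃ (f : S ⟶ Y') (θ : wob Ψ w Y' ≅ Y),
    h = f ≫ wtr ν w Y' ≫ θ.hom}

theorem Ex1_step {Ψ : A → (𝒟 ⥤ 𝒟)} (ν : ∀ a, 𝟭 𝒟 ⟶ Ψ a) (S : 𝒟) (Yc : ℕ → 𝒟 → Prop) (N n : ℕ)
    {Y X : 𝒟} (x : A) (θ' : (Ψ x).obj X ≅ Y) (g : S ⟶ X)
    (hg : g ∈ AddSubgroup.closure (Ex1_gens ν S Yc N n X)) :
    g ≫ tr (ν x) X ≫ θ'.hom ∈ AddSubgroup.closure (Ex1_gens ν S Yc (N + 1) n Y) := by
  induction hg using AddSubgroup.closure_induction with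
  | mem h hh =>
    obtain ⟨w, hw, Y', hY', f, θ, rfl⟩ := hh
    apply AddSubgroup.subset_closure
    refine ⟨x :: w, by simp [hw], Y', hY', f, (Ψ x).mapIso θ ≪≫ θ', ?_⟩
    show (f ≫ wtr ν w Y' ≫ θ.hom) ≫ tr (ν x) X ≫ θ'.hom
      = f ≫ (wtr ν w Y' ≫ tr (ν x) (wob Ψ w Y')) ≫ (Ψ x).map θ.hom ≫ θ'.hom
    have e : θ.hom ≫ tr (ν x) X = tr (ν x) (wob Ψ w Y') ≫ (Ψ x).map θ.hom := tr_nat (ν x) θ.hom
    simp only [Category.assoc]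
    rw [← Category.assoc θ.hom, e, Category.assoc]
  | zero => rw [zero_comp]; exact zero_mem _
  | add a b _ _ ha hb => rw [Preadditive.add_comp]; exact add_mem ha hb
  | neg a _ ha => rw [Preadditive.neg_comp]; exact neg_mem ha

theorem Ex1_rep {c c' : ℕ} (Φ : 𝒟 ⥤ 𝒟) (Ψ' : Fin c' → (𝒟 ⥤ 𝒟)) (b : Fin c') (S : 𝒟) (n : ℕ) :
    wob (Sum.elim (fun _ : Fin c => Φ) Ψ') (List.replicate n (Sum.inr b)) S
      = wob Ψ' (List.replicate n b) S := by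
  induction n with
  | zero => rfl
  | succ n ih =>
    show (Ψ' b).obj (wob (Sum.elim (fun _ : Fin c => Φ) Ψ') (List.replicate n (Sum.inr b)) S)
      = (Ψ' b).obj (wob Ψ' (List.replicate n b) S)
    rw [ih]

theorem Ex1_pigeon {c c' r : ℕ} (w : List (Fin c ⊕ Fin c')) (hw : w.length = c' * r + 1)
    (h : ∀ a : Fin c, Sum.inl a ∉ w) :
    ∃ b : Fin c', r + 1 ≤ Multiset.count (Sum.inr b) (w : Multiset (Fin c ⊕ Fin c')) := by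
  by_contra hcon
  push Not at hcon
  have h1 : ∑ x ∈ (Finset.univ : Finset (Fin c')).map ⟨Sum.inr, Sum.inr_injective⟩,
      Multiset.count x (w : Multiset (Fin c ⊕ Fin c')) = Multiset.card (w : Multiset (Fin c ⊕ Fin c')) := by
    apply Multiset.sum_count_eq_card
    intro x hx
    rcases x with a | b
    · exact absurd hx (h a)
    · exact Finset.mem_map.2 ⟨b, Finset.mem_univ _, rfl⟩
  rw [Finset.sum_map, Multiset.coe_card, hw] at h1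
  have h2 : ∑ b : Fin c', Multiset.count ((⟨Sum.inr, Sum.inr_injective⟩ : Fin c' ↪ Fin c ⊕ Fin c') b)
      (w : Multiset (Fin c ⊕ Fin c')) ≤ ∑ _b : Fin c', r := by
    refine Finset.sum_le_sum fun b _ => ?_
    have := hcon b
    simp only [Function.Embedding.coeFn_mk]
    omega
  rw [h1] at h2
  simp at h2

theorem reduce {c c' : ℕ} (Φ : 𝒟 ⥤ 𝒟) [Φ.Full] [Φ.Faithful] (Ψ' : Fin c' → (𝒟 ⥤ 𝒟))
    (hΦ : Φ.Additive) (hadd : ∀ b, (Ψ' b).Additive)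
    (z : Fin c → (𝟭 𝒟 ⟶ Φ)) (y : ∀ b, 𝟭 𝒟 ⟶ Ψ' b)
    (hzz : ∀ a a' X, ∃ e : Φ.obj (Φ.obj X) ≅ Φ.obj (Φ.obj X),
      tr (z a) X ≫ tr (z a') (Φ.obj X) ≫ e.hom = tr (z a') X ≫ tr (z a) (Φ.obj X))
    (hzy : ∀ a b X, ∃ e : (Ψ' b).obj (Φ.obj X) ≅ Φ.obj ((Ψ' b).obj X),
      tr (z a) X ≫ tr (y b) (Φ.obj X) ≫ e.hom = tr (y b) X ≫ tr (z a) ((Ψ' b).obj X))
    (hyy : ∀ b b' X, ∃ e : (Ψ' b').obj ((Ψ' b).obj X) ≅ (Ψ' b).obj ((Ψ' b').obj X),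
      tr (y b) X ≫ tr (y b') ((Ψ' b).obj X) ≫ e.hom = tr (y b') X ≫ tr (y b) ((Ψ' b').obj X))
    (S : 𝒟) (r : ℕ)
    (h0 : ∀ b, ∀ f : S ⟶ wob Ψ' (List.replicate (r + 1) b) S, f = 0)
    (Yc : ℕ → 𝒟 → Prop) (d n0 : ℕ)
    (hfg : ∀ n, n0 ≤ n → ∀ Y, Yc (n + d) Y → ∀ g : S ⟶ Y,
      ∃ (Y₁ : Fin c → 𝒟) (θ₁ : ∀ a, Φ.obj (Y₁ a) ≅ Y) (f₁ : ∀ a, S ⟶ Y₁ a)
        (Y₂ : Fin c' → 𝒟) (θ₂ : ∀ b, (Ψ' b).obj (Y₂ b) ≅ Y) (f₂ : ∀ b, S ⟶ Y₂ b),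
        (∀ a, Yc n (Y₁ a)) ∧ (∀ b, Yc n (Y₂ b)) ∧
        g = ∑ a, f₁ a ≫ tr (z a) (Y₁ a) ≫ (θ₁ a).hom + ∑ b, f₂ b ≫ tr (y b) (Y₂ b) ≫ (θ₂ b).hom) :
    ∃ n1, ∀ n, n1 ≤ n → ∀ Z, Yc (n + d) (Φ.obj Z) → ∀ g : S ⟶ Φ.obj Z,
      ∃ f : Fin c → (S ⟶ Z), g = ∑ a, f a ≫ tr (z a) Z := by
  let Ψ : (Fin c ⊕ Fin c') → (𝒟 ⥤ 𝒟) := Sum.elim (fun _ => Φ) Ψ'
  let ν : ∀ a, 𝟭 𝒟 ⟶ Ψ a := fun x => match x with
    | Sum.inl a => z a
    | Sum.inr b => y b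
  have hc : ∀ a b X, ∃ e : (Ψ b).obj ((Ψ a).obj X) ≅ (Ψ a).obj ((Ψ b).obj X),
      tr (ν a) X ≫ tr (ν b) ((Ψ a).obj X) ≫ e.hom = tr (ν b) X ≫ tr (ν a) ((Ψ b).obj X) := by
    rintro (a | b) (a' | b') X
    · exact hzz a a' X
    · exact hzy a b' X
    · obtain ⟨e, he⟩ := hzy a' b X
      refine ⟨e.symm, ?_⟩
      show tr (y b) X ≫ tr (z a') ((Ψ' b).obj X) ≫ e.inv = tr (z a') X ≫ tr (y b) (Φ.obj X)
      rw [← Category.assoc, Iso.comp_inv_eq, Category.assoc, he]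
    · exact hyy b b' X
  have hadd' : ∀ a, (Ψ a).Additive := by
    rintro (a | b)
    · exact hΦ
    · exact hadd b
  have claim : ∀ N n, n0 ≤ n → ∀ Y, Yc (n + N * d) Y → ∀ g : S ⟶ Y,
      g ∈ AddSubgroup.closure (Ex1_gens ν S Yc N n Y) := by
    intro N
    induction N with
    | zero =>
      intro n _ Y hY g
      apply AddSubgroup.subset_closure
      refine ⟨[], rfl, Y, by simpa using hY, g, Iso.refl _, ?_⟩
      show g = g ≫ 𝟙 Y ≫ 𝟙 Y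
      rw [Category.comp_id, Category.comp_id]
    | succ N ih =>
      intro n hn Y hY g
      have hY' : Yc (n + N * d + d) Y := by
        have e : n + (N + 1) * d = n + N * d + d := by ring
        rwa [e] at hY
      obtain ⟨Y₁, θ₁, f₁, Y₂, θ₂, f₂, h1, h2, rfl⟩ := hfg (n + N * d) (by omega) Y hY' g
      refine add_mem (sum_mem fun a _ => ?_) (sum_mem fun b _ => ?_)
      · exact Ex1_step ν S Yc N n (Sum.inl a) (θ₁ a) (f₁ a) (ih n hn _ (h1 a) _)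
      · exact Ex1_step ν S Yc N n (Sum.inr b) (θ₂ b) (f₂ b) (ih n hn _ (h2 b) _)
  refine ⟨n0 + (c' * r + 1) * d, ?_⟩
  intro n hn Z hZ g
  obtain ⟨m, hm⟩ : ∃ m, n = m + (c' * r + 1) * d := ⟨n - (c' * r + 1) * d, by omega⟩
  have hg : g ∈ AddSubgroup.closure (Ex1_gens ν S Yc (c' * r + 1) (m + d) (Φ.obj Z)) := by
    refine claim (c' * r + 1) (m + d) (by omega) _ ?_ g
    have e : m + d + (c' * r + 1) * d = n + d := by omega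
    rw [e]
    exact hZ
  let H : AddSubgroup (S ⟶ Φ.obj Z) :=
    { carrier := {g | ∃ f : Fin c → (S ⟶ Z), g = ∑ a, f a ≫ tr (z a) Z}
      zero_mem' := ⟨fun _ => 0, by simp⟩
      add_mem' := by
        rintro _ _ ⟨f, rfl⟩ ⟨f', rfl⟩
        refine ⟨fun a => f a + f' a, ?_⟩
        rw [← Finset.sum_add_distrib]
        exact Finset.sum_congr rfl fun a _ => (Preadditive.add_comp _ _ _ _ _ _).symm
      neg_mem' := by
        rintro _ ⟨f, rfl⟩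
        refine ⟨fun a => - f a, ?_⟩
        rw [← Finset.sum_neg_distrib]
        exact Finset.sum_congr rfl fun a _ => (Preadditive.neg_comp _ _).symm }
  have hle : AddSubgroup.closure (Ex1_gens ν S Yc (c' * r + 1) (m + d) (Φ.obj Z)) ≤ H := by
    rw [AddSubgroup.closure_le]
    rintro _ ⟨w, hw, Y', -, f, θ, rfl⟩
    by_cases hex : ∃ a : Fin c, Sum.inl a ∈ w
    · obtain ⟨a, ha⟩ := hex
      obtain ⟨l₁, l₂, rfl⟩ := List.append_of_mem ha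
      obtain ⟨e0, he⟩ := wtr_perm ν hc
        (List.perm_middle : (l₁ ++ Sum.inl a :: l₂).Perm (Sum.inl a :: (l₁ ++ l₂))) Y'
      let w' := l₁ ++ l₂
      let V := wob Ψ w' Y'
      let e : wob Ψ (l₁ ++ Sum.inl a :: l₂) Y' ≅ Φ.obj V := e0
      have he1 : wtr ν (l₁ ++ Sum.inl a :: l₂) Y' ≫ e.hom = wtr ν w' Y' ≫ tr (z a) V := he
      have he2 : wtr ν (l₁ ++ Sum.inl a :: l₂) Y' = wtr ν w' Y' ≫ tr (z a) V ≫ e.inv := by
        rw [← Category.assoc, ← he1, Category.assoc, e.hom_inv_id, Category.comp_id]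
      let q : Φ.obj V ⟶ Φ.obj Z := e.inv ≫ θ.hom
      let u : V ⟶ Z := Φ.preimage q
      have hu : Φ.map u = q := Φ.map_preimage q
      refine ⟨Pi.single a (f ≫ wtr ν w' Y' ≫ u), ?_⟩
      rw [Finset.sum_eq_single a]
      · rw [Pi.single_eq_same, he2]
        have e3 : tr (z a) V ≫ e.inv ≫ θ.hom = u ≫ tr (z a) Z := by
          rw [tr_nat (z a) u, hu]
        simp only [Category.assoc]
        rw [← e3]
      · intro b _ hb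
        rw [Pi.single_eq_of_ne hb, zero_comp]
      · intro h; exact absurd (Finset.mem_univ a) h
    · push Not at hex
      obtain ⟨b, hb⟩ := Ex1_pigeon w hw hex
      have h0' : ∀ f : S ⟶ wob Ψ (List.replicate (r + 1) (Sum.inr b)) S, f = 0 := by
        have key : ∀ (Y : 𝒟), Y = wob Ψ' (List.replicate (r + 1) b) S → ∀ f : S ⟶ Y, f = 0 := by
          rintro _ rfl f
          exact h0 b f
        exact key _ (Ex1_rep Φ Ψ' b S (r + 1))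
      have hz := wtr_zero ν hadd' hc S (Sum.inr b) r h0' w (by rwa [Multiset.coe_count] at hb)
      have e4 : f ≫ wtr ν w Y' ≫ θ.hom = 0 := by
        rw [← Category.assoc, wtr_nat ν w f, hz, zero_comp, zero_comp]
      rw [e4]
      exact H.zero_mem
  exact hle hg

end H60.KZ
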