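import Pool.Agent.H60.KZ.Ex0
import Pool.Agent.H60.KZ.Ex1
import Pool.Agent.H60.KZ.Dr8

/-!
# Row Ex2: finite generation over all central elements and finite regularity imply finite
generation over the diagonal ones

* `PhiG_sg`: as `PhiF_sg`.
* `hfg_of_finReg`: apply `reduce` with `Φ = PhiF d`, `Ψ' b = PhiG (e b) d`, `S = sg (Sj ℬ 0)`,
  `Yc n Y := ∃ j : ℤ, Nonempty (Y ≅ (sg (Sj ℬ j))⟦n⟧)`.
  `hzz`: `tr_comm` (from `hz`) with `e = Iso.refl`.  `hzy`, `hyy`: the hypotheses (unfold `tr`).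
  `h0`: let `r0` be the number of `FinReg`, `r0 ≤ r`, `0 ≤ r` natural.  By iterating `PhiG_sg` and
  `shf_Sj`: `wob Ψ' (replicate (r+1) b) S ≅ (sg (Sj ℬ ((r+1) e_b)))⟦(r+1) d⟧`, and
  `(r+1) e_b > (r+1) d + r0` if `e_b > d` (`FinReg`), while for `e_b < d` we have
  `(r+1) e_b < 0 + (r+1) d`, and `vv_low` (with `M = Sj ℬ 0`, `a = b = 0`) applies.
  `hfg`: from `HFgen` (transport along `Y ≅ (sg (Sj ℬ j))⟦n+d⟧`).
  Conclusion for `Z = (sg (Sj ℬ j))⟦n⟧`: `Φ Z ≅ (sg (Sj ℬ (j+d)))⟦n+d⟧` (`PhiF_sg`, `shf_Sj`), so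
  `Yc (n+d) (Φ Z)`, and the result is `HFg d z`.
-/

universe w u

namespace H60.KZ

open CategoryTheory CategoryTheory.Limits CategoryTheory.Pretriangulated

variable {k : Type u} [Field k] {B : Type u} [Ring B] [Algebra k B]
  {ℬ : ℤ → Submodule k B} [GradedAlgebra ℬ] [HasDerivedCategory.{w} (GrMod ℬ)]

theorem PhiG_sg (e d : ℤ) (M : GrMod ℬ) (i : ℤ) :
    Nonempty ((PhiG e d).obj ((sg.obj M)⟦i⟧) ≅ (sg.obj ((shf e).obj M))⟦i + d⟧) := by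
  have e1 : (shf e).mapDerivedCategory.obj ((sg.obj M)⟦i⟧)
      ≅ ((shf e).mapDerivedCategory.obj (sg.obj M))⟦i⟧ :=
    ((shf e).mapDerivedCategory.commShiftIso i).app (sg.obj M)
  have e2 : (shf e).mapDerivedCategory.obj (sg.obj M) ≅ sg.obj ((shf e).obj M) :=
    ((shf e).mapDerivedCategorySingleFunctor 0).app M
  exact ⟨(shiftFunctor (DerivedCategory (GrMod ℬ)) d).mapIso
    (e1 ≪≫ (shiftFunctor (DerivedCategory (GrMod ℬ)) i).mapIso e2) ≪≫ Dr4_sh i d (i + d) rfl⟩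

theorem Ex2_additive (e d : ℤ) : (PhiG (ℬ := ℬ) e d).Additive := by
  unfold PhiG
  infer_instance

theorem Ex2_Sj [PosGr ℬ] (e d j i : ℤ) :
    Nonempty ((PhiG e d).obj ((sg.obj (Sj ℬ j))⟦i⟧) ≅ (sg.obj (Sj ℬ (j + e)))⟦i + d⟧) := by
  obtain ⟨e1⟩ := PhiG_sg (ℬ := ℬ) e d (Sj ℬ j) i
  obtain ⟨e2⟩ := shf_Sj (ℬ := ℬ) e j
  exact ⟨e1 ≪≫ (shiftFunctor (DerivedCategory (GrMod ℬ)) (i + d)).mapIso (sg.mapIso e2)⟩

theorem Ex2_wob [PosGr ℬ] {c' : ℕ} (e : Fin c' → ℤ) (d : ℤ) (b : Fin c') (m : ℕ) :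
    Nonempty (wob (fun b => PhiG (ℬ := ℬ) (e b) d) (List.replicate m b) (sg.obj (Sj ℬ 0)) ≅
      (sg.obj (Sj ℬ ((m : ℤ) * e b)))⟦(m : ℤ) * d⟧) := by
  induction m with
  | zero =>
    have h1 : ((0 : ℕ) : ℤ) * e b = 0 := by simp
    have h2 : ((0 : ℕ) : ℤ) * d = 0 := by simp
    rw [h1, h2]
    exact ⟨((shiftFunctorZero (DerivedCategory (GrMod ℬ)) ℤ).app (sg.obj (Sj ℬ 0))).symm⟩
  | succ m ih =>
    obtain ⟨E⟩ := ih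
    obtain ⟨E'⟩ := Ex2_Sj (ℬ := ℬ) (e b) d ((m : ℤ) * e b) ((m : ℤ) * d)
    have h1 : ((m + 1 : ℕ) : ℤ) * e b = (m : ℤ) * e b + e b := by push_cast; ring
    have h2 : ((m + 1 : ℕ) : ℤ) * d = (m : ℤ) * d + d := by push_cast; ring
    rw [h1, h2]
    exact ⟨(PhiG (e b) d).mapIso E ≪≫ E'⟩

theorem Ex2_zero {X : DerivedCategory (GrMod ℬ)} {Y Y' : GrMod ℬ} {n : ℤ} (h : VV Y Y' n)
    (E : X ≅ (sg.obj Y')⟦n⟧) (f : sg.obj Y ⟶ X) : f = 0 := by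
  rw [← cancel_mono E.hom, h (f ≫ E.hom), zero_comp]

theorem hfg_of_finReg [PosGr ℬ] [Module.Finite k B] [IsSemisimpleRing (ℬ 0)] {s : ℕ}
    {lam : B →ₗ[k] k} (h : GrFrob ℬ s lam) (hreg : FinReg ℬ) (d : ℕ) (hd : 1 ≤ d)
    {c c' : ℕ} (e : Fin c' → ℤ) (he : ∀ b, e b ≠ d)
    (z : Fin c → (𝟭 (DerivedCategory (GrMod ℬ)) ⟶ PhiF d))
    (y : ∀ b : Fin c', 𝟭 (DerivedCategory (GrMod ℬ)) ⟶ PhiG (e b) d)
    (hz : ZPhi (PhiF (d : ℤ)) z) (hzy : ∀ a b, Commute' (z a) (y b))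
    (hyy : ∀ b b', Commute' (y b) (y b')) (hfg : HFgen d e z y) : HFg (d : ℤ) z := by
  obtain ⟨r0, hr0⟩ := hreg
  obtain ⟨n0, hn0⟩ := hfg
  obtain ⟨r, hr⟩ : ∃ r : ℕ, r0 ≤ r := ⟨r0.toNat, Int.self_le_toNat _⟩
  have h0 : ∀ b, ∀ f : sg.obj (Sj ℬ 0) ⟶
      wob (fun b => PhiG (ℬ := ℬ) (e b) (d : ℤ)) (List.replicate (r + 1) b) (sg.obj (Sj ℬ 0)),
      f = 0 := by
    intro b f
    obtain ⟨E⟩ := Ex2_wob (ℬ := ℬ) e (d : ℤ) b (r + 1)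
    have hpos : (0 : ℤ) < ((r + 1 : ℕ) : ℤ) := by positivity
    have hv : VV (Sj ℬ 0) (Sj ℬ (((r + 1 : ℕ) : ℤ) * e b)) (((r + 1 : ℕ) : ℤ) * (d : ℤ)) := by
      rcases lt_or_gt_of_ne (he b) with hb | hb
      · refine vv_low (frob_top h) (Sj ℬ 0) (Fd_Sj 0) 0 0 (Sj_supp 0) _ _ ?_
        rw [zero_add]
        exact mul_lt_mul_of_pos_left hb hpos
      · refine hr0 _ _ ?_
        have h1 : (d : ℤ) + 1 ≤ e b := hb
        have h2 : ((r + 1 : ℕ) : ℤ) * ((d : ℤ) + 1) ≤ ((r + 1 : ℕ) : ℤ) * e b :=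
          mul_le_mul_of_nonneg_left h1 hpos.le
        have h3 : ((r + 1 : ℕ) : ℤ) * ((d : ℤ) + 1) =
          ((r + 1 : ℕ) : ℤ) * (d : ℤ) + ((r : ℤ) + 1) := by push_cast; ring
        linarith
    exact Ex2_zero hv E f
  have hΦ := PhiF_equiv (ℬ := ℬ) (d : ℤ)
  obtain ⟨n1, hn1⟩ := reduce (PhiF (ℬ := ℬ) (d : ℤ)) (fun b => PhiG (ℬ := ℬ) (e b) (d : ℤ))
    inferInstance (fun b => Ex2_additive (e b) d) z y
    (fun a a' X => ⟨Iso.refl _, by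
      have h1 := tr_comm hz a a' (𝟙 X)
      rw [Category.id_comp, Category.id_comp] at h1
      rw [Iso.refl_hom, Category.comp_id]
      exact h1.symm⟩)
    (fun a b X => hzy a b X) (fun b b' X => hyy b b' X) (sg.obj (Sj ℬ 0)) r h0
    (fun n Y => ∃ j : ℤ, Nonempty (Y ≅ (sg.obj (Sj ℬ j))⟦(n : ℤ)⟧)) d n0
    (by
      rintro n hn Y ⟨j, ⟨E⟩⟩ g
      obtain ⟨f₁, θ₁, f₂, θ₂, hg⟩ := hn0 n hn j (g ≫ E.hom)
      refine ⟨fun _ => (sg.obj (Sj ℬ (j - d)))⟦(n : ℤ)⟧, fun a => θ₁ a ≪≫ E.symm, f₁,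
        fun b => (sg.obj (Sj ℬ (j - e b)))⟦(n : ℤ)⟧, fun b => θ₂ b ≪≫ E.symm, f₂,
        fun a => ⟨_, ⟨Iso.refl _⟩⟩, fun b => ⟨_, ⟨Iso.refl _⟩⟩, ?_⟩
      rw [← cancel_mono E.hom, hg, Preadditive.add_comp, Preadditive.sum_comp,
        Preadditive.sum_comp]
      congr 1
      · refine Finset.sum_congr rfl fun a _ => ?_
        rw [Iso.trans_hom, Iso.symm_hom, Category.assoc, Category.assoc, Category.assoc,
          Iso.inv_hom_id, Category.comp_id]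
        rfl
      · refine Finset.sum_congr rfl fun b _ => ?_
        rw [Iso.trans_hom, Iso.symm_hom, Category.assoc, Category.assoc, Category.assoc,
          Iso.inv_hom_id, Category.comp_id]
        rfl)
  refine ⟨n1, fun n hn j g => ?_⟩
  obtain ⟨f, hf⟩ := hn1 n hn ((sg.obj (Sj ℬ j))⟦(n : ℤ)⟧) (by
    obtain ⟨e1⟩ := PhiF_sg (ℬ := ℬ) (d : ℤ) (Sj ℬ j) (n : ℤ)
    obtain ⟨e2⟩ := shf_Sj (ℬ := ℬ) (d : ℤ) j
    refine ⟨j + d, ?_⟩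
    rw [Nat.cast_add]
    exact ⟨e1 ≪≫ (shiftFunctor (DerivedCategory (GrMod ℬ)) ((n : ℤ) + d)).mapIso
      (sg.mapIso e2)⟩) g
  exact ⟨f, hf⟩

end H60.KZ
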