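import Pool.Agent.H60.KZ.Fx2
import Pool.Agent.H60.KZ.Dr2

/-!
# Row Fx3: `Ext` groups and the functor `F`

`vv_of_F`: claim(n), by induction on `n : ℕ`, for all finite dimensional `K` and all `j`:
if `VV (F K) (Sj 𝒜 j) n` then `VV K (Sj ℬ j) n`.
* `n = 0`: `vv_hom_zero`, `F_hom_zero`, `vv_zero`.
* general `n ≥ 1`: let `p : Pc ⟶ K` be as in `exists_pcover_rad`, `K' = (kerG p).sub` with inclusion
  `i : K' ⟶ Pc` (`kerG_shortExact`), `K'` is `Fd`.  The values of `i` are in `radN Pc 1`.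
  `0 ⟶ F K' ⟶ F Pc ⟶ F K ⟶ 0` is short exact (`ShortComplex.ShortExact.map_of_exact` or
  `shortExact` preserved by exact functors), `F Pc` is projective (`F` preserves `InAdd`:
  a retract of a finite sum of the `F (Pj ℬ l)`; `inAdd_proj`), `Pc` is projective.
* `n = 1`: by `vv_dim` it suffices that `VV K' (Sj ℬ j) 0`, by claim(0) it suffices that every
  `φ : F K' ⟶ Sj 𝒜 j` is zero.  From `VV (F K) (Sj 𝒜 j) 1`, `φ` extends to `F Pc`: there is
  `φ' : F Pc ⟶ Sj 𝒜 j` with `φ = F i ≫ φ'` (`extend_of_vv`), and this is zero by `F_rad_zero`.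
* `n ≥ 2`: `VV (F K') (Sj 𝒜 j) (n-1)` by `vv_syz` (`vv_proj` for `F Pc`), so
  `VV K' (Sj ℬ j) (n-1)` by claim(n-1), so `VV K (Sj ℬ j) n` by `vv_dim`.

`extend_of_vv`: in an abelian category, `0 ⟶ X₁ ⟶ X₂ ⟶ X₃ ⟶ 0` short exact and `VV X₃ Y 1`: every
`φ : X₁ ⟶ Y` is `f ≫ φ'`: `δ ≫ (sg.map φ)⟦1⟧' : sg X₃ ⟶ (sg Y)⟦1⟧` is zero, so
`sg.map φ` factors through `sg.map f` (exactness of the rotated triangle, the shift functor is
faithful and full), and `sg` is full and faithful.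
-/

universe w w' u v₀ u₀

namespace H60.KZ

open CategoryTheory CategoryTheory.Limits CategoryTheory.Pretriangulated

theorem extend_of_vv {C : Type u₀} [Category.{v₀} C] [Abelian C] [HasDerivedCategory.{w} C]
    (S : ShortComplex C) (hS : S.ShortExact) (Y : C) (h : VV S.X₃ Y 1) (φ : S.X₁ ⟶ Y) :
    ∃ φ' : S.X₂ ⟶ Y, φ = S.f ≫ φ' := by
  have h0 := h (hS.singleδ ≫ (sg.map φ)⟦(1 : ℤ)⟧')
  have hT := rot_of_distTriang _ (rot_of_distTriang _ hS.singleTriangle_distinguished)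
  obtain ⟨g, hg⟩ : ∃ g : (sg.obj S.X₂)⟦(1 : ℤ)⟧ ⟶ (sg.obj Y)⟦(1 : ℤ)⟧,
      (sg.map φ)⟦(1 : ℤ)⟧' = (-(sg.map S.f)⟦(1 : ℤ)⟧') ≫ g :=
    Triangle.yoneda_exact₂ _ hT (X := (sg.obj Y)⟦(1 : ℤ)⟧)
      ((sg.map φ)⟦(1 : ℤ)⟧') (by
        change hS.singleδ ≫ (sg.map φ)⟦(1 : ℤ)⟧' = 0
        exact h0)
  obtain ⟨g', hg'⟩ := (shiftFunctor (DerivedCategory C) (1 : ℤ)).map_surjective
    (X := sg.obj S.X₂) (Y := sg.obj Y) g
  obtain ⟨φ', hφ'⟩ := (sg (C := C)).map_surjective g'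
  refine ⟨-φ', ?_⟩
  apply (sg (C := C)).map_injective
  apply (shiftFunctor (DerivedCategory C) (1 : ℤ)).map_injective
  rw [hg, ← hg', ← hφ', Functor.map_comp, Functor.map_neg, Functor.map_comp, Functor.map_neg]
  simp

variable {k : Type u} [Field k] {B : Type u} [Ring B] [Algebra k B]
  {ℬ : ℤ → Submodule k B} [GradedAlgebra ℬ] [PosGr ℬ]
  {A : Type u} [Ring A] [Algebra k A]
  {𝒜 : ℤ → Submodule k A} [GradedAlgebra 𝒜] [PosGr 𝒜]
  [HasDerivedCategory.{w} (GrMod ℬ)] [HasDerivedCategory.{w'} (GrMod 𝒜)]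
  [Module.Finite k B] [IsSemisimpleRing (ℬ 0)] [Module.Finite k A] [IsSemisimpleRing (𝒜 0)]

theorem vv_of_F (F : GrMod ℬ ⥤ GrMod 𝒜) [F.Additive] [PreservesFiniteLimits F]
    [PreservesFiniteColimits F] (hF : FHyp F) (K : GrMod ℬ) (hK : Fd K) (j : ℤ) (n : ℕ)
    (h : VV (F.obj K) (Sj 𝒜 j) n) : VV K (Sj ℬ j) n := by
  induction n generalizing K with
  | zero =>
    have h1 : VV (F.obj K) (Sj 𝒜 j) 0 := by simpa using h
    have h2 : VV K (Sj ℬ j) 0 :=
      vv_zero _ _ (fun f => F_hom_zero F hF hK j (fun g => vv_hom_zero h1 g) f)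
    simpa using h2
  | succ n ih =>
    obtain ⟨Pc, p, hP, hFP, hp, hker⟩ := exists_pcover_rad K hK
    obtain ⟨w, hses⟩ := kerG_shortExact p
    have hproj : Projective Pc := inAdd_proj (fun l => Pj_proj l) hP
    have hFd : Fd (kerG p).sub := ((Fd_ses _ hses).1 hFP).1
    have hFses := hses.map_of_exact F
    have hFproj : Projective (F.obj Pc) := by
      obtain ⟨m, l, α, β, hid⟩ := hP
      refine inAdd_proj (F := fun l => F.obj (Pj ℬ l)) (fun l => hF.proj l)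
        ⟨m, l, fun a => F.map (α a), fun a => F.map (β a), ?_⟩
      rw [← F.map_id, hid, Functor.map_sum]
      simp
    have hn : (0 : ℤ) < ((n + 1 : ℕ) : ℤ) := by positivity
    have hsub : ((n + 1 : ℕ) : ℤ) - 1 = n := by push_cast; ring
    refine vv_dim _ hses (Sj ℬ j) _ hn ?_
    rw [hsub]
    apply ih _ hFd
    cases n with
    | zero =>
      have h1 : VV (F.obj K) (Sj 𝒜 j) 1 := by simpa using h
      have h2 : VV (F.obj (kerG p).sub) (Sj 𝒜 j) 0 := by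
        apply vv_zero
        intro φ
        obtain ⟨φ', hφ'⟩ := extend_of_vv _ hFses (Sj 𝒜 j) h1 φ
        rw [hφ']
        exact F_rad_zero F hF hP j φ' (kerG p).inc (by
          intro i x
          refine hker i _ ?_
          rw [← cm_comp, w, cm_zero])
      simpa using h2
    | succ n =>
      refine vv_syz _ hFses (Sj 𝒜 j) _ ?_ ?_
      · change VV (F.obj Pc) (Sj 𝒜 j) _
        exact vv_proj _ _ _ (by positivity)
      · have e : ((n + 1 : ℕ) : ℤ) + 1 = ((n + 1 + 1 : ℕ) : ℤ) := by push_cast; ring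
        rw [e]
        exact h

end H60.KZ
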