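import Pool.Agent.H60.KZ.Dr2
import Pool.Agent.H60.KZ.Dr4
import Pool.Agent.H60.KZ.GmL

/-!
# Row Fx4: Koszul algebras: vanishing of `Ext` off the diagonal, finite regularity

* `vv_of_linRes`: let `P`, `dd`, `ε` be a linear resolution of `M` (`HasLinRes`).  Let
  `K 0 = M`, `K (n+1) = kernel of P n ⟶ K n`.  Claim(n): for every module `K` with an exact sequence
  `… ⟶ P (m+1) ⟶ P m ⟶ K ⟶ 0` with `P (m+i)` projective generated in degree `m + i`:
  `VV K (Sj ℬ j) n` for `n ≥ 0`, `j ≠ m + n`.  `n = 0`: `K` is generated in degree `m`, so every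
  `K ⟶ Sj ℬ j` is zero (`genIn_epi`; a morphism from a module generated in degree `m` to a module
  which is zero in degree `m` is zero).  `n + 1`: `vv_dim` for `0 ⟶ K' ⟶ P m ⟶ K ⟶ 0`, where `K'` is the
  kernel, an image of `P (m+1)`: claim(n) for `K'`, `m + 1`.
* `vv_S_of_koszul`: let `M` be finite dimensional, `Supp M 0 0`.  Then `VV M (Sj ℬ j) n` for `0 ≤ n`,
  `j ≠ n`: induction on `dim (M 0)`: if `M` is zero it is clear.  Otherwise choose a nonzero submodule
  (`SubG`) `N` of minimal dimension of `M 0`; it is a simple object concentrated in degree `0`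
  (a nonzero subobject of `N` has the same dimension in degree `0`, so it is `N`: use
  `mono_iff_cm`, `isIso_iff_cm` and `simple_of_mono...`/the definition of `Simple`).  So `VV N` by
  `IsKoszul` and `vv_of_linRes`, `VV (M/N)` by induction, and `vv_ses_left`.  Apply to `Sj ℬ 0`.
* `vv_S_shift`: `VV (Sj ℬ q) (Sj ℬ j) n ↔ VV (Sj ℬ 0) (Sj ℬ (j - q)) n`:
  `(shf q).mapDerivedCategory` is an equivalence (`mapDer_equiv`, `shf_equiv`) which sends
  `sg (Sj ℬ 0)` to `sg (Sj ℬ q)` and `(sg (Sj ℬ (j-q)))⟦n⟧` to `(sg (Sj ℬ j))⟦n⟧` (`PhiG_sg`-like argument: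
  `mapDerivedCategorySingleFunctor`, `commShiftIso`, `shf_Sj`).
* `vv_reg`: `M` finite dimensional, `Supp M a b`, `𝒜` Koszul: `VV M (Sj 𝒜 j) n` for `j > b + n`.
  For `n < 0`: `vv_neg`.  Induction on `(b - a + 1).toNat` with the short exact sequence of
  `geG M (a+1)` and `vv_ses_left`; the layer concentrated in degree `q ≤ b` is in
  `InAdd (fun _ : Unit => Sj q)` (`sem_inAdd_supp`), and `VV (Sj q) (Sj j) n` since `j - q ≠ n`.
-/

universe w u

namespace H60.KZ

open CategoryTheory CategoryTheory.Limits CategoryTheory.Pretriangulated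

variable {k : Type u} [Field k] {B : Type u} [Ring B] [Algebra k B]
  {ℬ : ℤ → Submodule k B} [GradedAlgebra ℬ] [PosGr ℬ] [HasDerivedCategory.{w} (GrMod ℬ)]

omit [HasDerivedCategory.{w} (GrMod ℬ)] in
theorem fx4_gen_zero {M : GrMod ℬ} {m j : ℤ} (h : GenIn M m) (hj : j ≠ m) (f : M ⟶ Sj ℬ j) :
    f = 0 := by
  refine hom_ext_cm fun i y => ?_
  obtain ⟨n, b, x, rfl⟩ := h i y
  rw [map_sum, cm_zero]
  refine Finset.sum_eq_zero fun a _ => ?_
  rw [cm_act]
  have h0 : cm f m (x a) = 0 := Sj_supp (ℬ := ℬ) j m (by lia) _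
  rw [h0, map_zero]

theorem fx4_step (P : ℕ → GrMod ℬ) (dd : ∀ n, P (n + 1) ⟶ P n) (hP : ∀ n, Projective (P n))
    (hG : ∀ n : ℕ, GenIn (P n) n)
    (hd : ∀ n, ∃ w : dd (n + 1) ≫ dd n = 0, (ShortComplex.mk (dd (n + 1)) (dd n) w).Exact)
    (n : ℕ) : ∀ (N : ℤ), N = n → ∀ (m : ℕ) (K : GrMod ℬ) (f : P m ⟶ K), Epi f →
      ∀ (w : dd m ≫ f = 0), (ShortComplex.mk (dd m) f w).Exact →
      ∀ j : ℤ, j ≠ m + n → VV K (Sj ℬ j) N := by
  induction n with
  | zero =>
    intro N hN m K f hf w hex j hj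
    obtain rfl : N = 0 := by simpa using hN
    refine vv_zero _ _ (fun g => fx4_gen_zero (m := (m : ℤ)) (genIn_epi f (hG m)) ?_ g)
    simpa using hj
  | succ n ih =>
    intro N hN m K f hf w hex j hj
    have hN' : N - 1 = n := by push_cast at hN; linarith
    have hN0 : 0 < N := by push_cast at hN; linarith [Int.natCast_nonneg n]
    obtain ⟨w1, hses⟩ := kerG_shortExact f
    have hp : Projective (ShortComplex.mk (kerG f).inc f w1).X₂ := hP m
    obtain ⟨w2, hex2⟩ := hd m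
    have hker : ∀ i (x : cmp (P (m + 1)) i), cm (dd m) i x ∈ (kerG f).N i := by
      intro i x
      change cm f i (cm (dd m) i x) = 0
      rw [← cm_comp, w, cm_zero]
    let f' : P (m + 1) ⟶ (kerG f).sub := mkHom (M := P (m + 1)) (N := (kerG f).sub)
      (fun i => (cm (dd m) i).codRestrict ((kerG f).N i) (hker i))
      (fun i l b x => Subtype.ext (cm_act (dd m) b x))
    have hf' : ∀ i (x : cmp (P (m + 1)) i), cm (kerG f).inc i (cm f' i x)
        = cm (dd m) i x := fun i x => rfl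
    have hepi : Epi f' := by
      rw [epi_iff_cm]
      intro i y
      obtain ⟨x, hx⟩ := (exact_iff_cm _).1 hex i (y : (kerG f).N i).1 (y : (kerG f).N i).2
      exact ⟨x, Subtype.ext hx⟩
    have w3 : dd (m + 1) ≫ f' = 0 := by
      refine hom_ext_cm fun i x => ?_
      refine Subtype.ext ?_
      have h1 := hf' i (cm (dd (m + 1)) i x)
      rw [← cm_comp (dd (m + 1)) (dd m), w2] at h1
      exact h1
    have hex3 : (ShortComplex.mk (dd (m + 1)) f' w3).Exact := by
      rw [exact_iff_cm]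
      intro i x hx
      refine (exact_iff_cm _).1 hex2 i x ?_
      have h1 := hf' i x
      change cm f' i x = 0 at hx
      rw [hx, map_zero] at h1
      exact h1.symm
    exact vv_dim _ hses (Sj ℬ j) N hN0
      (ih (N - 1) hN' (m + 1) (kerG f).sub f' hepi w3 hex3 j (by push_cast at hj ⊢; lia))

theorem vv_of_linRes (M : GrMod ℬ) (h : HasLinRes M) (n : ℕ) (j : ℤ) (hj : j ≠ n) :
    VV M (Sj ℬ j) n := by
  obtain ⟨P, dd, ε, hP, hG, hε, ⟨w, hex⟩, hd⟩ := h
  exact fx4_step P dd hP hG hd n n rfl 0 M ε hε w hex j (by simpa using hj)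

omit [PosGr ℬ] [HasDerivedCategory.{w} (GrMod ℬ)] in
theorem fx4_min (M : GrMod ℬ) (hF : Fd M) (hs : Supp M 0 0) (h0 : ∃ x : cmp M 0, x ≠ 0) :
    ∃ N : SubG M, N.N 0 ≠ ⊥ ∧ Simple N.sub := by
  have hfin := hF.1 0
  have hex : ∃ d : ℕ, ∃ N : SubG M, N.N 0 ≠ ⊥ ∧ Module.finrank k (N.N 0) = d := by
    refine ⟨_, ⟨fun i => ⊤, fun _ _ _ _ _ => Submodule.mem_top⟩, ?_, rfl⟩
    intro h
    obtain ⟨x, hx⟩ := h0
    have : x ∈ (⊤ : Submodule k (cmp M 0)) := Submodule.mem_top
    change (⊤ : Submodule k (cmp M 0)) = ⊥ at h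
    rw [h] at this
    exact hx ((Submodule.mem_bot k).1 this)
  classical
  obtain ⟨N, hN0, hNd⟩ := Nat.find_spec hex
  refine ⟨N, hN0, ⟨?_⟩⟩
  intro Y f hf
  have hinc : Mono N.inc := N.shortExact.mono_f
  have hout : ∀ i, i ≠ 0 → ∀ x : cmp N.sub i, x = 0 := by
    intro i hi x
    exact Subtype.ext (hs i (by lia) (x : N.N i).1)
  constructor
  · intro h hz
    rw [isIso_iff_cm] at h
    apply hN0
    rw [Submodule.eq_bot_iff]
    intro x hx
    obtain ⟨y, hy⟩ := (h 0).2 (⟨x, hx⟩ : N.N 0)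
    rw [hz, cm_zero] at hy
    exact (congrArg (fun t : N.N 0 => t.1) hy).symm
  · intro h
    let R : SubG M := gmb_ran (f ≫ N.inc)
    have hRN : R.N 0 ≤ N.N 0 := by
      rintro _ ⟨y, rfl⟩
      exact (cm f 0 y : N.N 0).2
    have hR0 : R.N 0 ≠ ⊥ := by
      intro hR
      apply h
      refine hom_ext_cm fun i y => ?_
      by_cases hi : i = 0
      · subst hi
        refine Subtype.ext ?_
        have h1 : cm (f ≫ N.inc) 0 y ∈ R.N 0 := ⟨y, rfl⟩
        rw [hR] at h1
        exact (Submodule.mem_bot k).1 h1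
      · rw [hout i hi (cm f i y), hout i hi (cm 0 i y)]
    have hle : Module.finrank k (N.N 0) ≤ Module.finrank k (R.N 0) := by
      rw [hNd]
      exact Nat.find_min' hex ⟨R, hR0, rfl⟩
    have heq : R.N 0 = N.N 0 := Submodule.eq_of_le_of_finrank_le hRN hle
    rw [isIso_iff_cm]
    intro i
    refine ⟨(mono_iff_cm f).1 hf i, ?_⟩
    intro x
    by_cases hi : i = 0
    · subst hi
      have hx : (x : N.N 0).1 ∈ R.N 0 := by rw [heq]; exact (x : N.N 0).2
      obtain ⟨y, hy⟩ := hx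
      exact ⟨y, Subtype.ext hy⟩
    · exact ⟨0, by rw [map_zero]; exact (hout i hi x).symm⟩

theorem fx4_kos [Module.Finite k B] (hK : IsKoszul ℬ) (n : ℕ) (j : ℤ) (hj : j ≠ n) (d : ℕ) :
    ∀ (M : GrMod ℬ), Fd M → Supp M 0 0 → Module.finrank k (cmp M 0) ≤ d →
      VV M (Sj ℬ j) n := by
  induction d with
  | zero =>
    intro M hF hs hd
    have hfin := hF.1 0
    refine dr2_zero M ?_ _ _
    intro i x
    by_cases hi : i = 0
    · subst hi
      have : Subsingleton (cmp M 0) := (Module.finrank_zero_iff (R := k)).1 (by lia)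
      exact Subsingleton.elim _ _
    · exact hs i (by lia) x
  | succ d ih =>
    intro M hF hs hd
    have hfin := hF.1 0
    by_cases h0 : ∃ x : cmp M 0, x ≠ 0
    · obtain ⟨N, hN0, hN⟩ := fx4_min M hF hs h0
      have hses := N.shortExact
      have hFd := (Fd_ses _ hses).1 hF
      have hs1 : Supp N.sub 0 0 := fun i hi x => Subtype.ext (hs i hi (x : N.N i).1)
      have hs2 : Supp N.quo 0 0 := by
        intro i hi x
        obtain ⟨y, rfl⟩ := Submodule.mkQ_surjective (N.N i) x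
        rw [hs i hi y, map_zero]
        rfl
      refine vv_ses_left _ hses (Sj ℬ j) n ?_ ?_
      · exact vv_of_linRes _ (hK N.sub hN hs1) n j hj
      · refine ih N.quo hFd.2 hs2 ?_
        have h1 : Module.finrank k (cmp M 0 ⧸ N.N 0) + Module.finrank k (N.N 0)
            = Module.finrank k (cmp M 0) := Submodule.finrank_quotient_add_finrank (N.N 0)
        have h2 : 0 < Module.finrank k (N.N 0) := by
          rw [Nat.pos_iff_ne_zero]
          intro h
          exact hN0 (Submodule.finrank_eq_zero.1 h)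
        have h3 : Module.finrank k (cmp N.quo 0) = Module.finrank k (cmp M 0 ⧸ N.N 0) := rfl
        lia
    · refine dr2_zero M ?_ _ _
      intro i x
      by_cases hi : i = 0
      · subst hi
        by_contra hx
        exact h0 ⟨x, hx⟩
      · exact hs i (by lia) x

theorem vv_S_of_koszul [Module.Finite k B] (hK : IsKoszul ℬ) (n : ℕ) (j : ℤ) (hj : j ≠ n) :
    VV (Sj ℬ 0) (Sj ℬ j) n :=
  fx4_kos hK n j hj _ (Sj ℬ 0) (Fd_Sj 0) (Sj_supp 0) le_rfl

omit [PosGr ℬ] in
theorem fx4_iso {X X' : DerivedCategory (GrMod ℬ)} {Y Y' : GrMod ℬ} (e : X ≅ X') (e' : Y ≅ Y')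
    (n : ℤ) (h : VX X Y n) : VX X' Y' n := by
  intro f
  have h1 := h (e.hom ≫ f ≫ (sg.map e'.inv)⟦n⟧')
  have h2 : f = e.inv ≫ (e.hom ≫ f ≫ (sg.map e'.inv)⟦n⟧') ≫ (sg.map e'.hom)⟦n⟧' := by
    simp only [Category.assoc]
    rw [← Functor.map_comp, ← Functor.map_comp, e'.inv_hom_id]
    simp
  rw [h2, h1]
  simp

theorem vv_S_shift (q j n : ℤ) (h : VV (Sj ℬ 0) (Sj ℬ (j - q)) n) :
    VV (Sj ℬ q) (Sj ℬ j) n := by
  have hE : ((shf (ℬ := ℬ) q).mapDerivedCategory).IsEquivalence := mapDer_equiv _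
  have key : VV ((shf q).obj (Sj ℬ 0)) ((shf q).obj (Sj ℬ (j - q))) n := by
    intro f
    have e1 : ∀ M : GrMod ℬ, (shf q).mapDerivedCategory.obj (sg.obj M) ≅
        sg.obj ((shf q).obj M) := fun M => ((shf q).mapDerivedCategorySingleFunctor 0).app M
    have e2 : (shf q).mapDerivedCategory.obj ((sg.obj (Sj ℬ (j - q)))⟦n⟧)
        ≅ ((shf q).mapDerivedCategory.obj (sg.obj (Sj ℬ (j - q))))⟦n⟧ :=
      ((shf q).mapDerivedCategory.commShiftIso n).app _
    let e3 := e2 ≪≫ (shiftFunctor (DerivedCategory (GrMod ℬ)) n).mapIso (e1 (Sj ℬ (j - q)))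
    obtain ⟨g, hg⟩ := ((shf (ℬ := ℬ) q).mapDerivedCategory).map_surjective
      ((e1 (Sj ℬ 0)).hom ≫ f ≫ e3.inv)
    rw [h g, Functor.map_zero] at hg
    have h2 : f = (e1 (Sj ℬ 0)).inv ≫ ((e1 (Sj ℬ 0)).hom ≫ f ≫ e3.inv) ≫ e3.hom := by simp
    rw [h2, ← hg]
    simp
  obtain ⟨a⟩ := shf_Sj (ℬ := ℬ) q 0
  obtain ⟨b⟩ := shf_Sj (ℬ := ℬ) q (j - q)
  rw [zero_add] at a
  rw [sub_add_cancel] at b
  exact fx4_iso (sg.mapIso a) b n key

theorem vv_reg [Module.Finite k B] [IsSemisimpleRing (ℬ 0)] (hK : IsKoszul ℬ) (M : GrMod ℬ)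
    (hM : Fd M) (a b : ℤ) (hs : Supp M a b) (n j : ℤ) (hj : b + n < j) :
    VV M (Sj ℬ j) n := by
  rcases lt_or_ge n 0 with hn | hn
  · exact vv_neg _ _ _ hn
  obtain ⟨t, ht⟩ := Int.eq_ofNat_of_zero_le hn
  have hgen : ∀ (c : ℕ) (M : GrMod ℬ) (_ : Fd M) (a : ℤ) (_ : Supp M a b)
      (_ : b - a + 1 ≤ c), VV M (Sj ℬ j) n := by
    intro c
    induction c with
    | zero =>
      intro M hF a hM hc
      refine dr2_zero M (fun i x => hM i ?_ x) _ _
      push_cast at hc
      lia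
    | succ c ihc =>
      intro M hF a hM hc
      by_cases hab : b < a
      · exact dr2_zero M (fun i x => hM i (by lia) x) _ _
      · have hses := (geG M (a + 1)).shortExact
        have hFd := (Fd_ses _ hses).1 hF
        refine vv_ses_left _ hses (Sj ℬ j) n ?_ ?_
        · exact ihc _ hFd.1 (a + 1) (supp_ge hM (a + 1)) (by push_cast at hc; linarith)
        · have hin := sem_inAdd_supp (M := (geG M (a + 1)).quo) (supp_quo hM a) hFd.2
          refine vv_inAdd_left hin _ _ (fun _ => vv_S_shift a j n ?_)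
          rw [ht]
          exact vv_S_of_koszul hK t (j - a) (by lia)
  exact hgen (b - a + 1).toNat M hM a hs (Int.self_le_toNat _)

end H60.KZ
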