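import Pool.Agent.H60.KZ.Ex2
import Pool.Agent.H60.KZ.Fx3
import Pool.Agent.H60.KZ.Fx4
import Pool.Agent.H60.KZ.Dr9

/-!
# Assembly
-/

universe w u

namespace H60.KZ

open CategoryTheory CategoryTheory.Limits CategoryTheory.Pretriangulated

variable {k : Type u} [Field k] {B : Type u} [Ring B] [Algebra k B]
  {ℬ : ℤ → Submodule k B} [GradedAlgebra ℬ] [PosGr ℬ] [HasDerivedCategory.{w} (GrMod ℬ)]
  [Module.Finite k B] [IsSemisimpleRing (ℬ 0)]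

omit [IsSemisimpleRing (ℬ 0)] in
theorem finReg_of_koszul (hK : IsKoszul ℬ) : FinReg ℬ := by
  refine ⟨0, fun n j hj => ?_⟩
  rcases lt_or_ge n 0 with hn | hn
  · exact vv_neg _ _ _ hn
  · obtain ⟨m, rfl⟩ := Int.eq_ofNat_of_zero_le hn
    exact vv_S_of_koszul hK m j (by lia)

theorem koszul_of_finReg [Infinite k] {s : ℕ} {lam : B →ₗ[k] k} (h : GrFrob ℬ s lam)
    (d : ℕ) (hd : 1 ≤ d) {c c' : ℕ} (e : Fin c' → ℤ) (he : ∀ b, e b ≠ d)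
    (z : Fin c → (𝟭 (DerivedCategory (GrMod ℬ)) ⟶ PhiF d))
    (y : ∀ b : Fin c', 𝟭 (DerivedCategory (GrMod ℬ)) ⟶ PhiG (e b) d)
    (hz : ∀ a X, (PhiF (d : ℤ)).map ((z a).app X) = (z a).app ((PhiF d).obj X))
    (hκ : ∀ a X, ((z a).app X)⟦(1 : ℤ)⟧' ≫ (kapF d X).hom = (z a).app (X⟦(1 : ℤ)⟧))
    (hzy : ∀ a b, Commute' (z a) (y b))
    (hyy : ∀ b b', Commute' (y b) (y b')) (hfg : HFgen d e z y) (hreg : FinReg ℬ) :
    IsKoszul ℬ := by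
  have hz' : ZPhi (PhiF (d : ℤ)) z := hz
  have hfg' := hfg_of_finReg h hreg d hd e he z y hz' hzy hyy hfg
  exact koszul_of_ext fun n j hj =>
    ext_zero h (d := (d : ℤ)) (by exact_mod_cast hd) hz' hκ hfg' n j hj

variable {A : Type u} [Ring A] [Algebra k A] {𝒜 : ℤ → Submodule k A} [GradedAlgebra 𝒜] [PosGr 𝒜]
  [Module.Finite k A] [IsSemisimpleRing (𝒜 0)]

theorem finReg_of_functor (hA : IsKoszul 𝒜) (F : GrMod ℬ ⥤ GrMod 𝒜) [F.Additive]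
    [PreservesFiniteLimits F] [PreservesFiniteColimits F] (hF : FHyp F) : FinReg ℬ := by
  let _ : HasDerivedCategory (GrMod 𝒜) := HasDerivedCategory.standard _
  have hfd := hF.fd (Sj ℬ 0) (Fd_Sj 0)
  obtain ⟨a, b, hab⟩ := hfd.2
  refine ⟨b, fun n j hj => ?_⟩
  rcases lt_or_ge n 0 with hn | hn
  · exact vv_neg _ _ _ hn
  · obtain ⟨m, rfl⟩ := Int.eq_ofNat_of_zero_le hn
    refine vv_of_F F hF (Sj ℬ 0) (Fd_Sj 0) j m ?_
    exact vv_reg hA (F.obj (Sj ℬ 0)) hfd a b hab m j (by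
      have : (Int.ofNat m : ℤ) = (m : ℤ) := rfl
      lia)

end H60.KZ
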