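import Pool.Agent.H60.KZ.GmG

/-!
# Row GmI: radical layers

`LL n M`: `M` has a filtration with `n` layers in `InAdd (Sj ℬ)`.

* `radN_zero`: `radN M 0 i = ⊤` since `x = act ⟨1, _⟩ x` (`act_one`, `act_mem_radN` with `l = i`).
* `rad_map`: a morphism maps `radN M t` into `radN N t` (`cm_act`), and onto if it is epi.
* `radN_sub_rad`: an element of `radN (radG M 1).sub n i` is a sum of `act b x` with `b` of degree
  `≥ n` and `x ∈ radN M 1`, itself a sum of `act b' y`, `b'` of degree `≥ 1`; so its image in `M` lies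
  in `radN M (n+1) i` (`act_mul`), by `iSup` induction.
* `sem_quo_rad`: if `i < j`, `act b x ∈ radN M 1 j`; if `j < i`, `act_neg_deg`.
* `LL_of_rad`, induction on `n` (for all `M`).  `n = 0`: `M` is zero by `radN_zero`
  (`isZero_iff_cm`).  `n + 1`: `K = radG M 1`.  `K.sub` is `Fd` (`Fd_ses`) and
  `radN K.sub n = ⊥` (`radN_sub_rad`, injectivity of `inc`), so `LL n K.sub`; `K.quo` is `Sem` and
  `Fd`, hence `InAdd (Sj ℬ)` by `sem_inAdd`; use `SubG.shortExact`.
* `radN_quo`: `radN (radG M s).quo s = ⊥`: elements of `radN` of the quotient come from `radN M s`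
  (`rad_map` onto, as `pr` is epi), which is killed by `pr`.
* `LL_quo`: combine.
* `sem_sub_rad`: let `x ∈ radN M s i` and `b` of degree `j - i ≠ 0`.  If `j < i` use
  `act_neg_deg`.  If `j > i`, `act b x` is a sum of `act (b b') y` with `b b'` of degree
  `≥ s + 1`, so `b b' = 0` as `ℬ p = ⊥` for `p > s`.
-/

universe u

namespace H60.KZ

open CategoryTheory CategoryTheory.Limits

variable {k : Type u} [Field k] {B : Type u} [Ring B] [Algebra k B]
  {ℬ : ℤ → Submodule k B} [GradedAlgebra ℬ] [PosGr ℬ]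

/-- `M` has a filtration with `n` layers which are retracts of finite sums of `Sj ℬ j`. -/
inductive LL : ℕ → GrMod ℬ → Prop
  | zero (M : GrMod ℬ) (hM : IsZero M) : LL 0 M
  | step {n : ℕ} (S : ShortComplex (GrMod ℬ)) (hS : S.ShortExact) (h1 : LL n S.X₁)
      (h3 : InAdd (Sj ℬ) S.X₃) : LL (n + 1) S.X₂

theorem radN_zero (M : GrMod ℬ) (i : ℤ) : radN M 0 i = ⊤ := by
  rw [eq_top_iff]
  intro x _
  have h : (1 : B) ∈ ℬ (i - i) := by rw [sub_self]; exact SetLike.GradedOne.one_mem
  rw [← act_one M i x h]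
  exact act_mem_radN M 0 (by simp) _ _

theorem rad_map {M N : GrMod ℬ} (f : M ⟶ N) (t i : ℤ) :
    (radN M t i).map (cm f i) ≤ radN N t i := by
  rw [Submodule.map_le_iff_le_comap]
  refine iSup_le fun l => iSup_le fun hl => iSup_le fun b => ?_
  rintro _ ⟨y, rfl⟩
  rw [Submodule.mem_comap, cm_act]
  exact act_mem_radN N t hl b _

theorem rad_map_epi {M N : GrMod ℬ} (f : M ⟶ N) [Epi f] (t i : ℤ) :
    radN N t i ≤ (radN M t i).map (cm f i) := by
  refine iSup_le fun l => iSup_le fun hl => iSup_le fun b => ?_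
  rintro _ ⟨y, rfl⟩
  obtain ⟨y', rfl⟩ := (epi_iff_cm f).1 inferInstance l y
  rw [← cm_act]
  exact ⟨_, act_mem_radN M t hl b y', rfl⟩

/-- the action of an element of degree `≥ s` sends `radN M t` into `radN M (t + s)` -/
theorem act_rad (M : GrMod ℬ) (t s : ℤ) {l i : ℤ} (h : s ≤ i - l) (b : ℬ (i - l)) (z : cmp M l)
    (hz : z ∈ radN M t l) : act M b z ∈ radN M (t + s) i := by
  have key : radN M t l ≤ (radN M (t + s) i).comap (act M b) := by
    refine iSup_le fun m => iSup_le fun hm => iSup_le fun b' => ?_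
    rintro _ ⟨y, rfl⟩
    rw [Submodule.mem_comap]
    have hmem : b.1 * b'.1 ∈ ℬ (i - m) := by
      have := SetLike.GradedMul.mul_mem b.2 b'.2
      rwa [show i - l + (l - m) = i - m by ring] at this
    rw [← act_mul M m l i b' b hmem y]
    exact act_mem_radN M (t + s) (by lia) _ y
  exact key hz

theorem radN_sub_rad (M : GrMod ℬ) (n : ℕ) (i : ℤ) (x : cmp (radG M 1).sub i)
    (hx : x ∈ radN (radG M 1).sub n i) : cm (radG M 1).inc i x ∈ radN M (n + 1) i := by
  have key : radN (radG M 1).sub n i ≤ (radN M (n + 1) i).comap (cm (radG M 1).inc i) := by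
    refine iSup_le fun l => iSup_le fun hl => iSup_le fun b => ?_
    rintro _ ⟨y, rfl⟩
    rw [Submodule.mem_comap, cm_act]
    have h1 : cm (radG M 1).inc l y ∈ radN M 1 l := by
      rw [SubG.cm_inc]
      exact Subtype.property (p := fun z => z ∈ (radG M 1).N l) y
    have h2 := act_rad M 1 n hl b _ h1
    rwa [show (1 : ℤ) + n = n + 1 by ring] at h2
  exact key hx

theorem sem_quo_rad (M : GrMod ℬ) : Sem (radG M 1).quo := by
  intro i j b x hij
  rcases lt_or_gt_of_ne hij with h | h
  · have : Epi (radG M 1).pr := (radG M 1).shortExact.epi_g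
    obtain ⟨y, rfl⟩ := (epi_iff_cm (radG M 1).pr).1 inferInstance i x
    rw [← cm_act]
    exact (SubG.cm_pr _ _ _).trans ((Submodule.Quotient.mk_eq_zero ((radG M 1).N j)).2
      (act_mem_radN M 1 (by lia) b y))
  · exact act_neg_deg _ h b x

theorem LL_of_rad [IsSemisimpleRing (ℬ 0)] (n : ℕ) (M : GrMod ℬ) (hM : Fd M)
    (h : ∀ i, radN M n i = ⊥) : LL n M := by
  induction n generalizing M with
  | zero =>
    refine LL.zero M ((isZero_iff_cm M).2 fun i x => ?_)
    have h1 : x ∈ radN M 0 i := by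
      rw [radN_zero]
      trivial
    have h2 := h i
    rw [Nat.cast_zero] at h2
    rw [h2] at h1
    exact (Submodule.mem_bot k).1 h1
  | succ n ih =>
    have hS := (radG M 1).shortExact
    have hF := (Fd_ses _ hS).1 hM
    have hmono : Mono (radG M 1).inc := hS.mono_f
    refine LL.step _ hS (ih (radG M 1).sub hF.1 fun i => ?_) (sem_inAdd (sem_quo_rad M) hF.2)
    rw [eq_bot_iff]
    intro x hx
    have h1 := radN_sub_rad M n i x hx
    have h2 := h i
    rw [Nat.cast_add, Nat.cast_one] at h2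
    rw [h2] at h1
    have h3 : cm (radG M 1).inc i x = 0 := (Submodule.mem_bot k).1 h1
    have h4 : x = 0 := (mono_iff_cm (radG M 1).inc).1 hmono i (by rw [h3, map_zero])
    rw [h4]
    exact zero_mem _

theorem radN_quo (M : GrMod ℬ) (s : ℤ) (i : ℤ) : radN (radG M s).quo s i = ⊥ := by
  have : Epi (radG M s).pr := (radG M s).shortExact.epi_g
  rw [eq_bot_iff]
  refine (rad_map_epi (radG M s).pr s i).trans ?_
  rintro _ ⟨x, hx, rfl⟩
  have h1 : cm (radG M s).pr i x = 0 :=
    (SubG.cm_pr _ _ _).trans ((Submodule.Quotient.mk_eq_zero ((radG M s).N i)).2 hx)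
  rw [h1]
  exact zero_mem _

theorem LL_quo [IsSemisimpleRing (ℬ 0)] (s : ℕ) (M : GrMod ℬ) (hM : Fd M) :
    LL s (radG M s).quo :=
  LL_of_rad s _ ((Fd_ses _ (radG M s).shortExact).1 hM).2 (radN_quo M s)

/-- if the algebra lives in degrees `≤ s` then `radN M t = ⊥` for `t > s` -/
theorem radN_bot {s : ℕ} (hs : ∀ i : ℤ, s < i → ℬ i = ⊥) (M : GrMod ℬ) (t i : ℤ) (ht : s < t) :
    radN M t i = ⊥ := by
  rw [eq_bot_iff]
  refine iSup_le fun l => iSup_le fun hl => iSup_le fun b => ?_
  rintro _ ⟨y, rfl⟩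
  have h0 : ℬ (i - l) = ⊥ := hs _ (by lia)
  have hb : b = 0 := by
    apply Subtype.ext
    have hb' : b.1 ∈ (⊥ : Submodule k B) := by rw [← h0]; exact b.2
    simpa using hb'
  have h1 : act M b y = 0 := by
    have : actL M l i b y = 0 := by rw [hb]; simp
    exact this
  rw [h1]
  exact zero_mem _

theorem sem_sub_rad {s : ℕ} (hs : ∀ i : ℤ, s < i → ℬ i = ⊥) (M : GrMod ℬ) :
    Sem (radG M s).sub := by
  intro i j b x hij
  rcases lt_or_gt_of_ne hij with h | h
  · have hmono : Mono (radG M s).inc := (radG M s).shortExact.mono_f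
    apply (mono_iff_cm (radG M s).inc).1 hmono j
    rw [map_zero, cm_act]
    have h1 : cm (radG M s).inc i x ∈ radN M s i := by
      rw [SubG.cm_inc]
      exact Subtype.property (p := fun z => z ∈ (radG M s).N i) x
    have h2 := act_rad M s (j - i) le_rfl b _ h1
    rw [radN_bot hs M _ j (by lia)] at h2
    exact (Submodule.mem_bot k).1 h2
  · exact act_neg_deg _ h b x

end H60.KZ
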