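import Pool.Agent.H60.KZ.GmL
import Pool.Agent.H60.KZ.GmI

/-!
# Row Fx1: covers with control of degrees, projective covers of finite dimensional modules

* `exists_cover_ge`: as `exists_cover`: the spanning elements may be chosen in degrees `≥ a` since
  `M` is zero in degrees `< a`; index them by `l : ℕ`, degree `a + l`.
* `exists_pcover_rad`: Let `M` be finite dimensional, `T = (radG M 1).quo`, `Sem` (`sem_quo_rad`), `Fd`.
  Step 1: there are a projective finite dimensional `Pc` in `InAdd (Pj ℬ)` and an epi `p : Pc ⟶ T`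
  whose kernel is contained in `radN Pc 1`.  By `sem_inAdd`, `𝟙 T = Σ α_a ≫ β_a` with
  `α_a : T ⟶ Sj ℬ (j a)`.  Let `S = ⨁ Sj ℬ (j a)`, `P = ⨁ Pj ℬ (j a)`, `π : P ⟶ S` the sum of the
  projections; the kernel of `π` is `radN P 1` (in `Pj ℬ j` the kernel of the projection is
  `geG (Pj ℬ j) (j+1)`, and every `x ∈ (Pj ℬ j) i`, `i > j`, is `act x (onep)`, so it lies in
  `radN _ 1 i`).  Let `e = β ≫ α : S ⟶ S`, an idempotent with image `T`.  We lift it to an idempotent
  of `P`: the ring hom `End P ⟶ End S` (every `f : P ⟶ P` preserves the kernel `radN P 1` of `π`) is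
  surjective (`P` projective) and its kernel is nilpotent: if `f ≫ π = 0` then `f` maps `P` into
  `radN P 1`, so `n` such morphisms compose to a morphism into `radN P n`, which is `0` for `n` large
  (finite dimensional: `P` lives in finitely many degrees).  Idempotents lift modulo a nil ideal
  (Mathlib: `exists_isIdempotentElem_eq_of_ker_isNilpotent` in
  `Mathlib/RingTheory/Idempotents.lean`; or explicitly `e ↦ 3e²-2e³` iterated).
  (Alternative to idempotent lifting: `T` is the direct sum of its components `T_q`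
  concentrated in degree `q`; for each `q` use `exists_pcover_deg`, which gives
  `Pc_q ⟶ T_q` injective in degree `q` and `Pc_q` generated in degree `q`, so the kernel lives in
  degrees `≥ q+1`, where `Pc_q` is equal to `radN Pc_q 1`; take the direct sum over `q`.  `Pc_q` is
  projective; it is in `InAdd (Pj ℬ)` because a cover `Q ⟶ Pc_q` splits.  RECOMMENDED.)
  Step 2: lift `p` to `p' : Pc ⟶ M`, `p' ≫ pr = p`.  `p'` is epi: its image `I` satisfies
  `I + B_{≥1} M = M`, so `M/I = B_{≥ 1} (M/I) = B_{≥ n} (M/I) = 0` (graded Nakayama, finite dimension).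
  The kernel of `p'` is contained in the kernel of `p`, so in `radN Pc 1`.
-/

universe u

namespace H60.KZ

open CategoryTheory CategoryTheory.Limits

variable {k : Type u} [Field k] {B : Type u} [Ring B] [Algebra k B]
  {ℬ : ℤ → Submodule k B} [GradedAlgebra ℬ] [PosGr ℬ]

omit [PosGr ℬ] in
theorem Fx1_cover [Module.Finite k B] (M : GrMod ℬ) (hM : Fd M) (a b : ℤ) (hs : Supp M a b) :
    ∃ (Q : GrMod ℬ) (p : Q ⟶ M), InAdd (fun i : Finset.Icc a b => Pj ℬ i.1) Q ∧ Epi p := by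
  obtain ⟨hf, -⟩ := hM
  choose n s hsp using fun i => Submodule.fg_iff_exists_fin_generating_family.1
    (Module.finite_def.1 (hf i))
  have _ : HasFiniteBiproducts (GrMod ℬ) := HasFiniteBiproducts.of_hasFiniteProducts
  let J : Type := Σ i : Finset.Icc a b, Fin (n i.1)
  have hIn : InAdd (fun i : Finset.Icc a b => Pj ℬ i.1) (⨁ fun t : J => Pj ℬ t.1.1) := by
    refine ⟨Fintype.card J, fun c => ((Fintype.equivFin J).symm c).1,
      fun c => biproduct.π _ ((Fintype.equivFin J).symm c),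
      fun c => biproduct.ι (fun t : J => Pj ℬ t.1.1) ((Fintype.equivFin J).symm c), ?_⟩
    rw [← biproduct.total (f := fun t : J => Pj ℬ t.1.1)]
    exact (Equiv.sum_comp (Fintype.equivFin J).symm (fun t : J =>
      biproduct.π (fun t : J => Pj ℬ t.1.1) t ≫ biproduct.ι (fun t : J => Pj ℬ t.1.1) t)).symm
  refine ⟨⨁ fun t : J => Pj ℬ t.1.1, biproduct.desc (fun t => yon (s t.1.1 t.2)), hIn, ?_⟩
  refine (epi_iff_cm _).2 fun i => ?_
  by_cases hi : a ≤ i ∧ i ≤ b
  · rw [← LinearMap.range_eq_top, eq_top_iff, ← hsp i, Submodule.span_le]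
    rintro _ ⟨u, rfl⟩
    let t : J := ⟨⟨i, Finset.mem_Icc.2 hi⟩, u⟩
    refine ⟨cm (biproduct.ι (fun t : J => Pj ℬ t.1.1) t) i (onep ℬ i), ?_⟩
    rw [← cm_comp, biproduct.ι_desc]
    exact yon_one (s i u)
  · intro x
    refine ⟨0, ?_⟩
    rw [map_zero]
    exact (hs i (by omega) x).symm

omit [PosGr ℬ] in
theorem Fx1_reindex {J J' : Type} {F : J → GrMod ℬ} {G : J' → GrMod ℬ} {M : GrMod ℬ} (r : J → J')
    (h : F = fun j => G (r j)) (hM : InAdd F M) : InAdd G M := by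
  subst h
  obtain ⟨n, j, α, β, h1⟩ := hM
  exact ⟨n, fun a => r (j a), α, β, h1⟩

omit [PosGr ℬ] in
theorem exists_cover_ge [Module.Finite k B] (M : GrMod ℬ) (hM : Fd M) (a b : ℤ)
    (hs : Supp M a b) :
    ∃ (Q : GrMod ℬ) (p : Q ⟶ M), InAdd (fun l : ℕ => Pj ℬ (a + l)) Q ∧ Epi p := by
  obtain ⟨Q, p, h1, h2⟩ := Fx1_cover M hM a b hs
  refine ⟨Q, p, Fx1_reindex (fun i => (i.1 - a).toNat) ?_ h1, h2⟩
  funext i
  have hi := (Finset.mem_Icc.1 i.2).1
  congr 1
  omega

omit [PosGr ℬ] in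
/-- A module concentrated in degree `a` is covered by copies of `Pj ℬ a`. -/
theorem exists_cover_eq [Module.Finite k B] (M : GrMod ℬ) (hM : Fd M) (a : ℤ)
    (hs : Supp M a a) :
    ∃ (Q : GrMod ℬ) (p : Q ⟶ M), InAdd (fun _ : Unit => Pj ℬ a) Q ∧ Epi p := by
  obtain ⟨Q, p, h1, h2⟩ := Fx1_cover M hM a a hs
  refine ⟨Q, p, Fx1_reindex (fun _ => ()) ?_ h1, h2⟩
  funext i
  have hi := Finset.mem_Icc.1 i.2
  congr 1
  omega

omit [PosGr ℬ] in
theorem Fx1_inAdd_of_proj [Module.Finite k B] (P : GrMod ℬ) (hP : Projective P) (hF : Fd P) :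
    InAdd (Pj ℬ) P := by
  obtain ⟨Q, p, ⟨n, j, α, β, h1⟩, h2, -⟩ := exists_cover P hF
  obtain ⟨s, hs⟩ : ∃ s : P ⟶ Q, s ≫ p = 𝟙 P :=
    ⟨Projective.factorThru (𝟙 P) p, Projective.factorThru_comp _ _⟩
  refine ⟨n, j, fun a => s ≫ α a, fun a => β a ≫ p, ?_⟩
  have e1 : 𝟙 P = s ≫ 𝟙 Q ≫ p := by rw [Category.id_comp, hs]
  refine e1.trans ?_
  rw [h1, Preadditive.sum_comp, Preadditive.comp_sum]
  refine Finset.sum_congr rfl fun a _ => ?_
  simp only [Category.assoc]

omit [PosGr ℬ] in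
theorem Fx1_tot (M N : GrMod ℬ) (i : ℤ) (x : cmp (M ⊞ N) i) :
    x = cm (biprod.inl : M ⟶ M ⊞ N) i (cm (biprod.fst : M ⊞ N ⟶ M) i x) +
      cm (biprod.inr : N ⟶ M ⊞ N) i (cm (biprod.snd : M ⊞ N ⟶ N) i x) := by
  have h1 : x = cm (𝟙 (M ⊞ N)) i x := (cm_id _ _ _).symm
  refine h1.trans ?_
  rw [← biprod.total]
  rfl

omit [PosGr ℬ] in
theorem Fx1_Fd (M N : GrMod ℬ) (hM : Fd M) (hN : Fd N) : Fd (M ⊞ N) := by
  refine Fd_exact (ShortComplex.mk (biprod.inl : M ⟶ M ⊞ N) (biprod.snd : M ⊞ N ⟶ N)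
    biprod.inl_snd) ?_ hM hN
  rw [exact_iff_cm]
  intro i x hx
  refine ⟨cm (biprod.fst : M ⊞ N ⟶ M) i x, ?_⟩
  have h := Fx1_tot M N i x
  change cm (biprod.snd : M ⊞ N ⟶ N) i x = 0 at hx
  rw [hx, map_zero, add_zero] at h
  exact h.symm

omit [PosGr ℬ] in
theorem Fx1_rad_sem {T : GrMod ℬ} (hT : Sem T) (i : ℤ) (x : cmp T i) (hx : x ∈ radN T 1 i) :
    x = 0 := by
  have key : radN T 1 i ≤ ⊥ := by
    refine iSup_le fun l => iSup_le fun hl => iSup_le fun b => ?_
    rintro _ ⟨y, rfl⟩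
    rw [Submodule.mem_bot]
    exact hT l i b y (by omega)
  exact (Submodule.mem_bot k).1 (key hx)

theorem Fx1_sem [Module.Finite k B] [IsSemisimpleRing (ℬ 0)] (n : ℕ) :
    ∀ (T : GrMod ℬ) (a b : ℤ), Sem T → Fd T → Supp T a b → b - a < n →
      ∃ (Pc : GrMod ℬ) (p : Pc ⟶ T), Projective Pc ∧ Fd Pc ∧ Epi p ∧
        ∀ i (x : cmp Pc i), cm p i x = 0 → x ∈ radN Pc 1 i := by
  induction n with
  | zero =>
    intro T a b _ hF hs hab
    have h0 : ∀ i (x : cmp T i), x = 0 := fun i x => hs i (by omega) x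
    have hz : IsZero T := (isZero_iff_cm T).2 h0
    refine ⟨T, 𝟙 T, ⟨fun {E X} f e _ => ⟨0, hz.eq_of_src _ _⟩⟩, hF, inferInstance, ?_⟩
    intro i x _
    rw [h0 i x]
    exact zero_mem _
  | succ n ih =>
    intro T a b hS hF hs hab
    have hses := (geG T (a + 1)).shortExact
    obtain ⟨hc1, hc2, hc3⟩ := (shortExact_iff_cm _).1 hses
    have hFs := (Fd_ses _ hses).1 hF
    have hSs : Sem (geG T (a + 1)).sub := by
      intro i j c x hij
      apply hc1 j
      rw [map_zero]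
      change cm (geG T (a + 1)).inc j (act _ c x) = 0
      rw [cm_act]
      exact hS i j c _ hij
    have hss : Supp (geG T (a + 1)).sub (a + 1) b := supp_ge hs (a + 1)
    have hsq : Supp (geG T (a + 1)).quo a a := supp_quo hs a
    obtain ⟨P1, p1, hp1, hf1, he1, hk1⟩ := ih _ (a + 1) b hSs hFs.1 hss (by push_cast at hab; omega)
    obtain ⟨P2, p2, hp2, hf2, hg2, he2, hi2⟩ := exists_pcover_deg hsq hFs.2
    have hepr : Epi (geG T (a + 1)).pr := hses.epi_g
    obtain ⟨l, hl⟩ : ∃ l : P2 ⟶ T, l ≫ (geG T (a + 1)).pr = p2 :=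
      ⟨Projective.factorThru p2 (geG T (a + 1)).pr, Projective.factorThru_comp _ _⟩
    have hk2 : ∀ i (x : cmp P2 i), cm p2 i x = 0 → x ∈ radN P2 1 i := by
      intro i x hx
      rcases lt_trichotomy i a with h | h | h
      · rw [genIn_zero hg2 h x]
        exact zero_mem _
      · subst h
        have h0 : x = 0 := hi2 (by rw [hx, map_zero])
        rw [h0]
        exact zero_mem _
      · obtain ⟨m, c, y, rfl⟩ := hg2 i x
        refine Submodule.sum_mem _ fun d _ => ?_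
        exact act_mem_radN P2 1 (by omega) _ _
    let q : P1 ⊞ P2 ⟶ T := biprod.desc (p1 ≫ (geG T (a + 1)).inc) l
    have hq1 : ∀ i (x : cmp P1 i), cm q i (cm (biprod.inl : P1 ⟶ P1 ⊞ P2) i x) =
        cm (geG T (a + 1)).inc i (cm p1 i x) := by
      intro i x
      rw [← cm_comp, biprod.inl_desc, cm_comp]
    have hq2 : ∀ i (x : cmp P2 i), cm q i (cm (biprod.inr : P2 ⟶ P1 ⊞ P2) i x) = cm l i x := by
      intro i x
      rw [← cm_comp, biprod.inr_desc]
    refine ⟨P1 ⊞ P2, q, inferInstance, Fx1_Fd P1 P2 hf1 hf2, ?_, ?_⟩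
    · rw [epi_iff_cm]
      intro i y
      obtain ⟨x2, hx2⟩ := (epi_iff_cm p2).1 he2 i (cm (geG T (a + 1)).pr i y)
      have h3 : cm (geG T (a + 1)).pr i (y - cm l i x2) = 0 := by
        rw [map_sub, ← hx2, ← hl, cm_comp, sub_self]
      obtain ⟨z, hz⟩ := hc2 i _ h3
      obtain ⟨x1, hx1⟩ := (epi_iff_cm p1).1 he1 i z
      refine ⟨cm (biprod.inl : P1 ⟶ P1 ⊞ P2) i x1 + cm (biprod.inr : P2 ⟶ P1 ⊞ P2) i x2, ?_⟩
      rw [map_add, hq1, hq2, hx1]
      change cm (geG T (a + 1)).inc i z = y - cm l i x2 at hz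
      rw [hz, sub_add_cancel]
    · intro i x hx
      have ht := Fx1_tot P1 P2 i x
      set x1 := cm (biprod.fst : P1 ⊞ P2 ⟶ P1) i x with hx1
      set x2 := cm (biprod.snd : P1 ⊞ P2 ⟶ P2) i x with hx2
      rw [ht, map_add, hq1, hq2] at hx
      have h4 : cm p2 i x2 = 0 := by
        rw [← hl, cm_comp]
        have h5 : cm l i x2 = - cm (geG T (a + 1)).inc i (cm p1 i x1) := by
          rw [eq_neg_iff_add_eq_zero, add_comm]; exact hx
        rw [h5, map_neg, ← cm_comp, SubG.inc_pr, cm_zero, neg_zero]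
      have h6 := hk2 i x2 h4
      have h7 : cm l i x2 = 0 :=
        Fx1_rad_sem hS i _ (rad_map l 1 i ⟨x2, h6, rfl⟩)
      rw [h7, add_zero] at hx
      have h8 : cm p1 i x1 = 0 := by
        apply hc1 i
        rw [map_zero]
        exact hx
      have h9 := hk1 i x1 h8
      rw [ht]
      exact add_mem (rad_map _ 1 i ⟨x1, h9, rfl⟩) (rad_map _ 1 i ⟨x2, h6, rfl⟩)

theorem exists_pcover_rad [Module.Finite k B] [IsSemisimpleRing (ℬ 0)] (M : GrMod ℬ)
    (hM : Fd M) :
    ∃ (Pc : GrMod ℬ) (p : Pc ⟶ M), InAdd (Pj ℬ) Pc ∧ Fd Pc ∧ Epi p ∧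
      ∀ i (x : cmp Pc i), cm p i x = 0 → x ∈ radN Pc 1 i := by
  have hses := (radG M 1).shortExact
  obtain ⟨hc1, hc2, hc3⟩ := (shortExact_iff_cm _).1 hses
  have hFs := (Fd_ses _ hses).1 hM
  obtain ⟨a', b', hs'⟩ := hFs.2.2
  obtain ⟨Pc, p, hp, hf, he, hk⟩ := Fx1_sem ((b' - a').toNat + 1) (radG M 1).quo a' b'
    (sem_quo_rad M) hFs.2 hs' (by omega)
  have hepr : Epi (radG M 1).pr := hses.epi_g
  obtain ⟨l, hl⟩ : ∃ l : Pc ⟶ M, l ≫ (radG M 1).pr = p :=
    ⟨Projective.factorThru p (radG M 1).pr, Projective.factorThru_comp _ _⟩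
  refine ⟨Pc, l, Fx1_inAdd_of_proj Pc hp hf, hf, ?_, ?_⟩
  · obtain ⟨a, b, hs⟩ := hM.2
    have key : ∀ (n : ℕ) (i : ℤ), i < a + n → Function.Surjective (cm l i) := by
      intro n
      induction n with
      | zero =>
        intro i hi y
        refine ⟨0, ?_⟩
        rw [map_zero]
        exact (hs i (Or.inl (by push_cast at hi; omega)) y).symm
      | succ n ih =>
        intro i hi y
        have hr : radN M 1 i ≤ LinearMap.range (cm l i) := by
          refine iSup_le fun j => iSup_le fun hj => iSup_le fun c => ?_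
          rintro _ ⟨z, rfl⟩
          obtain ⟨w, rfl⟩ := ih j (by push_cast at hi; omega) z
          exact ⟨act Pc c w, cm_act l c w⟩
        obtain ⟨x, hx⟩ := (epi_iff_cm p).1 he i (cm (radG M 1).pr i y)
        have h3 : cm (radG M 1).pr i (y - cm l i x) = 0 := by
          rw [map_sub, ← hx, ← hl, cm_comp, sub_self]
        have h4 : y - cm l i x ∈ radN M 1 i := (gmb_pr_eq (radG M 1) i _).1 h3
        obtain ⟨w, hw⟩ := hr h4
        refine ⟨w + x, ?_⟩
        rw [map_add, hw, sub_add_cancel]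
    rw [epi_iff_cm]
    intro i
    exact key ((i - a).toNat + 1) i (by push_cast; omega)
  · intro i x hx
    apply hk
    rw [← hl, cm_comp, hx, map_zero]

end H60.KZ
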