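import Pool.Agent.H60.KZ.Fx1

/-!
# Row Fx2: an exact functor which sends `Pj ℬ j` to projectives generated in degree `j`

`FHyp F`: `F : GrMod ℬ ⥤ GrMod 𝒜` exact (instances), `F (Pj ℬ j)` is projective and generated in
degree `j`, `F M = 0` only if `M = 0`.

* `F_rad_zero`: let `Pc` be in `InAdd (Pj ℬ)`, `φ : F Pc ⟶ Sj 𝒜 j`, and `m : R ⟶ Pc` a morphism whose
  values lie in `radN Pc 1`.  Then `F m ≫ φ = 0`.  With `𝟙 Pc = Σ α_a ≫ β_a`,
  `F m ≫ φ = Σ F (m ≫ α_a) ≫ (F β_a ≫ φ)`, and `m ≫ α_a` has values in `radN (Pj ℬ l) 1 = ` degrees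
  `≥ l + 1` (`rad_map`).  So assume `Pc = Pj ℬ l`; `m` factors through `Jj ℬ l ⟶ Pj ℬ l`, so assume
  `R = Jj ℬ l` (`F (m' ≫ i) = F m' ≫ F i`).  `Jj ℬ l` has a cover `c : Q ⟶ Jj ℬ l` with `Q` in
  `InAdd (Pj ℬ (l + 1 + ·))` (`exists_cover_ge`; `Jj` is zero in degrees `≤ l`, finite dimensional:
  `Fd_Jj`); `F c` is epi; so it suffices that `ψ ≫ φ = 0` for all `ψ : F (Pj ℬ l') ⟶ F (Pj ℬ l)`,
  `l' ≥ l + 1`.  If `j ≠ l`, `φ = 0`: `F (Pj ℬ l)` is generated in degree `l` where `Sj 𝒜 j` is zero.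
  If `j = l`, `ψ ≫ φ` is a morphism to `Sj 𝒜 l` from a module which is zero in degree `l`
  (`genIn_zero`, `l < l'`): `hom_Sj_zero`.
* `F_hom_zero`: let `K` be finite dimensional and suppose every `F K ⟶ Sj 𝒜 j` is zero; then every
  `f : K ⟶ Sj ℬ j` is zero.  Suppose `f ≠ 0`.  Let `T` be the image of `f`
  (`K ⟶ T ⟶ Sj ℬ j`, epi-mono factorization): nonzero, `Fd`, concentrated in degree `j`.  `F T ≠ 0`,
  `F K ⟶ F T` epi.  By `exists_cover_eq` there is an epi `Q ⟶ T`, `Q` in `InAdd (Pj ℬ j)`; `F Q` is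
  generated in degree `j` (retract of a finite sum: prove that `GenIn` passes to retracts of finite
  sums), hence so is `F T` (`genIn_epi`), so `F T` is nonzero in degree `j`, zero in degrees `< j`.
  `T' = (geG (F T) (j+1)).quo` is nonzero, concentrated in degree `j`, `Fd`?  (no need: use a
  nonzero element `x` of degree `j`; the component `T' j` is a module over the semisimple ring
  `𝒜 0`; to have `InAdd` we need `Fd T'`: `T'` is a quotient of `F T`, and `F T` is a quotient of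
  `F K`, which is `Fd` by hypothesis `hFd`.)  So `T'` is in `InAdd (fun _ : Unit => Sj 𝒜 j)` and has a
  nonzero morphism to `Sj 𝒜 j`; the composite `F K ⟶ F T ⟶ T' ⟶ Sj 𝒜 j` is nonzero (epis).
-/

universe u

namespace H60.KZ

open CategoryTheory CategoryTheory.Limits

variable {k : Type u} [Field k] {B : Type u} [Ring B] [Algebra k B]
  {ℬ : ℤ → Submodule k B} [GradedAlgebra ℬ] [PosGr ℬ]
  {A : Type u} [Ring A] [Algebra k A]
  {𝒜 : ℤ → Submodule k A} [GradedAlgebra 𝒜] [PosGr 𝒜]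

/-- `F` sends the free module `ℬ⟨-j⟩` to a projective module generated in degree `j`, kills no
nonzero module, and preserves finite dimension. -/
structure FHyp (F : GrMod ℬ ⥤ GrMod 𝒜) : Prop where
  proj : ∀ j, Projective (F.obj (Pj ℬ j))
  gen : ∀ j, GenIn (F.obj (Pj ℬ j)) j
  faith : ∀ M, IsZero (F.obj M) → IsZero M
  fd : ∀ M, Fd M → Fd (F.obj M)

/-- morphisms out of a module generated in degree `q` vanish if they vanish in degree `q` -/
theorem Fx2_genIn_hom {M N : GrMod 𝒜} {q : ℤ} (h : GenIn M q) (f : M ⟶ N)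
    (hf : ∀ x : cmp M q, cm f q x = 0) : f = 0 := by
  refine hom_ext_cm fun i y => ?_
  obtain ⟨n, b, x, rfl⟩ := h i y
  rw [cm_zero, map_sum]
  refine Finset.sum_eq_zero fun a _ => ?_
  rw [cm_act, hf, map_zero]

theorem Fx2_Fd_epi {M N : GrMod 𝒜} (p : M ⟶ N) [hp : Epi p] (h : Fd M) : Fd N := by
  have hs := (epi_iff_cm p).1 hp
  obtain ⟨h1, a, b, h2⟩ := h
  refine ⟨fun i => ?_, a, b, fun i hi y => ?_⟩
  · haveI := h1 i
    exact Module.Finite.of_surjective (cm p i) (hs i)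
  · obtain ⟨x, rfl⟩ := hs i y
    rw [h2 i hi x, map_zero]

/-- the radical of the free module is zero in degrees `≤ l` -/
theorem Fx2_radN_low (l i : ℤ) (hi : i ≤ l) : radN (Pj 𝒜 l) 1 i = ⊥ := by
  refine le_bot_iff.1 ?_
  refine iSup_le fun l' => iSup_le fun hl => iSup_le fun b => ?_
  rintro _ ⟨y, rfl⟩
  rw [Submodule.mem_bot, GmF_Pj_low l l' (by lia) y, map_zero]

theorem Fx2_inAdd_map (F : GrMod ℬ ⥤ GrMod 𝒜) [F.Additive] {J : Type} {G : J → GrMod ℬ}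
    {M : GrMod ℬ} (h : InAdd G M) : InAdd (fun j => F.obj (G j)) (F.obj M) := by
  obtain ⟨n, j, α, β, h1⟩ := h
  refine ⟨n, j, fun a => F.map (α a), fun a => F.map (β a), ?_⟩
  rw [← F.map_id, h1, F.map_sum]
  exact Finset.sum_congr rfl fun a _ => F.map_comp _ _

variable [Module.Finite k B] [IsSemisimpleRing (ℬ 0)] [Module.Finite k A]
  [IsSemisimpleRing (𝒜 0)]

omit [Module.Finite k B] [IsSemisimpleRing (ℬ 0)] [Module.Finite k A]
  [IsSemisimpleRing (𝒜 0)] in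
theorem Fx2_psi (F : GrMod ℬ ⥤ GrMod 𝒜) (hF : FHyp F) {l l' : ℤ} (hl : l < l') (j : ℤ)
    (ψ : F.obj (Pj ℬ l') ⟶ F.obj (Pj ℬ l)) (φ : F.obj (Pj ℬ l) ⟶ Sj 𝒜 j) : ψ ≫ φ = 0 := by
  by_cases hj : l = j
  · subst hj
    exact hom_Sj_zero (fun x => genIn_zero (hF.gen l') hl x) _
  · have h0 : φ = 0 := Fx2_genIn_hom (hF.gen l) φ fun x =>
      Sj_supp j l (by rcases lt_or_gt_of_ne hj with h | h <;> [exact Or.inl h; exact Or.inr h]) _
    rw [h0, comp_zero]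

omit [IsSemisimpleRing (ℬ 0)] [Module.Finite k A] [IsSemisimpleRing (𝒜 0)] in
theorem Fx2_Jj (F : GrMod ℬ ⥤ GrMod 𝒜) [F.Additive] [PreservesFiniteLimits F]
    [PreservesFiniteColimits F] (hF : FHyp F) (l j : ℤ) (i : Jj ℬ l ⟶ Pj ℬ l)
    (φ : F.obj (Pj ℬ l) ⟶ Sj 𝒜 j) : F.map i ≫ φ = 0 := by
  obtain ⟨a, b, hab⟩ := GmD_bdd ℬ
  have hs : ∀ i : ℤ, (b.toNat : ℤ) < i → ℬ i = ⊥ := fun i hi =>
    hab i (Or.inr (lt_of_le_of_lt (Int.self_le_toNat b) hi))
  obtain ⟨Q, c, ⟨n, t, α, β, h1⟩, hc⟩ := exists_cover_ge (Jj ℬ l) (Fd_Jj l) (l + 1) _ (Jj_supp hs l)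
  haveI : Epi (F.map c) := inferInstance
  rw [← cancel_epi (F.map c), comp_zero]
  have h2 : c ≫ i = ∑ a, α a ≫ β a ≫ c ≫ i := by
    have e : c ≫ i = 𝟙 Q ≫ c ≫ i := (Category.id_comp _).symm
    rw [h1, Preadditive.sum_comp] at e
    simpa only [Category.assoc] using e
  rw [← Category.assoc, ← F.map_comp, h2, F.map_sum, Preadditive.sum_comp]
  refine Finset.sum_eq_zero fun a _ => ?_
  rw [F.map_comp, Category.assoc, Fx2_psi F hF (by lia) j (F.map (β a ≫ c ≫ i)) φ, comp_zero]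

theorem F_rad_zero (F : GrMod ℬ ⥤ GrMod 𝒜) [F.Additive] [PreservesFiniteLimits F]
    [PreservesFiniteColimits F] (hF : FHyp F) {Pc R : GrMod ℬ} (hP : InAdd (Pj ℬ) Pc) (j : ℤ)
    (φ : F.obj Pc ⟶ Sj 𝒜 j) (m : R ⟶ Pc) (hm : ∀ i x, cm m i x ∈ radN Pc 1 i) :
    F.map m ≫ φ = 0 := by
  obtain ⟨n, t, α, β, h1⟩ := hP
  have h2 : m = ∑ a, (m ≫ α a) ≫ β a := by
    have e : m = m ≫ 𝟙 Pc := (Category.comp_id _).symm
    rw [h1, Preadditive.comp_sum] at e
    simpa only [Category.assoc] using e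
  have h3 : F.map m = ∑ a, F.map (m ≫ α a) ≫ F.map (β a) := by
    conv_lhs => rw [h2]
    rw [F.map_sum]
    exact Finset.sum_congr rfl fun a _ => F.map_comp _ _
  rw [h3, Preadditive.sum_comp]
  refine Finset.sum_eq_zero fun a _ => ?_
  rw [Category.assoc]
  obtain ⟨i, p, w, hS, -⟩ := Jj_ses (ℬ := ℬ) (t a)
  haveI : Mono (ShortComplex.mk i p w).f := hS.mono_f
  have h4 : (m ≫ α a) ≫ p = 0 := by
    refine hom_ext_cm fun q x => ?_
    rw [cm_zero, cm_comp, cm_comp]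
    by_cases hq : q = t a
    · have h5 : cm (α a) q (cm m q x) ∈ radN (Pj ℬ (t a)) 1 q :=
        rad_map (α a) 1 q (Submodule.mem_map_of_mem (hm q x))
      rw [Fx2_radN_low (t a) q hq.le, Submodule.mem_bot] at h5
      rw [h5, map_zero]
    · exact Sj_supp (t a) q
        (by rcases lt_or_gt_of_ne hq with h | h <;> [exact Or.inl h; exact Or.inr h]) _
  have h6 : hS.exact.lift (m ≫ α a) h4 ≫ i = m ≫ α a := hS.exact.lift_f _ _
  rw [← h6, F.map_comp, Category.assoc, Fx2_Jj F hF (t a) j i (F.map (β a) ≫ φ), comp_zero]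

theorem F_hom_zero (F : GrMod ℬ ⥤ GrMod 𝒜) [F.Additive] [PreservesFiniteLimits F]
    [PreservesFiniteColimits F] (hF : FHyp F) {K : GrMod ℬ} (hK : Fd K) (j : ℤ)
    (h : ∀ g : F.obj K ⟶ Sj 𝒜 j, g = 0) (f : K ⟶ Sj ℬ j) : f = 0 := by
  by_contra hf
  -- the image of `f`
  obtain ⟨T, e, m, he, hmm, hem⟩ : ∃ (T : GrMod ℬ) (e : K ⟶ T) (m : T ⟶ Sj ℬ j),
      Epi e ∧ Mono m ∧ e ≫ m = f :=
    ⟨image f, factorThruImage f, image.ι f, inferInstance, inferInstance, image.fac f⟩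
  have hTs : Supp T j j := fun i hi x => by
    apply (mono_iff_cm m).1 hmm i
    rw [map_zero]
    exact Sj_supp j i hi _
  have hTF : Fd T := Fx2_Fd_epi e hK
  have hT0 : ¬ IsZero (F.obj T) := by
    intro h0
    have h1 : IsZero T := hF.faith T h0
    apply hf
    rw [← hem, h1.eq_of_tgt e 0, zero_comp]
  obtain ⟨Q, p, hQ, hp⟩ := exists_cover_eq T hTF j hTs
  have hgQ : GenIn (F.obj Q) j :=
    GmL_genIn_inAdd (fun _ : Unit => hF.gen j) (Fx2_inAdd_map F hQ)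
  haveI : Epi (F.map p) := inferInstance
  have hgT : GenIn (F.obj T) j := genIn_epi (F.map p) hgQ
  haveI : Epi (F.map e) := inferInstance
  -- a nonzero element of degree `j`
  obtain ⟨x, hx⟩ : ∃ x : cmp (F.obj T) j, x ≠ 0 := by
    by_contra hcon
    push Not at hcon
    apply hT0
    rw [isZero_iff_cm]
    intro i y
    obtain ⟨n, b, x, rfl⟩ := hgT i y
    refine Finset.sum_eq_zero fun a _ => ?_
    rw [hcon (x a), map_zero]
  haveI hpr : Epi (geG (F.obj T) (j + 1)).pr := (geG (F.obj T) (j + 1)).shortExact.epi_g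
  have hT's : Supp (geG (F.obj T) (j + 1)).quo j j :=
    GmF_quo_low (fun i hi y => genIn_zero hgT hi y) j
  haveI hep : Epi (F.map e ≫ (geG (F.obj T) (j + 1)).pr) := epi_comp _ _
  have hT'F : Fd (geG (F.obj T) (j + 1)).quo :=
    Fx2_Fd_epi (F.map e ≫ (geG (F.obj T) (j + 1)).pr) (hF.fd K hK)
  obtain ⟨n, t, α, β, h1⟩ := sem_inAdd_supp hT's hT'F
  have h2 : F.map e ≫ (geG (F.obj T) (j + 1)).pr = 0 := by
    have e1 : F.map e ≫ (geG (F.obj T) (j + 1)).pr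
        = (F.map e ≫ (geG (F.obj T) (j + 1)).pr) ≫ 𝟙 _ := (Category.comp_id _).symm
    rw [e1, h1, Preadditive.comp_sum]
    refine Finset.sum_eq_zero fun a _ => ?_
    have e2 := h ((F.map e ≫ (geG (F.obj T) (j + 1)).pr) ≫ α a)
    rw [← Category.assoc, e2, zero_comp]
  obtain ⟨z, hz⟩ := (epi_iff_cm _).1 hep j (cm (geG (F.obj T) (j + 1)).pr j x)
  rw [h2, cm_zero] at hz
  exact hx (GmL_pr_inj (F.obj T) j x hz.symm)

end H60.KZ
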