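import Pool.Agent.H60.KZ.Gma

/-!
# Graded modules over a graded algebra: basic constructions
-/

universe u

namespace H60.KZ

open CategoryTheory CategoryTheory.Limits

variable {k : Type u} [Field k] {B : Type u} [Ring B] [Algebra k B]
  {ℬ : ℤ → Submodule k B} [GradedAlgebra ℬ]

/-- The homogeneous component of degree `i`. -/
abbrev cmp (M : GrMod ℬ) (i : ℤ) : ModuleCat.{u} k := M.obj.obj ⟨i⟩

/-- The action of an element of degree `j - i` on the component of degree `i`. -/
def act (M : GrMod ℬ) {i j : ℤ} (b : ℬ (j - i)) : cmp M i →ₗ[k] cmp M j :=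
  (M.obj.map (X := ⟨i⟩) (Y := ⟨j⟩) b).hom

/-- The component in degree `i` of a morphism. -/
def cm {M N : GrMod ℬ} (f : M ⟶ N) (i : ℤ) : cmp M i →ₗ[k] cmp N i := (f.hom.app ⟨i⟩).hom

/-- Construction of graded modules. -/
def mkGr (V : ℤ → Type u) [∀ i, AddCommGroup (V i)] [∀ i, Module k (V i)]
    (a : ∀ i j : ℤ, ℬ (j - i) →ₗ[k] V i →ₗ[k] V j)
    (a_one : ∀ i (x : V i) (h : (1 : B) ∈ ℬ (i - i)), a i i ⟨1, h⟩ x = x)
    (a_mul : ∀ i j l (b : ℬ (j - i)) (b' : ℬ (l - j)) (h : b'.1 * b.1 ∈ ℬ (l - i)) (x : V i),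
      a i l ⟨b'.1 * b.1, h⟩ x = a j l b' (a i j b x)) : GrMod ℬ where
  obj :=
    { obj := fun i => ModuleCat.of k (V i.deg)
      map := fun {i j} b => ModuleCat.ofHom (a i.deg j.deg b)
      map_id := fun i => by
        ext x
        exact a_one i.deg x _
      map_comp := fun {i j l} b b' => by
        ext x
        exact a_mul i.deg j.deg l.deg b b' _ x }
  property := by
    intro i j b b' r x
    change a i.deg j.deg (b + r • b') x = a i.deg j.deg b x + r • a i.deg j.deg b' x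
    rw [map_add, map_smul]
    rfl

/-- Construction of morphisms of graded modules. -/
def mkHom {M N : GrMod ℬ} (f : ∀ i, cmp M i →ₗ[k] cmp N i)
    (hf : ∀ (i j : ℤ) (b : ℬ (j - i)) (x : cmp M i), f j (act M b x) = act N b (f i x)) :
    M ⟶ N := ObjectProperty.homMk
  { app := fun i => ModuleCat.ofHom (f i.deg)
    naturality := fun i j b => by
      ext x
      exact hf i.deg j.deg b x }

/-- The free module generated in degree `j`: `ℬ⟨-j⟩`. -/
def Pj (ℬ : ℤ → Submodule k B) [GradedAlgebra ℬ] (j : ℤ) : GrMod ℬ :=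
  mkGr (fun i => ℬ (i - j))
    (fun i l => LinearMap.mk₂ k (fun b x => ⟨b.1 * x.1, by
        have := SetLike.GradedMul.mul_mem b.2 x.2
        rwa [show l - i + (i - j) = l - j by ring] at this⟩)
      (fun _ _ _ => Subtype.ext (add_mul _ _ _)) (fun _ _ _ => Subtype.ext (smul_mul_assoc _ _ _))
      (fun _ _ _ => Subtype.ext (mul_add _ _ _)) (fun _ _ _ => Subtype.ext (mul_smul_comm _ _ _)))
    (fun _ _ _ => Subtype.ext (one_mul _))
    (fun _ _ _ _ _ _ _ => Subtype.ext (mul_assoc _ _ _))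

/-- A graded submodule. -/
structure SubG (M : GrMod ℬ) where
  /-- the components -/
  N : ∀ i, Submodule k (cmp M i)
  st : ∀ (i j : ℤ) (b : ℬ (j - i)) (x : cmp M i), x ∈ N i → act M b x ∈ N j

theorem act_one (M : GrMod ℬ) (i : ℤ) (x : cmp M i) (h : (1 : B) ∈ ℬ (i - i)) :
    act M ⟨1, h⟩ x = x := by
  have := M.obj.map_id ⟨i⟩
  exact congrArg (fun t : cmp M i ⟶ cmp M i => t.hom x) this

theorem act_mul (M : GrMod ℬ) (i j l : ℤ) (b : ℬ (j - i)) (b' : ℬ (l - j))
    (h : b'.1 * b.1 ∈ ℬ (l - i)) (x : cmp M i) :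
    act M ⟨b'.1 * b.1, h⟩ x = act M b' (act M b x) := by
  have := M.obj.map_comp (X := ⟨i⟩) (Y := ⟨j⟩) (Z := ⟨l⟩) b b'
  exact congrArg (fun t : cmp M i ⟶ cmp M l => t.hom x) this

theorem act_add (M : GrMod ℬ) {i j : ℤ} (b b' : ℬ (j - i)) (x : cmp M i) :
    act M (b + b') x = act M b x + act M b' x := by
  have h := M.property.additive.map_add (X := ⟨i⟩) (Y := ⟨j⟩) (f := b) (g := b')
  exact congrArg (fun t : cmp M i ⟶ cmp M j => t.hom x) h

theorem act_smul (M : GrMod ℬ) {i j : ℤ} (r : k) (b : ℬ (j - i)) (x : cmp M i) :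
    act M (r • b) x = r • act M b x := by
  have h := M.property.smul ⟨i⟩ ⟨j⟩ b r
  exact congrArg (fun t : cmp M i ⟶ cmp M j => t.hom x) h

theorem cm_act {M N : GrMod ℬ} (f : M ⟶ N) {i j : ℤ} (b : ℬ (j - i)) (x : cmp M i) :
    cm f j (act M b x) = act N b (cm f i x) := by
  have h := f.hom.naturality (X := ⟨i⟩) (Y := ⟨j⟩) b
  exact congrArg (fun t : cmp M i ⟶ cmp N j => t.hom x) h

/-- The action as a bilinear map. -/
def actL (M : GrMod ℬ) (i j : ℤ) : ℬ (j - i) →ₗ[k] cmp M i →ₗ[k] cmp M j :=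
  LinearMap.mk₂ k (fun b x => act M b x) (act_add M) (act_smul M)
    (fun _ _ _ => map_add _ _ _) (fun _ _ _ => map_smul _ _ _)

namespace SubG

variable {M : GrMod ℬ} (K : SubG M)

/-- A graded submodule as a graded module. -/
def sub : GrMod ℬ :=
  mkGr (fun i => K.N i)
    (fun _ _ => LinearMap.mk₂ k (fun b x => ⟨act M b x.1, K.st _ _ _ _ x.2⟩)
      (fun _ _ _ => Subtype.ext (act_add _ _ _ _)) (fun _ _ _ => Subtype.ext (act_smul _ _ _ _))
      (fun _ _ _ => Subtype.ext (map_add _ _ _)) (fun _ _ _ => Subtype.ext (map_smul _ _ _)))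
    (fun _ _ _ => Subtype.ext (act_one _ _ _ _))
    (fun _ _ _ _ _ _ _ => Subtype.ext (act_mul _ _ _ _ _ _ _ _))

/-- The quotient by a graded submodule. -/
def quo : GrMod ℬ :=
  mkGr (fun i => cmp M i ⧸ K.N i)
    (fun i l =>
      { toFun := fun b => (K.N i).mapQ (K.N l) (act M b) (fun x hx => K.st i l b x hx)
        map_add' := fun b b' => by
          ext x
          exact congrArg (Submodule.mkQ _) (act_add M b b' x)
        map_smul' := fun r b => by
          ext x
          exact congrArg (Submodule.mkQ _) (act_smul M r b x) })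
    (fun i x h => by
      obtain ⟨x, rfl⟩ := Submodule.mkQ_surjective _ x
      exact congrArg (Submodule.mkQ _) (act_one M i x h))
    (fun i j l b b' h x => by
      obtain ⟨x, rfl⟩ := Submodule.mkQ_surjective _ x
      exact congrArg (Submodule.mkQ _) (act_mul M i j l b b' h x))

/-- The inclusion of a graded submodule. -/
def inc : K.sub ⟶ M := mkHom (fun i => (K.N i).subtype) (fun _ _ _ _ => rfl)

/-- The projection onto the quotient. -/
def pr : M ⟶ K.quo := mkHom (fun i => (K.N i).mkQ) (fun _ _ _ _ => rfl)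

end SubG

/-- The algebra lives in nonnegative degrees. -/
class PosGr (ℬ : ℤ → Submodule k B) : Prop where
  neg : ∀ i : ℤ, i < 0 → ℬ i = ⊥

theorem act_neg_deg [PosGr ℬ] (M : GrMod ℬ) {i j : ℤ} (hij : j < i) (b : ℬ (j - i))
    (x : cmp M i) : act M b x = 0 := by
  have h0 : ℬ (j - i) = ⊥ := PosGr.neg _ (by lia)
  have hb : b = 0 := by
    apply Subtype.ext
    have hb' : b.1 ∈ (⊥ : Submodule k B) := by rw [← h0]; exact b.2
    simpa using hb'
  have : actL M i j b x = 0 := by rw [hb]; simp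
  exact this

/-- The submodule `M_{≥ q}`. -/
def geG [PosGr ℬ] (M : GrMod ℬ) (q : ℤ) : SubG M where
  N i := if q ≤ i then ⊤ else ⊥
  st i j b x hx := by
    by_cases hj : q ≤ j
    · simp [hj]
    · by_cases hi : q ≤ i
      · rw [act_neg_deg M (by lia) b x]
        exact zero_mem _
      · simp only [hi, if_false, Submodule.mem_bot] at hx
        rw [hx, map_zero]
        exact zero_mem _

/-- The simple-type module `ℬ 0` placed in degree `j`. -/
def Sj (ℬ : ℤ → Submodule k B) [GradedAlgebra ℬ] [PosGr ℬ] (j : ℤ) : GrMod ℬ :=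
  (geG (Pj ℬ j) (j + 1)).quo

/-- The components of `B_{≥ t} M`. -/
def radN (M : GrMod ℬ) (t i : ℤ) : Submodule k (cmp M i) :=
  ⨆ (l : ℤ) (_ : t ≤ i - l) (b : ℬ (i - l)), LinearMap.range (act M b)

theorem act_mem_radN (M : GrMod ℬ) (t : ℤ) {l i : ℤ} (h : t ≤ i - l) (b : ℬ (i - l))
    (y : cmp M l) : act M b y ∈ radN M t i :=
  Submodule.mem_iSup_of_mem l (Submodule.mem_iSup_of_mem h
    (Submodule.mem_iSup_of_mem b ⟨y, rfl⟩))

/-- The submodule `B_{≥ t} M`. -/
def radG [PosGr ℬ] (M : GrMod ℬ) (t : ℤ) : SubG M where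
  N i := radN M t i
  st i j b x hx := by
    have key : radN M t i ≤ (radN M t j).comap (act M b) := by
      refine iSup_le fun l => iSup_le fun hl => iSup_le fun b' => ?_
      rintro _ ⟨y, rfl⟩
      rw [Submodule.mem_comap]
      by_cases hij : i ≤ j
      · have hmem : b.1 * b'.1 ∈ ℬ (j - l) := by
          have := SetLike.GradedMul.mul_mem b.2 b'.2
          rwa [show j - i + (i - l) = j - l by ring] at this
        rw [← act_mul M l i j b' b hmem y]
        exact act_mem_radN M t (by lia) _ y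
      · rw [act_neg_deg M (by lia)]
        exact zero_mem _
    exact key hx

/-- Translation of the degrees. -/
def trl (d : ℤ) : GD ℬ ⥤ GD ℬ where
  obj i := ⟨i.deg - d⟩
  map {i j} b := ⟨b.1, by
    change b.1 ∈ ℬ ((j.deg - d) - (i.deg - d))
    rw [show (j.deg - d) - (i.deg - d) = j.deg - i.deg by ring]
    exact b.2⟩
  map_id _ := rfl
  map_comp _ _ := rfl

/-- The shift of the grading: `(shf d M) i = M (i - d)`. -/
def shf (d : ℤ) : GrMod ℬ ⥤ GrMod ℬ where
  obj M := ⟨trl d ⋙ M.obj, fun i j b b' r x =>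
    M.property ((trl d).obj i) ((trl d).obj j) ((trl d).map b) ((trl d).map b') r x⟩
  map f := ObjectProperty.homMk (Functor.whiskerLeft (trl d) f.hom)
  map_id _ := rfl
  map_comp _ _ := rfl

end H60.KZ
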