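import Pool.Agent.H60.KZ.Gm0

/-!
# Definitions on graded modules
-/

universe u

namespace H60.KZ

open CategoryTheory CategoryTheory.Limits

variable {k : Type u} [Field k] {B : Type u} [Ring B] [Algebra k B]
  {ℬ : ℤ → Submodule k B} [GradedAlgebra ℬ]

/-- `M` is a retract of a finite direct sum of objects `F j`. -/
def InAdd {C : Type*} [Category* C] [Preadditive C] {J : Type} (F : J → C) (M : C) : Prop :=
  ∃ (n : ℕ) (j : Fin n → J) (α : ∀ a, M ⟶ F (j a)) (β : ∀ a, F (j a) ⟶ M),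
    𝟙 M = ∑ a, α a ≫ β a

/-- `M` is concentrated in the degrees `a, ..., b`. -/
def Supp (M : GrMod ℬ) (a b : ℤ) : Prop := ∀ i, (i < a ∨ b < i) → ∀ x : cmp M i, x = 0

/-- `M` is finite dimensional. -/
def Fd (M : GrMod ℬ) : Prop := (∀ i, Module.Finite k (cmp M i)) ∧ ∃ a b, Supp M a b

/-- `M` is killed by all homogeneous elements of nonzero degree. -/
def Sem (M : GrMod ℬ) : Prop :=
  ∀ (i j : ℤ) (b : ℬ (j - i)) (x : cmp M i), i ≠ j → act M b x = 0

/-- `M` is generated by its component of degree `q`. -/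
def GenIn (M : GrMod ℬ) (q : ℤ) : Prop :=
  ∀ (i : ℤ) (y : cmp M i), ∃ (n : ℕ) (b : Fin n → ℬ (i - q)) (x : Fin n → cmp M q),
    y = ∑ a, act M (b a) (x a)

/-- A projective resolution of `M` by graded modules `P n` generated in degree `n`. -/
def HasLinRes (M : GrMod ℬ) : Prop :=
  ∃ (P : ℕ → GrMod ℬ) (dd : ∀ n, P (n + 1) ⟶ P n) (ε : P 0 ⟶ M),
    (∀ n, Projective (P n)) ∧ (∀ n : ℕ, GenIn (P n) n) ∧ Epi ε ∧
    (∃ w : dd 0 ≫ ε = 0, (ShortComplex.mk (dd 0) ε w).Exact) ∧
    ∀ n, ∃ w : dd (n + 1) ≫ dd n = 0, (ShortComplex.mk (dd (n + 1)) (dd n) w).Exact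

variable (ℬ) in
/-- A positively graded algebra is Koszul if every simple graded module concentrated in degree `0`
has a graded projective resolution whose `n`-th term is generated in degree `n`. -/
def IsKoszul : Prop := ∀ M : GrMod ℬ, Simple M → Supp M 0 0 → HasLinRes M

end H60.KZ
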