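import Pool.Agent.H60.KZ.GmF

/-!
# Row GmS: the shift of the grading

`(shf d M) i = M (i - d)`, on morphisms `cm (shf d f) i = cm f (i - d)` (by `rfl`).

* additive, linear: pointwise (`hom_ext_cm`).
* exactness: `shf d` preserves finite limits and colimits: it is an equivalence of categories
  with inverse `shf (-d)`: `shfE`.  The unit and counit are given by the isomorphisms
  `M (i - d - (-d)) ≅ M i` induced by the equality of integers, e.g. via an isomorphism of functors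
  `trl d ⋙ trl (-d) ≅ 𝟭` with components `⟨1, _⟩` (an isomorphism in `GD ℬ` between two objects of the
  same degree given by the unit of `B`; `NatIso.ofComponents`), whiskered with `M.obj`.
  Only `IsEquivalence (shf d)` is needed (it can also be shown by full + faithful + essentially
  surjective).
* `shf_Sj`, `shf_Pj`: isomorphisms; `(shf d (Pj ℬ j)) i = ℬ (i - d - j)` and
  `(Pj ℬ (j+d)) i = ℬ (i - (j+d))`: the isomorphism is `x ↦ ⟨x.1, _⟩` (`mkHom`, `isIso_iff_cm`).
  For `Sj` use the quotient maps (the submodules correspond: `j + 1 ≤ i - d ↔ j + d + 1 ≤ i`);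
  or: `shf d` sends the short exact sequence `Jj_ses j` to a short exact sequence; the
  isomorphism `shf d (Pj ℬ j) ≅ Pj ℬ (j+d)` matches the submodules `geG`.
* `shf_Fd`: components are the same, up to reindexing.
-/

universe u

namespace H60.KZ

open CategoryTheory CategoryTheory.Limits

variable {k : Type u} [Field k] {B : Type u} [Ring B] [Algebra k B]
  {ℬ : ℤ → Submodule k B} [GradedAlgebra ℬ]

theorem gmS_cm (d : ℤ) {M N : GrMod ℬ} (f : M ⟶ N) (i : ℤ) (x : cmp M (i - d)) :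
    cm ((shf d).map f) i x = cm f (i - d) x := rfl

instance shf_additive (d : ℤ) : (shf d : GrMod ℬ ⥤ GrMod ℬ).Additive where
  map_add {M N f g} := hom_ext_cm fun i x => by
    rw [cm_add]
    exact cm_add f g (i - d) x

instance shf_linear (d : ℤ) : (shf d : GrMod ℬ ⥤ GrMod ℬ).Linear k where
  map_smul {M N} f r := hom_ext_cm fun i x => by
    rw [cm_smul]
    exact cm_smul r f (i - d) x

theorem gmS_one {i j : ℤ} (h : i = j) : (1 : B) ∈ ℬ (j - i) := by
  subst h
  rw [sub_self]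
  exact SetLike.GradedOne.one_mem

theorem gmS_bij (M : GrMod ℬ) {i j : ℤ} (h : i = j) (h1 : (1 : B) ∈ ℬ (j - i)) :
    Function.Bijective (act M ⟨1, h1⟩ : cmp M i →ₗ[k] cmp M j) := by
  subst h
  have h2 : (act M ⟨1, h1⟩ : cmp M i → cmp M i) = id := funext fun x => act_one M i x h1
  rw [h2]
  exact Function.bijective_id

/-- the comparison `M i → M (i - e - d)` for `d + e = 0` -/
def gmS_hom (d e : ℤ) (h : d + e = 0) (M : GrMod ℬ) : M ⟶ (shf e).obj ((shf d).obj M) :=
  mkHom (fun i => (act M (i := i) (j := i - e - d) ⟨1, gmS_one (by linarith)⟩))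
    (fun i j b x => by
      have h1 : (1 : B) ∈ ℬ (j - e - d - j) := gmS_one (by linarith)
      have h2 : (1 : B) ∈ ℬ (i - e - d - i) := gmS_one (by linarith)
      have h3 : b.1 ∈ ℬ (j - e - d - (i - e - d)) := by
        rw [show j - e - d - (i - e - d) = j - i by ring]
        exact b.2
      have h4 : (1 : B) * b.1 ∈ ℬ (j - e - d - i) := by
        rw [one_mul, show j - e - d - i = j - i by linarith]
        exact b.2
      have h5 : b.1 * (1 : B) ∈ ℬ (j - e - d - i) := by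
        rw [mul_one, show j - e - d - i = j - i by linarith]
        exact b.2
      have e1 := act_mul M i j (j - e - d) b ⟨1, h1⟩ h4 x
      have e2 := act_mul M i (i - e - d) (j - e - d) ⟨1, h2⟩ ⟨b.1, h3⟩ h5 x
      have e3 : (⟨(1 : B) * b.1, h4⟩ : ℬ (j - e - d - i)) = ⟨b.1 * (1 : B), h5⟩ :=
        Subtype.ext (show (1 : B) * b.1 = b.1 * (1 : B) by rw [one_mul, mul_one])
      have e4 : act M ⟨1, h1⟩ (act M b x) = act M ⟨b.1, h3⟩ (act M ⟨1, h2⟩ x) := by
        rw [← e1, ← e2, e3]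
      exact e4)

theorem gmS_cm_hom (d e : ℤ) (h : d + e = 0) (M : GrMod ℬ) (i : ℤ) (x : cmp M i) :
    cm (gmS_hom d e h M) i x =
      act M (i := i) (j := i - e - d) ⟨1, gmS_one (by linarith)⟩ x := by
  unfold gmS_hom
  rw [cm_mkHom]
  rfl

instance gmS_isIso (d e : ℤ) (h : d + e = 0) (M : GrMod ℬ) : IsIso (gmS_hom d e h M) := by
  rw [isIso_iff_cm]
  intro i
  have h1 : (cm (gmS_hom d e h M) i : cmp M i → cmp M (i - e - d)) =
      (act M (i := i) (j := i - e - d) ⟨1, gmS_one (by linarith)⟩) :=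
    funext fun x => gmS_cm_hom d e h M i x
  rw [show (⇑(cm (gmS_hom d e h M) i)) = (cm (gmS_hom d e h M) i : cmp M i → cmp M (i - e - d))
    from rfl, h1]
  exact gmS_bij M (by linarith) _

/-- `M` and its double shift -/
noncomputable def gmS_isoM (d e : ℤ) (h : d + e = 0) (M : GrMod ℬ) :
    M ≅ (shf e).obj ((shf d).obj M) :=
  haveI := gmS_isIso d e h M
  asIso (gmS_hom d e h M)

/-- `shf d ⋙ shf e` is isomorphic to the identity if `d + e = 0` -/
noncomputable def gmS_iso (d e : ℤ) (h : d + e = 0) :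
    𝟭 (GrMod ℬ) ≅ (shf d : GrMod ℬ ⥤ GrMod ℬ) ⋙ shf e :=
  NatIso.ofComponents (fun M => gmS_isoM d e h M) (by
    intro M N f
    refine hom_ext_cm fun i x => ?_
    show cm (f ≫ gmS_hom d e h N) i x = cm (gmS_hom d e h M ≫ (shf e).map ((shf d).map f)) i x
    rw [cm_comp, cm_comp, gmS_cm_hom, gmS_cm_hom]
    exact (cm_act f _ x).symm)

instance shf_equiv (d : ℤ) : (shf d : GrMod ℬ ⥤ GrMod ℬ).IsEquivalence :=
  (CategoryTheory.Equivalence.mk (shf d) (shf (-d)) (gmS_iso d (-d) (by ring))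
    (gmS_iso (-d) d (by ring)).symm : GrMod ℬ ≌ GrMod ℬ).isEquivalence_functor

/-- the comparison of components of free modules -/
def gmS_e0 (d j i : ℤ) : ℬ (i - d - j) →ₗ[k] ℬ (i - (j + d)) where
  toFun x := ⟨x.1, by
    rw [show i - (j + d) = i - d - j by ring]
    exact x.2⟩
  map_add' _ _ := rfl
  map_smul' _ _ := rfl

theorem gmS_e0_bij (d j i : ℤ) : Function.Bijective (gmS_e0 (ℬ := ℬ) d j i) := by
  constructor
  · intro x y hxy
    have h : (gmS_e0 (ℬ := ℬ) d j i x).1 = (gmS_e0 (ℬ := ℬ) d j i y).1 := by rw [hxy]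
    exact Subtype.ext h
  · intro y
    exact ⟨⟨y.1, by
      rw [show i - d - j = i - (j + d) by ring]
      exact y.2⟩, rfl⟩

/-- the comparison of components of free modules -/
def gmS_e (d j i : ℤ) : cmp (Pj ℬ j) (i - d) →ₗ[k] cmp (Pj ℬ (j + d)) i := gmS_e0 d j i

theorem gmS_e_bij (d j i : ℤ) : Function.Bijective (gmS_e (ℬ := ℬ) d j i) := gmS_e0_bij d j i

theorem shf_Pj (d j : ℤ) : Nonempty ((shf d).obj (Pj ℬ j) ≅ Pj ℬ (j + d)) := by
  let f : (shf d).obj (Pj ℬ j) ⟶ Pj ℬ (j + d) :=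
    mkHom (fun i => gmS_e (ℬ := ℬ) d j i)
      (fun i l b x => rfl)
  have hf : IsIso f := by
    rw [isIso_iff_cm]
    intro i
    exact gmS_e_bij d j i
  exact ⟨asIso f⟩

theorem shf_Sj [PosGr ℬ] (d j : ℤ) : Nonempty ((shf d).obj (Sj ℬ j) ≅ Sj ℬ (j + d)) := by
  have hle : ∀ i : ℤ, (geG (Pj ℬ j) (j + 1)).N (i - d) ≤
      ((geG (Pj ℬ (j + d)) (j + d + 1)).N i).comap (gmS_e (ℬ := ℬ) d j i) := by
    intro i x hx
    change gmS_e (ℬ := ℬ) d j i x ∈ (geG (Pj ℬ (j + d)) (j + d + 1)).N i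
    by_cases h : j + d + 1 ≤ i
    · have e : (geG (Pj ℬ (j + d)) (j + d + 1)).N i = ⊤ := if_pos h
      rw [e]
      exact Submodule.mem_top
    · have e : (geG (Pj ℬ j) (j + 1)).N (i - d) = ⊥ := if_neg (by lia)
      rw [e, Submodule.mem_bot] at hx
      rw [hx, map_zero]
      exact zero_mem _
  let g : ∀ i, cmp ((shf d).obj (Sj ℬ j)) i →ₗ[k] cmp (Sj ℬ (j + d)) i := fun i =>
    Submodule.mapQ ((geG (Pj ℬ j) (j + 1)).N (i - d)) ((geG (Pj ℬ (j + d)) (j + d + 1)).N i)
      (gmS_e (ℬ := ℬ) d j i) (hle i)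
  let f : (shf d).obj (Sj ℬ j) ⟶ Sj ℬ (j + d) := mkHom g (fun i l b x => by
    obtain ⟨x, rfl⟩ := Submodule.mkQ_surjective ((geG (Pj ℬ j) (j + 1)).N (i - d)) x
    rfl)
  have hf : IsIso f := by
    rw [isIso_iff_cm]
    intro i
    show Function.Bijective (g i)
    constructor
    · rw [← LinearMap.ker_eq_bot, Submodule.eq_bot_iff]
      intro x hx
      obtain ⟨x, rfl⟩ := Submodule.mkQ_surjective ((geG (Pj ℬ j) (j + 1)).N (i - d)) x
      rw [LinearMap.mem_ker] at hx
      have h1 : ((geG (Pj ℬ (j + d)) (j + d + 1)).N i).mkQ (gmS_e (ℬ := ℬ) d j i x) = 0 := hx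
      rw [Submodule.mkQ_apply, Submodule.Quotient.mk_eq_zero] at h1
      rw [Submodule.mkQ_apply]
      refine (Submodule.Quotient.mk_eq_zero _).2 ?_
      by_cases h : j + d + 1 ≤ i
      · have e : (geG (Pj ℬ j) (j + 1)).N (i - d) = ⊤ := if_pos (by lia)
        rw [e]
        exact Submodule.mem_top
      · have e : (geG (Pj ℬ (j + d)) (j + d + 1)).N i = ⊥ := if_neg h
        rw [e, Submodule.mem_bot] at h1
        have h2 : x = 0 := (gmS_e_bij d j i).1 (h1.trans (map_zero (gmS_e (ℬ := ℬ) d j i)).symm)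
        rw [h2]
        exact zero_mem _
    · intro y
      obtain ⟨y, rfl⟩ := Submodule.mkQ_surjective ((geG (Pj ℬ (j + d)) (j + d + 1)).N i) y
      obtain ⟨x, hx⟩ := (gmS_e_bij d j i).2 y
      refine ⟨((geG (Pj ℬ j) (j + 1)).N (i - d)).mkQ x, ?_⟩
      rw [← hx]
      rfl
  exact ⟨asIso f⟩

theorem shf_Fd (d : ℤ) (M : GrMod ℬ) : Fd ((shf d).obj M) ↔ Fd M := by
  constructor
  · rintro ⟨h1, a, b, h2⟩
    refine ⟨fun i => ?_, a - d, b - d, fun i hi x => ?_⟩
    · obtain ⟨j, rfl⟩ : ∃ j, i = j - d := ⟨i + d, by ring⟩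
      exact h1 j
    · obtain ⟨j, rfl⟩ : ∃ j, i = j - d := ⟨i + d, by ring⟩
      exact h2 j (by lia) x
  · rintro ⟨h1, a, b, h2⟩
    refine ⟨fun i => h1 (i - d), a + d, b + d, fun i hi x => ?_⟩
    exact h2 (i - d) (by lia) x

end H60.KZ
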