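import Mathlib

/-!
# Graded modules over a graded algebra, as linear functors (row Gma: the four instances at the end)

`GD ℬ` is the category with objects the integers and `Hom(i,j) = ℬ (j-i)`;
a graded left module is a `k`-linear functor `GD ℬ ⥤ ModuleCat k`: it consists of the vector spaces
`M i` and the actions `ℬ (j-i) × M i → M j`.

Row Gma: prove the four closure instances at the end of the file.  Kernels, cokernels and finite
products in the functor category are computed pointwise.  E.g. kernels: let `κ : K ⟶ F` be a kernel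
of `f : F ⟶ G`, with `F` linear.  `κ` is a monomorphism, so every `κ.app i` is a monomorphism
(injective), and `K.map (b + b') ≫ κ.app j = κ.app i ≫ F.map (b + b') = ... =
(K.map b + K.map b') ≫ κ.app j`, hence `K.map (b + b') = K.map b + K.map b'`; same for `r • b`.
Cokernels: dual, with `G.map` and the epimorphism `G ⟶ coker`.  Products: the projections
`P ⟶ F j` are jointly monic pointwise (evaluation preserves limits).
The closure classes are in `Mathlib/CategoryTheory/ObjectProperty/Kernels.lean`, `FiniteProducts.lean`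
(`ObjectProperty.IsClosedUnderKernels` = closed under limits of shape `WalkingParallelPair`-like
presentations: look at the constructors there).
-/

universe u

namespace H60.KZ

open CategoryTheory CategoryTheory.Limits

variable {k : Type u} [Field k] {B : Type u} [Ring B] [Algebra k B]

/-- The objects of the category attached to a graded algebra: one object for each integer. -/
@[nolint unusedArguments]
structure GD (ℬ : ℤ → Submodule k B) where
  /-- the degree -/
  deg : ℤ

variable (ℬ : ℤ → Submodule k B) [GradedAlgebra ℬ]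

/-- `Hom(i,j)` is the homogeneous component of degree `j - i`, composition is multiplication. -/
instance : Category.{u} (GD ℬ) where
  Hom i j := ℬ (j.deg - i.deg)
  id i := ⟨1, by rw [sub_self]; exact SetLike.GradedOne.one_mem⟩
  comp {i j l} f g := ⟨g.1 * f.1, by
    have := SetLike.GradedMul.mul_mem g.2 f.2
    rwa [show l.deg - j.deg + (j.deg - i.deg) = l.deg - i.deg by ring] at this⟩
  id_comp f := Subtype.ext (mul_one _)
  comp_id f := Subtype.ext (one_mul _)
  assoc f g h := Subtype.ext (mul_assoc _ _ _).symm

instance : Preadditive (GD ℬ) where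
  homGroup i j := inferInstanceAs (AddCommGroup (ℬ (j.deg - i.deg)))
  add_comp _ _ _ _ _ _ := Subtype.ext (mul_add _ _ _)
  comp_add _ _ _ _ _ _ := Subtype.ext (add_mul _ _ _)

instance : Linear k (GD ℬ) where
  homModule i j := inferInstanceAs (Module k (ℬ (j.deg - i.deg)))
  smul_comp _ _ _ _ _ _ := Subtype.ext (mul_smul_comm _ _ _)
  comp_smul _ _ _ _ _ _ := Subtype.ext (smul_mul_assoc _ _ _)

/-- The property of a functor `GD ℬ ⥤ ModuleCat k` to be `k`-linear. -/
def IsLin : ObjectProperty (GD ℬ ⥤ ModuleCat.{u} k) := fun F =>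
  ∀ (i j : GD ℬ) (b b' : ℬ (j.deg - i.deg)) (r : k) (x : F.obj i),
    F.map (X := i) (Y := j) (b + r • b') x =
      F.map (X := i) (Y := j) b x + r • F.map (X := i) (Y := j) b' x

variable {ℬ} in
theorem IsLin.additive {F : GD ℬ ⥤ ModuleCat.{u} k} (h : IsLin ℬ F) : F.Additive where
  map_add {i j f g} := by
    ext x
    have := h i j f g 1 x
    rw [one_smul, one_smul] at this
    exact this

variable {ℬ} in
theorem IsLin.smul {F : GD ℬ ⥤ ModuleCat.{u} k} (h : IsLin ℬ F) (i j : GD ℬ) (f : i ⟶ j)
    (r : k) : F.map (r • f) = r • F.map f := by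
  ext x
  have h0 : F.map (0 : i ⟶ j) = 0 := by
    have := h.additive
    exact F.map_zero i j
  have := h i j (0 : i ⟶ j) f r x
  have h1 : (0 : i ⟶ j) + r • f = r • f := zero_add _
  change F.map ((0 : i ⟶ j) + r • f) x = F.map (0 : i ⟶ j) x + r • F.map f x at this
  rw [h1, h0] at this
  rw [this]
  exact zero_add _

theorem isLin_of (F : GD ℬ ⥤ ModuleCat.{u} k)
    (h : F.Additive ∧ ∀ (i j : GD ℬ) (f : i ⟶ j) (r : k), F.map (r • f) = r • F.map f) :
    IsLin ℬ F := by
  intro i j b b' r x
  have h1 := h.1
  have h2 := F.map_add (X := i) (Y := j) (f := b) (g := r • (show (i ⟶ j) from b'))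
  rw [h.2] at h2
  exact congrArg (fun t => t.hom x) h2

/-- The category of graded left modules. -/
abbrev GrMod := (IsLin ℬ).FullSubcategory

/-- A functor with a jointly monic family of maps to linear functors is linear. -/
theorem isLin_of_jointly_mono {J : Type*} (K : GD ℬ ⥤ ModuleCat.{u} k)
    (F : J → (GD ℬ ⥤ ModuleCat.{u} k)) (hF : ∀ j, IsLin ℬ (F j)) (π : ∀ j, K ⟶ F j)
    (h : ∀ (i : GD ℬ) {X : ModuleCat.{u} k} (a b : X ⟶ K.obj i),
      (∀ j, a ≫ (π j).app i = b ≫ (π j).app i) → a = b) : IsLin ℬ K := by
  refine isLin_of ℬ K ⟨⟨?_⟩, ?_⟩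
  · intro i i' f g
    apply h
    intro j
    have := (hF j).additive
    rw [Preadditive.add_comp, (π j).naturality, (π j).naturality, (π j).naturality,
      (F j).map_add, Preadditive.comp_add]
  · intro i i' f r
    apply h
    intro j
    rw [Linear.smul_comp, (π j).naturality, (π j).naturality, (hF j).smul, Linear.comp_smul]

/-- A functor which is an epimorphic image of a linear functor is linear. -/
theorem isLin_of_epi (K F : GD ℬ ⥤ ModuleCat.{u} k) (hF : IsLin ℬ F) (π : F ⟶ K)
    (h : ∀ i : GD ℬ, Epi (π.app i)) : IsLin ℬ K := by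
  have := hF.additive
  refine isLin_of ℬ K ⟨⟨?_⟩, ?_⟩
  · intro i i' f g
    rw [← cancel_epi (π.app i)]
    rw [Preadditive.comp_add, ← π.naturality, ← π.naturality, ← π.naturality,
      F.map_add, Preadditive.add_comp]
  · intro i i' f r
    rw [← cancel_epi (π.app i)]
    rw [Linear.comp_smul, ← π.naturality, ← π.naturality, hF.smul, Linear.smul_comp]

open scoped ZeroObject in
instance : (IsLin ℬ).ContainsZero where
  exists_zero := by
    have hz : ∀ i : GD ℬ, IsZero (((Functor.const (GD ℬ)).obj
        (0 : ModuleCat.{u} k)).obj i) := fun i => isZero_zero _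
    refine ⟨(Functor.const (GD ℬ)).obj (0 : ModuleCat.{u} k), Functor.isZero _ hz, ?_⟩
    exact isLin_of ℬ _ ⟨⟨fun {i _ f g} => (hz i).eq_of_src _ _⟩,
      fun i _ _ _ => (hz i).eq_of_src _ _⟩

instance : (IsLin ℬ).IsClosedUnderKernels where
  kernels_le := by
    rintro _ ⟨f, c, hc, hf⟩
    have hm : Mono c.ι := Fork.IsLimit.mono hc
    refine isLin_of_jointly_mono ℬ c.pt (fun _ : Unit => _) (fun _ => hf.1) (fun _ => c.ι) ?_
    intro i X a b hab
    have hmi : Mono (c.ι.app i) := (NatTrans.mono_iff_mono_app c.ι).1 hm i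
    exact (cancel_mono (c.ι.app i)).1 (hab ())

instance : (IsLin ℬ).IsClosedUnderCokernels where
  cokernels_le := by
    rintro _ ⟨f, c, hc, hf⟩
    have hm : Epi c.π := Cofork.IsColimit.epi hc
    exact isLin_of_epi ℬ c.pt _ hf.2 c.π fun i => (NatTrans.epi_iff_epi_app c.π).1 hm i

instance : (IsLin ℬ).IsClosedUnderFiniteProducts where
  isClosedUnderLimitsOfShape J _ := by
    refine ⟨?_⟩
    rintro X ⟨p⟩
    refine isLin_of_jointly_mono ℬ X (fun j : Discrete J => p.diag.obj j)
      p.prop_diag_obj (fun j => p.π.app j) ?_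
    intro i Y a b hab
    have hl := isLimitOfPreserves ((evaluation (GD ℬ) (ModuleCat.{u} k)).obj i) p.isLimit
    exact hl.hom_ext hab

end H60.KZ
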