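import Pool.Agent.H60.KZ.GmS

/-!
# The definitions used in the statements of the theorems on Koszul algebras

`GrM ℬ` is the category of graded left modules over a graded algebra `ℬ` (as linear functors on
the category `GD ℬ` with objects the integers and `Hom(i,j) = ℬ (j-i)`), `DG ℬ` its derived
category.
-/

universe u v w

namespace H60.KZ

open CategoryTheory CategoryTheory.Limits

/-! Natural transformations in an arbitrary category -/

section

variable {𝒟 : Type w} [Category.{v} 𝒟]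

/-- A natural transformation `ζ : X ⟶ Φ X` is compatible with `Φ` and with the functor `T`, where
`κ` is an isomorphism `T Φ X ≅ Φ T X`. -/
structure IsCent {T Φ : 𝒟 ⥤ 𝒟} (κ : ∀ X, T.obj (Φ.obj X) ≅ Φ.obj (T.obj X)) (ζ : 𝟭 𝒟 ⟶ Φ) :
    Prop where
  own : ∀ X, Φ.map (ζ.app X) = ζ.app (Φ.obj X)
  shift : ∀ X, T.map (ζ.app X) ≫ (κ X).hom = ζ.app (T.obj X)

/-- `ζ : 𝟭 ⟶ Φ` and `ξ : 𝟭 ⟶ Ψ` commute: the two composites `X ⟶ Ψ Φ X` and `X ⟶ Φ Ψ X` agree up
to an isomorphism of their targets. -/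
def Comm {Φ Ψ : 𝒟 ⥤ 𝒟} (ζ : 𝟭 𝒟 ⟶ Φ) (ξ : 𝟭 𝒟 ⟶ Ψ) : Prop :=
  ∀ X, ∃ θ : Ψ.obj (Φ.obj X) ≅ Φ.obj (Ψ.obj X),
    ζ.app X ≫ ξ.app (Φ.obj X) ≫ θ.hom = ξ.app X ≫ ζ.app (Ψ.obj X)

/-- `g : X ⟶ Z` is a sum of products of elements `f : X ⟶ Y` with the `ζ a : Y ⟶ Φ a Y`, where
`Φ a Y ≅ Z`. -/
def Gen [Preadditive 𝒟] {c : ℕ} {Φ : Fin c → (𝒟 ⥤ 𝒟)} (ζ : ∀ a, 𝟭 𝒟 ⟶ Φ a) {X Z : 𝒟}
    (g : X ⟶ Z) : Prop :=
  g ∈ AddSubgroup.closure
    {g | ∃ (a : Fin c) (Y : 𝒟) (f : X ⟶ Y) (θ : (Φ a).obj Y ≅ Z), g = f ≫ (ζ a).app Y ≫ θ.hom}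

end

/-! Graded modules -/

variable {k : Type u} [Field k] {B : Type u} [Ring B] [Algebra k B]

/-- The category of graded left modules over a graded algebra `ℬ`. -/
def GrM (ℬ : ℤ → Submodule k B) [GradedAlgebra ℬ] : Type (u + 1) := GrMod ℬ

section

variable (ℬ : ℤ → Submodule k B) [GradedAlgebra ℬ]

instance instCatGrM : Category.{u} (GrM ℬ) := ObjectProperty.FullSubcategory.category (IsLin ℬ)

noncomputable instance instAbGrM : Abelian (GrM ℬ) :=
  (IsLin ℬ).instAbelianFullSubcategoryOfContainsZeroOfIsClosedUnderKernelsOfIsClosedUnderCokernelsOfIsClosedUnderFiniteProducts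

noncomputable instance instDerGrM : HasDerivedCategory.{u + 1} (GrM ℬ) :=
  HasDerivedCategory.standard (GrM ℬ)

/-- The derived category of graded modules. -/
def DG : Type (u + 1) := DerivedCategory (GrM ℬ)

noncomputable instance instCatDG : Category.{u + 1} (DG ℬ) :=
  instCategoryDerivedCategory (C := GrM ℬ)

noncomputable instance instPreDG : Preadditive (DG ℬ) :=
  DerivedCategory.instPreadditive (C := GrM ℬ)

noncomputable instance instShDG : HasShift (DG ℬ) ℤ :=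
  DerivedCategory.instHasShiftInt (C := GrM ℬ)

/-- The shift functor `[n]` of the derived category. -/
noncomputable def sh (n : ℤ) : DG ℬ ⥤ DG ℬ := shiftFunctor (DG ℬ) n

/-- The complex with the single term `M` in degree `0`. -/
noncomputable def inD : GrM ℬ ⥤ DG ℬ := DerivedCategory.singleFunctor (GrM ℬ) 0

theorem isLin_trl (e : ℤ) {F : GD ℬ ⥤ ModuleCat.{u} k} (h : IsLin ℬ F) :
    IsLin ℬ (trl e ⋙ F) := fun i j b b' r x =>
  h ((trl e).obj i) ((trl e).obj j) ((trl e).map b) ((trl e).map b') r x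

/-- The shift of the grading, `(M⟨-e⟩) i = M (i - e)`. -/
def tw (e : ℤ) : GrM ℬ ⥤ GrM ℬ :=
  (IsLin ℬ).lift ((IsLin ℬ).ι ⋙ (Functor.whiskeringLeft _ _ _).obj (trl e))
    fun M => isLin_trl ℬ e M.property

instance instTwAdd (e : ℤ) : (tw ℬ e).Additive := inferInstanceAs (shf e).Additive

instance instTwLim (e : ℤ) : PreservesFiniteLimits (tw ℬ e) :=
  inferInstanceAs (PreservesFiniteLimits (shf e : GrMod ℬ ⥤ GrMod ℬ))

instance instTwColim (e : ℤ) : PreservesFiniteColimits (tw ℬ e) :=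
  inferInstanceAs (PreservesFiniteColimits (shf e : GrMod ℬ ⥤ GrMod ℬ))

/-- The functor `X ↦ X⟨-e⟩` on the derived category of graded modules. -/
noncomputable def twD (e : ℤ) : DG ℬ ⥤ DG ℬ := (tw ℬ e).mapDerivedCategory

noncomputable instance instCommTw (e : ℤ) : (twD ℬ e).CommShift ℤ :=
  Functor.instCommShiftDerivedCategoryMapDerivedCategoryInt (tw ℬ e)

/-- The functor `X ↦ X⟨-e⟩[d]` on the derived category of graded modules. -/
noncomputable def Phi (e d : ℤ) : DG ℬ ⥤ DG ℬ := twD ℬ e ⋙ sh ℬ d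

/-- The canonical isomorphism `(X⟨-e⟩[d])[1] ≅ (X[1])⟨-e⟩[d]`. -/
noncomputable def kap (e d : ℤ) (X : DG ℬ) :
    (sh ℬ 1).obj ((Phi ℬ e d).obj X) ≅ (Phi ℬ e d).obj ((sh ℬ 1).obj X) :=
  (shiftFunctorComm (DG ℬ) d 1).app ((twD ℬ e).obj X) ≪≫
    (sh ℬ d).mapIso (((twD ℬ e).commShiftIso (1 : ℤ)).app X).symm

end

variable {ℬ : ℤ → Submodule k B} [GradedAlgebra ℬ]

/-- The finite generation condition (Fg): in high degrees every element of `Ext^n(M, N)`, for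
finite dimensional graded modules `M`, `N` concentrated in the degrees `0` and `j`, is a sum of
products of elements of lower degree with the `ζ a`. -/
def FgOver {d : ℤ} {c : ℕ} {e : Fin c → ℤ} (ζ : ∀ a, 𝟭 (DG ℬ) ⟶ Phi ℬ (e a) d) : Prop :=
  ∃ n0 : ℤ, ∀ n, n0 ≤ n → ∀ (M N : GrM ℬ) (j : ℤ), Fd M → Supp M 0 0 → Fd N → Supp N j j →
    ∀ g : (inD ℬ).obj M ⟶ (sh ℬ n).obj ((inD ℬ).obj N), Gen ζ g

variable (ℬ) in
/-- Finite regularity: there is `r` with `Ext^n(M, N) = 0` for all finite dimensional graded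
modules `M`, `N` concentrated in the degrees `0` and `j`, `j > n + r`. -/
def Reg : Prop :=
  ∃ r : ℤ, ∀ (n j : ℤ), n + r < j → ∀ M N : GrM ℬ, Fd M → Supp M 0 0 → Fd N → Supp N j j →
    ∀ f : (inD ℬ).obj M ⟶ (sh ℬ n).obj ((inD ℬ).obj N), f = 0

/-- Exactness of `L ⟶ M ⟶ N` at `M`. -/
def Exa {L M N : GrM ℬ} (f : L ⟶ M) (g : M ⟶ N) : Prop :=
  ∀ i x, cm g i x = 0 ↔ ∃ y, cm f i y = x

/-- A projective resolution of `M` by graded modules `P n` generated in degree `n`. -/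
def LinRes (M : GrM ℬ) : Prop :=
  ∃ (P : ℕ → GrM ℬ) (dd : ∀ n, P (n + 1) ⟶ P n) (ε : P 0 ⟶ M),
    (∀ n, Projective (P n)) ∧ (∀ n : ℕ, GenIn (P n) n) ∧
    (∀ i, Function.Surjective (cm ε i)) ∧ Exa (dd 0) ε ∧ ∀ n, Exa (dd (n + 1)) (dd n)

variable (ℬ) in
/-- A positively graded algebra is Koszul if every simple graded module concentrated in degree `0`
has a graded projective resolution whose `n`-th term is generated in degree `n`. -/
def Koszul : Prop := ∀ M : GrM ℬ, Simple M → Supp M 0 0 → LinRes M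

end H60.KZ
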