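import Pool.Agent.H60.KZ.St

/-!
# Families of natural transformations: auxiliary statements
-/

universe w v

namespace H60.KZ

open CategoryTheory CategoryTheory.Limits

variable {𝒟 : Type w} [Category.{v} 𝒟]

theorem st_transfer {E : Type} {Φ : E → (𝒟 ⥤ 𝒟)} {e1 e0 : E} (h : e1 = e0)
    {z : 𝟭 𝒟 ⟶ Φ e0} {ζ : 𝟭 𝒟 ⟶ Φ e1} (hz : HEq z ζ) (P : ∀ e', (𝟭 𝒟 ⟶ Φ e') → Prop)
    (hp : P e1 ζ) : P e0 z := by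
  subst h
  cases hz
  exact hp

theorem st_exists {E : Type} {Φ : E → (𝒟 ⥤ 𝒟)} {e1 e0 : E} (h : e1 = e0)
    (ζ : 𝟭 𝒟 ⟶ Φ e1) : ∃ z : 𝟭 𝒟 ⟶ Φ e0, HEq z ζ := by
  subst h
  exact ⟨ζ, HEq.rfl⟩

theorem st_split {c : ℕ} (e : Fin c → ℤ) (d : ℤ) :
    ∃ (c1 c2 : ℕ) (σ : Fin c1 ⊕ Fin c2 ≃ Fin c), (∀ i, e (σ (Sum.inl i)) = d) ∧
      ∀ i, e (σ (Sum.inr i)) ≠ d := by
  refine ⟨_, _, (Equiv.sumCongr (Fintype.equivFin {a // e a = d}).symm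
    (Fintype.equivFin {a // ¬ e a = d}).symm).trans (Equiv.sumCompl fun a => e a = d), ?_, ?_⟩
  · intro i
    exact ((Fintype.equivFin {a // e a = d}).symm i).2
  · intro i
    exact ((Fintype.equivFin {a // ¬ e a = d}).symm i).2

theorem st_gen [Preadditive 𝒟] {c : ℕ} {Φ : Fin c → (𝒟 ⥤ 𝒟)} (hfull : ∀ a, (Φ a).Full)
    (hfaith : ∀ a, (Φ a).Faithful) (ζ : ∀ a, 𝟭 𝒟 ⟶ Φ a) {X Z : 𝒟} (Y0 : Fin c → 𝒟)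
    (θ0 : ∀ a, (Φ a).obj (Y0 a) ≅ Z) {g : X ⟶ Z} (hg : Gen ζ g) :
    ∃ f : ∀ a, X ⟶ Y0 a, g = ∑ a, f a ≫ (ζ a).app (Y0 a) ≫ (θ0 a).hom := by
  unfold Gen at hg
  induction hg using AddSubgroup.closure_induction with
  | mem g hg =>
    obtain ⟨a, Y, f, θ, rfl⟩ := hg
    have h1 := hfull a
    have h2 := hfaith a
    let u : Y ≅ Y0 a := (Φ a).preimageIso (θ ≪≫ (θ0 a).symm)
    have hu : (Φ a).map u.hom = θ.hom ≫ (θ0 a).inv := by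
      simp [u]
    refine ⟨Pi.single a (f ≫ u.hom), ?_⟩
    rw [Finset.sum_eq_single a]
    · rw [Pi.single_eq_same, Category.assoc]
      have h3 : u.hom ≫ (ζ a).app (Y0 a) = (ζ a).app Y ≫ (Φ a).map u.hom :=
        (ζ a).naturality u.hom
      rw [← Category.assoc u.hom, h3, hu, Category.assoc, Category.assoc, Iso.inv_hom_id,
        Category.comp_id]
    · intro b _ hb
      rw [Pi.single_eq_of_ne hb, zero_comp]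
    · intro h
      exact absurd (Finset.mem_univ a) h
  | zero => exact ⟨fun _ => 0, by simp⟩
  | add g g' _ _ h h' =>
    obtain ⟨f, rfl⟩ := h
    obtain ⟨f', rfl⟩ := h'
    refine ⟨fun a => f a + f' a, ?_⟩
    simp only [Preadditive.add_comp, Finset.sum_add_distrib]
  | neg g _ h =>
    obtain ⟨f, rfl⟩ := h
    refine ⟨fun a => - f a, ?_⟩
    simp only [Preadditive.neg_comp, Finset.sum_neg_distrib]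

theorem st_term {E : Type} {Φ : E → (𝒟 ⥤ 𝒟)} {e1 e0 : E} (h : e1 = e0)
    {z : 𝟭 𝒟 ⟶ Φ e0} {ζ : 𝟭 𝒟 ⟶ Φ e1} (hz : HEq z ζ) (Y : E → 𝒟) {X Z : 𝒟} (f : X ⟶ Y e1)
    (θ : (Φ e1).obj (Y e1) ≅ Z) : ∃ (f' : X ⟶ Y e0) (θ' : (Φ e0).obj (Y e0) ≅ Z),
      f ≫ ζ.app (Y e1) ≫ θ.hom = f' ≫ z.app (Y e0) ≫ θ'.hom := by
  subst h
  cases hz
  exact ⟨f, θ, rfl⟩

theorem st_sum [Preadditive 𝒟] {c c1 c2 : ℕ} {d : ℤ} (e : Fin c → ℤ) (Φ : ℤ → (𝒟 ⥤ 𝒟))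
    (σ : Fin c1 ⊕ Fin c2 ≃ Fin c) (h1 : ∀ i, e (σ (Sum.inl i)) = d)
    (ζ : ∀ a, 𝟭 𝒟 ⟶ Φ (e a)) (z : Fin c1 → (𝟭 𝒟 ⟶ Φ d))
    (hzz : ∀ i, HEq (z i) (ζ (σ (Sum.inl i)))) (Y : ℤ → 𝒟) {X Z : 𝒟} (f : ∀ a, X ⟶ Y (e a))
    (θ : ∀ a, (Φ (e a)).obj (Y (e a)) ≅ Z) :
    ∃ (f₁ : Fin c1 → (X ⟶ Y d)) (θ₁ : Fin c1 → ((Φ d).obj (Y d) ≅ Z))
      (f₂ : ∀ b : Fin c2, X ⟶ Y (e (σ (Sum.inr b))))
      (θ₂ : ∀ b : Fin c2, (Φ (e (σ (Sum.inr b)))).obj (Y (e (σ (Sum.inr b)))) ≅ Z),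
      ∑ a, f a ≫ (ζ a).app (Y (e a)) ≫ (θ a).hom =
        ∑ a, f₁ a ≫ (z a).app (Y d) ≫ (θ₁ a).hom +
        ∑ b, f₂ b ≫ (ζ (σ (Sum.inr b))).app (Y (e (σ (Sum.inr b)))) ≫ (θ₂ b).hom := by
  have h4 : ∀ i, ∃ (f' : X ⟶ Y d) (θ' : (Φ d).obj (Y d) ≅ Z),
      f (σ (Sum.inl i)) ≫ (ζ (σ (Sum.inl i))).app (Y (e (σ (Sum.inl i)))) ≫
        (θ (σ (Sum.inl i))).hom = f' ≫ (z i).app (Y d) ≫ θ'.hom := fun i =>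
    st_term (h1 i) (hzz i) Y _ _
  choose f' θ' h' using h4
  refine ⟨f', θ', fun b => f (σ (Sum.inr b)), fun b => θ (σ (Sum.inr b)), ?_⟩
  rw [← Equiv.sum_comp σ, Fintype.sum_sum_type]
  congr 1
  exact Finset.sum_congr rfl fun i _ => h' i

end H60.KZ
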