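import Pool.Agent.H60.KZ.St1
import Pool.Agent.H60.KZ.Fin

/-!
# The theorems in terms of the definitions of `St.lean`
-/

universe w u

namespace H60.KZ

open CategoryTheory CategoryTheory.Limits CategoryTheory.Pretriangulated

variable {k : Type u} [Field k] {B : Type u} [Ring B] [Algebra k B]
  {ℬ : ℤ → Submodule k B} [GradedAlgebra ℬ]

/-- the derived category of `GrMod ℬ` -/
noncomputable local instance st2Der : HasDerivedCategory.{u + 1} (GrMod ℬ) := instDerGrM ℬ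

theorem st2_Phi (e d : ℤ) : Phi ℬ e d = PhiG (ℬ := ℬ) e d := rfl

theorem st2_PhiF (d : ℤ) : Phi ℬ d d = PhiF (ℬ := ℬ) d := rfl

theorem st2_kap (d : ℤ) (X : DG ℬ) : kap ℬ d d X = kapF (ℬ := ℬ) d X := rfl

theorem st2_equiv (e d : ℤ) : (PhiG (ℬ := ℬ) e d).IsEquivalence := by
  have h : ((shf (ℬ := ℬ) e).mapDerivedCategory).IsEquivalence := mapDer_equiv _
  unfold PhiG
  infer_instance

theorem koszul_iff : Koszul ℬ ↔ IsKoszul ℬ := by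
  have key : ∀ (P : ℕ → GrMod ℬ) (M : GrMod ℬ) (dd : ∀ n, P (n + 1) ⟶ P n) (ε : P 0 ⟶ M),
      ((∀ i, Function.Surjective (cm ε i)) ∧ (∀ i x, cm ε i x = 0 ↔ ∃ y, cm (dd 0) i y = x) ∧
        ∀ n i x, cm (dd n) i x = 0 ↔ ∃ y, cm (dd (n + 1)) i y = x) ↔
      (Epi ε ∧ (∃ w : dd 0 ≫ ε = 0, (ShortComplex.mk (dd 0) ε w).Exact) ∧
        ∀ n, ∃ w : dd (n + 1) ≫ dd n = 0, (ShortComplex.mk (dd (n + 1)) (dd n) w).Exact) := by
    intro P M dd ε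
    have h1 : ∀ {L M N : GrMod ℬ} (f : L ⟶ M) (g : M ⟶ N),
        (∀ i x, cm g i x = 0 ↔ ∃ y, cm f i y = x) ↔
        ∃ w : f ≫ g = 0, (ShortComplex.mk f g w).Exact := by
      intro L M N f g
      constructor
      · intro h
        have w : f ≫ g = 0 := hom_ext_cm fun i x => by
          rw [cm_comp, cm_zero]
          exact (h i _).2 ⟨x, rfl⟩
        exact ⟨w, (exact_iff_cm _).2 fun i x hx => (h i x).1 hx⟩
      · rintro ⟨w, hw⟩ i x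
        refine ⟨fun hx => (exact_iff_cm _).1 hw i x hx, ?_⟩
        rintro ⟨y, rfl⟩
        have := cm_comp f g i y
        rw [w] at this
        exact this.symm
    rw [epi_iff_cm, h1]
    exact and_congr Iff.rfl (and_congr Iff.rfl (forall_congr' fun n => h1 _ _))
  constructor
  · intro h M hM hS
    obtain ⟨P, dd, ε, h1, h2, h3, h4, h5⟩ := h M hM hS
    exact ⟨P, dd, ε, h1, h2, (key P M dd ε).1 ⟨h3, h4, h5⟩⟩
  · intro h M hM hS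
    obtain ⟨P, dd, ε, h1, h2, h3⟩ := h M hM hS
    exact ⟨P, dd, ε, h1, h2, (key P M dd ε).2 h3⟩

variable [PosGr ℬ] [Module.Finite k B] [IsSemisimpleRing (ℬ 0)]

theorem reg_iff : Reg ℬ ↔ FinReg ℬ := by
  constructor
  · rintro ⟨r, hr⟩
    exact ⟨r, fun n j hj f => hr n j hj (Sj ℬ 0) (Sj ℬ j) (Fd_Sj 0) (Sj_supp 0) (Fd_Sj j)
      (Sj_supp j) f⟩
  · rintro ⟨r, hr⟩
    refine ⟨r, fun n j hj M N hM hM' hN hN' f => ?_⟩
    have h1 : VV (Sj ℬ 0) (show GrMod ℬ from N) n :=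
      vx_inAdd (sem_inAdd_supp hN' hN) _ n fun _ => hr n j hj
    exact vv_inAdd_left (sem_inAdd_supp hM' hM) (show GrMod ℬ from N) n (fun _ => h1) f

theorem st2_main [Infinite k] {s : ℕ} {lam : B →ₗ[k] k} (h : GrFrob ℬ s lam)
    (d : ℕ) (hd : 1 ≤ d) {c : ℕ} (e : Fin c → ℤ) (ζ : ∀ a, 𝟭 (DG ℬ) ⟶ Phi ℬ (e a) d)
    (hz : ∀ a, e a = d → IsCent (kap ℬ (e a) d) (ζ a)) (hc : ∀ a b, Comm (ζ a) (ζ b))
    (hfg : FgOver ζ) (hreg : FinReg ℬ) : IsKoszul ℬ := by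
  obtain ⟨c1, c2, σ, h1, h2⟩ := st_split e d
  have h3 : ∀ i, ∃ z : 𝟭 (DG ℬ) ⟶ Phi ℬ (d : ℤ) d, HEq z (ζ (σ (Sum.inl i))) := fun i =>
    st_exists (Φ := fun e' => Phi ℬ e' d) (h1 i) _
  choose z hzz using h3
  refine koszul_of_finReg h d hd (c := c1) (fun b => e (σ (Sum.inr b))) h2 z
    (fun b => ζ (σ (Sum.inr b))) ?_ ?_ ?_ ?_ ?_ hreg
  · intro a X
    exact st_transfer (Φ := fun e' => Phi ℬ e' d) (h1 a) (hzz a)
      (fun e' ξ => ∀ X, (Phi ℬ e' d).map (ξ.app X) = ξ.app ((Phi ℬ e' d).obj X))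
      (hz _ (h1 a)).own X
  · intro a X
    exact st_transfer (Φ := fun e' => Phi ℬ e' d) (h1 a) (hzz a)
      (fun e' ξ => ∀ X, (sh ℬ 1).map (ξ.app X) ≫ (kap ℬ e' d X).hom = ξ.app ((sh ℬ 1).obj X))
      (hz _ (h1 a)).shift X
  · intro a b
    exact st_transfer (Φ := fun e' => Phi ℬ e' d) (h1 a) (hzz a)
      (fun e' ξ => Comm ξ (ζ (σ (Sum.inr b)))) (hc _ _)
  · intro b b'
    exact hc _ _
  · obtain ⟨n0, hn0⟩ := hfg
    refine ⟨n0.toNat, fun n hn j g => ?_⟩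
    have hn' : n0 ≤ ((n + d : ℕ) : ℤ) := by
      have := Int.self_le_toNat n0
      lia
    have hg := hn0 ((n + d : ℕ) : ℤ) hn' (Sj ℬ 0) (Sj ℬ j) j (Fd_Sj 0) (Sj_supp 0) (Fd_Sj j)
      (Sj_supp j) g
    have hθ : ∀ a, Nonempty ((PhiG (ℬ := ℬ) (e a) d).obj ((sg.obj (Sj ℬ (j - e a)))⟦(n : ℤ)⟧) ≅
        (sg.obj (Sj ℬ j))⟦((n + d : ℕ) : ℤ)⟧) := by
      intro a
      obtain ⟨E⟩ := Ex2_Sj (ℬ := ℬ) (e a) d (j - e a) n
      rw [sub_add_cancel] at E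
      rw [Nat.cast_add]
      exact ⟨E⟩
    have θ0 := fun a => (hθ a).some
    obtain ⟨f, hf⟩ := st_gen (Φ := fun a => Phi ℬ (e a) d)
      (fun a => (st2_equiv (ℬ := ℬ) (e a) d).full) (fun a => (st2_equiv (ℬ := ℬ) (e a) d).faithful)
      ζ (fun a => ((sg.obj (Sj ℬ (j - e a)))⟦(n : ℤ)⟧ : DerivedCategory (GrMod ℬ))) θ0 hg
    obtain ⟨f₁, θ₁, f₂, θ₂, hs⟩ := st_sum e (fun e' => Phi ℬ e' d) σ h1 ζ z hzz
      (fun e' => ((sg.obj (Sj ℬ (j - e')))⟦(n : ℤ)⟧ : DerivedCategory (GrMod ℬ))) f θ0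
    exact ⟨f₁, θ₁, f₂, θ₂, hf.trans hs⟩

end H60.KZ
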