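import Mathlib

/-!
# Systems: sequences of vector spaces with commuting operators raising the index

A system over `k` with index type `ι` is the same thing as an `ℕ`-graded module over the polynomial
ring `k[x_a, a ∈ ι]`, all variables in degree one.
-/

universe u v w

namespace H60.KZ

/-- A sequence of `k`-vector spaces `V n` with commuting operators `op a : V n → V (n+1)`. -/
structure Sys (k : Type u) [Field k] (ι : Type w) where
  /-- the spaces -/
  V : ℕ → Type v
  [acg : ∀ n, AddCommGroup (V n)]
  [mod : ∀ n, Module k (V n)]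
  /-- the operators -/
  op : ι → (n : ℕ) → V n →ₗ[k] V (n + 1)
  comm : ∀ a b n (v : V n), op a (n + 1) (op b n v) = op b (n + 1) (op a n v)

attribute [instance] Sys.acg Sys.mod

namespace Sys

variable {k : Type u} [Field k] {ι : Type w}

/-- A family of subspaces stable under the operators in `A`. -/
def Stab (M : Sys.{u, v, w} k ι) (A : Finset ι) (N : ∀ n, Submodule k (M.V n)) : Prop :=
  ∀ a ∈ A, ∀ n, ∀ v ∈ N n, M.op a n v ∈ N (n + 1)

/-- A family of subspaces is eventually generated by the operators in `A`. -/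
def Gen (M : Sys.{u, v, w} k ι) (A : Finset ι) (N : ∀ n, Submodule k (M.V n)) : Prop :=
  ∃ n0, ∀ n, n0 ≤ n → ∀ v ∈ N (n + 1), ∃ f : ι → M.V n, (∀ a, f a ∈ N n) ∧
    v = ∑ a ∈ A, M.op a n (f a)

/-- From some index on all spaces are finite dimensional and the system is generated by the
operators in `A`. -/
def FG (M : Sys.{u, v, w} k ι) (A : Finset ι) : Prop :=
  ∃ n0, ∀ n, n0 ≤ n → Module.Finite k (M.V n) ∧
    ∀ v : M.V (n + 1), ∃ f : ι → M.V n, v = ∑ a ∈ A, M.op a n (f a)

/-- The stable family generated by an element of `V 0`. -/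
def Cyc (M : Sys.{u, v, w} k ι) (h : M.V 0) : ∀ n, Submodule k (M.V n)
  | 0 => Submodule.span k {h}
  | n + 1 => ⨆ a, (Cyc M h n).map (M.op a n)

/-- A morphism of systems. -/
def IsHom (M N : Sys.{u, v, w} k ι) (φ : ∀ n, M.V n →ₗ[k] N.V n) : Prop :=
  ∀ a n v, φ (n + 1) (M.op a n v) = N.op a n (φ n v)

end Sys

end H60.KZ
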