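import Pool.Agent.H60.KZ.Sy0

/-!
# Row SyA: systems are noetherian

Everything here is the statement that a finitely generated graded module over a polynomial ring
over a field is noetherian, in the language of systems (see `Sy0.lean`).

PROOF. Let `M.FG A`, with index `n0`.  Let `W = ⨁_{n ≥ n0} V n` (for instance
`DirectSum ℕ (fun n => M.V (n0 + n))`; the operators `op a (n0+n)` have target `V (n0 + n + 1)`,
which is `V (n0 + (n + 1))` by `rfl`).  The operators `op a`, `a ∈ A`, give commuting endomorphisms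
`T a` of the vector space `W` (`comm`).  Let `S = Algebra.adjoin k (T '' A)` in `Module.End k W`; it is
commutative (`Algebra.adjoinCommRingOfComm`) and a quotient of `MvPolynomial A k`, hence a
noetherian ring; `W` is an `S`-module (restriction of the action of `Module.End k W`), generated
by `V n0` which is finite dimensional: indeed `V (n+1) = Σ op a (V n)` for all `n ≥ n0`.  Hence
`W` is a noetherian `S`-module.

(Alternatively: make `W` a module over `MvPolynomial A k` by any other means.)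

A family `N` with `Stab A N` gives the `S`-submodule `Ñ = {w | ∀ n, w n ∈ N (n0+n)}` of `W`
(stability under `T a` gives stability under `S` by `Algebra.adjoin_induction`), and
`N ≤ N'` in degrees `≥ n0` iff `Ñ ≤ Ñ'`.

* `noeth_max`: apply well-foundedness of `>` on `Submodule S W` to the set of all `Ñ` with `N`
  stable and `Pr N`, choose `N` with `Ñ` maximal.  If `N ≤ N'`, `N'` stable and `Pr N'`, then
  `Ñ ≤ Ñ'`, so `Ñ = Ñ'` and `N' n = N n` for all `n ≥ n0`.
* `gen_of_stab`: for `m` let `N^m` be the family with `N^m n = N n` for `n ≤ n0 + m` and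
  `N^m (n+1) = Σ_{a ∈ A} op a (N^m n)` for `n ≥ n0 + m`.  It is stable (using that `N` is),
  `N^m ≤ N^{m+1} ≤ N`.  The chain `Ñ^m` stabilises at some `m`.  For `n > n0 + m` we have
  `N (n+1) = N^{n+1} (n+1) = N^m (n+1) = Σ op a (N^m n) ≤ Σ op a (N n)`, hence `Gen A N`.
  (Another way: `Ñ` is finitely generated over `S`, the generators have components in degrees
  `≤ n1`, ...)
-/

universe u v w

namespace H60.KZ.Sys

variable {k : Type u} [Field k] {ι : Type w}

open scoped IsMulCommutative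

/-- The direct sum of all spaces from `n0` on. -/
abbrev Wd (M : Sys.{u, v, w} k ι) (n0 : ℕ) : Type v := DirectSum ℕ (fun n => M.V (n0 + n))

/-- The operators on the direct sum. -/
noncomputable def Td (M : Sys.{u, v, w} k ι) (n0 : ℕ) (a : ι) : Module.End k (Wd M n0) :=
  DirectSum.toModule k ℕ (Wd M n0)
    (fun n => (DirectSum.lof k ℕ (fun n => M.V (n0 + n)) (n + 1)).comp (M.op a (n0 + n)))

theorem Td_lof (M : Sys.{u, v, w} k ι) (n0 : ℕ) (a : ι) (n : ℕ) (v : M.V (n0 + n)) :
    Td M n0 a (DirectSum.lof k ℕ (fun n => M.V (n0 + n)) n v) =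
      DirectSum.lof k ℕ (fun n => M.V (n0 + n)) (n + 1) (M.op a (n0 + n) v) := by
  unfold Td
  rw [DirectSum.toModule_lof]
  rfl

theorem Td_comm (M : Sys.{u, v, w} k ι) (n0 : ℕ) (a b : ι) :
    Td M n0 a * Td M n0 b = Td M n0 b * Td M n0 a := by
  refine DirectSum.linearMap_ext (R := k) (M := fun n => M.V (n0 + n)) ?_
  intro n
  ext v : 1
  simp only [LinearMap.comp_apply, Module.End.mul_apply, Td_lof]
  exact congrArg _ (M.comm a b (n0 + n) v)

theorem Td_zero (M : Sys.{u, v, w} k ι) (n0 : ℕ) (a : ι) (x : Wd M n0) :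
    (Td M n0 a x) 0 = 0 := by
  induction x using DirectSum.induction_on with
  | zero => simp
  | of i v =>
    rw [← DirectSum.lof_eq_of k, Td_lof, DirectSum.lof_eq_of, DirectSum.of_eq_of_ne]
    exact (Nat.succ_ne_zero i).symm
  | add x y hx hy =>
    rw [map_add, DirectSum.add_apply, hx, hy]
    exact add_zero _

theorem Td_succ (M : Sys.{u, v, w} k ι) (n0 : ℕ) (a : ι) (x : Wd M n0) (n : ℕ) :
    (Td M n0 a x) (n + 1) = M.op a (n0 + n) (x n) := by
  induction x using DirectSum.induction_on with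
  | zero => simp
  | of i v =>
    rw [← DirectSum.lof_eq_of k, Td_lof, DirectSum.lof_eq_of, DirectSum.lof_eq_of]
    by_cases h : i = n
    · subst h
      rw [DirectSum.of_eq_same, DirectSum.of_eq_same]
    · rw [DirectSum.of_eq_of_ne, DirectSum.of_eq_of_ne, map_zero]
      · exact fun h' => h h'.symm
      · exact fun h' => h (Nat.succ_injective h').symm
  | add x y hx hy => rw [map_add, DirectSum.add_apply, hx, hy, DirectSum.add_apply, map_add]

/-- The algebra generated by the operators. -/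
noncomputable abbrev Sd (M : Sys.{u, v, w} k ι) (n0 : ℕ) (A : Finset ι) :
    Subalgebra k (Module.End k (Wd M n0)) :=
  Algebra.adjoin k ((fun a => Td M n0 a) '' (A : Set ι))

instance Sd_comm (M : Sys.{u, v, w} k ι) (n0 : ℕ) (A : Finset ι) :
    IsMulCommutative (Sd M n0 A) := by
  apply Algebra.isMulCommutative_adjoin
  rintro _ ⟨a, -, rfl⟩ _ ⟨b, -, rfl⟩
  exact Td_comm M n0 a b

theorem Sd_noeth (M : Sys.{u, v, w} k ι) (n0 : ℕ) (A : Finset ι) :
    IsNoetherianRing (Sd M n0 A) := by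
  have h : Algebra.FiniteType k (Sd M n0 A) := by
    rw [← Subalgebra.fg_iff_finiteType]
    exact Subalgebra.fg_def.2 ⟨_, A.finite_toSet.image _, rfl⟩
  exact Algebra.FiniteType.isNoetherianRing k (Sd M n0 A)

/-- The operator as an element of the algebra. -/
noncomputable def Sel (M : Sys.{u, v, w} k ι) (n0 : ℕ) (A : Finset ι) (a : ι) (ha : a ∈ A) :
    Sd M n0 A :=
  ⟨Td M n0 a, Algebra.subset_adjoin ⟨a, ha, rfl⟩⟩

theorem Sel_smul (M : Sys.{u, v, w} k ι) (n0 : ℕ) (A : Finset ι) (a : ι) (ha : a ∈ A)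
    (x : Wd M n0) : Sel M n0 A a ha • x = Td M n0 a x := rfl

theorem lof_mem (M : Sys.{u, v, w} k ι) (n0 : ℕ) (A : Finset ι)
    (hg : ∀ n, n0 ≤ n → ∀ v : M.V (n + 1), ∃ f : ι → M.V n, v = ∑ a ∈ A, M.op a n (f a))
    (P : Submodule (Sd M n0 A) (Wd M n0))
    (hP : ∀ v : M.V (n0 + 0), DirectSum.lof k ℕ (fun n => M.V (n0 + n)) 0 v ∈ P) :
    ∀ (n : ℕ) (v : M.V (n0 + n)), DirectSum.lof k ℕ (fun n => M.V (n0 + n)) n v ∈ P := by
  intro n
  induction n with
  | zero => exact hP
  | succ n ih =>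
    intro v
    obtain ⟨f, hf⟩ := hg (n0 + n) (Nat.le_add_right _ _) v
    have h1 : DirectSum.lof k ℕ (fun n => M.V (n0 + n)) (n + 1) v =
        ∑ a ∈ A, Td M n0 a (DirectSum.lof k ℕ (fun n => M.V (n0 + n)) n (f a)) := by
      rw [Finset.sum_congr rfl (fun a _ => Td_lof M n0 a n (f a)), ← map_sum]
      exact congrArg _ hf
    rw [h1]
    refine Submodule.sum_mem _ (fun a ha => ?_)
    rw [← Sel_smul M n0 A a ha]
    exact P.smul_mem _ (ih (f a))

theorem Wd_noeth (M : Sys.{u, v, w} k ι) (n0 : ℕ) (A : Finset ι)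
    (h : ∀ n, n0 ≤ n → Module.Finite k (M.V n) ∧
      ∀ v : M.V (n + 1), ∃ f : ι → M.V n, v = ∑ a ∈ A, M.op a n (f a)) :
    IsNoetherian (Sd M n0 A) (Wd M n0) := by
  have := Sd_noeth M n0 A
  have : Module.Finite (Sd M n0 A) (Wd M n0) := by
    obtain ⟨s, hs⟩ := (h n0 le_rfl).1
    refine ⟨?_⟩
    refine ⟨s.map ⟨DirectSum.lof k ℕ (fun n => M.V (n0 + n)) 0, DirectSum.of_injective 0⟩, ?_⟩
    rw [eq_top_iff]
    intro x _
    set P : Submodule (Sd M n0 A) (Wd M n0) := Submodule.span (Sd M n0 A)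
      ((s.map ⟨DirectSum.lof k ℕ (fun n => M.V (n0 + n)) 0, DirectSum.of_injective 0⟩ :
        Finset (Wd M n0)) : Set (Wd M n0)) with hPdef
    have h0 : ∀ v : M.V (n0 + 0), DirectSum.lof k ℕ (fun n => M.V (n0 + n)) 0 v ∈ P := by
      intro v
      have hv : v ∈ Submodule.span k (s : Set (M.V n0)) := by rw [hs]; trivial
      induction hv using Submodule.span_induction with
      | mem x hx =>
        refine Submodule.subset_span ?_
        rw [Finset.coe_map]
        exact ⟨x, hx, rfl⟩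
      | zero => exact (map_zero (DirectSum.lof k ℕ (fun n => M.V (n0 + n)) 0)).symm ▸ P.zero_mem
      | add x y _ _ hx hy =>
        exact (map_add (DirectSum.lof k ℕ (fun n => M.V (n0 + n)) 0) x y).symm ▸
          P.add_mem hx hy
      | smul c x _ hx =>
        exact (map_smul (DirectSum.lof k ℕ (fun n => M.V (n0 + n)) 0) c x).symm ▸
          P.smul_of_tower_mem c hx
    have h1 := lof_mem M n0 A (fun n hn => (h n hn).2) P h0
    induction x using DirectSum.induction_on with
    | zero => exact P.zero_mem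
    | of i v => exact h1 i v
    | add x y hx hy => exact P.add_mem (hx trivial) (hy trivial)
  exact isNoetherian_of_isNoetherianRing_of_finite (Sd M n0 A) (Wd M n0)

/-- The submodule attached to a stable family. -/
noncomputable def tld (M : Sys.{u, v, w} k ι) (n0 : ℕ) (A : Finset ι)
    (N : ∀ n, Submodule k (M.V n)) (hN : M.Stab A N) : Submodule (Sd M n0 A) (Wd M n0) where
  carrier := {x | ∀ n, x n ∈ N (n0 + n)}
  zero_mem' := fun n => (N (n0 + n)).zero_mem
  add_mem' := fun {x y} hx hy n => by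
    rw [DirectSum.add_apply]
    exact (N (n0 + n)).add_mem (hx n) (hy n)
  smul_mem' := by
    rintro ⟨c, hc⟩ x hx
    change ∀ n, (c x) n ∈ N (n0 + n)
    induction hc using Algebra.adjoin_induction generalizing x with
    | mem y hy =>
      obtain ⟨a, ha, rfl⟩ := hy
      intro n
      cases n with
      | zero =>
        have := Td_zero M n0 a x
        change (Td M n0 a x) 0 ∈ _
        rw [this]
        exact Submodule.zero_mem _
      | succ n =>
        have := Td_succ M n0 a x n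
        change (Td M n0 a x) (n + 1) ∈ _
        rw [this]
        exact hN a ha (n0 + n) _ (hx n)
    | algebraMap r =>
      intro n
      change (r • x) n ∈ _
      exact (N (n0 + n)).smul_mem r (hx n)
    | add f g _ _ hf hg =>
      intro n
      change (f x + g x) n ∈ _
      rw [DirectSum.add_apply]
      exact (N (n0 + n)).add_mem (hf hx n) (hg hx n)
    | mul f g _ _ hf hg =>
      intro n
      change (f (g x)) n ∈ _
      exact hf (x := g x) (hg hx) n

theorem mem_tld (M : Sys.{u, v, w} k ι) (n0 : ℕ) (A : Finset ι)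
    (N : ∀ n, Submodule k (M.V n)) (hN : M.Stab A N) (x : Wd M n0) :
    x ∈ tld M n0 A N hN ↔ ∀ n, x n ∈ N (n0 + n) := Iff.rfl

theorem lof_mem_tld (M : Sys.{u, v, w} k ι) (n0 : ℕ) (A : Finset ι)
    (N : ∀ n, Submodule k (M.V n)) (hN : M.Stab A N) (n : ℕ) (v : M.V (n0 + n)) :
    DirectSum.lof k ℕ (fun n => M.V (n0 + n)) n v ∈ tld M n0 A N hN ↔ v ∈ N (n0 + n) := by
  rw [mem_tld]
  constructor
  · intro h
    have := h n
    rwa [DirectSum.lof_eq_of, DirectSum.of_eq_same] at this
  · intro h m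
    rw [DirectSum.lof_eq_of]
    by_cases hm : n = m
    · subst hm
      rwa [DirectSum.of_eq_same]
    · rw [DirectSum.of_eq_of_ne _ _ _ (fun h' => hm h'.symm)]
      exact Submodule.zero_mem _

theorem tld_le (M : Sys.{u, v, w} k ι) (n0 : ℕ) (A : Finset ι)
    (N N' : ∀ n, Submodule k (M.V n)) (hN : M.Stab A N) (hN' : M.Stab A N')
    (h : ∀ n, N n ≤ N' n) : tld M n0 A N hN ≤ tld M n0 A N' hN' :=
  fun _ hx n => h _ (hx n)

theorem eq_of_tld_le (M : Sys.{u, v, w} k ι) (n0 : ℕ) (A : Finset ι)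
    (N N' : ∀ n, Submodule k (M.V n)) (hN : M.Stab A N) (hN' : M.Stab A N')
    (h : tld M n0 A N hN ≤ tld M n0 A N' hN') (n : ℕ) (hn : n0 ≤ n) : N n ≤ N' n := by
  intro v hv
  obtain ⟨m, rfl⟩ := Nat.exists_eq_add_of_le hn
  exact (lof_mem_tld M n0 A N' hN' m v).1 (h ((lof_mem_tld M n0 A N hN m v).2 hv))

/-- Noetherian induction for stable families. -/
theorem noeth_max (M : Sys.{u, v, w} k ι) (A : Finset ι) (hM : M.FG A)
    (Pr : (∀ n, Submodule k (M.V n)) → Prop) (N0 : ∀ n, Submodule k (M.V n))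
    (h0 : M.Stab A N0) (hP : Pr N0) :
    ∃ N, M.Stab A N ∧ Pr N ∧ ∀ N', M.Stab A N' → Pr N' → (∀ n, N n ≤ N' n) →
      ∃ n1, ∀ n, n1 ≤ n → N' n = N n := by
  obtain ⟨n0, hn0⟩ := hM
  have := Wd_noeth M n0 A hn0
  obtain ⟨P, ⟨N, hN, hPN, rfl⟩, hmax⟩ := (set_has_maximal_iff_noetherian (R := Sd M n0 A)
    (M := Wd M n0)).2 this {P | ∃ (N : ∀ n, Submodule k (M.V n)) (hN : M.Stab A N), Pr N ∧
      tld M n0 A N hN = P} ⟨_, N0, h0, hP, rfl⟩
  refine ⟨N, hN, hPN, fun N' hN' hPN' hle => ⟨n0, fun n hn => ?_⟩⟩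
  have h1 := hmax _ ⟨N', hN', hPN', rfl⟩
  have h2 := tld_le M n0 A N N' hN hN' hle
  have h3 : tld M n0 A N' hN' ≤ tld M n0 A N hN := by
    by_contra hcon
    exact h1 (lt_of_le_not_ge h2 hcon)
  exact le_antisymm (eq_of_tld_le M n0 A N' N hN' hN h3 n hn) (hle n)

/-- The family generated by `N` up to degree `c`. -/
noncomputable def Nm (M : Sys.{u, v, w} k ι) (A : Finset ι) (N : ∀ n, Submodule k (M.V n))
    (c : ℕ) : ∀ n, Submodule k (M.V n)
  | 0 => N 0
  | n + 1 => if n + 1 ≤ c then N (n + 1) else ⨆ a ∈ A, (Nm M A N c n).map (M.op a n)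

theorem Nm_eq (M : Sys.{u, v, w} k ι) (A : Finset ι) (N : ∀ n, Submodule k (M.V n))
    (c n : ℕ) (h : n ≤ c) : Nm M A N c n = N n := by
  cases n with
  | zero => rfl
  | succ n => exact if_pos h

theorem Nm_succ (M : Sys.{u, v, w} k ι) (A : Finset ι) (N : ∀ n, Submodule k (M.V n))
    (c n : ℕ) (h : c ≤ n) :
    Nm M A N c (n + 1) = ⨆ a ∈ A, (Nm M A N c n).map (M.op a n) :=
  if_neg (by omega)

theorem Nm_le (M : Sys.{u, v, w} k ι) (A : Finset ι) (N : ∀ n, Submodule k (M.V n))
    (hN : M.Stab A N) (c n : ℕ) : Nm M A N c n ≤ N n := by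
  induction n with
  | zero => exact le_rfl
  | succ n ih =>
    by_cases h : n + 1 ≤ c
    · rw [Nm_eq M A N c _ h]
    · rw [Nm_succ M A N c n (by omega)]
      refine iSup₂_le (fun a ha => ?_)
      rw [Submodule.map_le_iff_le_comap]
      intro v hv
      exact hN a ha n v (ih hv)

theorem Nm_stab (M : Sys.{u, v, w} k ι) (A : Finset ι) (N : ∀ n, Submodule k (M.V n))
    (hN : M.Stab A N) (c : ℕ) : M.Stab A (Nm M A N c) := by
  intro a ha n v hv
  by_cases h : n + 1 ≤ c
  · rw [Nm_eq M A N c _ h]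
    exact hN a ha n v (Nm_le M A N hN c n hv)
  · rw [Nm_succ M A N c n (by omega)]
    exact Submodule.mem_iSup_of_mem a (Submodule.mem_iSup_of_mem ha
      (Submodule.mem_map_of_mem hv))

theorem Nm_mono (M : Sys.{u, v, w} k ι) (A : Finset ι) (N : ∀ n, Submodule k (M.V n))
    (hN : M.Stab A N) (c d : ℕ) (hcd : c ≤ d) (n : ℕ) : Nm M A N c n ≤ Nm M A N d n := by
  induction n with
  | zero => exact le_rfl
  | succ n ih =>
    by_cases h : n + 1 ≤ d
    · rw [Nm_eq M A N d _ h]
      exact Nm_le M A N hN c _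
    · rw [Nm_succ M A N d n (by omega), Nm_succ M A N c n (by omega)]
      exact iSup₂_mono (fun a _ => Submodule.map_mono ih)

/-- Stable families in a finitely generated system are eventually generated. -/
theorem gen_of_stab (M : Sys.{u, v, w} k ι) (A : Finset ι) (hM : M.FG A)
    (N : ∀ n, Submodule k (M.V n)) (hN : M.Stab A N) : M.Gen A N := by
  obtain ⟨n0, hn0⟩ := hM
  have := Wd_noeth M n0 A hn0
  obtain ⟨m, hm⟩ := (monotone_stabilizes_iff_noetherian (R := Sd M n0 A) (M := Wd M n0)).2 this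
    ⟨fun c => tld M n0 A (Nm M A N c) (Nm_stab M A N hN c),
      fun c d hcd => tld_le M n0 A _ _ _ _ (Nm_mono M A N hN c d hcd)⟩
  have key : ∀ n, n0 ≤ n → Nm M A N m n = N n := by
    intro n hn
    refine le_antisymm (Nm_le M A N hN m n) ?_
    have h1 := hm (max m n) (le_max_left _ _)
    have h2 := eq_of_tld_le M n0 A (Nm M A N (max m n)) (Nm M A N m)
      (Nm_stab M A N hN _) (Nm_stab M A N hN _) (le_of_eq h1.symm) n hn
    rwa [Nm_eq M A N (max m n) n (le_max_right _ _)] at h2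
  refine ⟨max n0 m, fun n hn v hv => ?_⟩
  have hn1 : n0 ≤ n := le_trans (le_max_left _ _) hn
  have hn2 : m ≤ n := le_trans (le_max_right _ _) hn
  rw [← key (n + 1) (by omega), Nm_succ M A N m n hn2, key n hn1] at hv
  classical
  rw [Submodule.mem_iSup_finset_iff_exists_sum] at hv
  obtain ⟨μ, hμ⟩ := hv
  choose g hg1 hg2 using fun a => (μ a).2
  refine ⟨g, hg1, ?_⟩
  rw [← hμ]
  exact Finset.sum_congr rfl (fun a _ => (hg2 a).symm)

end H60.KZ.Sys
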